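import Mathlib

/-!
# Bessel's inequality with a variable right-hand side
-/

set_option autoImplicit false
set_option linter.unusedSectionVars false

namespace Pool.Agent.Helper29X1.WG

open Filter Topology

/-- **Bessel's inequality.** -/
theorem bessel_y {κ : Type} [Fintype κ] {z : κ → ℝ → ℝ} {y : ℝ → ℝ} {l : Filter ℝ} {Y : ℝ}
    (hy0 : ∀ᶠ ε in l, 0 ≤ y ε) (hy1 : ∀ᶠ ε in l, y ε ≤ Y) {g : κ → ℝ} (hg : ∀ k, 0 < g k)
    (hz : ∀ c : κ → ℝ, ∀ η : ℝ, 0 < η → ∀ᶠ ε in l,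
      (∑ k, c k * z k ε) ^ 2 ≤ y ε * (∑ k, c k ^ 2 * g k) + η) {η : ℝ} (hη : 0 < η) :
    ∀ᶠ ε in l, ∑ k, z k ε ^ 2 / g k ≤ y ε + η := by
  classical
  by_contra hcon
  rw [Filter.not_eventually] at hcon
  have hne : (l ⊓ 𝓟 {ε | ¬ ∑ k, z k ε ^ 2 / g k ≤ y ε + η}).NeBot :=
    Filter.frequently_iff_neBot.1 hcon
  set 𝒰 : Ultrafilter ℝ := Ultrafilter.of (l ⊓ 𝓟 {ε | ¬ ∑ k, z k ε ^ 2 / g k ≤ y ε + η}) with h𝒰
  have hle : (𝒰 : Filter ℝ) ≤ l ⊓ 𝓟 {ε | ¬ ∑ k, z k ε ^ 2 / g k ≤ y ε + η} := Ultrafilter.of_le _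
  have hl : (𝒰 : Filter ℝ) ≤ l := hle.trans inf_le_left
  have hPu : ∀ᶠ ε in (𝒰 : Filter ℝ), ¬ ∑ k, z k ε ^ 2 / g k ≤ y ε + η :=
    (hle.trans inf_le_right) (Filter.mem_principal_self _)
  have hY : 0 ≤ Y := by
    have h3 : ∀ᶠ ε in (𝒰 : Filter ℝ), 0 ≤ y ε ∧ y ε ≤ Y := hl (hy0.and hy1)
    obtain ⟨ε, h1, h2⟩ := h3.exists
    exact h1.trans h2
  -- the limit of `y`
  obtain ⟨υ, hυm, hυ⟩ := (isCompact_Icc (a := (0 : ℝ)) (b := Y)).ultrafilter_le_nhds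
    (𝒰.map y) (by
      rw [Filter.le_principal_iff]
      exact hl (hy0.and hy1))
  have hυlim : Tendsto y (𝒰 : Filter ℝ) (𝓝 υ) := hυ
  set B : κ → ℝ := fun k => Real.sqrt (Y * g k + 1) with hB
  have hsingle : ∀ k, ∀ᶠ ε in (𝒰 : Filter ℝ), |z k ε| ≤ B k := by
    intro k
    filter_upwards [hl (hz (Pi.single k 1) 1 one_pos), hl hy1] with ε h2 h3
    have e1 : ∑ j, (Pi.single k (1 : ℝ) : κ → ℝ) j * z j ε = z k ε := by
      rw [Finset.sum_eq_single k]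
      · rw [Pi.single_eq_same, one_mul]
      · intro j _ hj
        rw [Pi.single_eq_of_ne hj, zero_mul]
      · intro h; exact absurd (Finset.mem_univ k) h
    have e2 : ∑ j, (Pi.single k (1 : ℝ) : κ → ℝ) j ^ 2 * g j = g k := by
      rw [Finset.sum_eq_single k]
      · rw [Pi.single_eq_same]; ring
      · intro j _ hj
        rw [Pi.single_eq_of_ne hj]; ring
      · intro h; exact absurd (Finset.mem_univ k) h
    rw [e1, e2] at h2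
    apply Real.abs_le_sqrt
    have := mul_le_mul_of_nonneg_right h3 (hg k).le
    linarith
  have hbd : ∀ᶠ ε in (𝒰 : Filter ℝ), (fun k => z k ε) ∈ Set.pi Set.univ
      (fun k => Set.Icc (-(B k)) (B k)) := by
    have h1 : ∀ᶠ ε in (𝒰 : Filter ℝ), ∀ k, |z k ε| ≤ B k := Filter.eventually_all.2 hsingle
    filter_upwards [h1] with ε h2 k _
    exact ⟨(abs_le.1 (h2 k)).1, (abs_le.1 (h2 k)).2⟩
  obtain ⟨ζ, -, hζ⟩ := (isCompact_univ_pi fun k => isCompact_Icc (a := -(B k))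
    (b := B k)).ultrafilter_le_nhds (𝒰.map fun ε k => z k ε) (by
      rw [Filter.le_principal_iff]
      exact hbd)
  have hlim : Tendsto (fun ε => (fun k => z k ε)) (𝒰 : Filter ℝ) (𝓝 ζ) := hζ
  have hζc : ∀ c : κ → ℝ, (∑ k, c k * ζ k) ^ 2 ≤ υ * (∑ k, c k ^ 2 * g k) := by
    intro c
    refine le_of_forall_pos_le_add fun η' hη' => ?_
    have h4 : Tendsto (fun ε => (∑ k, c k * z k ε) ^ 2) (𝒰 : Filter ℝ)
        (𝓝 ((∑ k, c k * ζ k) ^ 2)) := by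
      have h5 : Continuous fun x : κ → ℝ => (∑ k, c k * x k) ^ 2 := by fun_prop
      exact (h5.tendsto ζ).comp hlim
    exact le_of_tendsto_of_tendsto h4 ((hυlim.mul_const _).add_const η') (hl (hz c η' hη'))
  have h5 : Tendsto (fun ε => ∑ k, z k ε ^ 2 / g k) (𝒰 : Filter ℝ) (𝓝 (∑ k, ζ k ^ 2 / g k)) := by
    have h6 : Continuous fun x : κ → ℝ => ∑ k, x k ^ 2 / g k := by fun_prop
    exact (h6.tendsto ζ).comp hlim
  have h6 : υ + η ≤ ∑ k, ζ k ^ 2 / g k :=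
    le_of_tendsto_of_tendsto (hυlim.add_const η) h5 (hPu.mono fun ε h => (not_le.1 h).le)
  have h7 := hζc fun k => ζ k / g k
  have e3 : ∑ k, ζ k / g k * ζ k = ∑ k, ζ k ^ 2 / g k := by
    refine Finset.sum_congr rfl fun k _ => ?_
    ring
  have e4 : ∑ k, (ζ k / g k) ^ 2 * g k = ∑ k, ζ k ^ 2 / g k := by
    refine Finset.sum_congr rfl fun k _ => ?_
    have := (hg k).ne'
    field_simp
  rw [e3, e4] at h7
  have h8 : 0 ≤ υ := hυm.1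
  nlinarith

/-- from the sizes to the orders -/
theorem bessel_order {κ : Type} [Fintype κ] {z : κ → ℝ → ℝ} {y : ℝ → ℝ} {g : κ → ℝ}
    (h : ∀ η : ℝ, 0 < η → ∀ᶠ ε in 𝓝[>] (0 : ℝ), ∑ k, z k ε ^ 2 / g k ≤ y ε + η) {m : κ → ℝ}
    (hm : ∀ k, Tendsto (z k) (𝓝[>] 0) (𝓝 (m k))) {η : ℝ} (hη : 0 < η) :
    ∀ᶠ ε in 𝓝[>] (0 : ℝ), ∑ k, m k ^ 2 / g k ≤ y ε + η := by
  have h1 : Tendsto (fun ε => ∑ k, z k ε ^ 2 / g k) (𝓝[>] 0) (𝓝 (∑ k, m k ^ 2 / g k)) :=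
    tendsto_finsetSum _ fun k _ => ((hm k).pow 2).div_const _
  filter_upwards [h (η / 2) (half_pos hη),
    h1.eventually_const_lt (by linarith : ∑ k, m k ^ 2 / g k - η / 2 < ∑ k, m k ^ 2 / g k)]
    with ε h2 h3
  linarith

/-- integers -/
theorem sum_abs_le_one {κ : Type} [Fintype κ] {m : κ → ℤ} (h1 : ∀ k, |m k| ≤ 1)
    (h2 : ∀ k l, k ≠ l → |m k| + |m l| ≤ 1) : ∑ k, |m k| ≤ 1 := by
  classical
  by_cases h : ∃ k, m k ≠ 0
  · obtain ⟨k, hk⟩ := h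
    have h3 : ∀ l, l ≠ k → |m l| = 0 := by
      intro l hl
      have h4 := h2 k l hl.symm
      have h5 : 1 ≤ |m k| := Int.one_le_abs hk
      have h6 := abs_nonneg (m l)
      omega
    rw [Finset.sum_eq_single k (fun l _ hl => h3 l hl) (fun h => absurd (Finset.mem_univ k) h)]
    exact h1 k
  · push Not at h
    simp [h]

end Pool.Agent.Helper29X1.WG
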