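import Pool.Agent.Helper29X1.WG.PairZ

/-!
# Blocks: L-functions of `H' ⊗ ρ ⊗ σ^∨` on the whole edge line
-/

set_option autoImplicit false
set_option linter.unusedSectionVars false

namespace Pool.Agent.Helper29X1.WG

open NumberField Complex Filter Topology IsDedekindDomain Asymptotics Polynomial
open Pool.Agent.W353.EF (LFun size IsFrobenius)
open Pool.Agent.W353.PV (Eig alp pick pick_spec tF)
open Pool.Agent.W353.TP (HX sysH LL LL_tendsto bdd_isLittleO lamS_sub push res)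
open Pool.Agent.W353.NF (vx)
open Pool.Agent.W540.BE (nm two_le_nm trv)
open Pool.Agent.Y149.Ord (HasOrder tendsto_size)
open Pool.Agent.N172.HS
open scoped ComplexConjugate

section

variable {K : Type} [Field K] [NumberField K]

/-- The Euler factors of `L(H' ⊗ ρ ⊗ σ^∨, s)`, where `H^i(X) = θ(-i/2) ⊕ H'` and `dim H' = N'` (for
`θ = 0` and `N'` the Betti number, `H' = H^i(X)`): at almost all primes `v` the polynomial `B v` is
`∏ (1 - β_j γ_l conj(δ_m) z)` with numbers `β_j`, `j < N'`, of absolute value `q_v^{i/2}`, whose sum is the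
trace of the geometric Frobenius on `H^i(X)` minus `q_v^{i/2} tr θ`, `tr θ` real, and numbers `γ_l`,
`δ_m` of absolute value one with the sums `tr ρ` and `tr σ`; at the other primes `B v` is an arbitrary
polynomial without zeros on the circle `|z| = q_v^{-i/2-1}`. -/
def IsPairLine (X : Variety K) (i : ℕ) (θ : WRep K) (N' : ℕ) (ρ σ : WRep K)
    (B : HeightOneSpectrum (𝓞 K) → ℂ[X]) : Prop :=
  (∃ M M' : ℕ, ∀ᶠ v in cofinite, ∃ (α : Fin (X.betti i) → ℂ) (β : Fin N' → ℂ)
    (γ : Fin M → ℂ) (δ : Fin M' → ℂ),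
    IsFrobenius X.eqs X.dim i v α ∧ (θ.trace v).im = 0 ∧
    (∀ j, ‖β j‖ = (Ideal.absNorm v.asIdeal : ℝ) ^ ((i : ℝ) / 2)) ∧
    ∑ j, α j = (Ideal.absNorm v.asIdeal : ℂ) ^ ((i : ℂ) / 2) * θ.trace v + ∑ j, β j ∧
    (∀ l, ‖γ l‖ = 1) ∧ (∀ m, ‖δ m‖ = 1) ∧ ∑ l, γ l = ρ.trace v ∧ ∑ m, δ m = σ.trace v ∧
    ∀ z : ℂ, (B v).eval z = ∏ j, ∏ l, ∏ m, (1 - β j * γ l * conj (δ m) * z)) ∧
  ∀ (v : HeightOneSpectrum (𝓞 K)) (τ : ℝ),
    (B v).eval ((Ideal.absNorm v.asIdeal : ℂ) ^ (-((i : ℂ) / 2 + 1 + τ * I))) ≠ 0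

theorem IsPairLine.isPart {X : Variety K} {i : ℕ} {θ : WRep K} {N' : ℕ} {ρ σ : WRep K}
    {B : HeightOneSpectrum (𝓞 K) → ℂ[X]} (hB : IsPairLine X i θ N' ρ σ B) :
    IsPart X i θ N' := by
  obtain ⟨⟨M, M', hM⟩, -⟩ := hB
  filter_upwards [hM] with v hv
  obtain ⟨α, β, γ, δ, h1, h2, h3, h4, -⟩ := hv
  exact ⟨h2, α, β, h1, h3, h4⟩

/-- **The sizes of the L-functions of pairs on the line.** -/
theorem pairline_size {X : Variety K} {i : ℕ} (hi : i ≤ 2 * X.dim) {θ : WRep K} {N' : ℕ}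
    {ρ σ : WRep K} {B : HeightOneSpectrum (𝓞 K) → ℂ[X]} (hB : IsPairLine X i θ N' ρ σ B) (τ : ℝ) :
    (∀ᶠ ε : ℝ in 𝓝[>] 0, LFun (shift τ B) ((i : ℂ) / 2 + 1 + ε) ≠ 0) ∧
    (fun ε => size i (shift τ B) ε * LL ε -
      EH K ε (fun x => cut X i θ N' x * ((tw ρ τ).tH x * conj (σ.tH x)).re)) =o[𝓝[>] 0] LL := by
  have hθ := hB.isPart
  obtain ⟨⟨M, M', hM⟩, hB0⟩ := hB
  have hbd : ∀ x : HX K, |((tw ρ τ).tH x * conj (σ.tH x)).re| ≤ (tw ρ τ).bd * σ.bd := fun x => by
    refine (Complex.abs_re_le_norm _).trans ?_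
    rw [norm_mul, Complex.norm_conj]
    exact mul_le_mul ((tw ρ τ).norm_tH_le x) (σ.norm_tH_le x) (norm_nonneg _) (tw ρ τ).bd_nonneg
  have hθb : ∀ x : HX K, |(θ.tH x).re| ≤ θ.bd := fun x =>
    (Complex.abs_re_le_norm _).trans (θ.norm_tH_le x)
  have h := size_H (K := K) (ι := Fin N' × Fin M × Fin M') (i := i) (shift τ B)
    (fun v => (TV X i v - (θ.trace v).re) * ((tw ρ τ).trace v * conj (σ.trace v)).re) (by
      filter_upwards [hM] with v hv
      obtain ⟨α, β, γ, δ, h1, hθ0, h2, h3, h4, h5, h6, h7, h8⟩ := hv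
      have hq0 : 0 < Ideal.absNorm v.asIdeal := by
        have := two_le_nm v
        have e : nm K v = Ideal.absNorm v.asIdeal := rfl
        omega
      refine ⟨fun l => β l.1 * (γ l.2.1 * (Ideal.absNorm v.asIdeal : ℂ) ^ (-(τ * I : ℂ))) *
        conj (δ l.2.2), fun l => ?_, ?_, fun z => ?_⟩
      · rw [norm_mul, norm_mul, norm_mul, h4, Complex.norm_conj, h5, norm_N, mul_one, mul_one,
          mul_one]
        exact h2 l.1
      · have e1 := TV_eq X hi h1
        have e2 : ∑ l : Fin N' × Fin M × Fin M',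
            β l.1 * (γ l.2.1 * (Ideal.absNorm v.asIdeal : ℂ) ^ (-(τ * I : ℂ))) * conj (δ l.2.2) =
            (∑ j, β j) * ((tw ρ τ).trace v * conj (σ.trace v)) := by
          have e0 : (tw ρ τ).trace v =
              ∑ l, γ l * (Ideal.absNorm v.asIdeal : ℂ) ^ (-(τ * I : ℂ)) := by
            rw [tw_trace, ← h6, Finset.sum_mul]
          rw [e0, ← h7, map_sum,
            Finset.sum_mul_sum Finset.univ Finset.univ
              (fun l => γ l * (Ideal.absNorm v.asIdeal : ℂ) ^ (-(τ * I : ℂ))),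
            Finset.sum_mul_sum, Fintype.sum_prod_type]
          refine Finset.sum_congr rfl fun j _ => ?_
          rw [Fintype.sum_prod_type]
          refine Finset.sum_congr rfl fun l _ => ?_
          rw [Finset.mul_sum]
          refine Finset.sum_congr rfl fun m _ => ?_
          ring
        have hqc : ((nm K v : ℕ) : ℂ) ≠ 0 := by
          have := two_le_nm v
          exact_mod_cast (by omega : nm K v ≠ 0)
        have e3 : ((TV X i v - (θ.trace v).re : ℝ) : ℂ) =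
            (∑ j, β j) * ((nm K v : ℕ) : ℂ) ^ (-((i : ℂ) / 2)) := by
          have e4 : ((θ.trace v).re : ℂ) = θ.trace v := by
            apply Complex.ext
            · exact Complex.ofReal_re _
            · rw [Complex.ofReal_im, hθ0]
          have e5 : ((Ideal.absNorm v.asIdeal : ℕ) : ℂ) = ((nm K v : ℕ) : ℂ) := rfl
          rw [h3, e5, add_mul, mul_right_comm, ← Complex.cpow_add _ _ hqc, add_neg_cancel,
            Complex.cpow_zero, one_mul] at e1
          rw [Complex.ofReal_sub, e1, e4]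
          ring
        rw [e2, mul_right_comm, ← e3, Complex.re_ofReal_mul]
      · rw [shift_eval, h8, Fintype.prod_prod_type]
        refine Finset.prod_congr rfl fun j _ => ?_
        rw [Fintype.prod_prod_type]
        refine Finset.prod_congr rfl fun l _ => Finset.prod_congr rfl fun m _ => ?_
        ring)
    (fun v => by
      rw [shift_eval]
      have e : ((Ideal.absNorm v.asIdeal : ℕ) : ℂ) = ((nm K v : ℕ) : ℂ) := rfl
      have h9 := hB0 v τ
      have hqc : ((nm K v : ℕ) : ℂ) ≠ 0 := by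
        have := two_le_nm v
        exact_mod_cast (by omega : nm K v ≠ 0)
      rw [e] at h9 ⊢
      rw [← Complex.cpow_add _ _ hqc]
      have e2 : (-(τ * I : ℂ)) + (-((i : ℂ) / 2 + 1)) = -((i : ℂ) / 2 + 1 + τ * I) := by ring
      rw [e2]
      exact h9)
    (D := (X.betti i + θ.bd) * ((tw ρ τ).bd * σ.bd)) (fun x => by
      rw [abs_mul, (tw ρ τ).trace_vx, σ.trace_vx, θ.trace_vx]
      exact mul_le_mul ((abs_sub _ _).trans (add_le_add (abs_TV X i _) (hθb x))) (hbd x)
        (abs_nonneg _) (add_nonneg (Nat.cast_nonneg _) θ.bd_nonneg))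
  refine ⟨h.1, ?_⟩
  have h2 := h.2
  simp only [WRep.trace_vx] at h2
  have h3 := EH_congr (K := K)
    (φ := fun x => (TV X i (vx x) - (θ.tH x).re) * ((tw ρ τ).tH x * conj (σ.tH x)).re)
    (φ' := fun x => cut X i θ N' x * ((tw ρ τ).tH x * conj (σ.tH x)).re) (by
      filter_upwards [cut_eq hi hθ] with x hx
      rw [hx.2])
    (B := (X.betti i + θ.bd) * ((tw ρ τ).bd * σ.bd)) (B' := N' * ((tw ρ τ).bd * σ.bd))
    (fun x => by
      rw [abs_mul]
      exact mul_le_mul ((abs_sub _ _).trans (add_le_add (abs_TV X i _) (hθb x))) (hbd x)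
        (abs_nonneg _) (add_nonneg (Nat.cast_nonneg _) θ.bd_nonneg))
    (fun x => by
      rw [abs_mul]
      exact mul_le_mul (abs_cut X i θ N' x) (hbd x) (abs_nonneg _) (Nat.cast_nonneg _))
  refine (h2.add h3).congr_left fun ε => ?_
  ring

theorem tw_tw' (ρ σ : WRep K) (g l : ℝ) (x : HX K) :
    (tw ρ g).tH x * conj ((tw σ l).tH x) = (tw ρ (g - l)).tH x * conj (σ.tH x) := by
  rw [tw_tH σ l, map_mul]
  have := tw_conj ρ g l x
  calc (tw ρ g).tH x * (conj (σ.tH x) * conj ((HC.N K l).val x)) =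
      ((tw ρ g).tH x * conj ((HC.N K l).val x)) * conj (σ.tH x) := by ring
    _ = _ := by rw [this]

theorem inner_tw' (ρ σ : WRep K) (g l : ℝ) :
    (tw ρ g).inner (tw σ l) = (tw ρ (g - l)).inner σ := by
  have hQ : StNvq := Pool.Agent.N134.HS.t_nvq
  have h1 : HasGram (tw ρ g).tH (tw σ l).tH ((tw ρ g).inner (tw σ l)) := WRep.gram hQ _ _
  have h2 : HasGram (tw ρ (g - l)).tH σ.tH ((tw ρ (g - l)).inner σ) := WRep.gram hQ _ _
  have h3 : HasGram (tw ρ g).tH (tw σ l).tH ((tw ρ (g - l)).inner σ) := by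
    unfold HasGram at h2 ⊢
    simp only [tw_tw']
    exact h2
  exact_mod_cast h1.unique h3

/-- The representations are irreducible, and none is isomorphic to a twist by `N^{-iτ}` of another. -/
def Inequivalent {κ : Type} (ρ : κ → WRep K) : Prop :=
  (∀ k, (ρ k).IsIrr) ∧ ∀ k k', k ≠ k' → ∀ τ : ℝ, (tw (ρ k) τ).inner (ρ k') = 0

open Classical in
theorem blk_gram {κ : Type} {ρ : κ → WRep K} (h : Inequivalent ρ) (p q : κ × ℝ) :
    HasGram (tw (ρ p.1) p.2).tH (tw (ρ q.1) q.2).tH (if p = q then 1 else 0) := by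
  have h1 : HasGram (tw (ρ p.1) p.2).tH (tw (ρ q.1) q.2).tH
      ((tw (ρ p.1) p.2).inner (tw (ρ q.1) q.2)) := WRep.gram Pool.Agent.N134.HS.t_nvq _ _
  have e : (tw (ρ p.1) p.2).inner (tw (ρ q.1) q.2) = if p = q then 1 else 0 := by
    rw [inner_tw']
    by_cases hk : p.1 = q.1
    · by_cases hg : p.2 = q.2
      · rw [if_pos (Prod.ext hk hg), hg, sub_self, inner_tw_zero, hk]
        exact h.1 q.1
      · rw [if_neg (fun hpq => hg (congrArg Prod.snd hpq)), hk]
        exact inner_tw_irr (h.1 q.1) (sub_ne_zero.2 hg)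
    · rw [if_neg (fun hpq => hk (congrArg Prod.fst hpq))]
      exact h.2 _ _ hk _
  rw [e] at h1
  split_ifs at h1 ⊢ <;> simpa using h1

end

end Pool.Agent.Helper29X1.WG
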