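import Mathlib

/-!
# Følner sets and functions on the line of heights
-/

set_option autoImplicit false

namespace Pool.Agent.Helper29X1.WG

open Finset

/-- **Følner sets.** -/
theorem exists_folner (S : Finset ℝ) {δ : ℝ} (hδ : 0 < δ) :
    ∃ F : Finset ℝ, F.Nonempty ∧ ∀ τ ∈ S,
      (F.card : ℝ) ≤ (1 + δ) * ((F.filter fun h => h + τ ∈ F).card : ℝ) := by
  classical
  set box : ℕ → Finset ((τ : ℝ) → τ ∈ S → ℕ) := fun n => S.pi fun _ => Finset.range (n + 1)
    with hbox
  set val : ((τ : ℝ) → τ ∈ S → ℕ) → ℝ := fun k => ∑ τ ∈ S.attach, (k τ.1 τ.2 : ℝ) * τ.1 with hval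
  set G : ℕ → Finset ℝ := fun n => (box n).image val with hG
  have hcard : ∀ n, (G n).card ≤ (n + 1) ^ S.card := by
    intro n
    refine Finset.card_image_le.trans ?_
    rw [hbox, Finset.card_pi]
    simp
  have hmono : ∀ n, G n ⊆ G (n + 1) := by
    intro n
    refine Finset.image_subset_image fun k hk => ?_
    rw [hbox, Finset.mem_pi] at hk ⊢
    intro τ hτ
    have := Finset.mem_range.1 (hk τ hτ)
    exact Finset.mem_range.2 (by omega)
  have hne : ∀ n, (G n).Nonempty := by
    intro n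
    refine Finset.Nonempty.image ⟨fun _ _ => 0, ?_⟩ _
    rw [hbox, Finset.mem_pi]
    intro τ hτ
    exact Finset.mem_range.2 (by omega)
  have hshift : ∀ n, ∀ τ ∈ S, ∀ h ∈ G n, h + τ ∈ G (n + 1) := by
    intro n τ hτ h hh
    obtain ⟨k, hk, rfl⟩ := Finset.mem_image.1 hh
    refine Finset.mem_image.2 ⟨fun σ hσ => k σ hσ + if σ = τ then 1 else 0, ?_, ?_⟩
    · rw [hbox, Finset.mem_pi] at hk ⊢
      intro σ hσ
      have := Finset.mem_range.1 (hk σ hσ)
      refine Finset.mem_range.2 ?_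
      split_ifs <;> omega
    · rw [hval]
      simp only
      have e1 : ∀ σ : {x // x ∈ S}, (((k σ.1 σ.2 + if σ.1 = τ then 1 else 0 : ℕ) : ℝ)) * σ.1 =
          (k σ.1 σ.2 : ℝ) * σ.1 + if σ = ⟨τ, hτ⟩ then τ else 0 := by
        intro σ
        by_cases h : σ.1 = τ
        · have h' : σ = ⟨τ, hτ⟩ := Subtype.ext h
          rw [if_pos h, if_pos h']
          push_cast
          rw [add_mul, one_mul, add_right_inj]
          exact h
        · have h' : σ ≠ ⟨τ, hτ⟩ := fun h'' => h (congrArg Subtype.val h'')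
          rw [if_neg h, if_neg h']
          push_cast
          ring
      rw [Finset.sum_congr rfl fun σ _ => e1 σ, Finset.sum_add_distrib, Finset.sum_ite_eq']
      simp
  -- growth
  have hgrow : ∃ n, ((G (n + 1)).card : ℝ) ≤ (1 + δ) * (G n).card := by
    by_contra hcon
    push Not at hcon
    have h1 : ∀ n, (1 + δ) ^ n ≤ ((G n).card : ℝ) := by
      intro n
      induction n with
      | zero =>
        rw [pow_zero]
        exact_mod_cast (hne 0).card_pos
      | succ n ih =>
        rw [pow_succ]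
        have := hcon n
        nlinarith
    have h2 : ∀ n : ℕ, (1 + δ) ^ n ≤ ((n : ℝ) + 1) ^ S.card := by
      intro n
      refine (h1 n).trans ?_
      exact_mod_cast hcard n
    -- exponential growth beats polynomial growth
    have h3 : Filter.Tendsto (fun n : ℕ => ((n : ℝ) + 1) ^ S.card / (1 + δ) ^ (n + 1))
        Filter.atTop (nhds 0) := by
      have h4 := tendsto_pow_const_div_const_pow_of_one_lt S.card (show (1 : ℝ) < 1 + δ by linarith)
      have h5 := h4.comp (Filter.tendsto_add_atTop_nat 1)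
      refine h5.congr fun n => ?_
      simp
    have h4 := h3.eventually_lt_const (show (0 : ℝ) < 1 / (1 + δ) by positivity)
    obtain ⟨n, hn⟩ := h4.exists
    have hp : (0 : ℝ) < (1 + δ) ^ (n + 1) := by positivity
    rw [div_lt_iff₀ hp, pow_succ, one_div, mul_comm ((1 + δ) ^ n), inv_mul_cancel_left₀
      (by positivity)] at hn
    exact absurd (h2 n) (not_le.2 hn)
  obtain ⟨n, hn⟩ := hgrow
  refine ⟨G (n + 1), hne _, fun τ hτ => hn.trans (mul_le_mul_of_nonneg_left ?_ (by linarith))⟩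
  refine Nat.cast_le.2 (Finset.card_le_card fun h hh => ?_)
  rw [Finset.mem_filter]
  exact ⟨hmono n hh, hshift n τ hτ h hh⟩

/-- the bilinear inequality gives a bound for the sum of the squares -/
theorem sq_sum_le {m : ℝ → ℝ} {C : ℝ} (hC : 0 ≤ C)
    (h : ∀ (F : Finset ℝ) (a b a' b' : ℝ → ℝ),
      ∑ g ∈ F, ∑ l ∈ F, (a g * b l + a' g * b' l) * m (g - l) ≤
        C * ((∑ g ∈ F, (a g ^ 2 + b g ^ 2 + a' g ^ 2 + b' g ^ 2)) / 2)) (S : Finset ℝ) :
    ∑ τ ∈ S, m τ ^ 2 ≤ C ^ 2 := by
  classical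
  set F : Finset ℝ := insert 0 S with hF
  set u : ℝ := ∑ τ ∈ S, m τ ^ 2 with hu
  have hu0 : 0 ≤ u := Finset.sum_nonneg fun τ _ => sq_nonneg _
  set r : ℝ := Real.sqrt u with hr
  have hr2 : r ^ 2 = u := Real.sq_sqrt hu0
  have hr0 : 0 ≤ r := Real.sqrt_nonneg _
  have h1 := h F (fun g => if g ∈ S then m g else 0) (fun l => if l = 0 then r else 0)
    (fun _ => 0) (fun _ => 0)
  have e1 : ∀ g ∈ F, ∑ l ∈ F, ((if g ∈ S then m g else 0) * (if l = 0 then r else 0) +
      (0 : ℝ) * 0) * m (g - l) = if g ∈ S then r * m g ^ 2 else 0 := by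
    intro g _
    rw [Finset.sum_eq_single 0]
    · rw [if_pos rfl, sub_zero]
      split_ifs <;> ring
    · intro l _ hl
      rw [if_neg hl]
      ring
    · intro h0
      exact absurd (Finset.mem_insert_self 0 S) h0
  rw [Finset.sum_congr rfl e1] at h1
  have e2 : ∑ g ∈ F, (if g ∈ S then r * m g ^ 2 else 0) = r * u := by
    rw [← Finset.sum_filter, hu, Finset.mul_sum]
    refine Finset.sum_congr ?_ fun _ _ => rfl
    ext g
    rw [Finset.mem_filter, hF, Finset.mem_insert]
    tauto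
  have e3 : ∑ g ∈ F, ((if g ∈ S then m g else 0) ^ 2 + (if g = 0 then r else 0) ^ 2 +
      (0 : ℝ) ^ 2 + (0 : ℝ) ^ 2) = 2 * u := by
    have e4 : ∀ g : ℝ, ((if g ∈ S then m g else 0) ^ 2 + (if g = 0 then r else 0) ^ 2 +
      (0 : ℝ) ^ 2 + (0 : ℝ) ^ 2) = (if g ∈ S then m g ^ 2 else 0) + (if g = 0 then u else 0) := by
      intro g
      split_ifs <;> simp [hr2]
    rw [Finset.sum_congr rfl fun g _ => e4 g, Finset.sum_add_distrib, Finset.sum_ite_eq',
      if_pos (Finset.mem_insert_self 0 S), ← Finset.sum_filter]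
    have e5 : F.filter (fun g => g ∈ S) = S := by
      ext g
      rw [Finset.mem_filter, hF, Finset.mem_insert]
      tauto
    rw [e5]
    ring
  rw [e2, e3] at h1
  have h2 : r * r ^ 2 ≤ C * r ^ 2 := by
    rw [hr2]
    linarith
  rcases eq_or_lt_of_le hr0 with h3 | h3
  · rw [← hr2, ← h3]
    nlinarith [sq_nonneg C]
  · have h4 : r ≤ C := le_of_mul_le_mul_right h2 (by positivity)
    rw [← hr2]
    exact pow_le_pow_left₀ hr0 h4 2

/-- **The Fourier transform is bounded.** -/
theorem fourier_le {m : ℝ → ℝ} {C : ℝ}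
    (h : ∀ (F : Finset ℝ) (a b a' b' : ℝ → ℝ),
      ∑ g ∈ F, ∑ l ∈ F, (a g * b l + a' g * b' l) * m (g - l) ≤
        C * ((∑ g ∈ F, (a g ^ 2 + b g ^ 2 + a' g ^ 2 + b' g ^ 2)) / 2)) (S : Finset ℝ)
    (hS : ∀ τ ∉ S, m τ = 0) (x φ : ℝ) :
    ∑ τ ∈ S, m τ * Real.cos (τ * x + φ) ≤ C := by
  classical
  refine le_of_forall_pos_le_add fun η hη => ?_
  set A : ℝ := ∑ τ ∈ S, |m τ| with hA
  have hA0 : 0 ≤ A := Finset.sum_nonneg fun _ _ => abs_nonneg _
  set δ : ℝ := η / (A + 1) with hδ
  have hδ0 : 0 < δ := by positivity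
  obtain ⟨F, hF1, hF2⟩ := exists_folner S hδ0
  have hFc : (0 : ℝ) < F.card := by exact_mod_cast hF1.card_pos
  have h1 := h F (fun g => Real.cos (g * x + φ)) (fun l => Real.cos (l * x))
    (fun g => Real.sin (g * x + φ)) (fun l => Real.sin (l * x))
  have e1 : ∀ g l : ℝ, (Real.cos (g * x + φ) * Real.cos (l * x) +
      Real.sin (g * x + φ) * Real.sin (l * x)) * m (g - l) =
      m (g - l) * Real.cos ((g - l) * x + φ) := by
    intro g l
    have : (g - l) * x + φ = (g * x + φ) - l * x := by ring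
    rw [this, Real.cos_sub]
    ring
  have e2 : ∀ g : ℝ, Real.cos (g * x + φ) ^ 2 + Real.cos (g * x) ^ 2 + Real.sin (g * x + φ) ^ 2 +
      Real.sin (g * x) ^ 2 = 2 := by
    intro g
    have h1 := Real.sin_sq_add_cos_sq (g * x + φ)
    have h2 := Real.sin_sq_add_cos_sq (g * x)
    linarith
  simp only [e1, e2] at h1
  rw [Finset.sum_const, nsmul_eq_mul] at h1
  -- the sum over the differences
  have e3 : ∑ g ∈ F, ∑ l ∈ F, m (g - l) * Real.cos ((g - l) * x + φ) =
      ∑ τ ∈ S, (m τ * Real.cos (τ * x + φ)) * ((F.filter fun h => h + τ ∈ F).card : ℝ) := by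
    have e4 : ∀ g l : ℝ, m (g - l) * Real.cos ((g - l) * x + φ) =
        ∑ τ ∈ S, if g = l + τ then m τ * Real.cos (τ * x + φ) else 0 := by
      intro g l
      by_cases hgl : g - l ∈ S
      · rw [Finset.sum_eq_single (g - l)]
        · rw [if_pos (by ring)]
        · intro τ _ hτ
          rw [if_neg]
          intro h2
          exact hτ (by rw [h2]; ring)
        · intro h2; exact absurd hgl h2
      · rw [hS _ hgl, zero_mul]
        symm
        refine Finset.sum_eq_zero fun τ hτ => ?_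
        rw [if_neg]
        intro h2
        apply hgl
        rw [h2]
        have : l + τ - l = τ := by ring
        rwa [this]
    simp only [e4]
    have e5 : ∑ g ∈ F, ∑ l ∈ F, ∑ τ ∈ S, (if g = l + τ then m τ * Real.cos (τ * x + φ) else 0) =
        ∑ τ ∈ S, ∑ l ∈ F, ∑ g ∈ F, (if g = l + τ then m τ * Real.cos (τ * x + φ) else 0) := by
      rw [Finset.sum_comm]
      rw [Finset.sum_congr rfl fun l _ => Finset.sum_comm]
      rw [Finset.sum_comm]
    rw [e5]
    refine Finset.sum_congr rfl fun τ _ => ?_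
    have e6 : ∀ l ∈ F, ∑ g ∈ F, (if g = l + τ then m τ * Real.cos (τ * x + φ) else 0) =
        if l + τ ∈ F then m τ * Real.cos (τ * x + φ) else 0 := by
      intro l _
      rw [Finset.sum_ite_eq']
    rw [Finset.sum_congr rfl e6, ← Finset.sum_filter, Finset.sum_const, nsmul_eq_mul]
    ring
  rw [e3] at h1
  -- compare with the full sum
  have h2 : ∀ τ ∈ S, (m τ * Real.cos (τ * x + φ)) * (F.card : ℝ) ≤
      (m τ * Real.cos (τ * x + φ)) * ((F.filter fun h => h + τ ∈ F).card : ℝ) +
        |m τ| * (δ * F.card) := by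
    intro τ hτ
    set c : ℝ := ((F.filter fun h => h + τ ∈ F).card : ℝ) with hc
    have hc1 : c ≤ F.card := by
      rw [hc]
      exact_mod_cast Finset.card_filter_le _ _
    have hc2 := hF2 τ hτ
    have hc3 : (F.card : ℝ) - c ≤ δ * F.card := by
      have : δ * c ≤ δ * F.card := mul_le_mul_of_nonneg_left hc1 hδ0.le
      linarith
    have h3 : |m τ * Real.cos (τ * x + φ)| ≤ |m τ| := by
      rw [abs_mul]
      exact mul_le_of_le_one_right (abs_nonneg _) (Real.abs_cos_le_one _)
    have h4 : (m τ * Real.cos (τ * x + φ)) * ((F.card : ℝ) - c) ≤ |m τ| * (δ * F.card) := by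
      refine (le_abs_self _).trans ?_
      rw [abs_mul, abs_of_nonneg (sub_nonneg.2 hc1)]
      exact mul_le_mul h3 hc3 (sub_nonneg.2 hc1) (abs_nonneg _)
    linarith
  have h3 := Finset.sum_le_sum h2
  rw [← Finset.sum_mul, Finset.sum_add_distrib, ← Finset.sum_mul, ← hA] at h3
  have h4 : (∑ τ ∈ S, m τ * Real.cos (τ * x + φ)) * F.card ≤ (C + η) * F.card := by
    have h5 : A * (δ * F.card) ≤ η * F.card := by
      have : A * δ ≤ η := by
        rw [hδ, mul_div_assoc', div_le_iff₀ (by linarith)]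
        nlinarith
      calc A * (δ * F.card) = A * δ * F.card := by ring
        _ ≤ η * F.card := mul_le_mul_of_nonneg_right this hFc.le
    linarith
  exact le_of_mul_le_mul_right h4 hFc

end Pool.Agent.Helper29X1.WG
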