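import Pool.Agent.Helper29X1.WG.BlkM
import Pool.Agent.Helper29X1.WG.Folner

/-!
# Blocks: from the block Toeplitz inequality to the symbol
-/

set_option autoImplicit false
set_option linter.unusedSectionVars false

namespace Pool.Agent.Helper29X1.WG

open Complex Filter Topology
open scoped ComplexConjugate

section

variable {κ μ : Type} [Fintype κ] [Fintype μ]

/-- the rows -/
theorem blk_row {m : κ → μ → ℝ → ℤ} {C : ℝ} (hC : 0 ≤ C)
    (H : ∀ (F : Finset ℝ) (a : κ → ℝ → ℂ) (b : μ → ℝ → ℂ),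
      ‖∑ k, ∑ l, ∑ g ∈ F, ∑ h ∈ F, a k g * conj (b l h) * (m k l (g - h) : ℂ)‖ ≤
        C * Real.sqrt (sq F a * sq F b)) (k : κ) (T : Finset ℝ) :
    ∑ l, ∑ τ ∈ T, (m k l τ : ℝ) ^ 2 ≤ C ^ 2 := by
  classical
  set u : ℝ := ∑ l, ∑ τ ∈ T, (m k l τ : ℝ) ^ 2 with hu
  have hu0 : 0 ≤ u := Finset.sum_nonneg fun _ _ => Finset.sum_nonneg fun _ _ => sq_nonneg _
  set F : Finset ℝ := insert 0 (T.image fun τ => -τ) with hF
  have h0F : (0 : ℝ) ∈ F := Finset.mem_insert_self _ _
  have hTF : ∀ τ ∈ T, -τ ∈ F := fun τ hτ =>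
    Finset.mem_insert_of_mem (Finset.mem_image_of_mem _ hτ)
  have hre : ∀ φ : ℝ → ℝ, ∑ h ∈ F, (if -h ∈ T then φ (-h) else 0) = ∑ τ ∈ T, φ τ := by
    intro φ
    rw [← Finset.sum_filter]
    refine Finset.sum_nbij' (fun h => -h) (fun τ => -τ) ?_ ?_ ?_ ?_ ?_
    · intro h hh; exact (Finset.mem_filter.1 hh).2
    · intro τ hτ
      rw [Finset.mem_filter, neg_neg]
      exact ⟨hTF τ hτ, hτ⟩
    · intro h _; ring
    · intro τ _; ring
    · intro h _; rfl
  have hre' : ∀ φ : ℝ → ℂ, ∑ h ∈ F, (if -h ∈ T then φ (-h) else 0) = ∑ τ ∈ T, φ τ := by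
    intro φ
    rw [← Finset.sum_filter]
    refine Finset.sum_nbij' (fun h => -h) (fun τ => -τ) ?_ ?_ ?_ ?_ ?_
    · intro h hh; exact (Finset.mem_filter.1 hh).2
    · intro τ hτ
      rw [Finset.mem_filter, neg_neg]
      exact ⟨hTF τ hτ, hτ⟩
    · intro h _; ring
    · intro τ _; ring
    · intro h _; rfl
  have h1 := H F (fun k' g => if k' = k then (if g = 0 then 1 else 0) else 0)
    (fun l h => if -h ∈ T then (m k l (-h) : ℂ) else 0)
  have e1 : sq F (fun k' g => if k' = k then (if g = 0 then (1 : ℂ) else 0) else 0) = 1 := by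
    unfold sq
    rw [Finset.sum_eq_single k]
    · rw [Finset.sum_eq_single 0]
      · simp
      · intro g _ hg
        simp [hg]
      · intro h; exact absurd h0F h
    · intro k' _ hk
      refine Finset.sum_eq_zero fun g _ => ?_
      simp [hk]
    · intro h; exact absurd (Finset.mem_univ k) h
  have e2 : sq F (fun l h => if -h ∈ T then (m k l (-h) : ℂ) else 0) = u := by
    unfold sq
    rw [hu]
    refine Finset.sum_congr rfl fun l _ => ?_
    rw [← hre (fun τ => (m k l τ : ℝ) ^ 2)]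
    refine Finset.sum_congr rfl fun h _ => ?_
    show ‖(if -h ∈ T then (m k l (-h) : ℂ) else 0)‖ ^ 2 = _
    by_cases h2 : -h ∈ T
    · rw [if_pos h2, if_pos h2, Complex.norm_intCast, sq_abs]
    · rw [if_neg h2, if_neg h2, norm_zero, zero_pow two_ne_zero]
  have e3 : ∑ k', ∑ l, ∑ g ∈ F, ∑ h ∈ F,
      (if k' = k then (if g = 0 then (1 : ℂ) else 0) else 0) *
        conj (if -h ∈ T then (m k l (-h) : ℂ) else 0) * (m k' l (g - h) : ℂ) = ((u : ℝ) : ℂ) := by
    rw [Finset.sum_eq_single k]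
    · rw [hu]
      push_cast
      refine Finset.sum_congr rfl fun l _ => ?_
      rw [Finset.sum_eq_single 0]
      · rw [← hre' (fun τ => (m k l τ : ℂ) ^ 2)]
        refine Finset.sum_congr rfl fun h _ => ?_
        rw [if_pos rfl, if_pos rfl, one_mul, zero_sub]
        split_ifs with h2
        · rw [map_intCast]; ring
        · simp
      · intro g _ hg
        refine Finset.sum_eq_zero fun h _ => ?_
        rw [if_pos rfl, if_neg hg]; ring
      · intro h; exact absurd h0F h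
    · intro k' _ hk
      refine Finset.sum_eq_zero fun l _ => Finset.sum_eq_zero fun g _ =>
        Finset.sum_eq_zero fun h _ => ?_
      rw [if_neg hk]; ring
    · intro h; exact absurd (Finset.mem_univ k) h
  rw [e1, e2, e3, one_mul, Complex.norm_real, Real.norm_eq_abs, abs_of_nonneg hu0] at h1
  set r : ℝ := Real.sqrt u with hr
  have hr2 : r ^ 2 = u := Real.sq_sqrt hu0
  have hr0 : 0 ≤ r := Real.sqrt_nonneg _
  rcases eq_or_lt_of_le hr0 with h3 | h3
  · rw [← hr2, ← h3]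
    nlinarith [sq_nonneg C]
  · have h4 : r * r ≤ C * r := by
      rw [← pow_two, hr2]
      exact h1
    have h5 : r ≤ C := le_of_mul_le_mul_right h4 h3
    rw [← hr2]
    exact pow_le_pow_left₀ hr0 h5 2

/-- finite support -/
theorem blk_fin {m : κ → μ → ℝ → ℤ} {C : ℝ} (hC : 0 ≤ C)
    (H : ∀ (F : Finset ℝ) (a : κ → ℝ → ℂ) (b : μ → ℝ → ℂ),
      ‖∑ k, ∑ l, ∑ g ∈ F, ∑ h ∈ F, a k g * conj (b l h) * (m k l (g - h) : ℂ)‖ ≤
        C * Real.sqrt (sq F a * sq F b)) : ∃ S : Finset ℝ, ∀ k l, ∀ τ ∉ S, m k l τ = 0 := by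
  classical
  have hfin : ∀ k l, {τ : ℝ | m k l τ ≠ 0}.Finite := by
    intro k l
    by_contra hinf
    obtain ⟨n, hn⟩ := exists_nat_gt (C ^ 2)
    obtain ⟨T, hT1, hT2⟩ := (Set.not_finite.1 hinf).exists_subset_card_eq n
    have h5 := blk_row hC H k T
    have h6 : ∑ _τ ∈ T, (1 : ℝ) ≤ ∑ τ ∈ T, (m k l τ : ℝ) ^ 2 := Finset.sum_le_sum fun τ hτ => by
      have h7 : m k l τ ≠ 0 := hT1 (Finset.mem_coe.2 hτ)
      have h8 : (1 : ℤ) ≤ (m k l τ) ^ 2 := by
        have := Int.one_le_abs h7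
        rw [← sq_abs]
        nlinarith
      exact_mod_cast h8
    have h7 : ∑ τ ∈ T, (m k l τ : ℝ) ^ 2 ≤ ∑ l, ∑ τ ∈ T, (m k l τ : ℝ) ^ 2 :=
      Finset.single_le_sum (f := fun l => ∑ τ ∈ T, (m k l τ : ℝ) ^ 2)
        (fun l _ => Finset.sum_nonneg fun _ _ => sq_nonneg _) (Finset.mem_univ l)
    rw [Finset.sum_const, hT2, nsmul_eq_mul, mul_one] at h6
    linarith
  refine ⟨Finset.univ.biUnion fun k => Finset.univ.biUnion fun l => (hfin k l).toFinset,
    fun k l τ hτ => ?_⟩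
  by_contra hne
  apply hτ
  rw [Finset.mem_biUnion]
  refine ⟨k, Finset.mem_univ _, ?_⟩
  rw [Finset.mem_biUnion]
  exact ⟨l, Finset.mem_univ _, (hfin k l).mem_toFinset.2 hne⟩

/-- **The symbol.** -/
theorem blk_symbol {m : κ → μ → ℝ → ℤ} {C : ℝ}
    (H : ∀ (F : Finset ℝ) (a : κ → ℝ → ℂ) (b : μ → ℝ → ℂ),
      ‖∑ k, ∑ l, ∑ g ∈ F, ∑ h ∈ F, a k g * conj (b l h) * (m k l (g - h) : ℂ)‖ ≤
        C * Real.sqrt (sq F a * sq F b)) {S : Finset ℝ} (hS : ∀ k l, ∀ τ ∉ S, m k l τ = 0)
    (x : ℝ) (a : κ → ℂ) (b : μ → ℂ) :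
    ‖∑ k, ∑ l, a k * b l * ∑ τ ∈ S, (m k l τ : ℂ) * exp (τ * x * I)‖ ≤
      C * Real.sqrt ((∑ k, ‖a k‖ ^ 2) * ∑ l, ‖b l‖ ^ 2) := by
  classical
  set P : ℝ := ∑ k, ‖a k‖ ^ 2 with hP
  set Q : ℝ := ∑ l, ‖b l‖ ^ 2 with hQ
  have hP0 : 0 ≤ P := Finset.sum_nonneg fun _ _ => sq_nonneg _
  have hQ0 : 0 ≤ Q := Finset.sum_nonneg fun _ _ => sq_nonneg _
  set E : ℝ := ∑ k, ∑ l, ∑ τ ∈ S, ‖a k‖ * ‖b l‖ * |(m k l τ : ℝ)| with hE
  have hE0 : 0 ≤ E := by positivity
  refine le_of_forall_pos_le_add fun η hη => ?_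
  set δ : ℝ := η / (E + 1) with hδ
  have hδ0 : 0 < δ := by positivity
  obtain ⟨F, hF1, hF2⟩ := exists_folner S hδ0
  have hFc : (0 : ℝ) < F.card := by exact_mod_cast hF1.card_pos
  have hexp : ∀ g : ℝ, ‖exp (g * x * I)‖ = 1 := by
    intro g
    rw [show ((g : ℂ) * x * I) = ((g * x : ℝ) : ℂ) * I by push_cast; ring,
      Complex.norm_exp_ofReal_mul_I]
  have h1 := H F (fun k g => a k * exp (g * x * I)) (fun l h => conj (b l) * exp (h * x * I))
  have e1 : sq F (fun k g => a k * exp (g * x * I)) = F.card * P := by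
    unfold sq
    rw [hP, Finset.mul_sum]
    refine Finset.sum_congr rfl fun k _ => ?_
    rw [Finset.sum_congr rfl fun g _ => by rw [norm_mul, hexp, mul_one], Finset.sum_const,
      nsmul_eq_mul]
  have e2 : sq F (fun l h => conj (b l) * exp (h * x * I)) = F.card * Q := by
    unfold sq
    rw [hQ, Finset.mul_sum]
    refine Finset.sum_congr rfl fun k _ => ?_
    rw [Finset.sum_congr rfl fun g _ => by rw [norm_mul, hexp, mul_one, Complex.norm_conj],
      Finset.sum_const, nsmul_eq_mul]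
  have e3 : Real.sqrt (F.card * P * (F.card * Q)) = F.card * Real.sqrt (P * Q) := by
    rw [show (F.card : ℝ) * P * (F.card * Q) = (F.card : ℝ) ^ 2 * (P * Q) by ring,
      Real.sqrt_mul (sq_nonneg _), Real.sqrt_sq hFc.le]
  rw [e1, e2, e3] at h1
  -- the sum over the differences
  have e4 : ∀ k l, ∑ g ∈ F, ∑ h ∈ F, a k * exp (g * x * I) * conj (conj (b l) * exp (h * x * I)) *
      (m k l (g - h) : ℂ) = ∑ τ ∈ S, (a k * b l * ((m k l τ : ℂ) * exp (τ * x * I))) *
        (((F.filter fun h => h + τ ∈ F).card : ℝ) : ℂ) := by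
    intro k l
    have e5 : ∀ g h : ℝ, a k * exp (g * x * I) * conj (conj (b l) * exp (h * x * I)) *
        (m k l (g - h) : ℂ) =
        ∑ τ ∈ S, if g = h + τ then a k * b l * ((m k l τ : ℂ) * exp (τ * x * I)) else 0 := by
      intro g h
      have e6 : exp (g * x * I) * conj (exp (h * x * I)) = exp (((g - h : ℝ) : ℂ) * x * I) := by
        rw [← Complex.exp_conj, ← Complex.exp_add]
        congr 1
        rw [map_mul, map_mul, Complex.conj_ofReal, Complex.conj_ofReal, Complex.conj_I]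
        push_cast
        ring
      have e7 : a k * exp (g * x * I) * conj (conj (b l) * exp (h * x * I)) *
          (m k l (g - h) : ℂ) =
          a k * b l * ((m k l (g - h) : ℂ) * exp (((g - h : ℝ) : ℂ) * x * I)) := by
        rw [← e6, map_mul, Complex.conj_conj]
        ring
      rw [e7]
      by_cases hgl : g - h ∈ S
      · rw [Finset.sum_eq_single (g - h)]
        · rw [if_pos (by ring)]
        · intro τ _ hτ
          rw [if_neg]
          intro h2
          exact hτ (by rw [h2]; ring)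
        · intro h2; exact absurd hgl h2
      · rw [hS k l _ hgl]
        symm
        rw [Int.cast_zero, zero_mul, mul_zero]
        refine Finset.sum_eq_zero fun τ hτ => ?_
        rw [if_neg]
        intro h2
        apply hgl
        rw [h2]
        have : h + τ - h = τ := by ring
        rwa [this]
    simp only [e5]
    have e8 : ∑ g ∈ F, ∑ h ∈ F, ∑ τ ∈ S,
        (if g = h + τ then a k * b l * ((m k l τ : ℂ) * exp (τ * x * I)) else 0) =
        ∑ τ ∈ S, ∑ h ∈ F, ∑ g ∈ F,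
          (if g = h + τ then a k * b l * ((m k l τ : ℂ) * exp (τ * x * I)) else 0) := by
      rw [Finset.sum_comm]
      rw [Finset.sum_congr rfl fun h _ => Finset.sum_comm]
      rw [Finset.sum_comm]
    rw [e8]
    refine Finset.sum_congr rfl fun τ _ => ?_
    have e9 : ∀ h ∈ F, ∑ g ∈ F,
        (if g = h + τ then a k * b l * ((m k l τ : ℂ) * exp (τ * x * I)) else 0) =
        if h + τ ∈ F then a k * b l * ((m k l τ : ℂ) * exp (τ * x * I)) else 0 := by
      intro h _
      rw [Finset.sum_ite_eq']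
    rw [Finset.sum_congr rfl e9, ← Finset.sum_filter, Finset.sum_const, nsmul_eq_mul]
    push_cast
    ring
  simp only [e4] at h1
  set W : ℂ := ∑ k, ∑ l, a k * b l * ∑ τ ∈ S, (m k l τ : ℂ) * exp (τ * x * I) with hW
  set V : ℂ := ∑ k, ∑ l, ∑ τ ∈ S, (a k * b l * ((m k l τ : ℂ) * exp (τ * x * I))) *
        (((F.filter fun h => h + τ ∈ F).card : ℝ) : ℂ) with hV
  have hdiff : ‖W * (F.card : ℂ) - V‖ ≤ E * (δ * F.card) := by
    have e5 : W * (F.card : ℂ) - V = ∑ k, ∑ l, ∑ τ ∈ S,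
        (a k * b l * ((m k l τ : ℂ) * exp (τ * x * I))) *
          (((F.card : ℝ) - ((F.filter fun h => h + τ ∈ F).card : ℝ) : ℝ) : ℂ) := by
      rw [hW, hV]
      simp only [Finset.mul_sum, Finset.sum_mul, ← Finset.sum_sub_distrib]
      refine Finset.sum_congr rfl fun k _ => Finset.sum_congr rfl fun l _ =>
        Finset.sum_congr rfl fun τ _ => ?_
      push_cast
      ring
    rw [e5, hE]
    simp only [Finset.sum_mul]
    refine (norm_sum_le _ _).trans (Finset.sum_le_sum fun k _ => (norm_sum_le _ _).trans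
      (Finset.sum_le_sum fun l _ => (norm_sum_le _ _).trans
        (Finset.sum_le_sum fun τ hτ => ?_)))
    have hc1 : ((F.filter fun h => h + τ ∈ F).card : ℝ) ≤ F.card := by
      exact_mod_cast Finset.card_filter_le _ _
    have hc2 := hF2 τ hτ
    have hc3 : (F.card : ℝ) - ((F.filter fun h => h + τ ∈ F).card : ℝ) ≤ δ * F.card := by
      have : δ * ((F.filter fun h => h + τ ∈ F).card : ℝ) ≤ δ * F.card :=
        mul_le_mul_of_nonneg_left hc1 hδ0.le
      linarith
    rw [norm_mul, norm_mul, norm_mul, norm_mul, hexp, mul_one, Complex.norm_intCast,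
      Complex.norm_real, Real.norm_eq_abs, abs_of_nonneg (sub_nonneg.2 hc1)]
    exact mul_le_mul_of_nonneg_left hc3 (by positivity)
  have h2 : ‖W‖ * F.card ≤ (C * Real.sqrt (P * Q) + η) * F.card := by
    have h3 : ‖W * (F.card : ℂ)‖ = ‖W‖ * F.card := by
      rw [norm_mul, Complex.norm_natCast]
    rw [← h3]
    have h4 : W * (F.card : ℂ) = (W * (F.card : ℂ) - V) + V := by ring
    rw [h4]
    refine (norm_add_le _ _).trans ?_
    have h5 : E * (δ * F.card) ≤ η * F.card := by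
      have : E * δ ≤ η := by
        rw [hδ, mul_div_assoc', div_le_iff₀ (by linarith)]
        nlinarith
      calc E * (δ * F.card) = E * δ * F.card := by ring
        _ ≤ η * F.card := mul_le_mul_of_nonneg_right this hFc.le
    have h6 : C * (F.card * Real.sqrt (P * Q)) = C * Real.sqrt (P * Q) * F.card := by ring
    linarith
  exact le_of_mul_le_mul_right h2 hFc

end

end Pool.Agent.Helper29X1.WG
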