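import Pool.Agent.Helper29X1.WG.Blk

/-!
# Blocks: the inequality
-/

set_option autoImplicit false
set_option linter.unusedSectionVars false

namespace Pool.Agent.Helper29X1.WG

open NumberField Complex Filter Topology IsDedekindDomain Asymptotics Polynomial
open Pool.Agent.W353.EF (LFun size IsFrobenius)
open Pool.Agent.W353.TP (HX sysH LL LL_tendsto bdd_isLittleO lamS_sub push res)
open Pool.Agent.Y149.Ord (HasOrder tendsto_size)
open Pool.Agent.N172.HS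
open scoped ComplexConjugate

/-- a bound for the real parts of all rotations is a bound for the absolute value -/
theorem norm_of_re {Z : ℝ → ℂ} {R : ℝ} (hR : 0 ≤ R)
    (h : ∀ c : ℂ, ‖c‖ = 1 → ∀ η : ℝ, 0 < η → ∀ᶠ ε : ℝ in 𝓝[>] 0, (c * Z ε).re ≤ R + η)
    {η : ℝ} (hη : 0 < η) : ∀ᶠ ε : ℝ in 𝓝[>] 0, ‖Z ε‖ ≤ R + η := by
  set d : ℝ := η / (2 * (R + η)) with hd
  have hRη : 0 < R + η := by linarith
  have hd0 : 0 < d := by positivity
  have hd1 : d ≤ 1 / 2 := by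
    rw [hd, div_le_div_iff₀ (by positivity) (by norm_num)]
    nlinarith
  obtain ⟨t, ht, htf, hcov⟩ := (isCompact_sphere (0 : ℂ) 1).finite_cover_balls hd0
  have hev : ∀ᶠ ε : ℝ in 𝓝[>] 0, ∀ c ∈ t, (c * Z ε).re ≤ R + η / 2 := by
    rw [htf.eventually_all]
    intro c hc
    have hc1 : ‖c‖ = 1 := by
      have := ht hc
      simpa using this
    exact h c hc1 (η / 2) (half_pos hη)
  filter_upwards [hev] with ε h1
  by_cases hZ : Z ε = 0
  · rw [hZ, norm_zero]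
    exact hRη.le
  have hZ0 : 0 < ‖Z ε‖ := norm_pos_iff.2 hZ
  set u : ℂ := conj (Z ε) / ‖Z ε‖ with hu
  have hu1 : ‖u‖ = 1 := by
    rw [hu, norm_div, Complex.norm_conj, Complex.norm_real, Real.norm_eq_abs, abs_of_pos hZ0,
      div_self hZ0.ne']
  have huZ : (u * Z ε).re = ‖Z ε‖ := by
    have e : u * Z ε = ((‖Z ε‖ : ℝ) : ℂ) := by
      rw [hu, div_mul_eq_mul_div, mul_comm (conj (Z ε)), Complex.mul_conj,
        Complex.normSq_eq_norm_sq]
      have h3 : ((‖Z ε‖ : ℝ) : ℂ) ≠ 0 := by exact_mod_cast hZ0.ne'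
      push_cast
      field_simp
    rw [e, Complex.ofReal_re]
  have hus : u ∈ Metric.sphere (0 : ℂ) 1 := by simpa using hu1
  obtain ⟨c, hc, hcu⟩ := Set.mem_iUnion₂.1 (hcov hus)
  rw [Metric.mem_ball, dist_eq_norm] at hcu
  have h2 := h1 c hc
  have h3 : (u * Z ε).re ≤ (c * Z ε).re + d * ‖Z ε‖ := by
    have e : u * Z ε = c * Z ε + (u - c) * Z ε := by ring
    rw [e, Complex.add_re]
    have h4 : ((u - c) * Z ε).re ≤ d * ‖Z ε‖ := by
      refine (Complex.re_le_norm _).trans ?_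
      rw [norm_mul]
      exact mul_le_mul_of_nonneg_right hcu.le hZ0.le
    linarith
  rw [huZ] at h3
  have h5 : ‖Z ε‖ * (1 - d) ≤ R + η / 2 := by linarith
  have h6 : R + η / 2 = (R + η) * (1 - d) := by
    rw [hd]
    field_simp
    ring
  rw [h6] at h5
  exact le_of_mul_le_mul_right h5 (by linarith)

section

variable {K : Type} [Field K] [NumberField K]

/-- the total square of a family of coefficients -/
noncomputable def sq {κ : Type} [Fintype κ] (F : Finset ℝ) (a : κ → ℝ → ℂ) : ℝ :=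
  ∑ k, ∑ g ∈ F, ‖a k g‖ ^ 2

theorem sq_nonneg' {κ : Type} [Fintype κ] (F : Finset ℝ) (a : κ → ℝ → ℂ) : 0 ≤ sq F a :=
  Finset.sum_nonneg fun _ _ => Finset.sum_nonneg fun _ _ => _root_.sq_nonneg _

theorem sq_smul {κ : Type} [Fintype κ] (F : Finset ℝ) (a : κ → ℝ → ℂ) (c : ℂ) :
    sq F (fun k g => c * a k g) = ‖c‖ ^ 2 * sq F a := by
  unfold sq
  rw [Finset.mul_sum]
  refine Finset.sum_congr rfl fun k _ => ?_
  rw [Finset.mul_sum]
  refine Finset.sum_congr rfl fun g _ => ?_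
  rw [norm_mul, mul_pow]

/-- **The block inequality, real coefficients.** -/
theorem blk_real {X : Variety K} {i : ℕ} (hi : i ≤ 2 * X.dim) {θ : WRep K} {N' : ℕ}
    {κ μ : Type} [Fintype κ] [Fintype μ] {ρ : κ → WRep K} {σ : μ → WRep K}
    (hρ : Inequivalent ρ) (hσ : Inequivalent σ) {B : κ → μ → HeightOneSpectrum (𝓞 K) → ℂ[X]}
    (hB : ∀ k l, IsPairLine X i θ N' (ρ k) (σ l) (B k l)) (F : Finset ℝ) (a : κ → ℝ → ℝ)
    (b : μ → ℝ → ℝ) {η : ℝ} (hη : 0 < η) :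
    ∀ᶠ ε : ℝ in 𝓝[>] 0, ∑ k, ∑ l, ∑ g ∈ F, ∑ h ∈ F,
        a k g * b l h * size i (shift (g - h) (B k l)) ε ≤
      (N' : ℝ) * ((∑ k, ∑ g ∈ F, a k g ^ 2 + ∑ l, ∑ g ∈ F, b l g ^ 2) / 2) + η := by
  classical
  have h := bilin (K := K) (κ := κ × {g // g ∈ F}) (μ := μ × {g // g ∈ F})
    (f := fun p => (tw (ρ p.1) p.2.1).tH) (f' := fun p => (tw (σ p.1) p.2.1).tH)
    (fun p => (tw (ρ p.1) p.2.1).bdd) (fun p => (tw (σ p.1) p.2.1).bdd)
    (g := fun p q => if (p.1, p.2.1) = (q.1, q.2.1) then 1 else 0)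
    (g' := fun p q => if (p.1, p.2.1) = (q.1, q.2.1) then 1 else 0)
    (fun p q => blk_gram hρ (p.1, p.2.1) (q.1, q.2.1))
    (fun p q => blk_gram hσ (p.1, p.2.1) (q.1, q.2.1))
    (T := cut X i θ N') (N := N') (fun x => abs_cut X i θ N' x)
    (z := fun p q ε => size i (shift (p.2.1 - q.2.1) (B p.1 q.1)) ε)
    (fun p q => by
      have h1 := (pairline_size hi (hB p.1 q.1) (p.2.1 - q.2.1)).2
      simp only [tw_tw']
      exact h1) (fun p => a p.1 p.2.1) (fun p => b p.1 p.2.1) hη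
  have e0 : ∀ {ν : Type} [Fintype ν] (c : ν → ℝ → ℝ), ∑ p : ν × {g // g ∈ F},
      ∑ q : ν × {g // g ∈ F}, c p.1 p.2.1 * c q.1 q.2.1 *
        (if (p.1, p.2.1) = (q.1, q.2.1) then (1 : ℝ) else 0) = ∑ k, ∑ g ∈ F, c k g ^ 2 := by
    intro ν _ c
    have e1 : ∀ p : ν × {g // g ∈ F}, ∑ q : ν × {g // g ∈ F}, c p.1 p.2.1 * c q.1 q.2.1 *
        (if (p.1, p.2.1) = (q.1, q.2.1) then (1 : ℝ) else 0) = c p.1 p.2.1 ^ 2 := by
      intro p
      rw [Finset.sum_eq_single p]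
      · rw [if_pos rfl]; ring
      · intro q _ hq
        rw [if_neg, mul_zero]
        intro h1
        apply hq
        rw [Prod.mk.injEq] at h1
        exact (Prod.ext h1.1 (Subtype.ext h1.2)).symm
      · intro h1; exact absurd (Finset.mem_univ p) h1
    rw [Finset.sum_congr rfl fun p _ => e1 p, Fintype.sum_prod_type]
    refine Finset.sum_congr rfl fun k _ => ?_
    rw [← Finset.sum_coe_sort F (fun g => c k g ^ 2)]
  rw [e0 a, e0 b] at h
  filter_upwards [h] with ε h1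
  refine le_trans (le_of_eq ?_) h1
  rw [Fintype.sum_prod_type]
  refine Finset.sum_congr rfl fun k _ => ?_
  have e2 : ∀ g : {g // g ∈ F}, ∑ q : μ × {g // g ∈ F}, a k g.1 * b q.1 q.2.1 *
      size i (shift (g.1 - q.2.1) (B k q.1)) ε =
      ∑ l, ∑ h ∈ F, a k g.1 * b l h * size i (shift (g.1 - h) (B k l)) ε := by
    intro g
    rw [Fintype.sum_prod_type]
    refine Finset.sum_congr rfl fun l _ => ?_
    rw [← Finset.sum_coe_sort F (fun h => a k g.1 * b l h * size i (shift (g.1 - h) (B k l)) ε)]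
  simp only [e2]
  symm
  rw [Finset.sum_comm]
  refine Finset.sum_congr rfl fun l _ => ?_
  rw [← Finset.sum_coe_sort F (fun g => ∑ h ∈ F, a k g * b l h *
    size i (shift (g - h) (B k l)) ε)]

/-- **The block inequality.** -/
theorem blk_main {X : Variety K} {i : ℕ} (hi : i ≤ 2 * X.dim) {θ : WRep K} {N' : ℕ}
    {κ μ : Type} [Fintype κ] [Fintype μ] {ρ : κ → WRep K} {σ : μ → WRep K}
    (hρ : Inequivalent ρ) (hσ : Inequivalent σ) {B : κ → μ → HeightOneSpectrum (𝓞 K) → ℂ[X]}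
    (hB : ∀ k l, IsPairLine X i θ N' (ρ k) (σ l) (B k l)) (F : Finset ℝ) (a : κ → ℝ → ℂ)
    (b : μ → ℝ → ℂ) {η : ℝ} (hη : 0 < η) :
    ∀ᶠ ε : ℝ in 𝓝[>] 0, ‖∑ k, ∑ l, ∑ g ∈ F, ∑ h ∈ F,
        a k g * conj (b l h) * size i (shift (g - h) (B k l)) ε‖ ≤
      (N' : ℝ) * Real.sqrt (sq F a * sq F b) + η := by
  classical
  -- the real part, with the sum of the squares
  have key : ∀ (a : κ → ℝ → ℂ) (b : μ → ℝ → ℂ) (η : ℝ), 0 < η → ∀ᶠ ε : ℝ in 𝓝[>] 0,
      (∑ k, ∑ l, ∑ g ∈ F, ∑ h ∈ F,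
        a k g * conj (b l h) * size i (shift (g - h) (B k l)) ε : ℂ).re ≤
      (N' : ℝ) * ((sq F a + sq F b) / 2) + η := by
    intro a b η hη
    have h1 := blk_real hi hρ hσ hB F (fun k g => (a k g).re) (fun l h => (b l h).re) (half_pos hη)
    have h2 := blk_real hi hρ hσ hB F (fun k g => (a k g).im) (fun l h => (b l h).im) (half_pos hη)
    filter_upwards [h1, h2] with ε h3 h4
    have e1 : (∑ k, ∑ l, ∑ g ∈ F, ∑ h ∈ F,
        a k g * conj (b l h) * size i (shift (g - h) (B k l)) ε : ℂ).re =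
        ∑ k, ∑ l, ∑ g ∈ F, ∑ h ∈ F,
          (a k g).re * (b l h).re * size i (shift (g - h) (B k l)) ε +
        ∑ k, ∑ l, ∑ g ∈ F, ∑ h ∈ F,
          (a k g).im * (b l h).im * size i (shift (g - h) (B k l)) ε := by
      simp only [Complex.re_sum, ← Finset.sum_add_distrib]
      refine Finset.sum_congr rfl fun k _ => Finset.sum_congr rfl fun l _ =>
        Finset.sum_congr rfl fun g _ => Finset.sum_congr rfl fun h _ => ?_
      rw [Complex.re_mul_ofReal, Complex.mul_re, Complex.conj_re, Complex.conj_im]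
      ring
    have e2 : ∀ {ν : Type} [Fintype ν] (c : ν → ℝ → ℂ), sq F c =
        ∑ k, ∑ g ∈ F, (c k g).re ^ 2 + ∑ k, ∑ g ∈ F, (c k g).im ^ 2 := by
      intro ν _ c
      unfold sq
      rw [← Finset.sum_add_distrib]
      refine Finset.sum_congr rfl fun k _ => ?_
      rw [← Finset.sum_add_distrib]
      refine Finset.sum_congr rfl fun g _ => ?_
      rw [← Complex.normSq_eq_norm_sq, Complex.normSq_apply]
      ring
    rw [e1, e2 a, e2 b]
    linarith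
  refine norm_of_re (mul_nonneg (Nat.cast_nonneg _) (Real.sqrt_nonneg _)) (fun c hc η hη => ?_) hη
  obtain ⟨t, ht0, ht⟩ := exists_scale (N := (N' : ℝ)) (Nat.cast_nonneg _) (sq_nonneg' F a)
    (sq_nonneg' F b) (half_pos hη)
  have h1 := key (fun k g => (c * t) * a k g) (fun l h => ((t⁻¹ : ℝ) : ℂ) * b l h) (η / 2)
    (half_pos hη)
  filter_upwards [h1] with ε h2
  rw [sq_smul, sq_smul] at h2
  have e1 : ‖c * (t : ℂ)‖ ^ 2 = t ^ 2 := by
    rw [norm_mul, hc, one_mul, Complex.norm_real, Real.norm_eq_abs, sq_abs]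
  have e2 : ‖((t⁻¹ : ℝ) : ℂ)‖ ^ 2 = t⁻¹ ^ 2 := by
    rw [Complex.norm_real, Real.norm_eq_abs, sq_abs]
  have e3 : (∑ k, ∑ l, ∑ g ∈ F, ∑ h ∈ F,
      (c * (t : ℂ)) * a k g * conj (((t⁻¹ : ℝ) : ℂ) * b l h) *
        size i (shift (g - h) (B k l)) ε : ℂ) =
      c * ∑ k, ∑ l, ∑ g ∈ F, ∑ h ∈ F,
        a k g * conj (b l h) * size i (shift (g - h) (B k l)) ε := by
    simp only [Finset.mul_sum]
    refine Finset.sum_congr rfl fun k _ => Finset.sum_congr rfl fun l _ =>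
      Finset.sum_congr rfl fun g _ => Finset.sum_congr rfl fun h _ => ?_
    rw [map_mul, Complex.conj_ofReal]
    have ht' : (t : ℂ) ≠ 0 := by exact_mod_cast ht0.ne'
    push_cast
    field_simp
  rw [e1, e2, e3] at h2
  linarith

/-- the orders of continuations, general form -/
theorem orders_gen {i : ℕ} {B : HeightOneSpectrum (𝓞 K) → ℂ[X]}
    (hne0 : ∀ τ : ℝ, ∀ᶠ ε : ℝ in 𝓝[>] 0, LFun (shift τ B) ((i : ℂ) / 2 + 1 + ε) ≠ 0) {Λ : ℂ → ℂ}
    (h1 : ∀ τ : ℝ, MeromorphicAt Λ ((i : ℂ) / 2 + 1 + τ * I))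
    (h2 : ∀ s : ℂ, (i : ℝ) / 2 + 1 < s.re → Λ s = LFun B s) :
    ∃ m : ℝ → ℤ, (∀ τ : ℝ, meromorphicOrderAt Λ ((i : ℂ) / 2 + 1 + τ * I) = m τ) ∧
      ∀ τ, HasOrder i (shift τ B) (m τ) := by
  have hne : ∀ τ : ℝ, ∀ᶠ ε : ℝ in 𝓝[>] 0, LFun B ((i : ℂ) / 2 + 1 + τ * I + ε) ≠ 0 := by
    intro τ
    filter_upwards [hne0 τ] with ε h3
    rw [shift_LFun] at h3
    have e : ((i : ℂ) / 2 + 1 + ε + τ * I) = (i : ℂ) / 2 + 1 + τ * I + ε := by ring
    rw [e] at h3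
    exact h3
  have h3 : ∀ τ : ℝ, ∃ m : ℤ, meromorphicOrderAt Λ ((i : ℂ) / 2 + 1 + τ * I) = m := by
    intro τ
    have h4 : meromorphicOrderAt Λ ((i : ℂ) / 2 + 1 + τ * I) ≠ ⊤ := by
      intro h5
      rw [meromorphicOrderAt_eq_top_iff] at h5
      have h6 := (PZ.tendsto_pt i τ).eventually h5
      obtain ⟨ε, h7, h8, h9⟩ := (h6.and ((hne τ).and self_mem_nhdsWithin)).exists
      apply h8
      rw [← h2 _ (PZ.re_pt i τ h9)]
      exact h7
    obtain ⟨m, hm⟩ := WithTop.ne_top_iff_exists.1 h4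
    exact ⟨m, hm.symm⟩
  choose m hm using h3
  refine ⟨m, hm, fun τ => ?_⟩
  have h3 := hm τ
  rw [meromorphicOrderAt_eq_int_iff (h1 τ)] at h3
  obtain ⟨g, hg, hg0, hgL⟩ := h3
  refine ⟨g ((i : ℂ) / 2 + 1 + τ * I), hg0, ?_⟩
  have ht := (PZ.tendsto_pt i τ).mono_right nhdsWithin_le_nhds
  refine (hg.continuousAt.tendsto.comp ht).congr' ?_
  filter_upwards [(PZ.tendsto_pt i τ).eventually hgL, self_mem_nhdsWithin] with ε h4 h6
  have hε : (0 : ℝ) < ε := h6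
  have h8 := h2 _ (PZ.re_pt i τ hε)
  have e : ((i : ℂ) / 2 + 1 + ε + τ * I) = (i : ℂ) / 2 + 1 + τ * I + ε := by ring
  rw [shift_LFun, e, ← h8, h4]
  have hε0 : (ε : ℂ) ≠ 0 := by exact_mod_cast hε.ne'
  rw [add_sub_cancel_left, smul_eq_mul, ← mul_assoc, ← zpow_add₀ hε0, neg_add_cancel, zpow_zero,
    one_mul]
  rfl

end

end Pool.Agent.Helper29X1.WG
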