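import Pool.Agent.Helper29X1.WG.Ineq
import Pool.Agent.N172.HS.Pr

/-!
# Hecke characters: trigonometric polynomials
-/

set_option autoImplicit false
set_option linter.unusedSectionVars false

namespace Pool.Agent.Helper29X1.WG

open NumberField Complex Filter Topology IsDedekindDomain Asymptotics
open Pool.Agent.W353.TP (HX sysH LL LL_tendsto bdd_isLittleO lamS_sub)
open Pool.Agent.W353.NF (vx)
open Pool.Agent.N172.HS
open scoped ComplexConjugate

/-- A unitary Hecke character of `K`. -/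
structure HC (K : Type) [Field K] [NumberField K] where
  𝔣 : Ideal (𝓞 K)
  k : (K →+* ℂ) → ℤ
  t : (K →+* ℂ) → ℝ
  ψ : Ideal (𝓞 K) →*₀ ℂ
  hecke : IsHecke 𝔣 k t ψ

section

variable {K : Type} [Field K] [NumberField K]

/-- The two characters agree at almost all primes. -/
def Same (ψ ψ' : Ideal (𝓞 K) →*₀ ℂ) : Prop :=
  ∀ᶠ v : HeightOneSpectrum (𝓞 K) in cofinite, ψ v.asIdeal = ψ' v.asIdeal

theorem Same.refl (ψ : Ideal (𝓞 K) →*₀ ℂ) : Same ψ ψ := Eventually.of_forall fun _ => rfl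

theorem Same.symm {ψ ψ' : Ideal (𝓞 K) →*₀ ℂ} (h : Same ψ ψ') : Same ψ' ψ :=
  h.mono fun _ hv => hv.symm

theorem Same.trans {ψ ψ' ψ'' : Ideal (𝓞 K) →*₀ ℂ} (h : Same ψ ψ') (h' : Same ψ' ψ'') :
    Same ψ ψ'' := by
  filter_upwards [h, h'] with v h1 h2
  exact h1.trans h2

theorem Same.cj {ψ ψ' : Ideal (𝓞 K) →*₀ ℂ} (h : Same ψ ψ') : Same (cj ψ) (cj ψ') := by
  filter_upwards [h] with v h1
  rw [cj_apply, cj_apply, h1]

theorem cj_cj (ψ : Ideal (𝓞 K) →*₀ ℂ) : cj (cj ψ) = ψ := by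
  ext 𝔞
  rw [cj_apply, cj_apply, Complex.conj_conj]

/-- the complex conjugate -/
noncomputable def HC.conj (c : HC K) : HC K := ⟨c.𝔣, -c.k, -c.t, cj c.ψ, c.hecke.conj⟩

/-- the product -/
noncomputable def HC.mul (c d : HC K) : HC K := ⟨_, _, _, mulc c.ψ d.ψ, c.hecke.mul d.hecke⟩

/-- the trivial character -/
noncomputable def HC.one (K : Type) [Field K] [NumberField K] : HC K :=
  ⟨⊤, fun _ => 0, fun _ => 0, unitChar K, isHecke_unit K⟩

/-- the values at the primes of degree one -/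
noncomputable def HC.val (c : HC K) (x : HX K) : ℂ := hv c.ψ x

theorem HC.val_le (c : HC K) (x : HX K) : ‖c.val x‖ ≤ 1 := norm_hv_le c.hecke x

theorem HC.bdd (c : HC K) : Bdd c.val := ⟨1, zero_le_one, c.val_le⟩

theorem HC.val_conj (c : HC K) (x : HX K) : c.conj.val x = conj (c.val x) := by
  unfold HC.val HC.conj hv
  simp only
  rw [cj_apply]

theorem HC.val_mul (c d : HC K) (x : HX K) : (c.mul d).val x = c.val x * d.val x := by
  unfold HC.val HC.mul hv
  simp only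
  rw [mulc_apply]

theorem HC.val_one (x : HX K) : (HC.one K).val x = 1 := by
  unfold HC.val HC.one
  simp only
  rw [hv_eq]
  exact unitChar_apply K (vx x).ne_bot

open Classical in
/-- **The Gram matrix of the Hecke characters.** -/
theorem HC.gram (c d : HC K) : HasGram c.val d.val (if Same c.ψ d.ψ then 1 else 0) := by
  have hQ : StNvq := Pool.Agent.N134.HS.t_nvq
  set φ : HC K := c.mul d.conj with hφ
  have hval : ∀ x, c.val x * conj (d.val x) = φ.val x := by
    intro x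
    rw [hφ, HC.val_mul, HC.val_conj]
  have e0 : (fun x : HX K => (c.val x * conj (d.val x)).re) = fun x => (hv φ.ψ x).re := by
    funext x
    rw [hval]
    rfl
  unfold HasGram
  rw [e0]
  have hφψ : ∀ 𝔞, φ.ψ 𝔞 = c.ψ 𝔞 * conj (d.ψ 𝔞) := by
    intro 𝔞
    have : φ.ψ 𝔞 = mulc c.ψ (cj d.ψ) 𝔞 := rfl
    rw [this, mulc_apply, cj_apply]
  have hne : ∀ᶠ v : HeightOneSpectrum (𝓞 K) in cofinite, c.ψ v.asIdeal ≠ 0 ∧ d.ψ v.asIdeal ≠ 0 := by
    filter_upwards [c.hecke.eventually_ne, d.hecke.eventually_ne] with v h1 h2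
    exact ⟨h1, h2⟩
  by_cases hS : Same c.ψ d.ψ
  · rw [if_pos hS]
    have h1 := meanH_one (K := K) (g := fun v => (φ.ψ v.asIdeal).re)
      (fun v => (Complex.abs_re_le_norm _).trans (φ.hecke.norm_le _)) (by
        filter_upwards [hS, hne] with v h1 h2 _
        rw [hφψ, h1, Complex.mul_conj, Complex.normSq_eq_norm_sq, d.hecke.unit _ h2.2]
        simp)
    refine h1.congr_left fun ε => ?_
    rw [one_mul]
    rfl
  · rw [if_neg hS]
    have h2 : ∃ 𝔠, φ.ψ 𝔠 ≠ 0 ∧ φ.ψ 𝔠 ≠ 1 := by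
      by_contra hcon
      push Not at hcon
      apply hS
      filter_upwards [hne] with v h3
      have h4 : φ.ψ v.asIdeal ≠ 0 := by
        rw [hφψ]
        exact mul_ne_zero h3.1 ((map_ne_zero _).2 h3.2)
      have h5 := hcon _ h4
      rw [hφψ] at h5
      have h6 : d.ψ v.asIdeal * conj (d.ψ v.asIdeal) = 1 := by
        rw [Complex.mul_conj, Complex.normSq_eq_norm_sq, d.hecke.unit _ h3.2]
        simp
      exact mul_right_cancel₀ ((map_ne_zero _).2 h3.2) (h5.trans h6.symm)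
    refine (meanH_zero hQ φ.hecke h2).congr_left fun ε => ?_
    rw [zero_mul, sub_zero]

open Classical in
/-- the sum over the classes -/
theorem pos_gram {J : Type} [Fintype J] (φ : J → Ideal (𝓞 K) →*₀ ℂ) (a : J → ℝ)
    (ha : ∑ j, a j ≠ 0) :
    0 < ∑ i, ∑ j, a i * a j * (if Same (φ i) (φ j) then (1 : ℝ) else 0) := by
  let s : Setoid J := ⟨fun i j => Same (φ i) (φ j), fun i => Same.refl _, fun h => h.symm,
    fun h h' => h.trans h'⟩
  have hq : ∀ i j : J, (Quotient.mk s i = Quotient.mk s j) ↔ Same (φ i) (φ j) := fun i j =>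
    Quotient.eq (r := s)
  have key : ∑ i, ∑ j, a i * a j * (if Same (φ i) (φ j) then (1 : ℝ) else 0) =
      ∑ q : Quotient s, (∑ i, if Quotient.mk s i = q then a i else 0) ^ 2 := by
    have e1 : ∀ q : Quotient s, (∑ i, if Quotient.mk s i = q then a i else 0) ^ 2 =
        ∑ i, ∑ j, (if Quotient.mk s i = q then a i else 0) *
          (if Quotient.mk s j = q then a j else 0) := by
      intro q
      rw [sq, Finset.sum_mul_sum]
    have e3 : ∑ q : Quotient s, ∑ i, ∑ j, (if Quotient.mk s i = q then a i else 0) *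
          (if Quotient.mk s j = q then a j else 0) =
        ∑ i, ∑ j, ∑ q : Quotient s, (if Quotient.mk s i = q then a i else 0) *
          (if Quotient.mk s j = q then a j else 0) := by
      rw [Finset.sum_comm]
      exact Finset.sum_congr rfl fun i _ => Finset.sum_comm
    refine Eq.trans ?_ ((Finset.sum_congr rfl fun q _ => e1 q).trans e3).symm
    refine Finset.sum_congr rfl fun i _ => ?_
    refine Finset.sum_congr rfl fun j _ => ?_
    have e2 : ∀ q : Quotient s, (if Quotient.mk s i = q then a i else 0) *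
          (if Quotient.mk s j = q then a j else 0) =
        if Quotient.mk s i = q then a i * (if Quotient.mk s j = q then a j else 0) else 0 := by
      intro q
      split_ifs <;> simp
    rw [Finset.sum_congr rfl fun q _ => e2 q, Finset.sum_ite_eq, if_pos (Finset.mem_univ _)]
    by_cases h : Same (φ i) (φ j)
    · rw [if_pos h, if_pos ((hq j i).2 h.symm), mul_one]
    · rw [if_neg h, if_neg (fun h' => h ((hq j i).1 h').symm)]
      ring
  rw [key]
  have h0 : 0 ≤ ∑ q : Quotient s, (∑ i, if Quotient.mk s i = q then a i else 0) ^ 2 :=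
    Finset.sum_nonneg fun q _ => sq_nonneg _
  refine lt_of_le_of_ne h0 fun h => ha ?_
  have h1 := (Finset.sum_eq_zero_iff_of_nonneg (s := Finset.univ)
    (f := fun q : Quotient s => (∑ i, if Quotient.mk s i = q then a i else 0) ^ 2)
    (fun q _ => sq_nonneg _)).1 h.symm
  have h2 : ∑ q : Quotient s, (∑ i, if Quotient.mk s i = q then a i else 0) = ∑ j, a j := by
    rw [Finset.sum_comm]
    refine Finset.sum_congr rfl fun i _ => ?_
    rw [Finset.sum_ite_eq, if_pos (Finset.mem_univ _)]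
  rw [← h2]
  exact Finset.sum_eq_zero fun q hq => pow_eq_zero_iff (n := 2) two_ne_zero |>.1 (h1 q hq)

theorem real_ineq {T f : ℝ} (hT : |T| ≤ 2) (hf : |f| ≤ 2) :
    T * f ≤ 1 + (f ^ 2 + (-(1 / 9)) * (f ^ 2 - 1) ^ 2) := by
  have h1 : T * f ≤ 2 * |f| := by
    refine (le_abs_self _).trans ?_
    rw [abs_mul]
    exact mul_le_mul_of_nonneg_right hT (abs_nonneg _)
  have h2 : f ^ 2 = |f| ^ 2 := (sq_abs f).symm
  rw [h2]
  set u := |f| with hu
  have hu0 : 0 ≤ u := abs_nonneg _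
  have e : (u ^ 2 - 1) ^ 2 = (u - 1) ^ 2 * (u + 1) ^ 2 := by ring
  have h3 : (u + 1) ^ 2 ≤ 9 := by nlinarith
  have h4 : (u ^ 2 - 1) ^ 2 ≤ (u - 1) ^ 2 * 9 := by
    rw [e]
    exact mul_le_mul_of_nonneg_left h3 (sq_nonneg _)
  nlinarith

open Classical in
/-- **Two characters.** -/
theorem pair_ineq (c d : HC K) (h1 : ¬ Same c.ψ (cj c.ψ)) (h2 : ¬ Same d.ψ (cj d.ψ))
    (h12 : ¬ Same c.ψ d.ψ) (h12' : ¬ Same c.ψ (cj d.ψ)) {s₁ s₂ : ℝ} (hs₁ : s₁ ^ 2 = 1)
    (hs₂ : s₂ ^ 2 = 1) : ∃ δ : ℝ, 0 < δ ∧ ∀ (T : HX K → ℝ), (∀ x, |T x| ≤ 2) →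
      ∀ z₁ z₂ : ℝ → ℝ,
      (fun ε => z₁ ε * LL ε - EH K ε (fun x => T x * (c.val x).re)) =o[𝓝[>] 0] LL →
      (fun ε => z₂ ε * LL ε - EH K ε (fun x => T x * (d.val x).re)) =o[𝓝[>] 0] LL →
      ∀ η : ℝ, 0 < η → ∀ᶠ ε : ℝ in 𝓝[>] 0, s₁ * z₁ ε + s₂ * z₂ ε ≤ 2 - δ + η := by
  set A : Fin 4 → HC K := ![c, c.conj, d, d.conj] with hA
  set s : Fin 4 → ℝ := ![s₁, s₁, s₂, s₂] with hs
  set fr : HX K → ℝ := fun x => s₁ * (c.val x).re + s₂ * (d.val x).re with hfr
  have abs1 : ∀ {u : ℝ}, u ^ 2 = 1 → |u| = 1 := fun {u} h => by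
    have : |u| ^ 2 = 1 := by rw [sq_abs]; exact h
    have h0 := abs_nonneg u
    nlinarith
  have hfrb : ∀ x, |fr x| ≤ 2 := by
    intro x
    rw [hfr]
    simp only
    refine (abs_add_le _ _).trans ?_
    rw [abs_mul, abs_mul, abs1 hs₁, abs1 hs₂]
    have a1 := (Complex.abs_re_le_norm (c.val x)).trans (c.val_le x)
    have a2 := (Complex.abs_re_le_norm (d.val x)).trans (d.val_le x)
    linarith
  have hfval : ∀ x, ∑ i, ((s i / 2 : ℝ) : ℂ) * (A i).val x = ((fr x : ℝ) : ℂ) := by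
    intro x
    rw [Fin.sum_univ_four, hA, hs]
    simp only [Matrix.cons_val_zero, Matrix.cons_val_one, Matrix.cons_val]
    rw [HC.val_conj, HC.val_conj, hfr]
    simp only
    have e1 : ∀ w : ℂ, ((w.re : ℝ) : ℂ) = (w + conj w) / 2 := fun w => by
      rw [Complex.add_conj]; push_cast; ring
    push_cast
    rw [e1, e1]
    ring
  -- the mean square of `fr`
  have g1 : HasGram (fun x => ∑ i, ((s i / 2 : ℝ) : ℂ) * (A i).val x)
      (fun x => ∑ i, ((s i / 2 : ℝ) : ℂ) * (A i).val x)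
      (∑ i, ∑ j, (s i / 2) * (s j / 2) * (if Same (A i).ψ (A j).ψ then (1 : ℝ) else 0)) :=
    HasGram.sum Finset.univ Finset.univ (fun i _ => (A i).bdd) (fun i _ => (A i).bdd)
      (fun i => s i / 2) (fun i => s i / 2) (fun i _ j _ => HC.gram (A i) (A j))
  have hcc : (c.conj).ψ = cj c.ψ := rfl
  have hdc : (d.conj).ψ = cj d.ψ := rfl
  have n1 : ¬ Same (cj c.ψ) c.ψ := fun h => h1 h.symm
  have n2 : ¬ Same (cj d.ψ) d.ψ := fun h => h2 h.symm
  have n3 : ¬ Same d.ψ c.ψ := fun h => h12 h.symm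
  have n4 : ¬ Same (cj d.ψ) c.ψ := fun h => h12' h.symm
  have n5 : ¬ Same (cj c.ψ) d.ψ := fun h => h12' (by have := h.cj; rwa [cj_cj] at this)
  have n6 : ¬ Same d.ψ (cj c.ψ) := fun h => n5 h.symm
  have n7 : ¬ Same (cj c.ψ) (cj d.ψ) := fun h => h12 (by
    have := h.cj; rwa [cj_cj, cj_cj] at this)
  have n8 : ¬ Same (cj d.ψ) (cj c.ψ) := fun h => n7 h.symm
  have hne : ∀ i j, i ≠ j → ¬ Same (A i).ψ (A j).ψ := by
    intro i j hij
    fin_cases i <;> fin_cases j <;> first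
      | exact absurd rfl hij
      | exact h1
      | exact n1
      | exact h2
      | exact n2
      | exact h12
      | exact h12'
      | exact n3
      | exact n4
      | exact n5
      | exact n6
      | exact n7
      | exact n8
  have e1 : ∑ i, ∑ j, (s i / 2) * (s j / 2) * (if Same (A i).ψ (A j).ψ then (1 : ℝ) else 0) = 1 := by
    have e0 : ∀ i, ∑ j, (s i / 2) * (s j / 2) *
        (if Same (A i).ψ (A j).ψ then (1 : ℝ) else 0) = (s i / 2) * (s i / 2) := by
      intro i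
      rw [Finset.sum_eq_single i]
      · rw [if_pos (Same.refl _), mul_one]
      · intro j _ hj
        rw [if_neg (hne i j hj.symm), mul_zero]
      · intro h; exact absurd (Finset.mem_univ i) h
    rw [Finset.sum_congr rfl fun i _ => e0 i]
    simp only [Fin.sum_univ_four, hs, Matrix.cons_val_zero, Matrix.cons_val_one,
      Matrix.cons_val]
    nlinarith
  rw [e1] at g1
  have g1' : (fun ε => EH K ε (fun x => fr x ^ 2) - 1 * LL ε) =o[𝓝[>] 0] LL := by
    refine g1.congr_left fun ε => ?_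
    congr 2
    funext x
    beta_reduce
    rw [hfval, Complex.conj_ofReal, ← Complex.ofReal_mul, Complex.ofReal_re]
    ring
  -- the polynomial `fr² - 1`
  set J : Type := (Fin 4 × Fin 4) ⊕ Unit with hJ
  set φ : J → HC K := Sum.elim (fun p => (A p.1).mul (A p.2)) (fun _ => HC.one K) with hφ
  set a : J → ℝ := Sum.elim (fun p => (s p.1 / 2) * (s p.2 / 2)) (fun _ => -1) with ha
  have hasum : ∑ j, a j ≠ 0 := by
    have e2 : ∑ j, a j = (s₁ + s₂) ^ 2 - 1 := by
      rw [Fintype.sum_sum_type, ha]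
      simp only [Sum.elim_inl, Sum.elim_inr, Finset.univ_unique, Finset.sum_const,
        Finset.card_singleton, one_smul]
      rw [← Finset.univ_product_univ, Finset.sum_product]
      simp only [Fin.sum_univ_four, hs, Matrix.cons_val_zero, Matrix.cons_val_one,
        Matrix.cons_val]
      ring
    rw [e2]
    intro h
    have e3 : (s₁ + s₂) ^ 2 = 2 + 2 * (s₁ * s₂) := by nlinarith
    have e4 : (s₁ * s₂) ^ 2 = 1 := by rw [mul_pow, hs₁, hs₂, one_mul]
    have e5 : s₁ * s₂ = -1 / 2 := by linarith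
    rw [e5] at e4
    norm_num at e4
  have hPval : ∀ x, ∑ j, ((a j : ℝ) : ℂ) * (φ j).val x = ((fr x ^ 2 - 1 : ℝ) : ℂ) := by
    intro x
    rw [Fintype.sum_sum_type, ha, hφ]
    simp only [Sum.elim_inl, Sum.elim_inr, Finset.univ_unique, Finset.sum_const,
      Finset.card_singleton, one_smul, HC.val_one, HC.val_mul]
    push_cast
    rw [← hfval, sq, Finset.sum_mul_sum, ← Finset.univ_product_univ, Finset.sum_product]
    rw [mul_one, sub_eq_add_neg]
    congr 1
    refine Finset.sum_congr rfl fun i _ => Finset.sum_congr rfl fun j _ => ?_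
    push_cast
    ring
  have g2 : HasGram (fun x => ∑ j, ((a j : ℝ) : ℂ) * (φ j).val x)
      (fun x => ∑ j, ((a j : ℝ) : ℂ) * (φ j).val x)
      (∑ i, ∑ j, a i * a j * (if Same (φ i).ψ (φ j).ψ then (1 : ℝ) else 0)) :=
    HasGram.sum Finset.univ Finset.univ (fun i _ => (φ i).bdd) (fun i _ => (φ i).bdd)
      a a (fun i _ j _ => HC.gram (φ i) (φ j))
  have hpos := pos_gram (fun j => (φ j).ψ) a hasum
  set C : ℝ := ∑ i, ∑ j, a i * a j * (if Same (φ i).ψ (φ j).ψ then (1 : ℝ) else 0) with hC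
  have g2' : (fun ε => EH K ε (fun x => (fr x ^ 2 - 1) ^ 2) - C * LL ε) =o[𝓝[>] 0] LL := by
    refine g2.congr_left fun ε => ?_
    congr 2
    funext x
    beta_reduce
    rw [hPval, Complex.conj_ofReal, ← Complex.ofReal_mul, Complex.ofReal_re]
    ring
  refine ⟨C / 9, by positivity, fun T hT z₁ z₂ hz₁ hz₂ η hη => ?_⟩
  have hL0 : ∀ᶠ ε : ℝ in 𝓝[>] 0, 0 < LL ε := LL_tendsto.eventually_gt_atTop 0
  -- the upper bound
  have k1 : (fun ε => (s₁ * z₁ ε + s₂ * z₂ ε) * LL ε - EH K ε (fun x => T x * fr x))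
      =o[𝓝[>] 0] LL := by
    refine ((hz₁.const_mul_left s₁).add (hz₂.const_mul_left s₂)).congr' ?_
      (EventuallyEq.refl _ _)
    filter_upwards [self_mem_nhdsWithin] with ε hε
    have hε' : (0 : ℝ) < ε := hε
    have e2 : (fun x => T x * fr x) = fun x => s₁ * (T x * (c.val x).re) +
        s₂ * (T x * (d.val x).re) := by
      funext x; rw [hfr]; ring
    have b1 : ∀ (e : HC K) (u : ℝ) x, |u * (T x * (e.val x).re)| ≤ |u| * (2 * 1) := by
      intro e u x
      rw [abs_mul]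
      refine mul_le_mul_of_nonneg_left ?_ (abs_nonneg _)
      rw [abs_mul]
      exact mul_le_mul (hT x) ((Complex.abs_re_le_norm _).trans (e.val_le x)) (abs_nonneg _)
        (by norm_num)
    rw [e2, EH_add hε' (b1 c s₁) (b1 d s₂), EH_const_mul, EH_const_mul]
    ring
  have hb1 : ∀ x, |T x * fr x| ≤ 2 * 2 := abs_mul_le' hT hfrb
  have hb2 : ∀ x, |fr x ^ 2| ≤ 2 ^ 2 := abs_sq_le hfrb
  have hb3 : ∀ x, |(fr x ^ 2 - 1) ^ 2| ≤ 25 := by
    intro x
    rw [abs_pow]
    have h5 : |fr x ^ 2 - 1| ≤ 5 := by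
      refine (abs_sub _ _).trans ?_
      rw [abs_one]
      linarith [hb2 x]
    calc |fr x ^ 2 - 1| ^ 2 ≤ 5 ^ 2 := pow_le_pow_left₀ (abs_nonneg _) h5 2
      _ = 25 := by norm_num
  have k2 : ∀ᶠ ε : ℝ in 𝓝[>] 0, EH K ε (fun x => T x * fr x) ≤
      (sysH K).lam ε + (EH K ε (fun x => fr x ^ 2) +
        (-(1 / 9)) * EH K ε (fun x => (fr x ^ 2 - 1) ^ 2)) := by
    filter_upwards [self_mem_nhdsWithin] with ε hε
    have hε' : (0 : ℝ) < ε := hε
    have b3 : ∀ x, |(-(1 / 9)) * (fr x ^ 2 - 1) ^ 2| ≤ 1 / 9 * 25 := fun x => by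
      rw [abs_mul, abs_neg, abs_of_nonneg (by norm_num : (0 : ℝ) ≤ 1 / 9)]
      exact mul_le_mul_of_nonneg_left (hb3 x) (by norm_num)
    have b4 : ∀ x, |fr x ^ 2 + (-(1 / 9)) * (fr x ^ 2 - 1) ^ 2| ≤ 2 ^ 2 + 1 / 9 * 25 := fun x =>
      (abs_add_le _ _).trans (add_le_add (hb2 x) (b3 x))
    have b5 : ∀ x : HX K, |(1 : ℝ)| ≤ 1 := fun _ => by rw [abs_one]
    rw [← EH_one (K := K), ← EH_const_mul, ← EH_add hε' hb2 b3, ← EH_add hε' b5 b4]
    exact EH_mono' hb1 (fun x => (abs_add_le _ _).trans (add_le_add (b5 x) (b4 x)))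
      (fun x => real_ineq (hT x) (hfrb x)) hε'
  have t1 : Tendsto (fun ε => (s₁ * z₁ ε + s₂ * z₂ ε) - EH K ε (fun x => T x * fr x) / LL ε)
      (𝓝[>] 0) (𝓝 0) := by
    refine k1.tendsto_div_nhds_zero.congr' ?_
    filter_upwards [hL0] with ε h
    rw [sub_div, mul_div_cancel_right₀ _ h.ne']
  have lim : ∀ {u : ℝ → ℝ} {G : ℝ}, (fun ε => u ε - G * LL ε) =o[𝓝[>] 0] LL →
      Tendsto (fun ε => u ε / LL ε) (𝓝[>] 0) (𝓝 G) := by
    intro u G h
    have := h.tendsto_div_nhds_zero.add_const G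
    rw [zero_add] at this
    refine this.congr' ?_
    filter_upwards [hL0] with ε h
    field_simp
    ring
  have t2 := lim g1'
  have t3 := lim g2'
  have t4 : Tendsto (fun ε => (sysH K).lam ε / LL ε) (𝓝[>] 0) (𝓝 1) :=
    lim (by simpa using lamS_sub (sysH K))
  have t5 := t4.add (t2.add (t3.const_mul (-(1 / 9))))
  have t6 : Tendsto (fun ε => ((s₁ * z₁ ε + s₂ * z₂ ε) - EH K ε (fun x => T x * fr x) / LL ε) +
      ((sysH K).lam ε / LL ε + (EH K ε (fun x => fr x ^ 2) / LL ε +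
        (-(1 / 9)) * (EH K ε (fun x => (fr x ^ 2 - 1) ^ 2) / LL ε)))) (𝓝[>] 0)
      (𝓝 (0 + (1 + (1 + (-(1 / 9)) * C)))) := t1.add t5
  filter_upwards [k2, hL0, t6.eventually_lt_const
    (by linarith : 0 + (1 + (1 + (-(1 / 9)) * C)) < 2 - C / 9 + η)] with ε h3 h4 h5
  have h6 : EH K ε (fun x => T x * fr x) / LL ε ≤ (sysH K).lam ε / LL ε +
      (EH K ε (fun x => fr x ^ 2) / LL ε +
        (-(1 / 9)) * (EH K ε (fun x => (fr x ^ 2 - 1) ^ 2) / LL ε)) := by
    have e6 : (sysH K).lam ε / LL ε + (EH K ε (fun x => fr x ^ 2) / LL ε +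
        (-(1 / 9)) * (EH K ε (fun x => (fr x ^ 2 - 1) ^ 2) / LL ε)) =
        ((sysH K).lam ε + (EH K ε (fun x => fr x ^ 2) +
        (-(1 / 9)) * EH K ε (fun x => (fr x ^ 2 - 1) ^ 2))) / LL ε := by ring
    rw [e6]
    exact div_le_div_of_nonneg_right h3 h4.le
  linarith

end

end Pool.Agent.Helper29X1.WG
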