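import Pool.Agent.Helper29X1.WG.Ineq
import Pool.Agent.N172.HS.Pr
import Pool.Agent.W540.BE.EC

/-!
# Elliptic curves: the twists by representations of the Weil group
-/

set_option autoImplicit false
set_option linter.unusedSectionVars false

namespace Pool.Agent.Helper29X1.WG

open NumberField Complex Filter Topology IsDedekindDomain Asymptotics Polynomial
open Pool.Agent.W353.EF (LFun size)
open Pool.Agent.W353.TP (HX sysH LL LL_tendsto bdd_isLittleO lamS_sub)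
open Pool.Agent.W353.NF (vx)
open Pool.Agent.W540.BE (nm two_le_nm trv affCount redv hasse_v exists_roots finite_mem_prime)
open Pool.Agent.Y149.Ord (HasOrder tendsto_size)
open Pool.Agent.N172.HS
open scoped ComplexConjugate

section

variable {K : Type} [Field K] [NumberField K]

/-- the normalised trace -/
noncomputable def TE (W : WeierstrassCurve (𝓞 K)) (v : HeightOneSpectrum (𝓞 K)) : ℝ :=
  if |(trv W v : ℝ)| ≤ 2 * Real.sqrt (nm K v) then (trv W v : ℝ) / Real.sqrt (nm K v) else 0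

theorem nm_pos (v : HeightOneSpectrum (𝓞 K)) : (0 : ℝ) < nm K v := by
  have := two_le_nm v
  exact_mod_cast (by omega : 0 < nm K v)

theorem abs_TE (W : WeierstrassCurve (𝓞 K)) (v : HeightOneSpectrum (𝓞 K)) : |TE W v| ≤ 2 := by
  unfold TE
  split_ifs with h
  · have h1 : 0 < Real.sqrt (nm K v) := Real.sqrt_pos.2 (nm_pos v)
    rw [abs_div, abs_of_pos h1, div_le_iff₀ h1]
    exact h
  · rw [abs_zero]; norm_num

/-- the good primes -/
def Good (W : WeierstrassCurve (𝓞 K)) (v : HeightOneSpectrum (𝓞 K)) : Prop :=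
  (6 : 𝓞 K) ∉ v.asIdeal ∧ W.Δ ∉ v.asIdeal

theorem good_ev (W : WeierstrassCurve (𝓞 K)) (hΔ : W.Δ ≠ 0) : ∀ᶠ v in cofinite, Good W v := by
  have h6 : (6 : 𝓞 K) ≠ 0 := by norm_num
  rw [Filter.eventually_cofinite]
  refine ((finite_mem_prime h6).union (finite_mem_prime hΔ)).subset fun v hv => ?_
  unfold Good at hv
  rw [Set.mem_ofPred_eq, not_and_or, not_not, not_not] at hv
  exact hv

theorem TE_good {W : WeierstrassCurve (𝓞 K)} {v : HeightOneSpectrum (𝓞 K)} (h : Good W v) :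
    TE W v = (trv W v : ℝ) / Real.sqrt (nm K v) := by
  unfold TE
  rw [if_pos (hasse_v W v h.1 h.2)]

/-- The polynomials `B v` are the Euler factors of `L(E ⊗ ρ, s)`. -/
def IsTwist (W : WeierstrassCurve (𝓞 K)) (ρ : WRep K) (B : HeightOneSpectrum (𝓞 K) → ℂ[X]) :
    Prop :=
  (∃ M : ℕ, ∀ᶠ v in cofinite, ∃ γ : Fin M → ℂ, (∀ l, ‖γ l‖ = 1) ∧ ∑ l, γ l = ρ.trace v ∧
    ∀ z : ℂ, (B v).eval z = ∏ l, (1 - (trv W v : ℂ) * (γ l * z) +
      (Ideal.absNorm v.asIdeal : ℂ) * (γ l * z) ^ 2)) ∧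
  ∀ v, (B v).eval ((Ideal.absNorm v.asIdeal : ℂ) ^ (-((1 : ℕ) : ℂ) / 2 - 1)) ≠ 0

theorem half_cast : ((1 : ℕ) : ℝ) / 2 = 1 / 2 := by norm_num

theorem rpow_half_eq (v : HeightOneSpectrum (𝓞 K)) :
    ((nm K v : ℕ) : ℂ) ^ (-(((1 : ℕ) : ℂ) / 2)) = (((Real.sqrt (nm K v))⁻¹ : ℝ) : ℂ) := by
  have h1 : (0 : ℝ) ≤ (nm K v : ℝ) := (nm_pos v).le
  have e1 : (-(((1 : ℕ) : ℂ) / 2)) = ((-(1 / 2) : ℝ) : ℂ) := by push_cast; ring
  have e2 : ((nm K v : ℕ) : ℂ) = ((nm K v : ℝ) : ℂ) := by push_cast; rfl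
  rw [e1, e2, ← Complex.ofReal_cpow h1, Real.rpow_neg h1, ← Real.sqrt_eq_rpow]

/-- **The size of the twist by a function.** -/
theorem size_fun (W : WeierstrassCurve (𝓞 K)) (hΔ : W.Δ ≠ 0)
    {τ : HeightOneSpectrum (𝓞 K) → ℂ} {b : ℝ} (hb : ∀ x : HX K, ‖τ (vx x)‖ ≤ b)
    {B : HeightOneSpectrum (𝓞 K) → ℂ[X]} {M : ℕ}
    (hM : ∀ᶠ v in cofinite, ∃ γ : Fin M → ℂ, (∀ l, ‖γ l‖ = 1) ∧ ∑ l, γ l = τ v ∧
      ∀ z : ℂ, (B v).eval z = ∏ l, (1 - (trv W v : ℂ) * (γ l * z) +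
        (Ideal.absNorm v.asIdeal : ℂ) * (γ l * z) ^ 2))
    (hB0 : ∀ v, (B v).eval ((Ideal.absNorm v.asIdeal : ℂ) ^ (-((1 : ℕ) : ℂ) / 2 - 1)) ≠ 0) :
    (∀ᶠ ε : ℝ in 𝓝[>] 0, LFun B (((1 : ℕ) : ℂ) / 2 + 1 + ε) ≠ 0) ∧
    (fun ε => size 1 B ε * LL ε - EH K ε (fun x => TE W (vx x) * (τ (vx x)).re))
      =o[𝓝[>] 0] LL := by
  refine size_H (K := K) (ι := Fin 2 × Fin M) (i := 1) B
    (fun v => TE W v * (τ v).re) ?_ ?_ (D := 2 * b) (fun x => ?_)
  · filter_upwards [hM, good_ev W hΔ] with v hv hg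
    obtain ⟨γ, h2, h3, h4⟩ := hv
    obtain ⟨α, a1, a2, a3⟩ := exists_roots (nm_pos v) (hasse_v W v hg.1 hg.2)
    refine ⟨fun l => α l.1 * γ l.2, fun l => ?_, ?_, fun z => ?_⟩
    · rw [norm_mul, h2, mul_one, a1, half_cast]
    · have e2 : ∑ l : Fin 2 × Fin M, α l.1 * γ l.2 = (∑ j, α j) * τ v := by
        rw [← h3, Finset.sum_mul_sum, ← Finset.univ_product_univ, Finset.sum_product]
      rw [e2, Fin.sum_univ_two, a2, rpow_half_eq, TE_good hg]
      have e3 : (((trv W v : ℝ) : ℂ)) * τ v * (((Real.sqrt (nm K v))⁻¹ : ℝ) : ℂ) =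
          (((trv W v : ℝ) / Real.sqrt (nm K v) : ℝ) : ℂ) * τ v := by
        push_cast
        ring
      rw [e3, Complex.re_ofReal_mul]
    · rw [h4, ← Finset.univ_product_univ, Finset.prod_product, Fin.prod_univ_two,
        ← Finset.prod_mul_distrib]
      refine Finset.prod_congr rfl fun l _ => ?_
      have e4 : (α 0 + α 1 : ℂ) = (trv W v : ℂ) := by rw [a2]; push_cast; rfl
      have e5 : (α 0 * α 1 : ℂ) = (Ideal.absNorm v.asIdeal : ℂ) := by rw [a3]; push_cast; rfl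
      rw [← e4, ← e5]
      ring
  · intro v
    have e : (-(((1 : ℕ) : ℂ) / 2 + 1)) = -((1 : ℕ) : ℂ) / 2 - 1 := by ring
    rw [e]
    exact hB0 v
  · rw [abs_mul]
    exact mul_le_mul (abs_TE W _) ((Complex.abs_re_le_norm _).trans (hb x)) (abs_nonneg _)
      (by norm_num)

theorem twist_size (W : WeierstrassCurve (𝓞 K)) (hΔ : W.Δ ≠ 0) {ρ : WRep K}
    {B : HeightOneSpectrum (𝓞 K) → ℂ[X]} (hB : IsTwist W ρ B) :
    (∀ᶠ ε : ℝ in 𝓝[>] 0, LFun B (((1 : ℕ) : ℂ) / 2 + 1 + ε) ≠ 0) ∧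
    (fun ε => size 1 B ε * LL ε - EH K ε (fun x => TE W (vx x) * (ρ.tH x).re))
      =o[𝓝[>] 0] LL := by
  obtain ⟨⟨M, hM⟩, hB0⟩ := hB
  have h := size_fun W hΔ (τ := ρ.trace) (b := ρ.bd) (fun x => by
    rw [ρ.trace_vx]; exact ρ.norm_tH_le x) hM hB0
  simp only [WRep.trace_vx] at h
  exact h

/-- `(1 / log(1/ε)) ∑ a_v² q_v^{-2-ε}` -/
noncomputable def meanSq (W : WeierstrassCurve (𝓞 K)) (ε : ℝ) : ℝ :=
  (∑' v : HeightOneSpectrum (𝓞 K), (trv W v : ℝ) ^ 2 *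
    (Ideal.absNorm v.asIdeal : ℝ) ^ (-(2 + ε))) / Real.log (1 / ε)

theorem meanSq_EH (W : WeierstrassCurve (𝓞 K)) (hΔ : W.Δ ≠ 0) :
    (fun ε => meanSq W ε * LL ε - EH K ε (fun x => TE W (vx x) ^ 2)) =o[𝓝[>] 0] LL := by
  classical
  have hfin : {v | ¬ Good W v}.Finite := by
    have := good_ev W hΔ
    rwa [Filter.eventually_cofinite] at this
  set S : Finset (HeightOneSpectrum (𝓞 K)) := hfin.toFinset with hS
  have hTb : ∀ v, |TE W v ^ 2| ≤ 4 := fun v => by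
    rw [abs_pow]
    calc |TE W v| ^ 2 ≤ 2 ^ 2 := pow_le_pow_left₀ (abs_nonneg _) (abs_TE W v) 2
      _ = 4 := by norm_num
  apply bdd_isLittleO
  refine ⟨(∑ v ∈ S, ((trv W v : ℝ) ^ 2 + 4)) +
    4 * Module.finrank ℚ K * Pool.Agent.H921R2.TatePole.C0, ?_⟩
  filter_upwards [self_mem_nhdsWithin, LL_tendsto.eventually_gt_atTop 0] with ε h3 h4
  have hε : (0 : ℝ) < ε := h3
  have h5 := EV_EH (K := K) (g := fun v => TE W v ^ 2) hTb hε
  set r : HeightOneSpectrum (𝓞 K) → ℝ := fun v => (trv W v : ℝ) ^ 2 *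
    (nm K v : ℝ) ^ (-(2 + ε)) - TE W v ^ 2 * (nm K v : ℝ) ^ (-(1 + ε)) with hr
  have hr0 : ∀ v ∉ S, r v = 0 := by
    intro v hv
    rw [hS, Set.Finite.mem_toFinset, Set.mem_ofPred_eq, not_not] at hv
    rw [hr]
    simp only
    have hp := nm_pos v
    rw [TE_good hv, div_pow, Real.sq_sqrt hp.le,
      show (-(2 + ε) : ℝ) = -(1 + ε) + (-1) by ring, Real.rpow_add hp, Real.rpow_neg_one]
    ring
  have hw : ∀ v : HeightOneSpectrum (𝓞 K), (nm K v : ℝ) ^ (-(1 + ε)) ≤ 1 := fun v => by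
    apply Real.rpow_le_one_of_one_le_of_nonpos
    · have := two_le_nm v
      exact_mod_cast (by omega : 1 ≤ nm K v)
    · linarith
  have hw2 : ∀ v : HeightOneSpectrum (𝓞 K), (nm K v : ℝ) ^ (-(2 + ε)) ≤ 1 := fun v => by
    apply Real.rpow_le_one_of_one_le_of_nonpos
    · have := two_le_nm v
      exact_mod_cast (by omega : 1 ≤ nm K v)
    · linarith
  have hrb : |∑' v, r v| ≤ ∑ v ∈ S, ((trv W v : ℝ) ^ 2 + 4) := by
    rw [tsum_eq_sum hr0]
    refine (Finset.abs_sum_le_sum_abs _ _).trans (Finset.sum_le_sum fun v _ => ?_)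
    rw [hr]
    simp only
    have hp : (0 : ℝ) ≤ nm K v := (nm_pos v).le
    refine (abs_sub _ _).trans (add_le_add ?_ ?_)
    · rw [abs_mul, abs_of_nonneg (sq_nonneg _), abs_of_nonneg (Real.rpow_nonneg hp _)]
      exact mul_le_of_le_one_right (sq_nonneg _) (hw2 v)
    · rw [abs_mul, abs_of_nonneg (Real.rpow_nonneg hp _)]
      refine (mul_le_of_le_one_right (abs_nonneg _) (hw v)).trans (hTb v)
  have hsum1 : Summable fun v : HeightOneSpectrum (𝓞 K) =>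
      TE W v ^ 2 * (nm K v : ℝ) ^ (-(1 + ε)) :=
    (Pool.Agent.H341R2.sysK K).summable_E hε (φ := fun v => TE W v ^ 2) hTb
  have hsum2 : Summable r := summable_of_finite_support (S.finite_toSet.subset fun v hv => by
    by_contra h
    exact hv (hr0 v h))
  have e1 : ∑' v : HeightOneSpectrum (𝓞 K), (trv W v : ℝ) ^ 2 *
      (Ideal.absNorm v.asIdeal : ℝ) ^ (-(2 + ε)) = EV K ε (fun v => TE W v ^ 2) + ∑' v, r v := by
    have e2 : EV K ε (fun v => TE W v ^ 2) =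
        ∑' v : HeightOneSpectrum (𝓞 K), TE W v ^ 2 * (nm K v : ℝ) ^ (-(1 + ε)) := rfl
    rw [e2, ← hsum1.tsum_add hsum2]
    refine tsum_congr fun v => ?_
    rw [hr]
    simp only
    have e3 : (Ideal.absNorm v.asIdeal : ℝ) = (nm K v : ℝ) := rfl
    rw [e3]
    ring
  have e4 : meanSq W ε * LL ε = EV K ε (fun v => TE W v ^ 2) + ∑' v, r v := by
    unfold meanSq
    rw [e1]
    have : LL ε = Real.log (1 / ε) := rfl
    rw [← this, div_mul_cancel₀ _ h4.ne']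
  rw [e4]
  have e5 : EV K ε (fun v => TE W v ^ 2) + ∑' v, r v - EH K ε (fun x => TE W (vx x) ^ 2) =
      (∑' v, r v) + (EV K ε (fun v => TE W v ^ 2) - EH K ε (fun x => TE W (vx x) ^ 2)) := by ring
  rw [e5]
  exact (abs_add_le _ _).trans (add_le_add hrb h5)

theorem meanSq_le (W : WeierstrassCurve (𝓞 K)) (hΔ : W.Δ ≠ 0) {η : ℝ} (hη : 0 < η) :
    ∀ᶠ ε : ℝ in 𝓝[>] 0, meanSq W ε ≤ 4 + η := by
  have hL0 : ∀ᶠ ε : ℝ in 𝓝[>] 0, 0 < LL ε := LL_tendsto.eventually_gt_atTop 0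
  have t2 : Tendsto (fun ε => meanSq W ε - EH K ε (fun x => TE W (vx x) ^ 2) / LL ε)
      (𝓝[>] 0) (𝓝 0) := by
    refine (meanSq_EH W hΔ).tendsto_div_nhds_zero.congr' ?_
    filter_upwards [hL0] with ε h
    rw [sub_div, mul_div_cancel_right₀ _ h.ne']
  have hlam : Tendsto (fun ε => 4 * ((sysH K).lam ε / LL ε)) (𝓝[>] 0) (𝓝 4) := by
    have h1 : Tendsto (fun ε => (sysH K).lam ε / LL ε) (𝓝[>] 0) (𝓝 1) := by
      have := (lamS_sub (sysH K)).tendsto_div_nhds_zero.add_const 1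
      rw [zero_add] at this
      refine this.congr' ?_
      filter_upwards [hL0] with ε h
      field_simp
      ring
    have := h1.const_mul 4
    rwa [mul_one] at this
  filter_upwards [hL0, hlam.eventually_lt_const (by linarith : (4 : ℝ) < 4 + η / 2),
    t2.eventually_lt_const (by linarith : (0 : ℝ) < η / 2), self_mem_nhdsWithin]
    with ε h5 h6 h7 h8
  have hε : (0 : ℝ) < ε := h8
  have h9 : EH K ε (fun x => TE W (vx x) ^ 2) ≤ 4 * (sysH K).lam ε := by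
    have e1 : EH K ε (fun _ => 4) = 4 * (sysH K).lam ε := by
      have := EH_const_mul (K := K) (ε := ε) 4 (fun _ => 1)
      rw [EH_one] at this
      simpa using this
    have hb : ∀ x : HX K, |TE W (vx x) ^ 2| ≤ 4 := fun x => by
      rw [abs_pow]
      calc |TE W (vx x)| ^ 2 ≤ 2 ^ 2 := pow_le_pow_left₀ (abs_nonneg _) (abs_TE W _) 2
        _ = 4 := by norm_num
    rw [← e1]
    exact EH_mono' (a := 4) (b := 4) hb (fun _ => by norm_num)
      (fun x => (le_abs_self _).trans (hb x)) hε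
  have h10 : EH K ε (fun x => TE W (vx x) ^ 2) / LL ε ≤ 4 * ((sysH K).lam ε / LL ε) := by
    rw [← mul_div_assoc]
    exact div_le_div_of_nonneg_right h9 h5.le
  linarith

/-- **The inequality for the twists.** -/
theorem twist_ineq (W : WeierstrassCurve (𝓞 K)) (hΔ : W.Δ ≠ 0) {κ : Type} [Fintype κ]
    {ρ : κ → WRep K} {B : κ → HeightOneSpectrum (𝓞 K) → ℂ[X]} (hB : ∀ k, IsTwist W (ρ k) (B k))
    (c : κ → ℝ) {η : ℝ} (hη : 0 < η) :
    ∀ᶠ ε : ℝ in 𝓝[>] 0, (∑ k, c k * size 1 (B k) ε) ^ 2 ≤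
      meanSq W ε * (∑ k, ∑ l, c k * c l * (ρ k).inner (ρ l)) + η :=
  main_ineq (fun k => (ρ k).tH) (fun k => (ρ k).bdd) (fun k l => (ρ k).inner (ρ l))
    (fun k l => WRep.gram Pool.Agent.N134.HS.t_nvq (ρ k) (ρ l))
    (T := fun x => TE W (vx x)) (a := 2) (fun x => abs_TE W _)
    (fun k => size 1 (B k)) (fun k => (twist_size W hΔ (hB k)).2) (meanSq W) (meanSq_EH W hΔ) c hη

end

end Pool.Agent.Helper29X1.WG
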