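import Mathlib

/-!
# The extreme coefficients
-/

set_option autoImplicit false

namespace Pool.Agent.Helper29X1.WG.SF

open Finset

/-- **The squares and the two extreme coefficients.** -/
theorem ext_core {m : ℝ → ℝ} {E : ℝ} (S : Finset ℝ) {τ₁ τ₂ : ℝ} (h12 : τ₁ < τ₂) (h1 : τ₁ ∈ S)
    (h2 : τ₂ ∈ S) (hS : ∀ τ, m τ ≠ 0 → τ₁ ≤ τ ∧ τ ≤ τ₂) (hSm : ∀ τ ∈ S, τ₁ ≤ τ ∧ τ ≤ τ₂)
    (H : ∀ (n : ℕ) (κ : Type) [Fintype κ] (p : κ → ℝ), Function.Injective p → ∀ s : ℝ, s ^ 2 = 1 →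
      ∑ k, (∑ l : Fin (n + 1), s ^ (l : ℕ) * m (p k - (l : ℕ) * (τ₂ - τ₁))) ^ 2 ≤ E * (n + 1)) :
    ∑ τ ∈ S, m τ ^ 2 + 2 * |m τ₁ * m τ₂| ≤ E := by
  classical
  set ω : ℝ := τ₂ - τ₁ with hω
  have hω0 : 0 < ω := sub_pos.2 h12
  obtain ⟨s, hs, hs'⟩ : ∃ s : ℝ, s ^ 2 = 1 ∧ s * (m τ₁ * m τ₂) = |m τ₁ * m τ₂| := by
    rcases abs_cases (m τ₁ * m τ₂) with ⟨h, _⟩ | ⟨h, _⟩
    · exact ⟨1, by norm_num, by rw [h, one_mul]⟩
    · exact ⟨-1, by norm_num, by rw [h]; ring⟩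
  have hsk : ∀ k : ℕ, (s ^ k) ^ 2 = 1 := fun k => by rw [← pow_mul, mul_comm, pow_mul, hs, one_pow]
  have hm0 : ∀ x, (x < τ₁ ∨ τ₂ < x) → m x = 0 := by
    intro x hx
    by_contra h
    have := hS x h
    rcases hx with hx | hx <;> linarith [this.1, this.2]
  set A : ℝ := ∑ τ ∈ (S.erase τ₂).erase τ₁, m τ ^ 2 with hA
  set D : ℝ := m τ₁ ^ 2 + m τ₂ ^ 2 + 2 * |m τ₁ * m τ₂| with hD
  have hA0 : 0 ≤ A := Finset.sum_nonneg fun _ _ => sq_nonneg _
  have hD0 : 0 ≤ D := by positivity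
  have hsum : ∑ τ ∈ S, m τ ^ 2 + 2 * |m τ₁ * m τ₂| = A + D := by
    have e1 := Finset.add_sum_erase S (fun τ => m τ ^ 2) h2
    have e2 := Finset.add_sum_erase (S.erase τ₂) (fun τ => m τ ^ 2)
      (Finset.mem_erase.2 ⟨h12.ne, h1⟩)
    rw [hD, hA]
    linarith
  rw [hsum]
  -- the inequality for `n + 1` translates
  have main : ∀ n : ℕ, ((n : ℝ) + 1) * A + n * D ≤ E * (n + 1) := by
    intro n
    set p : {τ // τ ∈ S.erase τ₂} × Fin (n + 1) → ℝ := fun u => u.1.1 + (u.2 : ℕ) * ω with hp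
    set q : Fin (n + 1) → ℝ := fun l => (l : ℕ) * ω with hq
    have hpi : Function.Injective p := by
      rintro ⟨⟨τ, hτ⟩, k⟩ ⟨⟨τ', hτ'⟩, k'⟩ h
      rw [hp] at h
      simp only at h
      have b1 := hSm τ (Finset.mem_erase.1 hτ).2
      have b2 := hSm τ' (Finset.mem_erase.1 hτ').2
      have b3 : τ < τ₂ := lt_of_le_of_ne b1.2 (Finset.mem_erase.1 hτ).1
      have b4 : τ' < τ₂ := lt_of_le_of_ne b2.2 (Finset.mem_erase.1 hτ').1
      have hkk : (k : ℕ) = (k' : ℕ) := by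
        rcases lt_trichotomy (k : ℕ) (k' : ℕ) with h3 | h3 | h3
        · exfalso
          have h4 : ((k : ℕ) : ℝ) + 1 ≤ ((k' : ℕ) : ℝ) := by exact_mod_cast h3
          have h5 : (((k : ℕ) : ℝ) + 1) * ω ≤ ((k' : ℕ) : ℝ) * ω :=
            mul_le_mul_of_nonneg_right h4 hω0.le
          rw [hω] at h5 h
          linarith [b1.1, b2.1]
        · exact h3
        · exfalso
          have h4 : ((k' : ℕ) : ℝ) + 1 ≤ ((k : ℕ) : ℝ) := by exact_mod_cast h3
          have h5 : (((k' : ℕ) : ℝ) + 1) * ω ≤ ((k : ℕ) : ℝ) * ω :=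
            mul_le_mul_of_nonneg_right h4 hω0.le
          rw [hω] at h5 h
          linarith [b1.1, b2.1]
      have hττ : τ = τ' := by
        rw [hkk] at h
        linarith
      subst hττ
      exact Prod.ext rfl (Fin.ext hkk)
    set M : {τ // τ ∈ S.erase τ₂} × Fin (n + 1) → ℝ := fun u =>
      ∑ l : Fin (n + 1), s ^ (l : ℕ) * m (p u - q l) with hM
    set Q : ℝ := ∑ u, M u ^ 2 with hQ
    have k2 : Q ≤ E * (n + 1) := H n _ p hpi s hs
    refine le_trans ?_ k2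
    -- the values of `M`
    have v1 : ∀ (τ : {τ // τ ∈ S.erase τ₂}) (k : Fin (n + 1)), τ.1 ≠ τ₁ →
        M (τ, k) ^ 2 = m τ.1 ^ 2 := by
      intro τ k hτ
      have b1 := hSm τ.1 (Finset.mem_erase.1 τ.2).2
      have b2 : τ.1 < τ₂ := lt_of_le_of_ne b1.2 (Finset.mem_erase.1 τ.2).1
      have b3 : τ₁ < τ.1 := lt_of_le_of_ne b1.1 (Ne.symm hτ)
      have e1 : M (τ, k) = s ^ (k : ℕ) * m τ.1 := by
        rw [hM]
        simp only
        rw [Finset.sum_eq_single k]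
        · rw [hp, hq]
          simp only
          rw [add_sub_cancel_right]
        · intro l _ hl
          rw [hm0, mul_zero]
          rw [hp, hq]
          simp only
          rcases lt_or_gt_of_ne (fun h => hl (Fin.ext h) : (l : ℕ) ≠ (k : ℕ)) with h3 | h3
          · right
            have h4 : ((l : ℕ) : ℝ) + 1 ≤ ((k : ℕ) : ℝ) := by exact_mod_cast h3
            have h5 := mul_le_mul_of_nonneg_right h4 hω0.le
            rw [hω] at h5 ⊢
            linarith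
          · left
            have h4 : ((k : ℕ) : ℝ) + 1 ≤ ((l : ℕ) : ℝ) := by exact_mod_cast h3
            have h5 := mul_le_mul_of_nonneg_right h4 hω0.le
            rw [hω] at h5 ⊢
            linarith
        · intro h; exact absurd (Finset.mem_univ _) h
      rw [e1, mul_pow, hsk, one_mul]
    have hmem : τ₁ ∈ S.erase τ₂ := Finset.mem_erase.2 ⟨h12.ne, h1⟩
    have v2 : ∀ k : Fin n, M (⟨τ₁, hmem⟩, k.succ) ^ 2 = D := by
      intro k
      have e1 : M (⟨τ₁, hmem⟩, k.succ) = s ^ ((k : ℕ) + 1) * m τ₁ + s ^ (k : ℕ) * m τ₂ := by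
        rw [hM]
        simp only
        rw [Fintype.sum_eq_add k.succ k.castSucc]
        · rw [hp, hq]
          simp only [Fin.val_succ, Fin.val_castSucc]
          congr 2
          · congr 1
            ring
          · congr 1
            rw [hω]
            push_cast
            ring
        · intro h
          have := congrArg Fin.val h
          simp at this
        · rintro l ⟨hl1, hl2⟩
          rw [hm0, mul_zero]
          rw [hp, hq]
          simp only [Fin.val_succ]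
          have g1 : (l : ℕ) ≠ (k : ℕ) + 1 := fun h => hl1 (Fin.ext (by simp [h]))
          have g2 : (l : ℕ) ≠ (k : ℕ) := fun h => hl2 (Fin.ext (by simp [h]))
          rcases lt_or_gt_of_ne g2 with h3 | h3
          · right
            have h4 : ((l : ℕ) : ℝ) + 1 ≤ ((k : ℕ) : ℝ) := by exact_mod_cast h3
            have h5 := mul_le_mul_of_nonneg_right h4 hω0.le
            have h6 : (((k : ℕ) + 1 : ℕ) : ℝ) * ω = ((k : ℕ) : ℝ) * ω + ω := by push_cast; ring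
            rw [h6]
            have h7 : (((l : ℕ) : ℝ) + 1) * ω = ((l : ℕ) : ℝ) * ω + ω := by ring
            rw [h7] at h5
            have h8 : ω = τ₂ - τ₁ := hω
            linarith
          · left
            have h3' : (k : ℕ) + 2 ≤ (l : ℕ) := by omega
            have h4 : ((k : ℕ) : ℝ) + 2 ≤ ((l : ℕ) : ℝ) := by exact_mod_cast h3'
            have h5 := mul_le_mul_of_nonneg_right h4 hω0.le
            have h6 : (((k : ℕ) + 1 : ℕ) : ℝ) * ω = ((k : ℕ) : ℝ) * ω + ω := by push_cast; ring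
            rw [h6]
            have h7 : (((k : ℕ) : ℝ) + 2) * ω = ((k : ℕ) : ℝ) * ω + 2 * ω := by ring
            rw [h7] at h5
            linarith
      rw [e1, hD, pow_succ s]
      have e2 : (s ^ (k : ℕ) * s * m τ₁ + s ^ (k : ℕ) * m τ₂) ^ 2 =
          (s ^ (k : ℕ)) ^ 2 * (s ^ 2 * m τ₁ ^ 2 + m τ₂ ^ 2 + 2 * (s * (m τ₁ * m τ₂))) := by ring
      rw [e2, hsk, hs, hs']
      ring
    -- the sum
    have hsplit : Q = ∑ τ : {τ // τ ∈ S.erase τ₂}, ∑ k : Fin (n + 1), M (τ, k) ^ 2 := by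
      rw [hQ, Fintype.sum_prod_type]
    have hsplit2 := Fintype.sum_eq_add_sum_compl (⟨τ₁, hmem⟩ : {τ // τ ∈ S.erase τ₂})
      (fun τ => ∑ k : Fin (n + 1), M (τ, k) ^ 2)
    rw [hsplit, hsplit2]
    have w1 : (n : ℝ) * D ≤ ∑ k : Fin (n + 1), M (⟨τ₁, hmem⟩, k) ^ 2 := by
      rw [Fin.sum_univ_succ, Finset.sum_congr rfl fun k _ => v2 k, Finset.sum_const,
        Finset.card_univ, Fintype.card_fin, nsmul_eq_mul]
      have := sq_nonneg (M (⟨τ₁, hmem⟩, 0))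
      linarith
    have w2 : ((n : ℝ) + 1) * A = ∑ τ ∈ ({⟨τ₁, hmem⟩} : Finset {τ // τ ∈ S.erase τ₂})ᶜ,
        ∑ k : Fin (n + 1), M (τ, k) ^ 2 := by
      have e1 : ∀ τ ∈ ({⟨τ₁, hmem⟩} : Finset {τ // τ ∈ S.erase τ₂})ᶜ,
          ∑ k : Fin (n + 1), M (τ, k) ^ 2 = ((n : ℝ) + 1) * m τ.1 ^ 2 := by
        intro τ hτ
        rw [Finset.mem_compl, Finset.mem_singleton] at hτ
        rw [Finset.sum_congr rfl fun k _ => v1 τ k (fun h => hτ (Subtype.ext h)),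
          Finset.sum_const, Finset.card_univ, Fintype.card_fin, nsmul_eq_mul]
        push_cast
        ring
      rw [Finset.sum_congr rfl e1, ← Finset.mul_sum, hA]
      congr 1
      have e3 : ∑ τ : {τ // τ ∈ S.erase τ₂}, m τ.1 ^ 2 = ∑ τ ∈ S.erase τ₂, m τ ^ 2 :=
        Finset.sum_coe_sort (S.erase τ₂) (fun τ => m τ ^ 2)
      have e4 := Fintype.sum_eq_add_sum_compl (⟨τ₁, hmem⟩ : {τ // τ ∈ S.erase τ₂})
        (fun τ => m τ.1 ^ 2)
      have e5 := Finset.add_sum_erase (S.erase τ₂) (fun τ => m τ ^ 2) hmem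
      simp only at e4 e5
      linarith
    rw [w2]
    linarith
  -- the limit
  by_contra hcon
  push Not at hcon
  obtain ⟨n, hn⟩ := exists_nat_gt (D / (A + D - E))
  have h3 : 0 < A + D - E := by linarith
  rw [div_lt_iff₀ h3] at hn
  have h4 := main n
  nlinarith

/-- a quadratic inequality -/
theorem quad_le {Q C k e : ℝ} (hQ : 0 ≤ Q) (hk : 0 < k) (he : 0 < e)
    (h : ∀ t : ℝ, t * (e * Q) ≤ C * ((e * Q + t ^ 2 * k) / 2)) : e * Q ≤ C ^ 2 * k := by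
  set t : ℝ := Real.sqrt (e * Q / k) with ht
  have ht2 : t ^ 2 * k = e * Q := by
    rw [ht, Real.sq_sqrt (by positivity)]
    field_simp
  have ht0 : 0 ≤ t := Real.sqrt_nonneg _
  have h1 := h t
  rw [ht2] at h1
  rcases eq_or_lt_of_le hQ with h3 | h3
  · rw [← h3, mul_zero]; positivity
  · have h4 : t ≤ C := by
      have h5 : t * (e * Q) ≤ C * (e * Q) := by linarith
      exact le_of_mul_le_mul_right h5 (mul_pos he h3)
    rw [← ht2]
    exact mul_le_mul_of_nonneg_right (pow_le_pow_left₀ ht0 h4 2) hk.le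

theorem sq_pow {s : ℝ} (hs : s ^ 2 = 1) (k : ℕ) : (s ^ k) ^ 2 = 1 := by
  rw [← pow_mul, mul_comm, pow_mul, hs, one_pow]

theorem prog_inj {n : ℕ} {ω : ℝ} (hω : ω ≠ 0) :
    Function.Injective (fun l : Fin (n + 1) => ((l : ℕ) : ℝ) * ω) := by
  intro l l' h
  simp only at h
  have := mul_right_cancel₀ hω h
  exact Fin.ext (by exact_mod_cast this)

/-- the first bilinear inequality -/
theorem H_of_key {m : ℝ → ℝ} {C : ℝ} (hC : 0 ≤ C)
    (key : ∀ (κ μ : Type) [Fintype κ] [Fintype μ] (p : κ → ℝ) (q : μ → ℝ),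
      Function.Injective p → Function.Injective q → ∀ (a : κ → ℝ) (b : μ → ℝ),
      ∑ k, ∑ l, a k * b l * m (p k - q l) ≤ C * ((∑ k, a k ^ 2 + ∑ l, b l ^ 2) / 2))
    {ω : ℝ} (hω : ω ≠ 0) (n : ℕ) (κ : Type) [Fintype κ] (p : κ → ℝ) (hp : Function.Injective p)
    (s : ℝ) (hs : s ^ 2 = 1) :
    ∑ k, (∑ l : Fin (n + 1), s ^ (l : ℕ) * m (p k - (l : ℕ) * ω)) ^ 2 ≤ C ^ 2 * (n + 1) := by
  set M : κ → ℝ := fun k => ∑ l : Fin (n + 1), s ^ (l : ℕ) * m (p k - (l : ℕ) * ω) with hM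
  set Q : ℝ := ∑ k, M k ^ 2 with hQ
  have hQ0 : 0 ≤ Q := Finset.sum_nonneg fun _ _ => sq_nonneg _
  have h := quad_le (e := 1) hQ0 (k := (n : ℝ) + 1) (by positivity) one_pos (fun t => by
    rw [one_mul]
    have h := key κ (Fin (n + 1)) p (fun l => ((l : ℕ) : ℝ) * ω) hp (prog_inj hω) M
      (fun l => t * s ^ (l : ℕ))
    have e1 : ∑ u, ∑ l : Fin (n + 1), M u * (t * s ^ (l : ℕ)) * m (p u - ((l : ℕ) : ℝ) * ω) =
        t * Q := by
      rw [hQ, Finset.mul_sum]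
      refine Finset.sum_congr rfl fun u _ => ?_
      have : M u ^ 2 = M u * ∑ l : Fin (n + 1), s ^ (l : ℕ) * m (p u - (l : ℕ) * ω) := by
        rw [sq]
      rw [this, Finset.mul_sum, Finset.mul_sum]
      refine Finset.sum_congr rfl fun l _ => ?_
      ring
    have e2 : ∑ l : Fin (n + 1), (t * s ^ (l : ℕ)) ^ 2 = t ^ 2 * (n + 1) := by
      have : ∀ l : Fin (n + 1), (t * s ^ (l : ℕ)) ^ 2 = t ^ 2 := fun l => by
        rw [mul_pow, sq_pow hs, mul_one]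
      rw [Finset.sum_congr rfl fun l _ => this l, Finset.sum_const, Finset.card_univ,
        Fintype.card_fin, nsmul_eq_mul]
      push_cast
      ring
    rw [e1, e2] at h
    exact h)
  rwa [one_mul] at h

/-- the second bilinear inequality -/
theorem H_of_key2 {m : ℝ → ℝ} {C : ℝ} (hC : 0 ≤ C)
    (key : ∀ (κ μ : Type) [Fintype κ] [Fintype μ] (p p' : κ → ℝ) (q : μ → ℝ),
      Function.Injective p → Function.Injective p' → Function.Injective q →
      ∀ (a a' : κ → ℝ) (b : μ → ℝ),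
      ∑ k, ∑ l, a k * b l * m (p k - q l) + ∑ k, ∑ l, a' k * b l * m (q l - p' k) ≤
        C * ((∑ k, a k ^ 2 + ∑ k, a' k ^ 2 + ∑ l, b l ^ 2) / 2))
    {ω : ℝ} (hω : ω ≠ 0) (n : ℕ) (κ : Type) [Fintype κ] (p : κ → ℝ) (hp : Function.Injective p)
    (s : ℝ) (hs : s ^ 2 = 1) :
    ∑ k, (∑ l : Fin (n + 1), s ^ (l : ℕ) * m (p k - (l : ℕ) * ω)) ^ 2 ≤
      C ^ 2 / 2 * (n + 1) := by
  set M : κ → ℝ := fun k => ∑ l : Fin (n + 1), s ^ (l : ℕ) * m (p k - (l : ℕ) * ω) with hM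
  set Q : ℝ := ∑ k, M k ^ 2 with hQ
  have hQ0 : 0 ≤ Q := Finset.sum_nonneg fun _ _ => sq_nonneg _
  have h := quad_le (e := 2) hQ0 (k := (n : ℝ) + 1) (by positivity) two_pos (fun t => by
    have h := key κ (Fin (n + 1)) p (fun k => n * ω - p k) (fun l => ((l : ℕ) : ℝ) * ω) hp
      (fun k k' hkk => hp (by simp only at hkk; linarith)) (prog_inj hω) M
      (fun k => s ^ n * M k) (fun l => t * s ^ (l : ℕ))
    have e1 : ∑ u, ∑ l : Fin (n + 1), M u * (t * s ^ (l : ℕ)) * m (p u - ((l : ℕ) : ℝ) * ω) =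
        t * Q := by
      rw [hQ, Finset.mul_sum]
      refine Finset.sum_congr rfl fun u _ => ?_
      have : M u ^ 2 = M u * ∑ l : Fin (n + 1), s ^ (l : ℕ) * m (p u - (l : ℕ) * ω) := by
        rw [sq]
      rw [this, Finset.mul_sum, Finset.mul_sum]
      refine Finset.sum_congr rfl fun l _ => ?_
      ring
    have e3 : ∑ u, ∑ l : Fin (n + 1), s ^ n * M u * (t * s ^ (l : ℕ)) *
        m (((l : ℕ) : ℝ) * ω - (n * ω - p u)) = t * Q := by
      rw [hQ, Finset.mul_sum]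
      refine Finset.sum_congr rfl fun u _ => ?_
      have : M u ^ 2 = M u * ∑ l : Fin (n + 1), s ^ (l : ℕ) * m (p u - (l : ℕ) * ω) := by
        rw [sq]
      have e30 := Equiv.sum_comp (Fin.revPerm (n := n + 1)) (fun l : Fin (n + 1) =>
        s ^ n * M u * (t * s ^ (l : ℕ)) * m (((l : ℕ) : ℝ) * ω - (n * ω - p u)))
      have r1 : t * M u ^ 2 = ∑ l : Fin (n + 1),
          t * (M u * (s ^ (l : ℕ) * m (p u - (l : ℕ) * ω))) := by
        rw [this, Finset.mul_sum, Finset.mul_sum]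
      rw [r1, ← e30]
      refine Finset.sum_congr rfl fun l _ => ?_
      have hl : (l : ℕ) ≤ n := Nat.lt_succ_iff.1 l.2
      have e4 : ((Fin.revPerm l : Fin (n + 1)) : ℕ) = n - (l : ℕ) := by
        rw [Fin.revPerm_apply, Fin.val_rev]
        omega
      have e5 : (((n - (l : ℕ) : ℕ) : ℝ)) = (n : ℝ) - (l : ℕ) := by
        rw [Nat.cast_sub hl]
      have e6 : s ^ n * s ^ (n - (l : ℕ)) = s ^ (l : ℕ) := by
        have h7 : s ^ n = s ^ (l : ℕ) * s ^ (n - (l : ℕ)) := by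
          rw [← pow_add]
          congr 1
          omega
        rw [h7, mul_assoc, ← sq, sq_pow hs, mul_one]
      rw [e4, e5]
      have e7 : ((n : ℝ) - (l : ℕ)) * ω - (n * ω - p u) = p u - (l : ℕ) * ω := by ring
      rw [e7]
      calc s ^ n * M u * (t * s ^ (n - (l : ℕ))) * m (p u - (l : ℕ) * ω) =
          M u * t * (s ^ n * s ^ (n - (l : ℕ))) * m (p u - (l : ℕ) * ω) := by ring
        _ = t * (M u * (s ^ (l : ℕ) * m (p u - (l : ℕ) * ω))) := by rw [e6]; ring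
    have e2 : ∑ l : Fin (n + 1), (t * s ^ (l : ℕ)) ^ 2 = t ^ 2 * (n + 1) := by
      have : ∀ l : Fin (n + 1), (t * s ^ (l : ℕ)) ^ 2 = t ^ 2 := fun l => by
        rw [mul_pow, sq_pow hs, mul_one]
      rw [Finset.sum_congr rfl fun l _ => this l, Finset.sum_const, Finset.card_univ,
        Fintype.card_fin, nsmul_eq_mul]
      push_cast
      ring
    have e8 : ∑ k, (s ^ n * M k) ^ 2 = Q := by
      rw [hQ]
      refine Finset.sum_congr rfl fun k _ => ?_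
      rw [mul_pow, sq_pow hs, one_mul]
    rw [e1, e2, e3, e8] at h
    have e9 : t * (2 * Q) = t * Q + t * Q := by ring
    have e10 : (2 * Q + t ^ 2 * (n + 1)) / 2 = (Q + Q + t ^ 2 * (n + 1)) / 2 := by ring
    rw [e9, e10]
    exact h)
  have : C ^ 2 / 2 * ((n : ℝ) + 1) = (C ^ 2 * (n + 1)) / 2 := by ring
  rw [this]
  linarith

/-- the squares, second form -/
theorem sq_of_key2 {m : ℝ → ℝ} {C : ℝ} (hC : 0 ≤ C)
    (key : ∀ (κ μ : Type) [Fintype κ] [Fintype μ] (p p' : κ → ℝ) (q : μ → ℝ),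
      Function.Injective p → Function.Injective p' → Function.Injective q →
      ∀ (a a' : κ → ℝ) (b : μ → ℝ),
      ∑ k, ∑ l, a k * b l * m (p k - q l) + ∑ k, ∑ l, a' k * b l * m (q l - p' k) ≤
        C * ((∑ k, a k ^ 2 + ∑ k, a' k ^ 2 + ∑ l, b l ^ 2) / 2)) (S : Finset ℝ) :
    2 * ∑ τ ∈ S, m τ ^ 2 ≤ C ^ 2 := by
  have h := H_of_key2 hC key (ω := 1) one_ne_zero 0 {τ // τ ∈ S} (fun τ => τ.1)
    Subtype.val_injective 1 (one_pow 2)
  have e1 : ∑ k : {τ // τ ∈ S}, (∑ l : Fin (0 + 1), (1 : ℝ) ^ (l : ℕ) *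
      m (k.1 - ((l : ℕ) : ℝ) * 1)) ^ 2 = ∑ τ ∈ S, m τ ^ 2 := by
    rw [← Finset.sum_coe_sort S (fun τ => m τ ^ 2)]
    refine Finset.sum_congr rfl fun τ _ => ?_
    simp
  rw [e1] at h
  push_cast at h
  linarith

theorem sq_of_key {m : ℝ → ℝ} {C : ℝ} (hC : 0 ≤ C)
    (key : ∀ (κ μ : Type) [Fintype κ] [Fintype μ] (p : κ → ℝ) (q : μ → ℝ),
      Function.Injective p → Function.Injective q → ∀ (a : κ → ℝ) (b : μ → ℝ),
      ∑ k, ∑ l, a k * b l * m (p k - q l) ≤ C * ((∑ k, a k ^ 2 + ∑ l, b l ^ 2) / 2))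
    (S : Finset ℝ) : ∑ τ ∈ S, m τ ^ 2 ≤ C ^ 2 := by
  have h := H_of_key hC key (ω := 1) one_ne_zero 0 {τ // τ ∈ S} (fun τ => τ.1)
    Subtype.val_injective 1 (one_pow 2)
  have e1 : ∑ k : {τ // τ ∈ S}, (∑ l : Fin (0 + 1), (1 : ℝ) ^ (l : ℕ) *
      m (k.1 - ((l : ℕ) : ℝ) * 1)) ^ 2 = ∑ τ ∈ S, m τ ^ 2 := by
    rw [← Finset.sum_coe_sort S (fun τ => m τ ^ 2)]
    refine Finset.sum_congr rfl fun τ _ => ?_
    simp
  rw [e1] at h
  push_cast at h
  linarith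

/-- **The bilinear inequality bounds the squares and the two extreme coefficients.** -/
theorem ext_le {m : ℝ → ℝ} {C : ℝ} (hC : 0 ≤ C)
    (key : ∀ (κ μ : Type) [Fintype κ] [Fintype μ] (p : κ → ℝ) (q : μ → ℝ),
      Function.Injective p → Function.Injective q → ∀ (a : κ → ℝ) (b : μ → ℝ),
      ∑ k, ∑ l, a k * b l * m (p k - q l) ≤ C * ((∑ k, a k ^ 2 + ∑ l, b l ^ 2) / 2))
    (S : Finset ℝ) {τ₁ τ₂ : ℝ} (h12 : τ₁ < τ₂) (h1 : τ₁ ∈ S) (h2 : τ₂ ∈ S)
    (hS : ∀ τ, m τ ≠ 0 → τ₁ ≤ τ ∧ τ ≤ τ₂) (hSm : ∀ τ ∈ S, τ₁ ≤ τ ∧ τ ≤ τ₂) :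
    ∑ τ ∈ S, m τ ^ 2 + 2 * |m τ₁ * m τ₂| ≤ C ^ 2 :=
  ext_core S h12 h1 h2 hS hSm fun n κ _ p hp s hs =>
    H_of_key hC key (sub_ne_zero.2 h12.ne') n κ p hp s hs

end Pool.Agent.Helper29X1.WG.SF
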