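import Pool.Agent.Helper29X1.WG.EC
import Pool.Agent.Helper29X1.WG.Bessel
import Pool.Agent.W353.TP.Orders

/-!
# Elliptic curves over the extensions of the base field
-/

set_option autoImplicit false
set_option linter.unusedSectionVars false

namespace Pool.Agent.Helper29X1.WG

open NumberField Complex Filter Topology IsDedekindDomain Asymptotics Polynomial
open Pool.Agent.W353.EF (LFun size)
open Pool.Agent.W353.TP (HX sysH LL LL_tendsto bdd_isLittleO lamS_sub res push card_max_le)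
open Pool.Agent.W353.NF (vx)
open Pool.Agent.W540.BE (nm two_le_nm trv affCount redv hasse_v exists_roots finite_mem_prime)
open Pool.Agent.Y149.Ord (HasOrder tendsto_size)
open Pool.Agent.N172.HS
open scoped ComplexConjugate TensorProduct

theorem aff_equiv {R S : Type} [CommRing R] [CommRing S] (e : R ≃+* S) (V : WeierstrassCurve R) :
    affCount (V.map (e : R →+* S)) = affCount V := by
  unfold affCount
  symm
  refine Nat.card_congr (Equiv.subtypeEquiv (Equiv.prodCongr e.toEquiv e.toEquiv) fun P => ?_)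
  simp only [Equiv.prodCongr_apply, Prod.map_fst, Prod.map_snd, RingEquiv.toEquiv_eq_coe,
    EquivLike.coe_coe, WeierstrassCurve.map_a₁, WeierstrassCurve.map_a₂, WeierstrassCurve.map_a₃,
    WeierstrassCurve.map_a₄, WeierstrassCurve.map_a₆, RingEquiv.coe_toRingHom]
  rw [← e.injective.eq_iff]
  simp only [map_add, map_mul, map_pow]

section

variable {K : Type} [Field K] [NumberField K]

theorem trv_vx (W : WeierstrassCurve (𝓞 K)) (x : HX K) :
    trv W (vx x) = ((x.1 : ℕ) : ℤ) + 1 - ((affCount (W.map x.2) : ℤ) + 1) := by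
  have hp : Fact (x.1 : ℕ).Prime := ⟨x.1.2⟩
  have hs : Function.Surjective x.2 := ZMod.ringHom_surjective x.2
  have e1 : affCount (redv W (vx x)) = affCount (W.map x.2) := by
    have h := aff_equiv (RingHom.quotientKerEquivOfSurjective hs)
      (W.map (Ideal.Quotient.mk (RingHom.ker x.2)))
    rw [WeierstrassCurve.map_map] at h
    have e2 : ((RingHom.quotientKerEquivOfSurjective hs :
        (𝓞 K ⧸ RingHom.ker x.2) ≃+* ZMod (x.1 : ℕ)) :
        (𝓞 K ⧸ RingHom.ker x.2) →+* ZMod (x.1 : ℕ)).comp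
          (Ideal.Quotient.mk (RingHom.ker x.2)) = x.2 := by
      refine RingHom.ext fun a => ?_
      rfl
    rw [e2] at h
    exact h.symm
  unfold trv
  rw [e1, absNorm_vx]

variable {F : Type} [Field F] [NumberField F] [Algebra K F]

theorem TE_ext (W : WeierstrassCurve (𝓞 K)) (p : Nat.Primes) (ψ : 𝓞 F →+* ZMod (p : ℕ)) :
    TE (W.map (algebraMap (𝓞 K) (𝓞 F))) (vx ⟨p, ψ⟩) = TE W (vx ⟨p, res K ψ⟩) := by
  have h1 : trv (W.map (algebraMap (𝓞 K) (𝓞 F))) (vx ⟨p, ψ⟩) = trv W (vx ⟨p, res K ψ⟩) := by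
    rw [trv_vx, trv_vx, WeierstrassCurve.map_map]
    rfl
  have h2 : nm F (vx (⟨p, ψ⟩ : HX F)) = nm K (vx (⟨p, res K ψ⟩ : HX K)) := by
    have a1 : nm F (vx (⟨p, ψ⟩ : HX F)) = (p : ℕ) := absNorm_vx (⟨p, ψ⟩ : HX F)
    have a2 : nm K (vx (⟨p, res K ψ⟩ : HX K)) = (p : ℕ) := absNorm_vx (⟨p, res K ψ⟩ : HX K)
    rw [a1, a2]
  unfold TE
  rw [h1, h2]

/-- The polynomials `B w` are the Euler factors of `L(E ⊗ χ, s)`, `χ` a Hecke character of `F`. -/
def IsHeckeTwist (V : WeierstrassCurve (𝓞 F)) (χ : Ideal (𝓞 F) →*₀ ℂ)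
    (B : HeightOneSpectrum (𝓞 F) → ℂ[X]) : Prop :=
  (∀ᶠ w in cofinite, ∀ z : ℂ, (B w).eval z = 1 - (trv V w : ℂ) * (χ w.asIdeal * z) +
      (Ideal.absNorm w.asIdeal : ℂ) * (χ w.asIdeal * z) ^ 2) ∧
  ∀ w, (B w).eval ((Ideal.absNorm w.asIdeal : ℂ) ^ (-((1 : ℕ) : ℂ) / 2 - 1)) ≠ 0

theorem hecke_size (V : WeierstrassCurve (𝓞 F)) (hΔ : V.Δ ≠ 0) {𝔣 : Ideal (𝓞 F)}
    {k : (F →+* ℂ) → ℤ} {t : (F →+* ℂ) → ℝ} {χ : Ideal (𝓞 F) →*₀ ℂ} (h : IsHecke 𝔣 k t χ)
    {B : HeightOneSpectrum (𝓞 F) → ℂ[X]} (hB : IsHeckeTwist V χ B) :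
    (∀ᶠ ε : ℝ in 𝓝[>] 0, LFun B (((1 : ℕ) : ℂ) / 2 + 1 + ε) ≠ 0) ∧
    (fun ε => size 1 B ε * LL ε - EH F ε (fun x => TE V (vx x) * (hv χ x).re))
      =o[𝓝[>] 0] LL := by
  refine size_fun V hΔ (τ := fun w => χ w.asIdeal) (b := 1) (fun x => h.norm_le _) (M := 1) ?_ hB.2
  filter_upwards [hB.1, h.eventually_ne] with w h1 h2
  refine ⟨fun _ => χ w.asIdeal, fun _ => h.unit _ h2, ?_, fun z => ?_⟩
  · simp
  · rw [h1, Finset.prod_const, Finset.card_univ, Fintype.card_fin, pow_one]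

theorem disc_map (W : WeierstrassCurve (𝓞 K)) (hΔ : W.Δ ≠ 0) :
    (W.map (algebraMap (𝓞 K) (𝓞 F))).Δ ≠ 0 := by
  rw [WeierstrassCurve.map_Δ]
  intro h
  apply hΔ
  have hinj : Function.Injective (algebraMap (𝓞 K) (𝓞 F)) :=
    FaithfulSMul.algebraMap_injective (𝓞 K) (𝓞 F)
  exact hinj (h.trans (map_zero _).symm)

/-- the size over `F` as a sum over the primes of `K` -/
theorem field_size (W : WeierstrassCurve (𝓞 K)) (hΔ : W.Δ ≠ 0) {𝔣 : Ideal (𝓞 F)}
    {k : (F →+* ℂ) → ℤ} {t : (F →+* ℂ) → ℝ} {χ : Ideal (𝓞 F) →*₀ ℂ} (h : IsHecke 𝔣 k t χ)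
    {B : HeightOneSpectrum (𝓞 F) → ℂ[X]}
    (hB : IsHeckeTwist (W.map (algebraMap (𝓞 K) (𝓞 F))) χ B) :
    (fun ε => size 1 B ε * LL ε - EH K ε (fun x => TE W (vx x) * (pc K χ x).re))
      =o[𝓝[>] 0] LL := by
  classical
  have h1 := (hecke_size _ (disc_map (F := F) W hΔ) h hB).2
  refine h1.congr' ?_ (EventuallyEq.refl _ _)
  filter_upwards [self_mem_nhdsWithin] with ε hε
  have hε' : (0 : ℝ) < ε := hε
  have hb : ∀ x : HX F, |TE (W.map (algebraMap (𝓞 K) (𝓞 F))) (vx x) * (hv χ x).re| ≤ 2 * 1 :=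
    fun x => by
      rw [abs_mul]
      exact mul_le_mul (abs_TE _ _) ((Complex.abs_re_le_norm _).trans (norm_hv_le h x))
        (abs_nonneg _) (by norm_num)
  rw [EH_push' (K := K) hε' hb]
  congr 2
  funext x
  unfold pc push
  rw [Complex.re_sum, Finset.mul_sum]
  refine Finset.sum_congr rfl fun ψ hψ => ?_
  rw [Finset.mem_filter] at hψ
  have e1 : (⟨x.1, res K ψ⟩ : HX K) = x := by
    rw [hψ.2]
  have e2 := TE_ext W x.1 ψ
  rw [e1] at e2
  exact congrArg (fun u => u * (hv χ ⟨x.1, ψ⟩).re) e2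

end

/-- A finite extension `F` of `K` with a unitary Hecke character `χ` of `F`. -/
structure FC (K : Type) [Field K] [NumberField K] where
  F : Type
  [fld : Field F]
  [nf : NumberField F]
  [alg : Algebra K F]
  𝔣 : Ideal (𝓞 F)
  k : (F →+* ℂ) → ℤ
  t : (F →+* ℂ) → ℝ
  χ : Ideal (𝓞 F) →*₀ ℂ
  hecke : IsHecke 𝔣 k t χ

attribute [instance] FC.fld FC.nf FC.alg

section

variable {K : Type} [Field K] [NumberField K]

/-- the degree of `F` over `K` -/
noncomputable def FC.deg (c : FC K) : ℕ := Module.finrank K c.F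

theorem FC.deg_pos (c : FC K) : 0 < c.deg := by
  have : FiniteDimensional ℚ c.F := inferInstance
  have : FiniteDimensional K c.F := Module.Finite.of_restrictScalars_finite ℚ K c.F
  exact Module.finrank_pos

/-- `χ` and `χ'` agree on no compositum of `F` and `F'` over `K`. -/
def FC.Orth (c d : FC K) : Prop := mult K c.χ d.χ = 0

theorem FC.gram (c d : FC K) : HasGram (pc K c.χ) (pc K d.χ) (mult K c.χ d.χ) :=
  Pool.Agent.N172.HS.gram Pool.Agent.N134.HS.t_nvq c.hecke d.hecke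

theorem FC.Orth.symm {c d : FC K} (h : c.Orth d) : d.Orth c := by
  unfold FC.Orth at h ⊢
  have h1 := (c.gram d).unique (d.gram c).symm
  rw [h, Nat.cast_zero] at h1
  exact_mod_cast h1.symm

theorem FC.mult_self_le (c : FC K) : mult K c.χ c.χ ≤ c.deg := by
  classical
  unfold mult FC.deg
  refine le_trans ?_ (card_max_le K c.F c.F)
  rw [Nat.card_eq_fintype_card]
  exact Fintype.card_subtype_le _

theorem FC.bdd (c : FC K) : Bdd (pc K c.χ) :=
  ⟨Module.finrank ℚ c.F, Nat.cast_nonneg _, norm_pc_le c.hecke⟩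

/-- The Euler factors of `L(E/F ⊗ χ, s)`. -/
def FC.IsTwist (W : WeierstrassCurve (𝓞 K)) (c : FC K) (B : HeightOneSpectrum (𝓞 c.F) → ℂ[X]) :
    Prop := IsHeckeTwist (W.map (algebraMap (𝓞 K) (𝓞 c.F))) c.χ B

theorem FC.ineq (W : WeierstrassCurve (𝓞 K)) (hΔ : W.Δ ≠ 0) {κ : Type} [Fintype κ]
    {c : κ → FC K} {B : ∀ k, HeightOneSpectrum (𝓞 (c k).F) → ℂ[X]}
    (hB : ∀ k, (c k).IsTwist W (B k)) (u : κ → ℝ) {η : ℝ} (hη : 0 < η) :
    ∀ᶠ ε : ℝ in 𝓝[>] 0, (∑ k, u k * size 1 (B k) ε) ^ 2 ≤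
      meanSq W ε * (∑ k, ∑ l, u k * u l * mult K (c k).χ (c l).χ) + η :=
  main_ineq (fun k => pc K (c k).χ) (fun k => (c k).bdd)
    (fun k l => mult K (c k).χ (c l).χ) (fun k l => (c k).gram (c l))
    (T := fun x => TE W (vx x)) (a := 2) (fun x => abs_TE W _)
    (fun k => size 1 (B k)) (fun k => field_size W hΔ (c k).hecke (hB k)) (meanSq W)
    (meanSq_EH W hΔ) u hη

theorem meanSq_nonneg (W : WeierstrassCurve (𝓞 K)) : ∀ᶠ ε : ℝ in 𝓝[>] 0, 0 ≤ meanSq W ε := by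
  filter_upwards [LL_tendsto.eventually_gt_atTop 0] with ε h
  unfold meanSq
  refine div_nonneg (tsum_nonneg fun v => by positivity) ?_
  exact (show (0 : ℝ) < Real.log (1 / ε) from h).le

/-- **Bessel's inequality for the twists over the extension fields.** -/
theorem FC.bessel (W : WeierstrassCurve (𝓞 K)) (hΔ : W.Δ ≠ 0) {κ : Type} [Fintype κ]
    {c : κ → FC K} {B : ∀ k, HeightOneSpectrum (𝓞 (c k).F) → ℂ[X]}
    (hB : ∀ k, (c k).IsTwist W (B k)) (ho : ∀ k l, k ≠ l → (c k).Orth (c l)) {η : ℝ}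
    (hη : 0 < η) :
    ∀ᶠ ε : ℝ in 𝓝[>] 0, ∑ k, size 1 (B k) ε ^ 2 / (c k).deg ≤ meanSq W ε + η := by
  classical
  refine bessel_y (z := fun k => size 1 (B k)) (meanSq_nonneg W) (meanSq_le W hΔ one_pos)
    (g := fun k => ((c k).deg : ℝ)) (fun k => by exact_mod_cast (c k).deg_pos)
    (fun u η' hη' => ?_) hη
  filter_upwards [FC.ineq W hΔ hB u hη', meanSq_nonneg W] with ε h1 h2
  refine h1.trans (add_le_add (mul_le_mul_of_nonneg_left ?_ h2) le_rfl)
  refine Finset.sum_le_sum fun k _ => ?_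
  rw [Finset.sum_eq_single k]
  · have h3 : (mult K (c k).χ (c k).χ : ℝ) ≤ (c k).deg := by exact_mod_cast (c k).mult_self_le
    have h4 : u k * u k * (mult K (c k).χ (c k).χ : ℝ) = u k ^ 2 * mult K (c k).χ (c k).χ := by
      ring
    rw [h4]
    exact mul_le_mul_of_nonneg_left h3 (sq_nonneg _)
  · intro l _ hl
    have h3 : mult K (c k).χ (c l).χ = 0 := ho k l hl.symm
    rw [h3]
    simp
  · intro h; exact absurd (Finset.mem_univ k) h

theorem order_zero {F : Type} [Field F] [NumberField F] {B : HeightOneSpectrum (𝓞 F) → ℂ[X]}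
    {m : ℤ} {δ : ℝ} (h : ∃ᶠ ε : ℝ in 𝓝[>] 0, |size 1 B ε| < δ)
    (hr : HasOrder 1 B m) : |(m : ℝ)| ≤ δ := by
  have h9 := (tendsto_size hr).abs
  rw [abs_neg] at h9
  by_contra hcon
  push Not at hcon
  exact h ((h9.eventually (lt_mem_nhds hcon)).mono fun ε h3 => not_lt.2 (le_of_lt h3))

/-- **The exceptional pairs.** -/
theorem FC.exceptions (W : WeierstrassCurve (𝓞 K)) (hΔ : W.Δ ≠ 0) (n : ℕ) {δ : ℝ} (hδ : 0 < δ) :
    ∃ (s : ℕ) (c : Fin s → FC K), s * δ ^ 2 ≤ 4 * n ∧ (∀ k, (c k).deg ≤ n) ∧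
      (∀ k l, k ≠ l → (c k).Orth (c l)) ∧
      ∀ d : FC K, d.deg ≤ n → (∀ k, d.Orth (c k)) →
        ∀ B : HeightOneSpectrum (𝓞 d.F) → ℂ[X], d.IsTwist W B →
          ∃ᶠ ε : ℝ in 𝓝[>] 0, |size 1 B ε| < δ := by
  classical
  have hδ2 : 0 < δ ^ 2 := by positivity
  obtain ⟨s, c, h1, h2, h3, h4⟩ := exists_max (W := FC K)
    (fun d => d.deg ≤ n ∧ ∃ B : HeightOneSpectrum (𝓞 d.F) → ℂ[X], d.IsTwist W B ∧
      ∀ᶠ ε : ℝ in 𝓝[>] 0, δ ≤ |size 1 B ε|)
    (fun d e => d.Orth e) (fun d e h => h.symm) ⌊(4 * n : ℝ) / δ ^ 2⌋₊ (by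
      intro s c hbad ho
      choose hdeg B hB hδB using hbad
      apply Nat.le_floor
      rw [le_div_iff₀ hδ2]
      refine le_of_forall_pos_le_add fun η hη => ?_
      -- the bound at one scale
      have h5 : ∀ᶠ ε : ℝ in 𝓝[>] 0, ∀ k, δ ≤ |size 1 (B k) ε| := Filter.eventually_all.2 hδB
      have hη' : 0 < η / (2 * ((n : ℝ) + 1)) := by positivity
      obtain ⟨ε, h6, h7, h8⟩ :=
        (h5.and ((FC.bessel W hΔ hB ho hη').and (meanSq_le W hΔ hη'))).exists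
      have h9 : ∑ k, size 1 (B k) ε ^ 2 / (c k).deg ≤ 4 + 2 * (η / (2 * ((n : ℝ) + 1))) := by
        linarith
      have h10 : (s : ℝ) * (δ ^ 2 / (n : ℝ)) ≤ ∑ k, size 1 (B k) ε ^ 2 / (c k).deg := by
        calc (s : ℝ) * (δ ^ 2 / (n : ℝ)) = ∑ _k : Fin s, δ ^ 2 / (n : ℝ) := by
              rw [Finset.sum_const, Finset.card_univ, Fintype.card_fin, nsmul_eq_mul]
          _ ≤ ∑ k, size 1 (B k) ε ^ 2 / (c k).deg := Finset.sum_le_sum fun k _ => by
              have hd : (0 : ℝ) < (c k).deg := by exact_mod_cast (c k).deg_pos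
              have hn : ((c k).deg : ℝ) ≤ n := by exact_mod_cast hdeg k
              have h11 : δ ^ 2 ≤ size 1 (B k) ε ^ 2 := by
                rw [← sq_abs (size 1 (B k) ε)]
                exact pow_le_pow_left₀ hδ.le (h6 k) 2
              exact div_le_div₀ (sq_nonneg _) h11 hd hn
      rcases Nat.eq_zero_or_pos s with hs | hs
      · rw [hs]; simp; positivity
      have hn0 : 0 < n := lt_of_lt_of_le (c ⟨0, hs⟩).deg_pos (hdeg ⟨0, hs⟩)
      have hn0' : (0 : ℝ) < n := by exact_mod_cast hn0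
      have h12 : (s : ℝ) * δ ^ 2 = (s : ℝ) * (δ ^ 2 / (n : ℝ)) * n := by
        field_simp
      rw [h12]
      calc (s : ℝ) * (δ ^ 2 / (n : ℝ)) * n ≤ (4 + 2 * (η / (2 * ((n : ℝ) + 1)))) * n :=
            mul_le_mul_of_nonneg_right (h10.trans h9) hn0'.le
        _ = 4 * n + η * (n / ((n : ℝ) + 1)) := by field_simp
        _ ≤ 4 * n + η := by
            refine add_le_add le_rfl (mul_le_of_le_one_right hη.le ?_)
            rw [div_le_one (by positivity)]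
            linarith)
  refine ⟨s, c, ?_, fun k => (h2 k).1, h3, fun d hd ho B hB => ?_⟩
  · rw [← le_div_iff₀ hδ2]
    exact (Nat.cast_le.2 h1).trans (Nat.floor_le (by positivity))
  · by_contra hcon
    rw [Filter.not_frequently] at hcon
    exact h4 d ho ⟨hd, B, hB, hcon.mono fun ε h => not_lt.1 h⟩

end

end Pool.Agent.Helper29X1.WG
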