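import Pool.Agent.Helper29X1.WG.Chars

/-!
# The characters `N^{-iτ}`
-/

set_option autoImplicit false
set_option linter.unusedSectionVars false

namespace Pool.Agent.Helper29X1.WG

open NumberField Complex Filter Topology IsDedekindDomain Asymptotics
open Pool.Agent.N172.HS
open scoped ComplexConjugate

section

variable {K : Type} [Field K] [NumberField K]

theorem abs_norm_eq (x : K) : |((Algebra.norm ℚ x : ℚ) : ℝ)| = ∏ σ : K →+* ℂ, ‖σ x‖ := by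
  have h := Algebra.norm_eq_prod_embeddings ℚ ℂ x
  have h1 : ∏ σ : K →ₐ[ℚ] ℂ, σ x = ∏ σ : K →+* ℂ, σ x := by
    rw [← (RingHom.equivRatAlgHom (R := K) (S := ℂ)).prod_comp]
    rfl
  rw [h1] at h
  have h2 := congrArg norm h
  rw [norm_prod] at h2
  rw [← h2]
  simp

theorem absNorm_eq {x : 𝓞 K} : ((Ideal.absNorm (Ideal.span {x}) : ℕ) : ℝ) =
    ∏ σ : K →+* ℂ, ‖σ (x : K)‖ := by
  rw [← abs_norm_eq, Ideal.absNorm_span_singleton]
  have h1 : ((Algebra.norm ℤ x : ℤ) : ℚ) = Algebra.norm ℚ (x : K) :=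
    Algebra.coe_norm_int x
  rw [← h1]
  rw [Nat.cast_natAbs]
  push_cast
  rfl

/-- the character `N^{-iτ}` -/
noncomputable def nch (K : Type) [Field K] [NumberField K] (τ : ℝ) : Ideal (𝓞 K) →*₀ ℂ := by
  classical
  exact
  { toFun := fun 𝔞 => if 𝔞 = ⊥ then 0 else (Ideal.absNorm 𝔞 : ℂ) ^ (-(τ * I : ℂ))
    map_zero' := if_pos rfl
    map_one' := by
      rw [if_neg (by rw [Ideal.one_eq_top]; exact top_ne_bot)]
      simp
    map_mul' := fun 𝔞 𝔟 => by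
      by_cases h1 : 𝔞 = ⊥
      · simp [h1]
      · by_cases h2 : 𝔟 = ⊥
        · simp [h2]
        · have h3 : 𝔞 * 𝔟 ≠ ⊥ := by
            rw [Ne, ← Ideal.zero_eq_bot, mul_eq_zero, not_or]
            exact ⟨h1, h2⟩
          rw [if_neg h1, if_neg h2, if_neg h3, map_mul]
          push_cast
          rw [Complex.natCast_mul_natCast_cpow] }

theorem nch_apply {τ : ℝ} {𝔞 : Ideal (𝓞 K)} (h : 𝔞 ≠ ⊥) :
    nch K τ 𝔞 = (Ideal.absNorm 𝔞 : ℂ) ^ (-(τ * I : ℂ)) := by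
  unfold nch
  simp [h]

theorem absNorm_pos {𝔞 : Ideal (𝓞 K)} (h : 𝔞 ≠ ⊥) : 0 < Ideal.absNorm 𝔞 :=
  Nat.pos_of_ne_zero fun h0 => h (Ideal.absNorm_eq_zero_iff.1 h0)

theorem norm_nch {τ : ℝ} {𝔞 : Ideal (𝓞 K)} (h : 𝔞 ≠ ⊥) : ‖nch K τ 𝔞‖ = 1 := by
  rw [nch_apply h, Complex.norm_natCast_cpow_of_pos (absNorm_pos h)]
  simp

theorem isHecke_nch (τ : ℝ) : IsHecke (⊤ : Ideal (𝓞 K)) (fun _ => 0) (fun _ => -τ) (nch K τ) where
  ne_bot := top_ne_bot
  supp 𝔞 h := by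
    refine ⟨fun _ => ?_, fun _ => ?_⟩
    · rw [Ideal.isCoprime_iff_sup_eq]
      exact sup_top_eq _
    · rw [← norm_ne_zero_iff, norm_nch h]
      exact one_ne_zero
  unit 𝔞 h := by
    by_cases h0 : 𝔞 = ⊥
    · rw [h0] at h
      exact absurd (map_zero (nch K τ)) h
    · exact norm_nch h0
  ray x hx _ _ := by
    have hb : Ideal.span {x} ≠ ⊥ := by rwa [Ne, Ideal.span_singleton_eq_bot]
    have hp := absNorm_pos hb
    have hpr : (0 : ℝ) < (Ideal.absNorm (Ideal.span {x}) : ℕ) := by exact_mod_cast hp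
    have hx' : (x : K) ≠ 0 := by
      intro h
      apply hx
      exact RingOfIntegers.ext h
    rw [nch_apply hb]
    unfold arch
    simp only [zpow_zero, one_mul]
    rw [← Complex.exp_sum, Complex.cpow_def_of_ne_zero (by exact_mod_cast hp.ne')]
    congr 1
    have e1 : Real.log ((Ideal.absNorm (Ideal.span {x}) : ℕ) : ℝ) =
        ∑ σ : K →+* ℂ, Real.log ‖σ (x : K)‖ := by
      rw [absNorm_eq, Real.log_prod (fun σ _ => norm_ne_zero_iff.2 ((map_ne_zero σ).2 hx'))]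
    have e2 : Complex.log ((Ideal.absNorm (Ideal.span {x}) : ℕ) : ℂ) =
        ((Real.log ((Ideal.absNorm (Ideal.span {x}) : ℕ) : ℝ) : ℝ) : ℂ) := by
      rw [Complex.ofReal_log hpr.le]
      push_cast
      rfl
    rw [e2, e1]
    push_cast
    rw [Finset.sum_mul]
    refine Finset.sum_congr rfl fun σ _ => ?_
    ring

/-- the twist by `N^{-iτ}` -/
theorem exists_height (c : HC K) (τ : ℝ) : ∃ d : HC K, ∀ 𝔞 : Ideal (𝓞 K), 𝔞 ≠ ⊥ →
    d.ψ 𝔞 = c.ψ 𝔞 * (Ideal.absNorm 𝔞 : ℂ) ^ (-(τ * I : ℂ)) := by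
  refine ⟨c.mul ⟨⊤, fun _ => 0, fun _ => -τ, nch K τ, isHecke_nch τ⟩, fun 𝔞 h => ?_⟩
  have e : (c.mul ⟨⊤, fun _ => 0, fun _ => -τ, nch K τ, isHecke_nch τ⟩).ψ 𝔞 =
      mulc c.ψ (nch K τ) 𝔞 := rfl
  rw [e, mulc_apply, nch_apply h]

end

end Pool.Agent.Helper29X1.WG
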