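import Pool.Agent.N172.HS.Sp

/-!
# Cauchy's inequality with the mean square of the traces
-/

set_option autoImplicit false
set_option linter.unusedSectionVars false

namespace Pool.Agent.Helper29X1.WG

open NumberField Complex Filter Topology IsDedekindDomain Asymptotics
open Pool.Agent.W353.TP (HX sysH LL LL_tendsto bdd_isLittleO lamS_sub)
open Pool.Agent.N172.HS
open scoped ComplexConjugate

section

variable {K : Type} [Field K] [NumberField K]

theorem bd_nonneg {T : HX K → ℝ} {a : ℝ} (hT : ∀ x, |T x| ≤ a) : 0 ≤ a :=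
  (abs_nonneg _).trans (hT ((sysH K).nonempty.some))

theorem abs_sq_le {T : HX K → ℝ} {a : ℝ} (hT : ∀ x, |T x| ≤ a) (x : HX K) : |T x ^ 2| ≤ a ^ 2 := by
  rw [abs_pow]; exact pow_le_pow_left₀ (abs_nonneg _) (hT x) 2

theorem abs_mul_le' {T R : HX K → ℝ} {a b : ℝ} (hT : ∀ x, |T x| ≤ a) (hR : ∀ x, |R x| ≤ b)
    (x : HX K) : |T x * R x| ≤ a * b := by
  rw [abs_mul]; exact mul_le_mul (hT x) (hR x) (abs_nonneg _) (bd_nonneg hT)

theorem EH_nonneg' {φ : HX K → ℝ} (h : ∀ x, 0 ≤ φ x) (ε : ℝ) : 0 ≤ EH K ε φ :=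
  tsum_nonneg fun x => mul_nonneg (h x) ((sysH K).w_nonneg ε x)

theorem EH_mono' {φ φ' : HX K → ℝ} {a b : ℝ} (hφ : ∀ x, |φ x| ≤ a) (hφ' : ∀ x, |φ' x| ≤ b)
    (h : ∀ x, φ x ≤ φ' x) {ε : ℝ} (hε : 0 < ε) : EH K ε φ ≤ EH K ε φ' :=
  Pool.Agent.W353.TP.E_mono (sysH K) hε hφ hφ' h

/-- Cauchy's inequality -/
theorem EH_cs {T R : HX K → ℝ} {a b : ℝ} (hT : ∀ x, |T x| ≤ a) (hR : ∀ x, |R x| ≤ b) {ε : ℝ}
    (hε : 0 < ε) :
    (EH K ε (fun x => T x * R x)) ^ 2 ≤
      EH K ε (fun x => T x ^ 2) * EH K ε (fun x => R x ^ 2) := by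
  have hb : 0 ≤ b := bd_nonneg hR
  have ha : 0 ≤ a := bd_nonneg hT
  have h : ∀ t : ℝ, 0 ≤ EH K ε (fun x => R x ^ 2) * (t * t) +
      (-2 * EH K ε (fun x => T x * R x)) * t + EH K ε (fun x => T x ^ 2) := by
    intro t
    have h0 : 0 ≤ EH K ε (fun x => (T x - t * R x) ^ 2) := EH_nonneg' (fun x => sq_nonneg _) ε
    have e1 : (fun x => (T x - t * R x) ^ 2) =
        fun x => T x ^ 2 + ((-2 * t) * (T x * R x) + t ^ 2 * R x ^ 2) := by
      funext x; ring
    have b1 : ∀ x, |(-2 * t) * (T x * R x)| ≤ |-2 * t| * (a * b) := fun x => by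
      rw [abs_mul]; exact mul_le_mul_of_nonneg_left (abs_mul_le' hT hR x) (abs_nonneg _)
    have b2 : ∀ x, |t ^ 2 * R x ^ 2| ≤ t ^ 2 * b ^ 2 := fun x => by
      rw [abs_mul, abs_of_nonneg (sq_nonneg t)]
      exact mul_le_mul_of_nonneg_left (abs_sq_le hR x) (sq_nonneg _)
    rw [e1, EH_add hε (abs_sq_le hT) (B' := |-2 * t| * (a * b) + t ^ 2 * b ^ 2) (fun x =>
      (abs_add_le _ _).trans (add_le_add (b1 x) (b2 x))), EH_add hε b1 b2, EH_const_mul,
      EH_const_mul] at h0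
    linarith
  have h1 := discrim_le_zero h
  unfold discrim at h1
  nlinarith

/-- **The inequality.** -/
theorem main_ineq {κ : Type} [Fintype κ] (f : κ → HX K → ℂ) (hf : ∀ k, Bdd (f k))
    (g : κ → κ → ℝ) (hg : ∀ k l, HasGram (f k) (f l) (g k l)) {T : HX K → ℝ} {a : ℝ}
    (hT : ∀ x, |T x| ≤ a) (z : κ → ℝ → ℝ)
    (hz : ∀ k, (fun ε => z k ε * LL ε - EH K ε (fun x => T x * (f k x).re)) =o[𝓝[>] 0] LL)
    (y : ℝ → ℝ) (hy : (fun ε => y ε * LL ε - EH K ε (fun x => T x ^ 2)) =o[𝓝[>] 0] LL)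
    (c : κ → ℝ) {η : ℝ} (hη : 0 < η) :
    ∀ᶠ ε : ℝ in 𝓝[>] 0, (∑ k, c k * z k ε) ^ 2 ≤ y ε * (∑ k, ∑ l, c k * c l * g k l) + η := by
  classical
  have ha : 0 ≤ a := bd_nonneg hT
  choose b hb0 hb using hf
  set W : HX K → ℂ := fun x => ∑ k, (c k : ℂ) * f k x with hW
  set w : ℝ := ∑ k, |c k| * b k with hw
  have hWb : ∀ x, ‖W x‖ ≤ w := by
    intro x
    refine (norm_sum_le _ _).trans (Finset.sum_le_sum fun k _ => ?_)
    rw [norm_mul, Complex.norm_real, Real.norm_eq_abs]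
    exact mul_le_mul_of_nonneg_left (hb k x) (abs_nonneg _)
  have hWr : ∀ x, |(W x).re| ≤ w := fun x => (Complex.abs_re_le_norm _).trans (hWb x)
  set G : ℝ := ∑ k, ∑ l, c k * c l * g k l with hG
  have hL0 : ∀ᶠ ε : ℝ in 𝓝[>] 0, 0 < LL ε := LL_tendsto.eventually_gt_atTop 0
  -- the three limits
  have h1 : (fun ε => (∑ k, c k * z k ε) * LL ε - EH K ε (fun x => T x * (W x).re))
      =o[𝓝[>] 0] LL := by
    have h4 := finset_isLittleO (Finset.univ : Finset κ)
      (fun k _ => (hz k).const_mul_left (c k))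
    refine h4.congr' ?_ (EventuallyEq.refl _ _)
    filter_upwards [self_mem_nhdsWithin] with ε hε
    have hε' : (0 : ℝ) < ε := hε
    have e1 : (fun x => T x * (W x).re) = fun x => ∑ k, c k * (T x * (f k x).re) := by
      funext x
      rw [hW]
      simp only
      rw [Complex.re_sum, Finset.mul_sum]
      refine Finset.sum_congr rfl fun k _ => ?_
      rw [Complex.re_ofReal_mul]
      ring
    rw [e1, EH_sum hε' Finset.univ (fun k x => c k * (T x * (f k x).re))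
      (fun k => |c k| * (a * b k)) (fun k _ x => by
        rw [abs_mul]
        refine mul_le_mul_of_nonneg_left ?_ (abs_nonneg _)
        rw [abs_mul]
        exact mul_le_mul (hT x) ((Complex.abs_re_le_norm _).trans (hb k x)) (abs_nonneg _) ha),
      Finset.sum_mul, ← Finset.sum_sub_distrib]
    refine Finset.sum_congr rfl fun k _ => ?_
    rw [EH_const_mul]
    ring
  have h3 : (fun ε => EH K ε (fun x => ‖W x‖ ^ 2) - G * LL ε) =o[𝓝[>] 0] LL := by
    have h4 := HasGram.sum Finset.univ Finset.univ (fun k _ => ⟨b k, hb0 k, hb k⟩)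
        (fun k _ => ⟨b k, hb0 k, hb k⟩) c c (fun k _ l _ => hg k l)
    refine h4.congr_left fun ε => ?_
    congr 2
    funext x
    rw [Complex.mul_conj, Complex.ofReal_re, Complex.normSq_eq_norm_sq]
  have t1 : Tendsto (fun ε => (∑ k, c k * z k ε) - EH K ε (fun x => T x * (W x).re) / LL ε)
      (𝓝[>] 0) (𝓝 0) := by
    refine h1.tendsto_div_nhds_zero.congr' ?_
    filter_upwards [hL0] with ε h
    rw [sub_div, mul_div_cancel_right₀ _ h.ne']
  have t2 : Tendsto (fun ε => y ε - EH K ε (fun x => T x ^ 2) / LL ε) (𝓝[>] 0) (𝓝 0) := by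
    refine hy.tendsto_div_nhds_zero.congr' ?_
    filter_upwards [hL0] with ε h
    rw [sub_div, mul_div_cancel_right₀ _ h.ne']
  have t3 : Tendsto (fun ε => EH K ε (fun x => ‖W x‖ ^ 2) / LL ε - G) (𝓝[>] 0) (𝓝 0) := by
    refine h3.tendsto_div_nhds_zero.congr' ?_
    filter_upwards [hL0] with ε h
    rw [sub_div, mul_div_cancel_right₀ _ h.ne']
  -- boundedness
  have hlam : Tendsto (fun ε => (sysH K).lam ε / LL ε) (𝓝[>] 0) (𝓝 1) := by
    have := (lamS_sub (sysH K)).tendsto_div_nhds_zero.add_const 1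
    rw [zero_add] at this
    refine this.congr' ?_
    filter_upwards [hL0] with ε h
    field_simp
    ring
  have hbd : ∀ {φ : HX K → ℝ} {B : ℝ}, (∀ x, |φ x| ≤ B) →
      ∀ᶠ ε : ℝ in 𝓝[>] 0, |EH K ε φ / LL ε| ≤ 2 * B := by
    intro φ B hφ
    have hB : 0 ≤ B := bd_nonneg hφ
    filter_upwards [hL0, hlam.eventually_lt_const (by norm_num : (1 : ℝ) < 2),
      self_mem_nhdsWithin] with ε h5 h6 h7
    have hε : (0 : ℝ) < ε := h7
    have h8 : |EH K ε φ| ≤ B * (sysH K).lam ε := by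
      have e1 : EH K ε (fun _ => B) = B * (sysH K).lam ε := by
        have := EH_const_mul (K := K) (ε := ε) B (fun _ => 1)
        rw [EH_one] at this
        simpa using this
      have e2 : EH K ε (fun _ => -B) = -(B * (sysH K).lam ε) := by
        have := EH_const_mul (K := K) (ε := ε) (-B) (fun _ => 1)
        rw [EH_one] at this
        simpa using this
      rw [abs_le, ← e2, ← e1]
      constructor
      · exact EH_mono' (a := B) (b := B) (fun _ => by rw [abs_neg, abs_of_nonneg hB]) hφ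
          (fun x => (abs_le.1 (hφ x)).1) hε
      · exact EH_mono' (a := B) (b := B) hφ (fun _ => by rw [abs_of_nonneg hB])
          (fun x => (abs_le.1 (hφ x)).2) hε
    rw [abs_div, abs_of_pos h5]
    calc |EH K ε φ| / LL ε ≤ (B * (sysH K).lam ε) / LL ε :=
          div_le_div_of_nonneg_right h8 h5.le
      _ = B * ((sysH K).lam ε / LL ε) := by ring
      _ ≤ B * 2 := mul_le_mul_of_nonneg_left h6.le hB
      _ = 2 * B := by ring
  have bA := hbd (φ := fun x => T x * (W x).re) (abs_mul_le' hT hWr)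
  have bP := hbd (φ := fun x => T x ^ 2) (abs_sq_le hT)
  have cs : ∀ᶠ ε : ℝ in 𝓝[>] 0, (EH K ε (fun x => T x * (W x).re) / LL ε) ^ 2 ≤
      EH K ε (fun x => T x ^ 2) / LL ε * (EH K ε (fun x => ‖W x‖ ^ 2) / LL ε) := by
    filter_upwards [hL0, self_mem_nhdsWithin] with ε h5 h7
    have hε : (0 : ℝ) < ε := h7
    have h8 := EH_cs hT hWr hε
    have h9 : EH K ε (fun x => (W x).re ^ 2) ≤ EH K ε (fun x => ‖W x‖ ^ 2) := by
      refine EH_mono' (a := w ^ 2) (b := w ^ 2) (abs_sq_le hWr) (fun x => ?_) (fun x => ?_) hε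
      · rw [abs_of_nonneg (sq_nonneg _)]
        exact pow_le_pow_left₀ (norm_nonneg _) (hWb x) 2
      · rw [← sq_abs]
        exact pow_le_pow_left₀ (abs_nonneg _) (Complex.abs_re_le_norm _) 2
    have h10 : 0 ≤ EH K ε (fun x => T x ^ 2) := EH_nonneg' (fun x => sq_nonneg _) ε
    rw [div_pow, div_mul_div_comm, ← sq]
    exact div_le_div_of_nonneg_right (h8.trans (mul_le_mul_of_nonneg_left h9 h10)) (by positivity)
  -- the two small terms
  have s1 : Tendsto (fun ε => (∑ k, c k * z k ε) ^ 2 -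
      (EH K ε (fun x => T x * (W x).re) / LL ε) ^ 2) (𝓝[>] 0) (𝓝 0) := by
    have h5 : Tendsto (fun ε => ((∑ k, c k * z k ε) - EH K ε (fun x => T x * (W x).re) / LL ε) ^ 2)
        (𝓝[>] 0) (𝓝 0) := by
      have := t1.pow 2
      simpa using this
    have h6 : Tendsto (fun ε => EH K ε (fun x => T x * (W x).re) / LL ε *
        ((∑ k, c k * z k ε) - EH K ε (fun x => T x * (W x).re) / LL ε)) (𝓝[>] 0) (𝓝 0) :=
      bdd_le_mul_tendsto_zero' (2 * (a * w)) bA t1
    have h7 := h5.add (h6.const_mul 2)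
    rw [mul_zero, add_zero] at h7
    refine h7.congr fun ε => ?_
    ring
  have s2 : Tendsto (fun ε => EH K ε (fun x => T x ^ 2) / LL ε *
      (EH K ε (fun x => ‖W x‖ ^ 2) / LL ε) - y ε * G) (𝓝[>] 0) (𝓝 0) := by
    have h5 : Tendsto (fun ε => EH K ε (fun x => T x ^ 2) / LL ε *
        (EH K ε (fun x => ‖W x‖ ^ 2) / LL ε - G)) (𝓝[>] 0) (𝓝 0) :=
      bdd_le_mul_tendsto_zero' (2 * a ^ 2) bP t3
    have h6 := h5.sub (t2.mul_const G)
    rw [zero_mul, sub_zero] at h6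
    refine h6.congr fun ε => ?_
    ring
  have s3 := s1.add s2
  rw [add_zero] at s3
  filter_upwards [cs, s3.eventually_lt_const hη] with ε h5 h6
  linarith

end

end Pool.Agent.Helper29X1.WG
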