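import Pool.Agent.Helper29X1.WG.RealPair

/-!
# The number of zeros and poles on the edge
-/

set_option autoImplicit false
set_option linter.unusedSectionVars false

namespace Pool.Agent.Helper29X1.WG

open NumberField Complex Filter Topology IsDedekindDomain Asymptotics Polynomial
open Pool.Agent.W353.EF (LFun size)
open Pool.Agent.W353.TP (HX sysH LL LL_tendsto bdd_isLittleO lamS_sub)
open Pool.Agent.W353.NF (vx)
open Pool.Agent.W540.BE (nm two_le_nm trv)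
open Pool.Agent.Y149.Ord (HasOrder tendsto_size)
open Pool.Agent.N172.HS
open scoped ComplexConjugate

section

variable {K : Type} [Field K] [NumberField K]

theorem any (W : WeierstrassCurve (𝓞 K)) (hΔ : W.Δ ≠ 0) (c : HC K)
    {B : HeightOneSpectrum (𝓞 K) → ℂ[X]} (hB : IsHeckeTwist W c.ψ B) {m : ℤ}
    (hm : HasOrder 1 B m) : |m| ≤ 2 := by
  classical
  have h := main_ineq (fun _ : Unit => c.val) (fun _ => c.bdd)
    (fun _ _ => 1) (fun _ _ => by
      have := HC.gram c c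
      rwa [if_pos (Same.refl _)] at this)
    (T := fun x => TE W (vx x)) (a := 2) (fun x => abs_TE W _)
    (fun _ => size 1 B) (fun _ => val_size W hΔ c hB) (meanSq W)
    (meanSq_EH W hΔ) (fun _ => 1) (η := 1 / 4) (by norm_num)
  have h1 : ((m : ℝ)) ^ 2 ≤ 19 / 4 := by
    have h4 := (tendsto_size hm).pow 2
    rw [neg_sq] at h4
    refine le_of_tendsto h4 ?_
    filter_upwards [h, meanSq_le W hΔ (η := 1 / 4) (by norm_num)] with ε h5 h6
    simp only [Finset.univ_unique, Finset.sum_const, Finset.card_singleton, one_smul,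
      one_mul, mul_one] at h5
    linarith
  have h2 : m ^ 2 ≤ 4 := by
    have : ((m : ℝ)) ^ 2 < 5 := by linarith
    have h5 : m ^ 2 < 5 := by exact_mod_cast this
    omega
  rw [← sq_abs] at h2
  have h5 := abs_nonneg m
  nlinarith

theorem real_pair (W : WeierstrassCurve (𝓞 K)) (hΔ : W.Δ ≠ 0) (c d : HC K)
    (hc : Same c.ψ (cj c.ψ))
    (hp : ∀ k : ℕ, 1 ≤ k → k ≤ 4 → ¬ ∀ᶠ v : HeightOneSpectrum (𝓞 K) in cofinite,
      (c.mul d).ψ v.asIdeal ^ k = 1) {B B' : HeightOneSpectrum (𝓞 K) → ℂ[X]}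
    (hB : IsHeckeTwist W c.ψ B) (hB' : IsHeckeTwist W d.ψ B') {η : ℝ} (hη : 0 < η) :
    ∀ᶠ ε : ℝ in 𝓝[>] 0, 3 * |size 1 B ε| + 4 * |size 1 B' ε| ≤ 34 / 5 + η := by
  have key : ∀ s s' : ℝ, s ^ 2 = 1 → s' ^ 2 = 1 → ∀ᶠ ε : ℝ in 𝓝[>] 0,
      3 * (s * size 1 B ε) + 4 * (s' * size 1 B' ε) ≤ 34 / 5 + η := fun s s' hs hs' =>
    real_pair_ineq c d hc hp hs hs' (T := fun x => TE W (vx x)) (fun x => abs_TE W _)
      (val_size W hΔ c hB) (val_size W hΔ d hB') hη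
  filter_upwards [key 1 1 (by norm_num) (by norm_num), key 1 (-1) (by norm_num) (by norm_num),
    key (-1) 1 (by norm_num) (by norm_num), key (-1) (-1) (by norm_num) (by norm_num)]
    with ε e1 e2 e3 e4
  rcases abs_cases (size 1 B ε) with ⟨a1, _⟩ | ⟨a1, _⟩ <;>
    rcases abs_cases (size 1 B' ε) with ⟨a2, _⟩ | ⟨a2, _⟩ <;> rw [a1, a2] <;> linarith

theorem real_pair_order (W : WeierstrassCurve (𝓞 K)) (hΔ : W.Δ ≠ 0) (c d : HC K)
    (hc : Same c.ψ (cj c.ψ))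
    (hp : ∀ k : ℕ, 1 ≤ k → k ≤ 4 → ¬ ∀ᶠ v : HeightOneSpectrum (𝓞 K) in cofinite,
      (c.mul d).ψ v.asIdeal ^ k = 1) {B B' : HeightOneSpectrum (𝓞 K) → ℂ[X]}
    (hB : IsHeckeTwist W c.ψ B) (hB' : IsHeckeTwist W d.ψ B') {m m' : ℤ}
    (hm : HasOrder 1 B m) (hm' : HasOrder 1 B' m') : m = 0 ∨ m' = 0 := by
  have h1 : 3 * |(m : ℝ)| + 4 * |(m' : ℝ)| ≤ 34 / 5 + 1 / 10 := by
    have h4 := ((tendsto_size hm).abs.const_mul 3).add ((tendsto_size hm').abs.const_mul 4)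
    rw [abs_neg, abs_neg] at h4
    exact le_of_tendsto h4 (real_pair W hΔ c d hc hp hB hB' (by norm_num))
  by_contra hcon
  push Not at hcon
  have h2 : (1 : ℝ) ≤ |(m : ℝ)| := by
    rw [← Int.cast_abs]; exact_mod_cast Int.one_le_abs hcon.1
  have h3 : (1 : ℝ) ≤ |(m' : ℝ)| := by
    rw [← Int.cast_abs]; exact_mod_cast Int.one_le_abs hcon.2
  linarith

/-- `z = N^{-iτ}` -/
theorem conj_cpow (v : HeightOneSpectrum (𝓞 K)) (τ : ℝ) :
    conj ((Ideal.absNorm v.asIdeal : ℂ) ^ (-(τ * I : ℂ))) =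
      (Ideal.absNorm v.asIdeal : ℂ) ^ (τ * I : ℂ) := by
  have h3 := cpow_conj (Ideal.absNorm v.asIdeal : ℂ) (-(τ * I)) (by
    rw [Complex.natCast_arg]; exact Real.pi_ne_zero.symm)
  rw [Complex.conj_natCast] at h3
  rw [← h3]
  congr 1
  simp

/-- **The twists of one Hecke character.** -/
theorem total (W : WeierstrassCurve (𝓞 K)) (hΔ : W.Δ ≠ 0) (c : HC K)
    {B : HeightOneSpectrum (𝓞 K) → ℂ[X]}
    (hB1 : ∀ᶠ v in cofinite, ∀ z : ℂ, (B v).eval z = 1 - (trv W v : ℂ) * (c.ψ v.asIdeal * z) +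
      (Ideal.absNorm v.asIdeal : ℂ) * (c.ψ v.asIdeal * z) ^ 2)
    (hB2 : ∀ (τ : ℝ) v, (B v).eval ((Ideal.absNorm v.asIdeal : ℂ) ^ (-(3 / 2 + τ * I : ℂ))) ≠ 0)
    (S : Finset ℝ) (m : ℝ → ℤ) (hm : ∀ τ ∈ S, HasOrder 1 (shift τ B) (m τ)) :
    ∑ τ ∈ S, |m τ| ≤ 2 := by
  classical
  choose d hd using fun τ : ℝ => exists_height c τ
  have hdv : ∀ τ (v : HeightOneSpectrum (𝓞 K)), (d τ).ψ v.asIdeal =
      c.ψ v.asIdeal * (Ideal.absNorm v.asIdeal : ℂ) ^ (-(τ * I : ℂ)) :=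
    fun τ v => hd τ v.asIdeal v.ne_bot
  have hT : ∀ τ, IsHeckeTwist W (d τ).ψ (shift τ B) := fun τ => shift_twist (hd τ) hB1 (hB2 τ)
  have hq0 : ∀ (v : HeightOneSpectrum (𝓞 K)) (s : ℂ), (Ideal.absNorm v.asIdeal : ℂ) ^ s ≠ 0 :=
    fun v s => by
      rw [cpow_def_of_ne_zero (absNorm_ne v)]
      exact exp_ne_zero _
  -- different heights
  have F1 : ∀ τ τ', τ ≠ τ' → ¬ Same (d τ).ψ (d τ').ψ := by
    intro τ τ' hne hs
    refine norm_power (K := K) (θ := τ - τ') (sub_ne_zero.2 hne) ?_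
    filter_upwards [hs, c.hecke.eventually_ne] with v h1 h2
    rw [hdv, hdv] at h1
    have h3 := mul_left_cancel₀ h2 h1
    have e : (-(((τ - τ' : ℝ) : ℂ) * I)) = -(τ * I) - -(τ' * I) := by push_cast; ring
    rw [e, cpow_sub _ _ (absNorm_ne v), h3]
    exact div_self (hq0 v _)
  -- a real one and another one
  have F2 : ∀ τ τ', τ ≠ τ' → Same (d τ).ψ (cj (d τ).ψ) → ∀ k : ℕ, 1 ≤ k →
      ¬ ∀ᶠ v : HeightOneSpectrum (𝓞 K) in cofinite, ((d τ).mul (d τ')).ψ v.asIdeal ^ k = 1 := by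
    intro τ τ' hne hr k hk hs
    refine norm_power (K := K) (θ := k * (τ' - τ)) (mul_ne_zero (by
      have : 0 < k := hk
      exact_mod_cast this.ne') (sub_ne_zero.2 hne.symm)) ?_
    filter_upwards [hs, c.hecke.eventually_ne, hr] with v h1 h2 h3
    have e1 : ((d τ).mul (d τ')).ψ v.asIdeal = (d τ).ψ v.asIdeal * (d τ').ψ v.asIdeal := by
      have : ((d τ).mul (d τ')).ψ v.asIdeal = mulc (d τ).ψ (d τ').ψ v.asIdeal := rfl
      rw [this, mulc_apply]
    rw [cj_apply, hdv, map_mul, conj_cpow] at h3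
    have h4 : c.ψ v.asIdeal * conj (c.ψ v.asIdeal) = 1 := by
      rw [Complex.mul_conj, Complex.normSq_eq_norm_sq, c.hecke.unit _ h2]
      simp
    -- the product
    have h5 : (d τ).ψ v.asIdeal * (d τ').ψ v.asIdeal =
        (Ideal.absNorm v.asIdeal : ℂ) ^ (-(((τ' - τ : ℝ) : ℂ) * I)) := by
      rw [hdv, h3, hdv]
      have e2 : (-(((τ' - τ : ℝ) : ℂ) * I)) = (τ * I) + -(τ' * I) := by push_cast; ring
      rw [e2, cpow_add _ _ (absNorm_ne v)]
      calc conj (c.ψ v.asIdeal) * (Ideal.absNorm v.asIdeal : ℂ) ^ (τ * I : ℂ) *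
            (c.ψ v.asIdeal * (Ideal.absNorm v.asIdeal : ℂ) ^ (-(τ' * I : ℂ))) =
          (c.ψ v.asIdeal * conj (c.ψ v.asIdeal)) * ((Ideal.absNorm v.asIdeal : ℂ) ^ (τ * I : ℂ) *
            (Ideal.absNorm v.asIdeal : ℂ) ^ (-(τ' * I : ℂ))) := by ring
        _ = _ := by rw [h4, one_mul]
    rw [e1, h5, ← cpow_nat_mul] at h1
    rw [← h1]
    congr 1
    push_cast
    ring
  have F3 : ∀ τ τ', τ ≠ τ' → Same (d τ).ψ (cj (d τ).ψ) → ¬ Same (d τ').ψ (cj (d τ').ψ) := by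
    intro τ τ' hne hr hr'
    refine F2 τ τ' hne hr 2 (by norm_num) ?_
    have key : ∀ σ, Same (d σ).ψ (cj (d σ).ψ) →
        ∀ᶠ v : HeightOneSpectrum (𝓞 K) in cofinite, (d σ).ψ v.asIdeal ^ 2 = 1 := by
      intro σ hσ
      filter_upwards [hσ, (d σ).hecke.eventually_ne] with v h1 h2
      rw [cj_apply] at h1
      rw [sq]
      nth_rewrite 2 [h1]
      rw [Complex.mul_conj, Complex.normSq_eq_norm_sq, (d σ).hecke.unit _ h2]
      simp
    filter_upwards [key τ hr, key τ' hr'] with v h1 h2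
    have e1 : ((d τ).mul (d τ')).ψ v.asIdeal = (d τ).ψ v.asIdeal * (d τ').ψ v.asIdeal := by
      have : ((d τ).mul (d τ')).ψ v.asIdeal = mulc (d τ).ψ (d τ').ψ v.asIdeal := rfl
      rw [this, mulc_apply]
    rw [e1, mul_pow, h1, h2, one_mul]
  -- the orders
  have O1 : ∀ τ ∈ S, ¬ Same (d τ).ψ (cj (d τ).ψ) → |m τ| ≤ 1 := by
    intro τ hτ hn
    have h := uniq W hΔ (fun _ : Unit => d τ) (fun _ => hn)
      (fun i j hij => absurd (Subsingleton.elim i j) hij) (fun _ => hT τ) (m := fun _ => m τ)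
      (fun _ => hm τ hτ)
    simpa using h
  have O2 : ∀ τ ∈ S, ∀ τ' ∈ S, τ ≠ τ' → ¬ Same (d τ).ψ (cj (d τ).ψ) →
      ¬ Same (d τ').ψ (cj (d τ').ψ) → m τ ≠ 0 → m τ' ≠ 0 → Same (d τ).ψ (cj (d τ').ψ) := by
    intro τ hτ τ' hτ' hne hn hn' h1 h2
    by_contra hcon
    have hcon' : ¬ Same (d τ').ψ (cj (d τ).ψ) := fun h => hcon (by
      have := h.symm.cj
      rwa [cj_cj] at this)
    have h := uniq W hΔ (fun b : Bool => cond b (d τ) (d τ'))
      (fun b => by cases b; exacts [hn', hn])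
      (fun i j hij => by
        cases i <;> cases j
        · exact absurd rfl hij
        · exact ⟨F1 τ' τ hne.symm, hcon'⟩
        · exact ⟨F1 τ τ' hne, hcon⟩
        · exact absurd rfl hij)
      (B := fun b => cond b (shift τ B) (shift τ' B))
      (fun b => by cases b; exacts [hT τ', hT τ])
      (m := fun b => cond b (m τ) (m τ')) (fun b => by cases b; exacts [hm τ' hτ', hm τ hτ])
    rw [Fintype.sum_bool] at h
    simp only [cond_true, cond_false] at h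
    have h3 := Int.one_le_abs h1
    have h4 := Int.one_le_abs h2
    omega
  set S' := S.filter (fun τ => m τ ≠ 0) with hS'
  have hsum : ∑ τ ∈ S, |m τ| = ∑ τ ∈ S', |m τ| := by
    rw [hS', Finset.sum_filter]
    refine Finset.sum_congr rfl fun τ _ => ?_
    split_ifs with h
    · rfl
    · push Not at h
      rw [h, abs_zero]
  rw [hsum]
  by_cases hreal : ∃ τ ∈ S', Same (d τ).ψ (cj (d τ).ψ)
  · obtain ⟨τ, hτ, hr⟩ := hreal
    have hτS := (Finset.mem_filter.1 hτ).1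
    have hall : ∀ τ' ∈ S', τ' = τ := by
      intro τ' hτ'
      by_contra hne
      have hτ'S := (Finset.mem_filter.1 hτ').1
      rcases real_pair_order W hΔ (d τ) (d τ') hr
        (fun k hk _ => F2 τ τ' (Ne.symm hne) hr k hk) (hT τ) (hT τ') (hm τ hτS) (hm τ' hτ'S)
        with h | h
      · exact (Finset.mem_filter.1 hτ).2 h
      · exact (Finset.mem_filter.1 hτ').2 h
    have hS1 : S' = {τ} := by
      ext τ'
      rw [Finset.mem_singleton]
      exact ⟨hall τ', fun h => h ▸ hτ⟩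
    rw [hS1, Finset.sum_singleton]
    exact any W hΔ (d τ) (hT τ) (hm τ hτS)
  · push Not at hreal
    have hcard : S'.card ≤ 2 := by
      by_contra hcon
      push Not at hcon
      obtain ⟨x, y, z, hx, hy, hz, hxy, hxz, hyz⟩ := Finset.two_lt_card_iff.1 hcon
      have k : ∀ u, u ∈ S' → u ∈ S ∧ m u ≠ 0 := fun u hu => Finset.mem_filter.1 hu
      have h1 := O2 y (k y hy).1 x (k x hx).1 (Ne.symm hxy) (hreal y hy) (hreal x hx) (k y hy).2
        (k x hx).2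
      have h2 := O2 z (k z hz).1 x (k x hx).1 (Ne.symm hxz) (hreal z hz) (hreal x hx) (k z hz).2
        (k x hx).2
      exact F1 y z hyz (h1.trans h2.symm)
    calc ∑ τ ∈ S', |m τ| ≤ ∑ _τ ∈ S', (1 : ℤ) := Finset.sum_le_sum fun τ hτ =>
          O1 τ (Finset.mem_filter.1 hτ).1 (hreal τ hτ)
      _ = S'.card := by simp
      _ ≤ 2 := by exact_mod_cast hcard

end

end Pool.Agent.Helper29X1.WG
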