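import Pool.Agent.Helper29X1.WG.Folner
import Pool.Agent.Helper29X1.WG.Total

/-!
# The whole edge line
-/

set_option autoImplicit false
set_option linter.unusedSectionVars false

namespace Pool.Agent.Helper29X1.WG

open NumberField Complex Filter Topology IsDedekindDomain Asymptotics Polynomial
open Pool.Agent.W353.EF (LFun size IsFrobenius)
open Pool.Agent.W353.TP (HX sysH LL LL_tendsto bdd_isLittleO lamS_sub)
open Pool.Agent.W353.NF (vx)
open Pool.Agent.W540.BE (nm two_le_nm trv)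
open Pool.Agent.Y149.Ord (HasOrder tendsto_size)
open Pool.Agent.N172.HS
open scoped ComplexConjugate

section

variable {K : Type} [Field K] [NumberField K]

/-- the character `N^{-iτ}` -/
noncomputable def HC.N (K : Type) [Field K] [NumberField K] (τ : ℝ) : HC K :=
  ⟨⊤, fun _ => 0, fun _ => -τ, nch K τ, isHecke_nch τ⟩

theorem HC.N_val (τ : ℝ) (x : HX K) : (HC.N K τ).val x = ((x.1 : ℕ) : ℂ) ^ (-(τ * I : ℂ)) := by
  unfold HC.val HC.N
  simp only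
  rw [hv_eq, nch_apply (vx x).ne_bot, absNorm_vx]

theorem HC.N_mul (σ τ : ℝ) (x : HX K) :
    (HC.N K σ).val x * conj ((HC.N K τ).val x) = (HC.N K (σ - τ)).val x := by
  have h1 : (Ideal.absNorm (vx x).asIdeal : ℂ) = ((x.1 : ℕ) : ℂ) := by rw [absNorm_vx]
  have h2 := conj_cpow (vx x) τ
  rw [h1] at h2
  have h0 : ((x.1 : ℕ) : ℂ) ≠ 0 := by exact_mod_cast x.1.2.pos.ne'
  rw [HC.N_val, HC.N_val, HC.N_val, h2, ← cpow_add _ _ h0]
  congr 1
  push_cast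
  ring

open Classical in
theorem HC.N_gram (σ τ : ℝ) : HasGram (HC.N K σ).val (HC.N K τ).val (if σ = τ then 1 else 0) := by
  have h := HC.gram (HC.N K σ) (HC.N K τ)
  by_cases h1 : σ = τ
  · subst h1
    rw [if_pos rfl]
    rwa [if_pos (Same.refl _)] at h
  · rw [if_neg h1]
    rw [if_neg] at h
    · exact h
    · intro hs
      refine norm_power (K := K) (θ := σ - τ) (sub_ne_zero.2 h1) ?_
      filter_upwards [hs] with v h2
      have h3 : (nch K σ) v.asIdeal = (nch K τ) v.asIdeal := h2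
      rw [nch_apply v.ne_bot, nch_apply v.ne_bot] at h3
      have e : (-(((σ - τ : ℝ) : ℂ) * I)) = -(σ * I) - -(τ * I) := by push_cast; ring
      rw [e, cpow_sub _ _ (absNorm_ne v), h3]
      exact div_self (by
        rw [cpow_def_of_ne_zero (absNorm_ne v)]
        exact exp_ne_zero _)

/-- the mean square of a polynomial -/
theorem poly_gram (F : Finset ℝ) (a : ℝ → ℝ) :
    (fun ε => EH K ε (fun x => ‖∑ g ∈ F, ((a g : ℝ) : ℂ) * (HC.N K g).val x‖ ^ 2) -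
      (∑ g ∈ F, a g ^ 2) * LL ε) =o[𝓝[>] 0] LL := by
  classical
  have h := HasGram.sum (K := K) F F (f := fun g => (HC.N K g).val) (f' := fun g => (HC.N K g).val)
    (fun g _ => (HC.N K g).bdd) (fun g _ => (HC.N K g).bdd) a a
    (g := fun σ τ => if σ = τ then 1 else 0) (fun g _ l _ => HC.N_gram g l)
  have e : ∑ k ∈ F, ∑ l ∈ F, a k * a l * (if k = l then (1 : ℝ) else 0) = ∑ g ∈ F, a g ^ 2 := by
    refine Finset.sum_congr rfl fun k hk => ?_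
    rw [Finset.sum_eq_single k]
    · rw [if_pos rfl]; ring
    · intro l _ hl
      rw [if_neg hl.symm, mul_zero]
    · intro h; exact absurd hk h
  rw [e] at h
  refine h.congr_left fun ε => ?_
  congr 2
  funext x
  rw [Complex.mul_conj, Complex.ofReal_re, Complex.normSq_eq_norm_sq]

/-- a bound for the polynomial -/
theorem poly_bdd (F : Finset ℝ) (a : ℝ → ℝ) (x : HX K) :
    ‖∑ g ∈ F, ((a g : ℝ) : ℂ) * (HC.N K g).val x‖ ≤ ∑ g ∈ F, |a g| := by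
  refine (norm_sum_le _ _).trans (Finset.sum_le_sum fun g _ => ?_)
  rw [norm_mul, Complex.norm_real, Real.norm_eq_abs]
  exact mul_le_of_le_one_right (abs_nonneg _) ((HC.N K g).val_le x)

theorem line_ineq {T : HX K → ℝ} {N : ℝ} (hT : ∀ x, |T x| ≤ N) {R : HX K → ℂ} {M : ℝ}
    (hR : ∀ x, ‖R x‖ ≤ M) {z : ℝ → ℝ → ℝ}
    (hz : ∀ τ, (fun ε => z τ ε * LL ε - EH K ε (fun x => T x * (R x * (HC.N K τ).val x).re))
      =o[𝓝[>] 0] LL) (F : Finset ℝ) (a b a' b' : ℝ → ℝ) {η : ℝ} (hη : 0 < η) :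
    ∀ᶠ ε : ℝ in 𝓝[>] 0, ∑ g ∈ F, ∑ l ∈ F, (a g * b l + a' g * b' l) * z (g - l) ε ≤
      N * M * ((∑ g ∈ F, (a g ^ 2 + b g ^ 2 + a' g ^ 2 + b' g ^ 2)) / 2) + η := by
  classical
  have hN : 0 ≤ N := bd_nonneg hT
  have hM : 0 ≤ M := (norm_nonneg _).trans (hR ((sysH K).nonempty.some))
  set A : (ℝ → ℝ) → HX K → ℂ := fun a x => ∑ g ∈ F, ((a g : ℝ) : ℂ) * (HC.N K g).val x with hA
  -- the product
  have hprod : ∀ (a b : ℝ → ℝ) (x : HX K), A a x * conj (A b x) =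
      ∑ p ∈ F ×ˢ F, ((a p.1 * b p.2 : ℝ) : ℂ) * (HC.N K (p.1 - p.2)).val x := by
    intro a b x
    rw [hA]
    simp only
    rw [map_sum, Finset.sum_mul_sum, Finset.sum_product]
    refine Finset.sum_congr rfl fun g _ => Finset.sum_congr rfl fun l _ => ?_
    rw [← HC.N_mul, map_mul, Complex.conj_ofReal]
    push_cast
    ring
  set Φ : HX K → ℝ := fun x => T x * (R x * (A a x * conj (A b x) + A a' x * conj (A b' x))).re
    with hΦ
  set c : ℝ × ℝ → ℝ := fun p => a p.1 * b p.2 + a' p.1 * b' p.2 with hc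
  have hΦe : Φ = fun x => ∑ p ∈ F ×ˢ F, c p * (T x * (R x * (HC.N K (p.1 - p.2)).val x).re) := by
    funext x
    rw [hΦ]
    simp only
    rw [hprod, hprod, ← Finset.sum_add_distrib, Finset.mul_sum, Complex.re_sum, Finset.mul_sum]
    refine Finset.sum_congr rfl fun p _ => ?_
    have e1 : R x * (((a p.1 * b p.2 : ℝ) : ℂ) * (HC.N K (p.1 - p.2)).val x +
        ((a' p.1 * b' p.2 : ℝ) : ℂ) * (HC.N K (p.1 - p.2)).val x) =
        ((c p : ℝ) : ℂ) * (R x * (HC.N K (p.1 - p.2)).val x) := by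
      rw [hc]
      push_cast
      ring
    rw [e1, Complex.re_ofReal_mul]
    ring
  have hterm : ∀ (τ : ℝ) x, |T x * (R x * (HC.N K τ).val x).re| ≤ N * M := by
    intro τ x
    rw [abs_mul]
    refine mul_le_mul (hT x) ?_ (abs_nonneg _) hN
    refine (Complex.abs_re_le_norm _).trans ?_
    rw [norm_mul]
    calc ‖R x‖ * ‖(HC.N K τ).val x‖ ≤ M * 1 :=
          mul_le_mul (hR x) ((HC.N K τ).val_le x) (norm_nonneg _) hM
      _ = M := mul_one _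
  -- the lower side
  have h1 : (fun ε => (∑ p ∈ F ×ˢ F, c p * z (p.1 - p.2) ε) * LL ε - EH K ε Φ)
      =o[𝓝[>] 0] LL := by
    have h4 := finset_isLittleO (F ×ˢ F) (fun p _ => (hz (p.1 - p.2)).const_mul_left (c p))
    refine h4.congr' ?_ (EventuallyEq.refl _ _)
    filter_upwards [self_mem_nhdsWithin] with ε hε
    have hε' : (0 : ℝ) < ε := hε
    rw [hΦe, EH_sum hε' (F ×ˢ F) (fun p x => c p * (T x * (R x * (HC.N K (p.1 - p.2)).val x).re))
      (fun p => |c p| * (N * M)) (fun p _ x => by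
        rw [abs_mul]
        exact mul_le_mul_of_nonneg_left (hterm _ x) (abs_nonneg _)),
      Finset.sum_mul, ← Finset.sum_sub_distrib]
    refine Finset.sum_congr rfl fun p _ => ?_
    rw [EH_const_mul]
    ring
  -- the upper side
  set U : HX K → ℝ := fun x => N * M / 2 * (‖A a x‖ ^ 2 + (‖A b x‖ ^ 2 + (‖A a' x‖ ^ 2 +
    ‖A b' x‖ ^ 2))) with hU
  have hpt : ∀ x, Φ x ≤ U x := by
    intro x
    rw [hΦ, hU]
    simp only
    refine (le_abs_self _).trans ?_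
    rw [abs_mul]
    have k1 : |(R x * (A a x * conj (A b x) + A a' x * conj (A b' x))).re| ≤
        M * (‖A a x‖ * ‖A b x‖ + ‖A a' x‖ * ‖A b' x‖) := by
      refine (Complex.abs_re_le_norm _).trans ?_
      rw [norm_mul]
      refine mul_le_mul (hR x) ?_ (norm_nonneg _) hM
      refine (norm_add_le _ _).trans ?_
      rw [norm_mul, norm_mul, Complex.norm_conj, Complex.norm_conj]
    have k2 : |T x| * |(R x * (A a x * conj (A b x) + A a' x * conj (A b' x))).re| ≤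
        N * (M * (‖A a x‖ * ‖A b x‖ + ‖A a' x‖ * ‖A b' x‖)) :=
      mul_le_mul (hT x) k1 (abs_nonneg _) hN
    refine k2.trans ?_
    have k3 : ‖A a x‖ * ‖A b x‖ ≤ (‖A a x‖ ^ 2 + ‖A b x‖ ^ 2) / 2 := by
      nlinarith [sq_nonneg (‖A a x‖ - ‖A b x‖)]
    have k4 : ‖A a' x‖ * ‖A b' x‖ ≤ (‖A a' x‖ ^ 2 + ‖A b' x‖ ^ 2) / 2 := by
      nlinarith [sq_nonneg (‖A a' x‖ - ‖A b' x‖)]
    have hNM : 0 ≤ N * M := mul_nonneg hN hM
    calc N * (M * (‖A a x‖ * ‖A b x‖ + ‖A a' x‖ * ‖A b' x‖)) =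
        N * M * (‖A a x‖ * ‖A b x‖ + ‖A a' x‖ * ‖A b' x‖) := by ring
      _ ≤ N * M * ((‖A a x‖ ^ 2 + ‖A b x‖ ^ 2) / 2 + (‖A a' x‖ ^ 2 + ‖A b' x‖ ^ 2) / 2) :=
          mul_le_mul_of_nonneg_left (add_le_add k3 k4) hNM
      _ = _ := by ring
  have hb : ∀ (a : ℝ → ℝ) x, |‖A a x‖ ^ 2| ≤ (∑ g ∈ F, |a g|) ^ 2 := fun a x => by
    rw [abs_of_nonneg (sq_nonneg _)]
    exact pow_le_pow_left₀ (norm_nonneg _) (poly_bdd F a x) 2
  have hg : ∀ (a : ℝ → ℝ), (fun ε => EH K ε (fun x => ‖A a x‖ ^ 2) - (∑ g ∈ F, a g ^ 2) * LL ε)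
      =o[𝓝[>] 0] LL := fun a => poly_gram F a
  have b3 : ∀ x, |‖A a' x‖ ^ 2 + ‖A b' x‖ ^ 2| ≤ (∑ g ∈ F, |a' g|) ^ 2 + (∑ g ∈ F, |b' g|) ^ 2 :=
    fun x => (abs_add_le _ _).trans (add_le_add (hb a' x) (hb b' x))
  have b2 : ∀ x, |‖A b x‖ ^ 2 + (‖A a' x‖ ^ 2 + ‖A b' x‖ ^ 2)| ≤ (∑ g ∈ F, |b g|) ^ 2 +
      ((∑ g ∈ F, |a' g|) ^ 2 + (∑ g ∈ F, |b' g|) ^ 2) :=
    fun x => (abs_add_le _ _).trans (add_le_add (hb b x) (b3 x))
  have b1 : ∀ x, |‖A a x‖ ^ 2 + (‖A b x‖ ^ 2 + (‖A a' x‖ ^ 2 + ‖A b' x‖ ^ 2))| ≤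
      (∑ g ∈ F, |a g|) ^ 2 + ((∑ g ∈ F, |b g|) ^ 2 +
      ((∑ g ∈ F, |a' g|) ^ 2 + (∑ g ∈ F, |b' g|) ^ 2)) :=
    fun x => (abs_add_le _ _).trans (add_le_add (hb a x) (b2 x))
  have h2 : (fun ε => EH K ε U - N * M * ((∑ g ∈ F, (a g ^ 2 + b g ^ 2 + a' g ^ 2 + b' g ^ 2)) / 2)
      * LL ε) =o[𝓝[>] 0] LL := by
    refine ((((hg a).add ((hg b).add ((hg a').add (hg b')))).const_mul_left (N * M / 2))).congr' ?_
      (EventuallyEq.refl _ _)
    filter_upwards [self_mem_nhdsWithin] with ε hε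
    have hε' : (0 : ℝ) < ε := hε
    rw [hU, EH_const_mul, EH_add hε' (hb a) b2, EH_add hε' (hb b) b3, EH_add hε' (hb a') (hb b')]
    simp only [Finset.sum_add_distrib]
    ring
  have hcomp : ∀ᶠ ε : ℝ in 𝓝[>] 0, EH K ε Φ ≤ EH K ε U := by
    filter_upwards [self_mem_nhdsWithin] with ε hε
    have hε' : (0 : ℝ) < ε := hε
    refine EH_mono' (a := ∑ p ∈ F ×ˢ F, |c p| * (N * M)) (b := |N * M / 2| *
      ((∑ g ∈ F, |a g|) ^ 2 + ((∑ g ∈ F, |b g|) ^ 2 +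
      ((∑ g ∈ F, |a' g|) ^ 2 + (∑ g ∈ F, |b' g|) ^ 2)))) (fun x => ?_) (fun x => ?_) hpt hε'
    · rw [hΦe]
      refine (Finset.abs_sum_le_sum_abs _ _).trans (Finset.sum_le_sum fun p _ => ?_)
      rw [abs_mul]
      exact mul_le_mul_of_nonneg_left (hterm _ x) (abs_nonneg _)
    · rw [hU]
      simp only
      rw [abs_mul]
      exact mul_le_mul_of_nonneg_left (b1 x) (abs_nonneg _)
  have hL0 : ∀ᶠ ε : ℝ in 𝓝[>] 0, 0 < LL ε := LL_tendsto.eventually_gt_atTop 0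
  have t1 := h1.tendsto_div_nhds_zero
  have t2 := h2.tendsto_div_nhds_zero
  filter_upwards [hcomp, hL0, t1.eventually_lt_const (half_pos hη),
    t2.eventually_lt_const (half_pos hη)] with ε k1 k2 k3 k4
  rw [div_lt_iff₀ k2] at k3 k4
  have e : ∑ g ∈ F, ∑ l ∈ F, (a g * b l + a' g * b' l) * z (g - l) ε =
      ∑ p ∈ F ×ˢ F, c p * z (p.1 - p.2) ε := by
    rw [Finset.sum_product]
  rw [e]
  have k5 : (∑ p ∈ F ×ˢ F, c p * z (p.1 - p.2) ε) * LL ε ≤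
      (N * M * ((∑ g ∈ F, (a g ^ 2 + b g ^ 2 + a' g ^ 2 + b' g ^ 2)) / 2) + η) * LL ε := by
    linarith
  exact le_of_mul_le_mul_right k5 k2

end

end Pool.Agent.Helper29X1.WG
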