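import Pool.Agent.Helper29X1.WG.Tw

/-!
# Pairs of representations
-/

set_option autoImplicit false
set_option linter.unusedSectionVars false

namespace Pool.Agent.Helper29X1.WG

open NumberField Complex Filter Topology IsDedekindDomain Asymptotics Polynomial
open Pool.Agent.W353.EF (LFun size IsFrobenius)
open Pool.Agent.W353.PV (Eig alp pick pick_spec tF)
open Pool.Agent.W353.TP (HX sysH LL LL_tendsto bdd_isLittleO lamS_sub push res)
open Pool.Agent.W353.NF (vx)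
open Pool.Agent.W540.BE (nm two_le_nm trv)
open Pool.Agent.Y149.Ord (HasOrder tendsto_size)
open Pool.Agent.N172.HS
open scoped ComplexConjugate

section

variable {K : Type} [Field K] [NumberField K]

/-- a Gram number of a function with itself is nonnegative -/
theorem gram_nonneg {f : HX K → ℂ} {g : ℝ} (h : HasGram f f g) : 0 ≤ g := by
  have hL0 : ∀ᶠ ε : ℝ in 𝓝[>] 0, 0 < LL ε := LL_tendsto.eventually_gt_atTop 0
  have t1 := h.tendsto_div_nhds_zero
  have t2 : Tendsto (fun ε => EH K ε (fun x => (f x * conj (f x)).re) / LL ε) (𝓝[>] 0) (𝓝 g) := by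
    have := t1.add_const g
    rw [zero_add] at this
    refine this.congr' ?_
    filter_upwards [hL0] with ε h1
    field_simp
    ring
  refine ge_of_tendsto t2 ?_
  filter_upwards [hL0] with ε h1
  refine div_nonneg (EH_nonneg' (fun x => ?_) ε) h1.le
  rw [Complex.mul_conj, Complex.ofReal_re]
  exact Complex.normSq_nonneg _

/-- comparison of two Gram numbers -/
theorem gram_le {f f' : HX K → ℂ} (hf : Bdd f) (hf' : Bdd f') {g g' C : ℝ} (h : HasGram f f g)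
    (h' : HasGram f' f' g') (hC : ∀ x, ‖f x‖ ^ 2 ≤ C * ‖f' x‖ ^ 2) : g ≤ C * g' := by
  obtain ⟨b, hb0, hb⟩ := hf
  obtain ⟨b', hb'0, hb'⟩ := hf'
  have hL0 : ∀ᶠ ε : ℝ in 𝓝[>] 0, 0 < LL ε := LL_tendsto.eventually_gt_atTop 0
  have key : ∀ {f : HX K → ℂ} {g : ℝ}, HasGram f f g →
      Tendsto (fun ε => EH K ε (fun x => ‖f x‖ ^ 2) / LL ε) (𝓝[>] 0) (𝓝 g) := by
    intro f g h
    have := h.tendsto_div_nhds_zero.add_const g
    rw [zero_add] at this
    refine this.congr' ?_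
    filter_upwards [hL0] with ε h1
    have e : (fun x => (f x * conj (f x)).re) = fun x => ‖f x‖ ^ 2 := by
      funext x
      rw [Complex.mul_conj, Complex.ofReal_re, Complex.normSq_eq_norm_sq]
    rw [e]
    field_simp
    ring
  refine le_of_tendsto_of_tendsto (key h) ((key h').const_mul C) ?_
  filter_upwards [hL0, self_mem_nhdsWithin] with ε h1 h2
  have hε : (0 : ℝ) < ε := h2
  have h3 : EH K ε (fun x => ‖f x‖ ^ 2) ≤ EH K ε (fun x => C * ‖f' x‖ ^ 2) := by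
    refine EH_mono' (a := b ^ 2) (b := |C| * b' ^ 2) (fun x => ?_) (fun x => ?_) hC hε
    · rw [abs_of_nonneg (sq_nonneg _)]
      exact pow_le_pow_left₀ (norm_nonneg _) (hb x) 2
    · rw [abs_mul, abs_of_nonneg (sq_nonneg ‖f' x‖)]
      exact mul_le_mul_of_nonneg_left (pow_le_pow_left₀ (norm_nonneg _) (hb' x) 2) (abs_nonneg _)
  rw [EH_const_mul] at h3
  rw [mul_div_assoc']
  exact div_le_div_of_nonneg_right h3 h1.le

/-- the quadratic form of the inner products is nonnegative -/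
theorem inner_quad {κ : Type} [Fintype κ] (ρ : κ → WRep K) (c : κ → ℝ) :
    0 ≤ ∑ k, ∑ l, c k * c l * ((ρ k).inner (ρ l) : ℝ) :=
  gram_nonneg (HasGram.sum Finset.univ Finset.univ (fun k _ => (ρ k).bdd) (fun k _ => (ρ k).bdd) c c
    (g := fun k l => ((ρ k).inner (ρ l) : ℝ))
    (fun k _ l _ => WRep.gram Pool.Agent.N134.HS.t_nvq (ρ k) (ρ l)))

theorem inner_abs_le {α β : WRep K} (hα : α.inner α = 1) (hβ : β.inner β = 1) :
    |α.inner β| ≤ 1 := by
  have key : ∀ s : ℝ, 0 ≤ 1 + 2 * s * (α.inner β : ℝ) + s ^ 2 := by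
    intro s
    have h := inner_quad ![α, β] ![1, s]
    rw [Fin.sum_univ_two, Fin.sum_univ_two, Fin.sum_univ_two] at h
    simp only [Matrix.cons_val_zero, Matrix.cons_val_one] at h
    rw [hα, hβ, β.inner_comm α] at h
    push_cast at h
    linarith
  have h1 := key 1
  have h2 := key (-1)
  have h3 : (α.inner β : ℝ) ≤ 1 := by linarith
  have h4 : -1 ≤ (α.inner β : ℝ) := by linarith
  rw [abs_le]
  exact ⟨by exact_mod_cast h4, by exact_mod_cast h3⟩

/-- **Schur's lemma.** -/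
theorem inner_trans {α β γ : WRep K} (hα : α.inner α = 1) (hβ : β.inner β = 1)
    (hγ : γ.inner γ = 1) {c : ℤ} (hc : c ^ 2 = 1) (h : α.inner β = c) :
    α.inner γ = c * β.inner γ := by
  have key : ∀ s : ℝ, 0 ≤ s ^ 2 + 2 * s * ((α.inner γ : ℝ) - c * β.inner γ) := by
    intro s
    have h0 := inner_quad ![α, β, γ] ![1, -(c : ℝ), s]
    rw [Fin.sum_univ_three, Fin.sum_univ_three, Fin.sum_univ_three, Fin.sum_univ_three] at h0
    simp only [Matrix.cons_val_zero, Matrix.cons_val_one, Matrix.cons_val_two,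
      Matrix.tail_cons, Matrix.head_cons] at h0
    rw [hα, hβ, hγ, β.inner_comm α, γ.inner_comm α, γ.inner_comm β, h] at h0
    have hc' : (c : ℝ) ^ 2 = 1 := by exact_mod_cast hc
    push_cast at h0
    nlinarith
  have h1 := key (-((α.inner γ : ℝ) - c * β.inner γ))
  have h2 : ((α.inner γ : ℝ) - c * β.inner γ) ^ 2 ≤ 0 := by nlinarith
  have h3 : (α.inner γ : ℝ) - c * β.inner γ = 0 := by
    have := le_antisymm h2 (sq_nonneg _)
    exact pow_eq_zero_iff (two_ne_zero) |>.1 this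
  have h4 : (α.inner γ : ℝ) = ((c * β.inner γ : ℤ) : ℝ) := by
    push_cast
    linarith
  exact_mod_cast h4

theorem tw_conj (ρ : WRep K) (g l : ℝ) (x : HX K) :
    (tw ρ g).tH x * conj ((HC.N K l).val x) = (tw ρ (g - l)).tH x := by
  rw [tw_tH, tw_tH, mul_assoc, HC.N_mul]

theorem tw_tw (ρ : WRep K) (g l : ℝ) (x : HX K) :
    (tw ρ g).tH x * conj ((tw ρ l).tH x) = (tw ρ (g - l)).tH x * conj (ρ.tH x) := by
  rw [tw_tH ρ l, map_mul]
  have := tw_conj ρ g l x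
  calc (tw ρ g).tH x * (conj (ρ.tH x) * conj ((HC.N K l).val x)) =
      ((tw ρ g).tH x * conj ((HC.N K l).val x)) * conj (ρ.tH x) := by ring
    _ = _ := by rw [this]

theorem inner_tw (ρ : WRep K) (g l : ℝ) : (tw ρ g).inner (tw ρ l) = (tw ρ (g - l)).inner ρ := by
  have hQ : StNvq := Pool.Agent.N134.HS.t_nvq
  have h1 : HasGram (tw ρ g).tH (tw ρ l).tH ((tw ρ g).inner (tw ρ l)) := WRep.gram hQ _ _
  have h2 : HasGram (tw ρ (g - l)).tH ρ.tH ((tw ρ (g - l)).inner ρ) := WRep.gram hQ _ _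
  have h3 : HasGram (tw ρ g).tH (tw ρ l).tH ((tw ρ (g - l)).inner ρ) := by
    unfold HasGram at h2 ⊢
    simp only [tw_tw]
    exact h2
  exact_mod_cast h1.unique h3

theorem tw_zero_tH (ρ : WRep K) (x : HX K) : (tw ρ 0).tH x = ρ.tH x := by
  rw [tw_tH, HC.N_val]
  simp

theorem inner_tw_zero (ρ σ : WRep K) : (tw ρ 0).inner σ = ρ.inner σ := by
  have hQ : StNvq := Pool.Agent.N134.HS.t_nvq
  have h1 : HasGram (tw ρ 0).tH σ.tH ((tw ρ 0).inner σ) := WRep.gram hQ _ _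
  have h2 : HasGram ρ.tH σ.tH (ρ.inner σ) := WRep.gram hQ _ _
  have h3 : HasGram (tw ρ 0).tH σ.tH (ρ.inner σ) := by
    unfold HasGram at h2 ⊢
    simp only [tw_zero_tH]
    exact h2
  exact_mod_cast h1.unique h3

theorem inner_tw_self {ρ : WRep K} (h : ρ.IsIrr) (g : ℝ) : (tw ρ g).inner (tw ρ g) = 1 := by
  rw [inner_tw, sub_self, inner_tw_zero]
  exact h

/-- the powers of a twist -/
theorem inner_tw_pow {ρ : WRep K} (h : ρ.IsIrr) {τ : ℝ} {c : ℤ} (hc : (tw ρ τ).inner ρ = c)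
    (hc2 : c ^ 2 = 1) (j : ℕ) : (tw ρ (j * τ)).inner ρ = c ^ j := by
  induction j with
  | zero =>
    rw [Nat.cast_zero, zero_mul, inner_tw_zero, pow_zero]
    exact h
  | succ j ih =>
    have e : (((j + 1 : ℕ) : ℝ) * τ - (j : ℝ) * τ) = τ := by push_cast; ring
    have h1 : (tw ρ (((j + 1 : ℕ) : ℝ) * τ)).inner (tw ρ ((j : ℝ) * τ)) = c := by
      rw [inner_tw, e, hc]
    rw [inner_trans (inner_tw_self h _) (inner_tw_self h _) h hc2 h1, ih, pow_succ]
    ring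

theorem inner_tw_gram {ρ : WRep K} (h : ρ.IsIrr) {τ : ℝ} {c : ℤ} (hc : (tw ρ τ).inner ρ = c)
    (hc2 : c ^ 2 = 1) (j k : ℕ) :
    c ^ j * c ^ k * (tw ρ ((j : ℝ) * τ)).inner (tw ρ ((k : ℝ) * τ)) = 1 := by
  have key : ∀ j k : ℕ, k ≤ j →
      c ^ j * c ^ k * (tw ρ ((j : ℝ) * τ)).inner (tw ρ ((k : ℝ) * τ)) = 1 := by
    intro j k hkj
    obtain ⟨d, rfl⟩ := Nat.exists_eq_add_of_le hkj
    have e : ((k + d : ℕ) : ℝ) * τ - (k : ℝ) * τ = (d : ℝ) * τ := by push_cast; ring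
    rw [inner_tw, e, inner_tw_pow h hc hc2]
    have : c ^ (k + d) * c ^ k * c ^ d = (c ^ 2) ^ (k + d) := by ring
    rw [this, hc2, one_pow]
  rcases le_total k j with h1 | h1
  · exact key j k h1
  · rw [WRep.inner_comm, mul_comm (c ^ j)]
    exact key k j h1

/-- the comparison -/
theorem tw_compare (ρ : WRep K) {τ : ℝ} (hτ : τ ≠ 0) (n : ℕ) (c : ℝ) (hc : c ^ 2 = 1) :
    ∑ j ∈ Finset.range n, ∑ k ∈ Finset.range n, c ^ j * c ^ k *
      ((tw ρ ((j : ℝ) * τ)).inner (tw ρ ((k : ℝ) * τ)) : ℝ) ≤ ρ.bd ^ 2 * n := by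
  classical
  have hQ : StNvq := Pool.Agent.N134.HS.t_nvq
  have G1 := HasGram.sum (K := K) (Finset.range n) (Finset.range n)
    (f := fun j : ℕ => (tw ρ ((j : ℝ) * τ)).tH) (f' := fun j : ℕ => (tw ρ ((j : ℝ) * τ)).tH)
    (fun j _ => (tw ρ ((j : ℝ) * τ)).bdd) (fun j _ => (tw ρ ((j : ℝ) * τ)).bdd) (fun j => c ^ j)
    (fun j => c ^ j) (g := fun j k => ((tw ρ ((j : ℝ) * τ)).inner (tw ρ ((k : ℝ) * τ)) : ℝ))
    (fun j _ k _ => WRep.gram hQ _ _)
  have G2 := HasGram.sum (K := K) (Finset.range n) (Finset.range n)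
    (f := fun j : ℕ => (HC.N K ((j : ℝ) * τ)).val) (f' := fun j : ℕ => (HC.N K ((j : ℝ) * τ)).val)
    (fun j _ => (HC.N K ((j : ℝ) * τ)).bdd) (fun j _ => (HC.N K ((j : ℝ) * τ)).bdd)
    (fun j => c ^ j) (fun j => c ^ j) (g := fun j k => if (j : ℝ) * τ = (k : ℝ) * τ then 1 else 0)
    (fun j _ k _ => HC.N_gram _ _)
  have e2 : ∑ j ∈ Finset.range n, ∑ k ∈ Finset.range n, c ^ j * c ^ k *
      (if (j : ℝ) * τ = (k : ℝ) * τ then (1 : ℝ) else 0) = n := by
    have : ∀ j ∈ Finset.range n, ∑ k ∈ Finset.range n, c ^ j * c ^ k *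
        (if (j : ℝ) * τ = (k : ℝ) * τ then (1 : ℝ) else 0) = 1 := by
      intro j hj
      rw [Finset.sum_eq_single j]
      · rw [if_pos rfl, mul_one, ← pow_add, ← two_mul, pow_mul, hc, one_pow]
      · intro k _ hk
        rw [if_neg, mul_zero]
        intro h1
        have := mul_right_cancel₀ hτ h1
        exact hk (by exact_mod_cast this.symm)
      · intro h1; exact absurd hj h1
    rw [Finset.sum_congr rfl this]
    simp
  rw [e2] at G2
  have B1 : Bdd (fun x => ∑ k ∈ Finset.range n, ((c ^ k : ℝ) : ℂ) * (tw ρ ((k : ℝ) * τ)).tH x) :=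
    Bdd.sum (Finset.range n) (f := fun j : ℕ => (tw ρ ((j : ℝ) * τ)).tH)
      (fun j _ => (tw ρ ((j : ℝ) * τ)).bdd) (fun k => ((c ^ k : ℝ) : ℂ))
  have B2 : Bdd (fun x => ∑ k ∈ Finset.range n, ((c ^ k : ℝ) : ℂ) *
      (HC.N K ((k : ℝ) * τ)).val x) :=
    Bdd.sum (Finset.range n) (f := fun j : ℕ => (HC.N K ((j : ℝ) * τ)).val)
      (fun j _ => (HC.N K ((j : ℝ) * τ)).bdd) (fun k => ((c ^ k : ℝ) : ℂ))
  refine gram_le B1 B2 G1 G2 (C := ρ.bd ^ 2) (fun x => ?_)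
  have e3 : ∑ k ∈ Finset.range n, ((c ^ k : ℝ) : ℂ) * (tw ρ ((k : ℝ) * τ)).tH x =
      ρ.tH x * ∑ k ∈ Finset.range n, ((c ^ k : ℝ) : ℂ) * (HC.N K ((k : ℝ) * τ)).val x := by
    rw [Finset.mul_sum]
    refine Finset.sum_congr rfl fun k _ => ?_
    rw [tw_tH]
    ring
  rw [e3, norm_mul, mul_pow]
  exact mul_le_mul_of_nonneg_right (pow_le_pow_left₀ (norm_nonneg _) (ρ.norm_tH_le x) 2)
    (sq_nonneg _)

/-- **An irreducible representation is not isomorphic to its twists by `N^{iτ}`.** -/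
theorem inner_tw_irr {ρ : WRep K} (h : ρ.IsIrr) {τ : ℝ} (hτ : τ ≠ 0) : (tw ρ τ).inner ρ = 0 := by
  classical
  by_contra hne
  obtain ⟨c, hc⟩ : ∃ c : ℤ, (tw ρ τ).inner ρ = c := ⟨_, rfl⟩
  rw [hc] at hne
  have hc1 : |c| ≤ 1 := by
    have := inner_abs_le (inner_tw_self h τ) h
    rwa [hc] at this
  have hc2 : c ^ 2 = 1 := by
    have h1 : |c| = 1 := le_antisymm hc1 (Int.one_le_abs hne)
    rw [← sq_abs, h1, one_pow]
  obtain ⟨n, hn⟩ : ∃ n : ℕ, n = ⌊ρ.bd ^ 2⌋₊ + 1 := ⟨_, rfl⟩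
  have h3 := tw_compare ρ hτ n (c : ℝ) (by exact_mod_cast hc2)
  have e1 : ∀ j k : ℕ, (c : ℝ) ^ j * (c : ℝ) ^ k *
      ((tw ρ ((j : ℝ) * τ)).inner (tw ρ ((k : ℝ) * τ)) : ℝ) = 1 := by
    intro j k
    exact_mod_cast inner_tw_gram h hc hc2 j k
  simp only [e1] at h3
  rw [Finset.sum_const, Finset.sum_const, Finset.card_range, nsmul_eq_mul, nsmul_eq_mul,
    mul_one] at h3
  have hn0 : (0 : ℝ) < n := by
    rw [hn]
    positivity
  have h4 : (n : ℝ) ≤ ρ.bd ^ 2 := le_of_mul_le_mul_right h3 hn0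
  have h5 : ρ.bd ^ 2 < n := by
    rw [hn]
    push_cast
    exact Nat.lt_floor_add_one _
  linarith

/-- **The bilinear inequality.** -/
theorem bilin {κ μ : Type} [Fintype κ] [Fintype μ] {f : κ → HX K → ℂ} {f' : μ → HX K → ℂ}
    (hf : ∀ k, Bdd (f k)) (hf' : ∀ l, Bdd (f' l)) {g : κ → κ → ℝ} {g' : μ → μ → ℝ}
    (hg : ∀ k l, HasGram (f k) (f l) (g k l)) (hg' : ∀ k l, HasGram (f' k) (f' l) (g' k l))
    {T : HX K → ℝ} {N : ℝ} (hT : ∀ x, |T x| ≤ N) {z : κ → μ → ℝ → ℝ}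
    (hz : ∀ k l, (fun ε => z k l ε * LL ε -
      EH K ε (fun x => T x * (f k x * conj (f' l x)).re)) =o[𝓝[>] 0] LL)
    (a : κ → ℝ) (b : μ → ℝ) {η : ℝ} (hη : 0 < η) :
    ∀ᶠ ε : ℝ in 𝓝[>] 0, ∑ k, ∑ l, a k * b l * z k l ε ≤
      N * ((∑ k, ∑ l, a k * a l * g k l + ∑ k, ∑ l, b k * b l * g' k l) / 2) + η := by
  classical
  have hN : 0 ≤ N := WG.bd_nonneg hT
  set A : HX K → ℂ := fun x => ∑ k, ((a k : ℝ) : ℂ) * f k x with hA
  set B : HX K → ℂ := fun x => ∑ l, ((b l : ℝ) : ℂ) * f' l x with hB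
  obtain ⟨bA, hbA0, hbA⟩ : Bdd A := Bdd.sum Finset.univ (fun k _ => hf k) _
  obtain ⟨bB, hbB0, hbB⟩ : Bdd B := Bdd.sum Finset.univ (fun k _ => hf' k) _
  have hAg : HasGram A A (∑ k, ∑ l, a k * a l * g k l) :=
    HasGram.sum Finset.univ Finset.univ (fun k _ => hf k) (fun k _ => hf k) a a
      (fun k _ l _ => hg k l)
  have hBg : HasGram B B (∑ k, ∑ l, b k * b l * g' k l) :=
    HasGram.sum Finset.univ Finset.univ (fun k _ => hf' k) (fun k _ => hf' k) b b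
      (fun k _ l _ => hg' k l)
  have hnorm : ∀ {W : HX K → ℂ} {G : ℝ}, HasGram W W G →
      (fun ε => EH K ε (fun x => ‖W x‖ ^ 2) - G * LL ε) =o[𝓝[>] 0] LL := by
    intro W G h
    refine h.congr_left fun ε => ?_
    congr 2
    funext x
    rw [Complex.mul_conj, Complex.ofReal_re, Complex.normSq_eq_norm_sq]
  set Φ : HX K → ℝ := fun x => T x * (A x * conj (B x)).re with hΦ
  choose b1 hb1 hb1' using hf
  choose b2 hb2 hb2' using hf'
  have hterm : ∀ k l x, |T x * (f k x * conj (f' l x)).re| ≤ N * (b1 k * b2 l) := by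
    intro k l x
    rw [abs_mul]
    refine mul_le_mul (hT x) ((Complex.abs_re_le_norm _).trans ?_) (abs_nonneg _) hN
    rw [norm_mul, Complex.norm_conj]
    exact mul_le_mul (hb1' k x) (hb2' l x) (norm_nonneg _) (hb1 k)
  have hΦe : Φ = fun x => ∑ p : κ × μ, a p.1 * b p.2 *
      (T x * (f p.1 x * conj (f' p.2 x)).re) := by
    funext x
    rw [hΦ]
    simp only
    rw [hA, hB]
    simp only
    rw [map_sum, Finset.sum_mul_sum, Fintype.sum_prod_type, Complex.re_sum, Finset.mul_sum]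
    refine Finset.sum_congr rfl fun k _ => ?_
    rw [Complex.re_sum, Finset.mul_sum]
    refine Finset.sum_congr rfl fun l _ => ?_
    have e1 : ((a k : ℝ) : ℂ) * f k x * conj (((b l : ℝ) : ℂ) * f' l x) =
        ((a k * b l : ℝ) : ℂ) * (f k x * conj (f' l x)) := by
      rw [map_mul, Complex.conj_ofReal]
      push_cast
      ring
    rw [e1, Complex.re_ofReal_mul]
    ring
  have h1 : (fun ε => (∑ k, ∑ l, a k * b l * z k l ε) * LL ε - EH K ε Φ) =o[𝓝[>] 0] LL := by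
    have h4 := finset_isLittleO (Finset.univ : Finset (κ × μ))
      (fun p _ => (hz p.1 p.2).const_mul_left (a p.1 * b p.2))
    refine h4.congr' ?_ (EventuallyEq.refl _ _)
    filter_upwards [self_mem_nhdsWithin] with ε hε
    have hε' : (0 : ℝ) < ε := hε
    rw [hΦe, EH_sum hε' Finset.univ
      (fun (p : κ × μ) x => a p.1 * b p.2 * (T x * (f p.1 x * conj (f' p.2 x)).re))
      (fun p => |a p.1 * b p.2| * (N * (b1 p.1 * b2 p.2))) (fun p _ x => by
        rw [abs_mul]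
        exact mul_le_mul_of_nonneg_left (hterm _ _ x) (abs_nonneg _)),
      ← Fintype.sum_prod_type' (f := fun k l => a k * b l * z k l ε),
      Finset.sum_mul, ← Finset.sum_sub_distrib]
    refine Finset.sum_congr rfl fun p _ => ?_
    rw [EH_const_mul]
    ring
  set U : HX K → ℝ := fun x => N / 2 * (‖A x‖ ^ 2 + ‖B x‖ ^ 2) with hU
  have hpt : ∀ x, Φ x ≤ U x := by
    intro x
    rw [hΦ, hU]
    simp only
    refine (le_abs_self _).trans ?_
    rw [abs_mul]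
    have k1 : |(A x * conj (B x)).re| ≤ ‖A x‖ * ‖B x‖ := by
      refine (Complex.abs_re_le_norm _).trans ?_
      rw [norm_mul, Complex.norm_conj]
    have k3 : ‖A x‖ * ‖B x‖ ≤ (‖A x‖ ^ 2 + ‖B x‖ ^ 2) / 2 := by
      nlinarith [sq_nonneg (‖A x‖ - ‖B x‖)]
    calc |T x| * |(A x * conj (B x)).re| ≤ N * ((‖A x‖ ^ 2 + ‖B x‖ ^ 2) / 2) :=
          mul_le_mul (hT x) (k1.trans k3) (abs_nonneg _) hN
      _ = _ := by ring
  have hb3 : ∀ x, |‖A x‖ ^ 2| ≤ bA ^ 2 := fun x => by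
    rw [abs_of_nonneg (sq_nonneg _)]
    exact pow_le_pow_left₀ (norm_nonneg _) (hbA x) 2
  have hb4 : ∀ x, |‖B x‖ ^ 2| ≤ bB ^ 2 := fun x => by
    rw [abs_of_nonneg (sq_nonneg _)]
    exact pow_le_pow_left₀ (norm_nonneg _) (hbB x) 2
  have h2 : (fun ε => EH K ε U - N * ((∑ k, ∑ l, a k * a l * g k l +
      ∑ k, ∑ l, b k * b l * g' k l) / 2) * LL ε) =o[𝓝[>] 0] LL := by
    refine (((hnorm hAg).add (hnorm hBg)).const_mul_left (N / 2)).congr' ?_ (EventuallyEq.refl _ _)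
    filter_upwards [self_mem_nhdsWithin] with ε hε
    have hε' : (0 : ℝ) < ε := hε
    rw [hU, EH_const_mul, EH_add hε' hb3 hb4]
    ring
  have hcomp : ∀ᶠ ε : ℝ in 𝓝[>] 0, EH K ε Φ ≤ EH K ε U := by
    filter_upwards [self_mem_nhdsWithin] with ε hε
    have hε' : (0 : ℝ) < ε := hε
    refine EH_mono' (a := N * (bA * bB)) (b := |N / 2| * (bA ^ 2 + bB ^ 2)) (fun x => ?_)
      (fun x => ?_) hpt hε'
    · rw [hΦ]
      simp only
      rw [abs_mul]
      refine mul_le_mul (hT x) ((Complex.abs_re_le_norm _).trans ?_) (abs_nonneg _) hN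
      rw [norm_mul, Complex.norm_conj]
      exact mul_le_mul (hbA x) (hbB x) (norm_nonneg _) hbA0
    · rw [hU]
      simp only
      rw [abs_mul]
      exact mul_le_mul_of_nonneg_left ((abs_add_le _ _).trans (add_le_add (hb3 x) (hb4 x)))
        (abs_nonneg _)
  have hL0 : ∀ᶠ ε : ℝ in 𝓝[>] 0, 0 < LL ε := LL_tendsto.eventually_gt_atTop 0
  have t1 := h1.tendsto_div_nhds_zero
  have t2 := h2.tendsto_div_nhds_zero
  filter_upwards [hcomp, hL0, t1.eventually_lt_const (half_pos hη),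
    t2.eventually_lt_const (half_pos hη)] with ε k1 k2 k3 k4
  rw [div_lt_iff₀ k2] at k3 k4
  have k5 : (∑ k, ∑ l, a k * b l * z k l ε) * LL ε ≤
      (N * ((∑ k, ∑ l, a k * a l * g k l + ∑ k, ∑ l, b k * b l * g' k l) / 2) + η) * LL ε := by
    linarith
  exact le_of_mul_le_mul_right k5 k2

end

end Pool.Agent.Helper29X1.WG
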