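import Pool.Agent.Helper29X1.WG.PairM

/-!
# The edge line for irreducible representations
-/

set_option autoImplicit false
set_option linter.unusedSectionVars false

namespace Pool.Agent.Helper29X1.WG

open NumberField Complex Filter Topology IsDedekindDomain Asymptotics Polynomial
open Pool.Agent.W353.EF (LFun size IsFrobenius)
open Pool.Agent.W353.TP (HX sysH LL LL_tendsto bdd_isLittleO lamS_sub push res)
open Pool.Agent.W353.NF (vx)
open Pool.Agent.Y149.Ord (HasOrder tendsto_size)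
open Pool.Agent.N172.HS
open scoped ComplexConjugate

section

variable {K : Type} [Field K] [NumberField K]

open Classical in
theorem tw_gram {ρ : WRep K} (h : ρ.IsIrr) (g l : ℝ) :
    HasGram (tw ρ g).tH (tw ρ l).tH (if g = l then 1 else 0) := by
  have h1 : HasGram (tw ρ g).tH (tw ρ l).tH ((tw ρ g).inner (tw ρ l)) :=
    WRep.gram Pool.Agent.N134.HS.t_nvq _ _
  rw [inner_tw] at h1
  by_cases hgl : g = l
  · rw [if_pos hgl]
    rw [hgl, sub_self, inner_tw_zero, show ρ.inner ρ = 1 from h] at h1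
    simpa [hgl] using h1
  · rw [if_neg hgl]
    rw [inner_tw_irr h (sub_ne_zero.2 hgl)] at h1
    simpa using h1

/-- **The inequality on the line.** -/
theorem irr_line_main {X : Variety K} {i : ℕ} (hi : i ≤ 2 * X.dim) {θ : WRep K} {N' : ℕ}
    (hθ : IsPart X i θ N') {ρ : WRep K} (hρ : ρ.IsIrr) {M : ℕ}
    {B : HeightOneSpectrum (𝓞 K) → ℂ[X]} (hB : IsTensorLine X i ρ M B) (F : Finset ℝ)
    (a b a' b' : ℝ → ℝ) {η : ℝ} (hη : 0 < η) :
    ∀ᶠ ε : ℝ in 𝓝[>] 0, ∑ g ∈ F, ∑ l ∈ F, (a g * b l + a' g * b' l) *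
        (size i (shift (g - l) B) ε - (tw ρ (g - l)).inner θ) ≤
      (N' : ℝ) * ((∑ g ∈ F, (a g ^ 2 + b g ^ 2 + a' g ^ 2 + b' g ^ 2)) / 2) + η := by
  classical
  have key : ∀ a b : ℝ → ℝ, ∀ᶠ ε : ℝ in 𝓝[>] 0, ∑ g ∈ F, ∑ l ∈ F, a g * b l *
        (size i (shift (g - l) B) ε - (tw ρ (g - l)).inner θ) ≤
      (N' : ℝ) * ((∑ g ∈ F, (a g ^ 2 + b g ^ 2)) / 2) + η / 2 := by
    intro a b
    have h := bilin (K := K) (κ := {g // g ∈ F}) (μ := {g // g ∈ F})
      (f := fun g => (tw ρ g.1).tH) (f' := fun l => (HC.N K l.1).val)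
      (fun g => (tw ρ g.1).bdd) (fun l => (HC.N K l.1).bdd)
      (g := fun g l => if g.1 = l.1 then 1 else 0) (g' := fun g l => if g.1 = l.1 then 1 else 0)
      (fun g l => tw_gram hρ g.1 l.1) (fun g l => HC.N_gram g.1 l.1)
      (T := cut X i θ N') (N := N') (fun x => abs_cut X i θ N' x)
      (z := fun g l ε => size i (shift (g.1 - l.1) B) ε - (tw ρ (g.1 - l.1)).inner θ)
      (fun g l => by
        have h1 := defect hi hθ (line_tensor hB (g.1 - l.1))
        simp only [tw_conj]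
        exact h1) (fun g => a g.1) (fun l => b l.1) (half_pos hη)
    have e0 : ∀ c : ℝ → ℝ, ∑ k : {g // g ∈ F}, ∑ l : {g // g ∈ F},
        c k.1 * c l.1 * (if k.1 = l.1 then (1 : ℝ) else 0) = ∑ g ∈ F, c g ^ 2 := by
      intro c
      rw [← Finset.sum_coe_sort F (fun g => c g ^ 2)]
      refine Finset.sum_congr rfl fun k _ => ?_
      rw [Finset.sum_eq_single k]
      · rw [if_pos rfl]; ring
      · intro l _ hl
        rw [if_neg, mul_zero]
        intro h1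
        exact hl (Subtype.ext h1.symm)
      · intro h1; exact absurd (Finset.mem_univ k) h1
    rw [e0, e0, ← Finset.sum_add_distrib] at h
    filter_upwards [h] with ε h1
    refine le_trans (le_of_eq ?_) h1
    rw [← Finset.sum_coe_sort F (fun g => ∑ l ∈ F, a g * b l *
        (size i (shift (g - l) B) ε - (tw ρ (g - l)).inner θ))]
    refine Finset.sum_congr rfl fun g _ => ?_
    rw [← Finset.sum_coe_sort F (fun l => a g.1 * b l *
        (size i (shift (g.1 - l) B) ε - (tw ρ (g.1 - l)).inner θ))]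
  filter_upwards [key a b, key a' b'] with ε h1 h2
  have e1 : ∑ g ∈ F, ∑ l ∈ F, (a g * b l + a' g * b' l) *
        (size i (shift (g - l) B) ε - (tw ρ (g - l)).inner θ) =
      ∑ g ∈ F, ∑ l ∈ F, a g * b l * (size i (shift (g - l) B) ε - (tw ρ (g - l)).inner θ) +
      ∑ g ∈ F, ∑ l ∈ F, a' g * b' l *
        (size i (shift (g - l) B) ε - (tw ρ (g - l)).inner θ) := by
    rw [← Finset.sum_add_distrib]
    refine Finset.sum_congr rfl fun g _ => ?_
    rw [← Finset.sum_add_distrib]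
    refine Finset.sum_congr rfl fun l _ => ?_
    ring
  have e2 : ∑ g ∈ F, (a g ^ 2 + b g ^ 2 + a' g ^ 2 + b' g ^ 2) =
      ∑ g ∈ F, (a g ^ 2 + b g ^ 2) + ∑ g ∈ F, (a' g ^ 2 + b' g ^ 2) := by
    rw [← Finset.sum_add_distrib]
    exact Finset.sum_congr rfl fun g _ => by ring
  rw [e1, e2]
  have e3 : (N' : ℝ) * ((∑ g ∈ F, (a g ^ 2 + b g ^ 2) + ∑ g ∈ F, (a' g ^ 2 + b' g ^ 2)) / 2) + η =
      ((N' : ℝ) * ((∑ g ∈ F, (a g ^ 2 + b g ^ 2)) / 2) + η / 2) +
      ((N' : ℝ) * ((∑ g ∈ F, (a' g ^ 2 + b' g ^ 2)) / 2) + η / 2) := by ring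
  rw [e3]
  exact add_le_add h1 h2

/-- **The orders on the line.** -/
theorem irr_line_orders {X : Variety K} {i : ℕ} (hi : i ≤ 2 * X.dim) {θ : WRep K} {N' : ℕ}
    (hθ : IsPart X i θ N') {ρ : WRep K} (hρ : ρ.IsIrr) {M : ℕ}
    {B : HeightOneSpectrum (𝓞 K) → ℂ[X]}
    (hB : IsTensorLine X i ρ M B) {m : ℝ → ℤ} (hm : ∀ τ, HasOrder i (shift τ B) (m τ)) :
    ∃ S : Finset ℝ, (∀ τ, τ ∈ S ↔ m τ + (tw ρ τ).inner θ ≠ 0) ∧
      ∑ τ ∈ S, (m τ + (tw ρ τ).inner θ) ^ 2 ≤ (N' : ℤ) ^ 2 ∧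
      ∀ x : ℝ, ‖∑ τ ∈ S, ((m τ + (tw ρ τ).inner θ : ℤ) : ℂ) * exp (τ * x * I)‖ ≤ N' := by
  classical
  set w : ℝ → ℝ := fun τ => ((m τ + (tw ρ τ).inner θ : ℤ) : ℝ) with hw
  set C : ℝ := (N' : ℝ) with hC
  have hC0 : 0 ≤ C := by positivity
  have key : ∀ (F : Finset ℝ) (a b a' b' : ℝ → ℝ),
      ∑ g ∈ F, ∑ l ∈ F, (a g * b l + a' g * b' l) * w (g - l) ≤
        C * ((∑ g ∈ F, (a g ^ 2 + b g ^ 2 + a' g ^ 2 + b' g ^ 2)) / 2) := by
    intro F a b a' b'
    refine le_of_forall_pos_le_add fun η hη => ?_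
    have h1 := irr_line_main hi hθ hρ hB F (fun g => -a g) b (fun g => -a' g) b' hη
    have h2 : Tendsto (fun ε => ∑ g ∈ F, ∑ l ∈ F, (-a g * b l + -a' g * b' l) *
        (size i (shift (g - l) B) ε - (tw ρ (g - l)).inner θ)) (𝓝[>] 0)
        (𝓝 (∑ g ∈ F, ∑ l ∈ F, (-a g * b l + -a' g * b' l) *
          (-(m (g - l) : ℝ) - (tw ρ (g - l)).inner θ))) :=
      tendsto_finsetSum _ fun g _ => tendsto_finsetSum _ fun l _ =>
        ((tendsto_size (hm (g - l))).sub_const _).const_mul _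
    have h3 := le_of_tendsto h2 h1
    have e1 : ∑ g ∈ F, ∑ l ∈ F, (-a g * b l + -a' g * b' l) *
          (-(m (g - l) : ℝ) - (tw ρ (g - l)).inner θ) =
        ∑ g ∈ F, ∑ l ∈ F, (a g * b l + a' g * b' l) * w (g - l) := by
      refine Finset.sum_congr rfl fun g _ => Finset.sum_congr rfl fun l _ => ?_
      rw [hw]
      push_cast
      ring
    rw [e1] at h3
    simp only [neg_sq] at h3
    exact h3
  have hsq := fun S => sq_sum_le hC0 key S
  -- finiteness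
  have hfin : {τ : ℝ | m τ + (tw ρ τ).inner θ ≠ 0}.Finite := by
    by_contra hinf
    obtain ⟨n, hn⟩ := exists_nat_gt (C ^ 2)
    obtain ⟨T, hT1, hT2⟩ := (Set.not_finite.1 hinf).exists_subset_card_eq n
    have h5 := hsq T
    have h6 : ∑ _τ ∈ T, (1 : ℝ) ≤ ∑ τ ∈ T, w τ ^ 2 := Finset.sum_le_sum fun τ hτ => by
      have h7 : m τ + (tw ρ τ).inner θ ≠ 0 := hT1 (Finset.mem_coe.2 hτ)
      rw [hw]
      simp only
      have h8 : (1 : ℤ) ≤ (m τ + (tw ρ τ).inner θ) ^ 2 := by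
        have := Int.one_le_abs h7
        rw [← sq_abs]
        nlinarith
      exact_mod_cast h8
    rw [Finset.sum_const, hT2, nsmul_eq_mul, mul_one] at h6
    linarith
  refine ⟨hfin.toFinset, fun τ => by rw [Set.Finite.mem_toFinset, Set.mem_ofPred_eq], ?_,
    fun x => ?_⟩
  · have h := hsq hfin.toFinset
    rw [hw, hC] at h
    have h2 : ((∑ τ ∈ hfin.toFinset, (m τ + (tw ρ τ).inner θ) ^ 2 : ℤ) : ℝ) ≤
        (((N' : ℤ) ^ 2 : ℤ) : ℝ) := by
      push_cast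
      push_cast at h
      exact h
    exact_mod_cast h2
  · set S := hfin.toFinset with hS
    have hS0 : ∀ τ ∉ S, w τ = 0 := by
      intro τ hτ
      rw [hS, Set.Finite.mem_toFinset, Set.mem_ofPred_eq, not_not] at hτ
      rw [hw]
      simp only
      rw [hτ, Int.cast_zero]
    set Z : ℂ := ∑ τ ∈ S, ((m τ + (tw ρ τ).inner θ : ℤ) : ℂ) * exp (τ * x * I) with hZ
    have h1 := fourier_le key S hS0 x (-(Z.arg))
    have h2 : ∑ τ ∈ S, w τ * Real.cos (τ * x + -Z.arg) = (Z * exp (-(Z.arg) * I)).re := by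
      rw [hZ, Finset.sum_mul, Complex.re_sum]
      refine Finset.sum_congr rfl fun τ _ => ?_
      rw [mul_assoc, ← Complex.exp_add]
      have e1 : (τ : ℂ) * x * I + -((Z.arg : ℝ) : ℂ) * I = ((τ * x + -Z.arg : ℝ) : ℂ) * I := by
        push_cast
        ring
      rw [← hZ, e1]
      have e2 : (((m τ + (tw ρ τ).inner θ : ℤ) : ℂ)) = ((w τ : ℝ) : ℂ) := by
        rw [hw]
        push_cast
        rfl
      rw [e2, Complex.re_ofReal_mul, Complex.exp_ofReal_mul_I_re]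
    have h3 : Z * exp (-(Z.arg) * I) = ((‖Z‖ : ℝ) : ℂ) := by
      nth_rewrite 1 [← Complex.norm_mul_exp_arg_mul_I Z]
      rw [mul_assoc, ← Complex.exp_add]
      have : (Z.arg : ℂ) * I + -(Z.arg : ℂ) * I = 0 := by ring
      rw [this, Complex.exp_zero, mul_one]
    rw [h2, h3, Complex.ofReal_re] at h1
    exact h1

end

end Pool.Agent.Helper29X1.WG
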