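import Pool.Agent.Helper29X1.WG.Pair

/-!
# The matrix of the orders, and the edge line for irreducible representations
-/

set_option autoImplicit false
set_option linter.unusedSectionVars false

namespace Pool.Agent.Helper29X1.WG

open NumberField Complex Filter Topology IsDedekindDomain Asymptotics Polynomial
open Pool.Agent.W353.EF (LFun size IsFrobenius)
open Pool.Agent.W353.PV (Eig alp pick pick_spec tF)
open Pool.Agent.W353.TP (HX sysH LL LL_tendsto bdd_isLittleO lamS_sub push res)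
open Pool.Agent.W353.NF (vx)
open Pool.Agent.W540.BE (nm two_le_nm trv)
open Pool.Agent.Y149.Ord (HasOrder tendsto_size)
open Pool.Agent.N172.HS
open scoped ComplexConjugate

section

variable {K : Type} [Field K] [NumberField K]

/-- The Euler factors of `L(H^i(X) ⊗ ρ ⊗ σ^∨, s)`: at almost all primes `v` the polynomial `B v` is
`∏ (1 - α_j γ_l conj(δ_m) z)` with the eigenvalues `α_j` of the geometric Frobenius on `H^i(X)` and
numbers `γ_l`, `δ_m` of absolute value one with the sums `tr ρ` and `tr σ`; at the other primes `B v`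
is an arbitrary polynomial such that `1 / B_v(q_v^{-s})` has no pole at `s = i/2 + 1`. -/
def IsTensorPair (X : Variety K) (i : ℕ) (ρ σ : WRep K)
    (B : HeightOneSpectrum (𝓞 K) → ℂ[X]) : Prop :=
  (∃ M M' : ℕ, ∀ᶠ v in cofinite, ∃ (α : Fin (X.betti i) → ℂ) (γ : Fin M → ℂ) (δ : Fin M' → ℂ),
    IsFrobenius X.eqs X.dim i v α ∧ (∀ l, ‖γ l‖ = 1) ∧ (∀ m, ‖δ m‖ = 1) ∧
    ∑ l, γ l = ρ.trace v ∧ ∑ m, δ m = σ.trace v ∧
    ∀ z : ℂ, (B v).eval z = ∏ j, ∏ l, ∏ m, (1 - α j * γ l * conj (δ m) * z)) ∧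
  ∀ v, (B v).eval ((Ideal.absNorm v.asIdeal : ℂ) ^ (-((i : ℂ) / 2 + 1))) ≠ 0

theorem pair_size {X : Variety K} {i : ℕ} (hi : i ≤ 2 * X.dim) {ρ σ : WRep K}
    {B : HeightOneSpectrum (𝓞 K) → ℂ[X]} (hB : IsTensorPair X i ρ σ B) :
    (fun ε => size i B ε * LL ε -
      EH K ε (fun x => TV X i (vx x) * (ρ.tH x * conj (σ.tH x)).re)) =o[𝓝[>] 0] LL := by
  obtain ⟨⟨M, M', hM⟩, hB0⟩ := hB
  have h := size_H (K := K) (ι := Fin (X.betti i) × Fin M × Fin M') (i := i) B
    (fun v => TV X i v * (ρ.trace v * conj (σ.trace v)).re) (by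
      filter_upwards [hM] with v hv
      obtain ⟨α, γ, δ, h1, h2, h2', h3, h3', h4⟩ := hv
      have h1' : Eig X.eqs X.dim i v α := h1
      refine ⟨fun l => α l.1 * γ l.2.1 * conj (δ l.2.2), fun l => ?_, ?_, fun z => ?_⟩
      · rw [norm_mul, norm_mul, h2, Complex.norm_conj, h2', mul_one, mul_one]
        exact h1'.norm l.1
      · have e1 := TV_eq X hi h1
        have e2 : ∑ l : Fin (X.betti i) × Fin M × Fin M', α l.1 * γ l.2.1 * conj (δ l.2.2) =
            (∑ j, α j) * (ρ.trace v * conj (σ.trace v)) := by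
          rw [← h3, ← h3', map_sum, Finset.sum_mul_sum Finset.univ Finset.univ γ,
            Finset.sum_mul_sum, Fintype.sum_prod_type]
          refine Finset.sum_congr rfl fun j _ => ?_
          rw [Fintype.sum_prod_type]
          refine Finset.sum_congr rfl fun l _ => ?_
          rw [Finset.mul_sum]
          refine Finset.sum_congr rfl fun m _ => ?_
          ring
        rw [e2, mul_right_comm, ← e1, Complex.re_ofReal_mul]
      · rw [h4, Fintype.prod_prod_type]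
        refine Finset.prod_congr rfl fun j _ => ?_
        rw [Fintype.prod_prod_type]) hB0
    (D := X.betti i * (ρ.bd * σ.bd)) (fun x => by
      rw [abs_mul, ρ.trace_vx, σ.trace_vx]
      refine mul_le_mul (abs_TV X i _) ((Complex.abs_re_le_norm _).trans ?_)
        (abs_nonneg _) (Nat.cast_nonneg _)
      rw [norm_mul, Complex.norm_conj]
      exact mul_le_mul (ρ.norm_tH_le x) (σ.norm_tH_le x) (norm_nonneg _) ρ.bd_nonneg)
  have h2 := h.2
  simp only [WRep.trace_vx] at h2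
  exact h2

/-- scaling -/
theorem exists_scale {N P Q η : ℝ} (hN : 0 ≤ N) (hP : 0 ≤ P) (hQ : 0 ≤ Q) (hη : 0 < η) :
    ∃ t : ℝ, 0 < t ∧ N * ((t ^ 2 * P + (t⁻¹) ^ 2 * Q) / 2) ≤ N * Real.sqrt (P * Q) + η := by
  rcases eq_or_lt_of_le hP with hP0 | hP0
  · -- `P = 0`
    refine ⟨N * Q + 1 + 1 / η, by positivity, ?_⟩
    rw [← hP0, mul_zero, zero_mul, Real.sqrt_zero, mul_zero, zero_add, zero_add]
    set t : ℝ := N * Q + 1 + 1 / η with ht
    have h1 : 0 ≤ N * Q := mul_nonneg hN hQ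
    have h2 : (0 : ℝ) < 1 / η := by positivity
    have ht1 : 1 ≤ t := by rw [ht]; linarith
    have ht0 : 0 < t := by linarith
    have h3 : N * Q ≤ t := by rw [ht]; linarith
    have h4 : t⁻¹ ≤ η := by
      rw [inv_le_comm₀ ht0 hη, ← one_div]
      rw [ht]; linarith
    calc N * ((t⁻¹) ^ 2 * Q / 2) = (N * Q * t⁻¹) * t⁻¹ / 2 := by ring
      _ ≤ (t * t⁻¹) * t⁻¹ / 2 := by
          have : 0 ≤ t⁻¹ := (inv_pos.2 ht0).le
          have h5 : N * Q * t⁻¹ ≤ t * t⁻¹ := mul_le_mul_of_nonneg_right h3 this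
          have h6 := mul_le_mul_of_nonneg_right h5 this
          linarith
      _ = t⁻¹ / 2 := by rw [mul_inv_cancel₀ ht0.ne', one_mul]
      _ ≤ η := by
          have : 0 < t⁻¹ := inv_pos.2 ht0
          linarith
  rcases eq_or_lt_of_le hQ with hQ0 | hQ0
  · obtain ⟨δ, hδ0, hδ⟩ : ∃ δ : ℝ, 0 < δ ∧ N * (δ ^ 2 * P / 2) ≤ η := by
      refine ⟨(N * P + 1 + 1 / η)⁻¹, by positivity, ?_⟩
      set t : ℝ := N * P + 1 + 1 / η with ht
      have h1 : 0 ≤ N * P := mul_nonneg hN hP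
      have h2 : (0 : ℝ) < 1 / η := by positivity
      have ht0 : 0 < t := by rw [ht]; linarith
      have h3 : N * P ≤ t := by rw [ht]; linarith
      have h4 : t⁻¹ ≤ η := by
        rw [inv_le_comm₀ ht0 hη, ← one_div]
        rw [ht]; linarith
      calc N * ((t⁻¹) ^ 2 * P / 2) = (N * P * t⁻¹) * t⁻¹ / 2 := by ring
        _ ≤ (t * t⁻¹) * t⁻¹ / 2 := by
            have : 0 ≤ t⁻¹ := (inv_pos.2 ht0).le
            have h5 : N * P * t⁻¹ ≤ t * t⁻¹ := mul_le_mul_of_nonneg_right h3 this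
            have h6 := mul_le_mul_of_nonneg_right h5 this
            linarith
        _ = t⁻¹ / 2 := by rw [mul_inv_cancel₀ ht0.ne', one_mul]
        _ ≤ η := by
            have : 0 < t⁻¹ := inv_pos.2 ht0
            linarith
    refine ⟨δ, hδ0, ?_⟩
    rw [← hQ0, mul_zero, mul_zero, Real.sqrt_zero, mul_zero, zero_add, add_zero]
    exact hδ
  · -- both are positive
    set p : ℝ := Real.sqrt P with hp
    set q : ℝ := Real.sqrt Q with hq
    have hp0 : 0 < p := Real.sqrt_pos.2 hP0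
    have hq0 : 0 < q := Real.sqrt_pos.2 hQ0
    have hp2 : P = p ^ 2 := (Real.sq_sqrt hP).symm
    have hq2 : Q = q ^ 2 := (Real.sq_sqrt hQ).symm
    refine ⟨Real.sqrt (q / p), Real.sqrt_pos.2 (div_pos hq0 hp0), ?_⟩
    have ht2 : Real.sqrt (q / p) ^ 2 = q / p := Real.sq_sqrt (div_pos hq0 hp0).le
    have e1 : Real.sqrt (q / p) ^ 2 * P = p * q := by
      rw [ht2, hp2]
      field_simp
    have e2 : (Real.sqrt (q / p))⁻¹ ^ 2 * Q = p * q := by
      rw [inv_pow, ht2, hq2]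
      field_simp
    have e3 : Real.sqrt (P * Q) = p * q := Real.sqrt_mul hP Q
    rw [e1, e2, e3]
    have : N * ((p * q + p * q) / 2) = N * (p * q) := by ring
    rw [this]
    linarith

/-- the quadratic form of the representations -/
noncomputable def qf {κ : Type} [Fintype κ] (ρ : κ → WRep K) (a : κ → ℝ) : ℝ :=
  ∑ k, ∑ l, a k * a l * ((ρ k).inner (ρ l) : ℝ)

theorem qf_nonneg {κ : Type} [Fintype κ] (ρ : κ → WRep K) (a : κ → ℝ) : 0 ≤ qf ρ a :=
  inner_quad ρ a

theorem qf_smul {κ : Type} [Fintype κ] (ρ : κ → WRep K) (a : κ → ℝ) (t : ℝ) :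
    qf ρ (fun k => t * a k) = t ^ 2 * qf ρ a := by
  unfold qf
  rw [Finset.mul_sum]
  refine Finset.sum_congr rfl fun k _ => ?_
  rw [Finset.mul_sum]
  refine Finset.sum_congr rfl fun l _ => ?_
  ring

/-- **The matrix of the sizes.** -/
theorem pair_main {X : Variety K} {i : ℕ} (hi : i ≤ 2 * X.dim) {κ μ : Type} [Fintype κ]
    [Fintype μ] {ρ : κ → WRep K} {σ : μ → WRep K} {B : κ → μ → HeightOneSpectrum (𝓞 K) → ℂ[X]}
    (hB : ∀ k l, IsTensorPair X i (ρ k) (σ l) (B k l)) (a : κ → ℝ) (b : μ → ℝ) {η : ℝ}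
    (hη : 0 < η) :
    ∀ᶠ ε : ℝ in 𝓝[>] 0, |∑ k, ∑ l, a k * b l * size i (B k l) ε| ≤
      X.betti i * Real.sqrt (qf ρ a * qf σ b) + η := by
  have hQ : StNvq := Pool.Agent.N134.HS.t_nvq
  have key : ∀ b : μ → ℝ, ∀ᶠ ε : ℝ in 𝓝[>] 0, ∑ k, ∑ l, a k * b l * size i (B k l) ε ≤
      X.betti i * Real.sqrt (qf ρ a * qf σ b) + η := by
    intro b
    obtain ⟨t, ht0, ht⟩ := exists_scale (N := X.betti i) (Nat.cast_nonneg _) (qf_nonneg ρ a)
      (qf_nonneg σ b) (half_pos hη)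
    have h := bilin (K := K) (f := fun k => (ρ k).tH) (f' := fun l => (σ l).tH)
      (fun k => (ρ k).bdd) (fun l => (σ l).bdd) (fun k l => WRep.gram hQ (ρ k) (ρ l))
      (fun k l => WRep.gram hQ (σ k) (σ l)) (T := fun x => TV X i (vx x)) (N := X.betti i)
      (fun x => abs_TV X i _) (z := fun k l => size i (B k l)) (fun k l => pair_size hi (hB k l))
      (fun k => t * a k) (fun l => t⁻¹ * b l) (half_pos hη)
    have e1 := qf_smul ρ a t
    have e2 := qf_smul σ b t⁻¹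
    unfold qf at e1 e2 ht
    filter_upwards [h] with ε h1
    rw [e1, e2] at h1
    have e3 : ∑ k, ∑ l, t * a k * (t⁻¹ * b l) * size i (B k l) ε =
        ∑ k, ∑ l, a k * b l * size i (B k l) ε := by
      refine Finset.sum_congr rfl fun k _ => Finset.sum_congr rfl fun l _ => ?_
      field_simp
    rw [e3] at h1
    unfold qf
    linarith
  have hneg : qf σ (fun l => -b l) = qf σ b := by
    unfold qf
    refine Finset.sum_congr rfl fun k _ => Finset.sum_congr rfl fun l _ => ?_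
    ring
  filter_upwards [key b, key fun l => -b l] with ε h1 h2
  rw [hneg] at h2
  have e : ∑ k, ∑ l, a k * -b l * size i (B k l) ε =
      -∑ k, ∑ l, a k * b l * size i (B k l) ε := by
    rw [← Finset.sum_neg_distrib]
    refine Finset.sum_congr rfl fun k _ => ?_
    rw [← Finset.sum_neg_distrib]
    refine Finset.sum_congr rfl fun l _ => ?_
    ring
  rw [e] at h2
  exact abs_le.2 ⟨by linarith, h1⟩

/-- **The matrix of the orders.** -/
theorem pair_orders {X : Variety K} {i : ℕ} (hi : i ≤ 2 * X.dim) {κ μ : Type} [Fintype κ]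
    [Fintype μ] {ρ : κ → WRep K} {σ : μ → WRep K} {B : κ → μ → HeightOneSpectrum (𝓞 K) → ℂ[X]}
    (hB : ∀ k l, IsTensorPair X i (ρ k) (σ l) (B k l)) {m : κ → μ → ℤ}
    (hm : ∀ k l, HasOrder i (B k l) (m k l)) (a : κ → ℝ) (b : μ → ℝ) :
    |∑ k, ∑ l, a k * b l * m k l| ≤ X.betti i * Real.sqrt (qf ρ a * qf σ b) := by
  refine le_of_forall_pos_le_add fun η hη => ?_
  have h1 := pair_main hi hB a b hη
  have h2 : Tendsto (fun ε => |∑ k, ∑ l, a k * b l * size i (B k l) ε|) (𝓝[>] 0)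
      (𝓝 |∑ k, ∑ l, a k * b l * (-(m k l : ℝ))|) :=
    (tendsto_finsetSum _ fun k _ => tendsto_finsetSum _ fun l _ =>
      (tendsto_size (hm k l)).const_mul _).abs
  have h3 := le_of_tendsto h2 h1
  have h4 : ∑ k, ∑ l, a k * b l * (-(m k l : ℝ)) = -∑ k, ∑ l, a k * b l * m k l := by
    rw [← Finset.sum_neg_distrib]
    refine Finset.sum_congr rfl fun k _ => ?_
    rw [← Finset.sum_neg_distrib]
    refine Finset.sum_congr rfl fun l _ => ?_
    ring
  rwa [h4, abs_neg] at h3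

theorem qf_orth {κ : Type} [Fintype κ] {ρ : κ → WRep K} (h1 : ∀ k, (ρ k).IsIrr)
    (h2 : ∀ k l, k ≠ l → (ρ k).inner (ρ l) = 0) (a : κ → ℝ) : qf ρ a = ∑ k, a k ^ 2 := by
  unfold qf
  rw [orth_sum h1 h2]
  simp

/-- one row of the matrix -/
theorem pair_row {X : Variety K} {i : ℕ} (hi : i ≤ 2 * X.dim) {μ : Type} [Fintype μ]
    {ρ : WRep K} (hρ : ρ.IsIrr) {σ : μ → WRep K} (h1 : ∀ k, (σ k).IsIrr)
    (h2 : ∀ k l, k ≠ l → (σ k).inner (σ l) = 0) {B : μ → HeightOneSpectrum (𝓞 K) → ℂ[X]}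
    (hB : ∀ l, IsTensorPair X i ρ (σ l) (B l)) {m : μ → ℤ} (hm : ∀ l, HasOrder i (B l) (m l)) :
    ∑ l, m l ^ 2 ≤ (X.betti i : ℤ) ^ 2 := by
  have h := pair_orders hi (κ := Unit) (ρ := fun _ => ρ) (fun _ l => hB l) (m := fun _ => m)
    (fun _ l => hm l) (fun _ => 1) (fun l => m l)
  have e1 : qf (fun _ : Unit => ρ) (fun _ => (1 : ℝ)) = 1 := by
    have h3 : ρ.inner ρ = 1 := hρ
    unfold qf
    simp [h3]
  rw [e1, one_mul, qf_orth h1 h2] at h
  simp only [Finset.univ_unique, Finset.sum_const, Finset.card_singleton, one_smul, one_mul] at h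
  have e2 : ∑ l, (m l : ℝ) * m l = ∑ l, (m l : ℝ) ^ 2 := Finset.sum_congr rfl fun l _ => by ring
  rw [e2] at h
  set u : ℝ := ∑ l, (m l : ℝ) ^ 2 with hu
  have hu0 : 0 ≤ u := Finset.sum_nonneg fun l _ => sq_nonneg _
  rw [abs_of_nonneg hu0] at h
  have h5 : u ≤ (X.betti i : ℝ) ^ 2 := by
    set r := Real.sqrt u with hr
    have hr2 : r ^ 2 = u := Real.sq_sqrt hu0
    have hr0 : 0 ≤ r := Real.sqrt_nonneg _
    have hN : (0 : ℝ) ≤ X.betti i := Nat.cast_nonneg _
    rcases eq_or_lt_of_le hr0 with h6 | h6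
    · rw [← hr2, ← h6]
      nlinarith [sq_nonneg (X.betti i : ℝ)]
    · have h7 : r * r ≤ X.betti i * r := by
        rw [← sq, hr2]
        exact h
      have h8 : r ≤ X.betti i := le_of_mul_le_mul_right h7 h6
      rw [← hr2]
      exact pow_le_pow_left₀ hr0 h8 2
  rw [hu] at h5
  exact_mod_cast h5

end

end Pool.Agent.Helper29X1.WG
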