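import Pool.Agent.Helper29X1.WG.PairL

/-!
# Orders of continuations, and the empty representation
-/

set_option autoImplicit false
set_option linter.unusedSectionVars false

namespace Pool.Agent.Helper29X1.WG.PZ

open Complex Filter Topology NumberField IsDedekindDomain Polynomial
open Pool.Agent.N172.HS
open Pool.Agent.W353.EF (LFun)
open Pool.Agent.Helper29X1.WG
open scoped ComplexConjugate

section

variable {K : Type} [Field K] [NumberField K]

theorem tendsto_pt (i : ℕ) (τ : ℝ) :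
    Tendsto (fun ε : ℝ => (i : ℂ) / 2 + 1 + τ * I + (ε : ℂ)) (𝓝[>] 0)
      (𝓝[≠] ((i : ℂ) / 2 + 1 + τ * I)) := by
  have ht : Tendsto (fun ε : ℝ => (i : ℂ) / 2 + 1 + τ * I + (ε : ℂ)) (𝓝[>] 0)
      (𝓝 ((i : ℂ) / 2 + 1 + τ * I)) := by
    have : Continuous (fun ε : ℝ => (i : ℂ) / 2 + 1 + τ * I + (ε : ℂ)) := by fun_prop
    have h5 := this.tendsto 0
    simp only [Complex.ofReal_zero, add_zero] at h5
    exact h5.mono_left nhdsWithin_le_nhds
  rw [tendsto_nhdsWithin_iff]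
  refine ⟨ht, ?_⟩
  filter_upwards [self_mem_nhdsWithin] with ε hε
  have hε' : (0 : ℝ) < ε := hε
  intro h
  have h6 : (ε : ℂ) = 0 := by
    have h7 : (i : ℂ) / 2 + 1 + τ * I + (ε : ℂ) = (i : ℂ) / 2 + 1 + τ * I + 0 := by
      rw [add_zero]; exact h
    exact add_left_cancel h7
  have h8 : ε = 0 := by exact_mod_cast h6
  exact hε'.ne' h8

theorem re_pt (i : ℕ) (τ : ℝ) {ε : ℝ} (hε : 0 < ε) :
    (i : ℝ) / 2 + 1 < ((i : ℂ) / 2 + 1 + τ * I + (ε : ℂ)).re := by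
  have h1 : ((i : ℂ) / 2).re = (i : ℝ) / 2 := by
    rw [show ((i : ℂ) / 2) = (((i : ℝ) / 2 : ℝ) : ℂ) by push_cast; ring, Complex.ofReal_re]
  simp only [add_re, mul_re, ofReal_re, ofReal_im, I_re, I_im, mul_zero, zero_mul, sub_zero,
    add_zero, one_re, h1]
  linarith

/-- the orders of a continuation -/
theorem orders {X : Variety K} {i : ℕ} (hi : i ≤ 2 * X.dim) {ρ : WRep K} {M : ℕ}
    {B : HeightOneSpectrum (𝓞 K) → ℂ[X]} (hB : IsTensorLine X i ρ M B) {Λ : ℂ → ℂ}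
    (h1 : ∀ τ : ℝ, MeromorphicAt Λ ((i : ℂ) / 2 + 1 + τ * I))
    (h2 : ∀ s : ℂ, (i : ℝ) / 2 + 1 < s.re → Λ s = LFun B s) :
    ∃ m : ℝ → ℤ, (∀ τ : ℝ, meromorphicOrderAt Λ ((i : ℂ) / 2 + 1 + τ * I) = m τ) ∧
      ∀ τ, Pool.Agent.Y149.Ord.HasOrder i (shift τ B) (m τ) := by
  have hne : ∀ τ : ℝ, ∀ᶠ ε : ℝ in 𝓝[>] 0, LFun B ((i : ℂ) / 2 + 1 + τ * I + ε) ≠ 0 := by
    intro τ
    filter_upwards [(tensor_size hi (line_tensor hB τ)).1] with ε h3
    rw [shift_LFun] at h3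
    have e : ((i : ℂ) / 2 + 1 + ε + τ * I) = (i : ℂ) / 2 + 1 + τ * I + ε := by ring
    rw [e] at h3
    exact h3
  have h3 : ∀ τ : ℝ, ∃ m : ℤ, meromorphicOrderAt Λ ((i : ℂ) / 2 + 1 + τ * I) = m := by
    intro τ
    have h4 : meromorphicOrderAt Λ ((i : ℂ) / 2 + 1 + τ * I) ≠ ⊤ := by
      intro h5
      rw [meromorphicOrderAt_eq_top_iff] at h5
      have h6 := (tendsto_pt i τ).eventually h5
      obtain ⟨ε, h7, h8, h9⟩ := (h6.and ((hne τ).and self_mem_nhdsWithin)).exists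
      apply h8
      rw [← h2 _ (re_pt i τ h9)]
      exact h7
    obtain ⟨m, hm⟩ := WithTop.ne_top_iff_exists.1 h4
    exact ⟨m, hm.symm⟩
  choose m hm using h3
  refine ⟨m, hm, fun τ => ?_⟩
  have h3 := hm τ
  rw [meromorphicOrderAt_eq_int_iff (h1 τ)] at h3
  obtain ⟨g, hg, hg0, hgL⟩ := h3
  refine ⟨g ((i : ℂ) / 2 + 1 + τ * I), hg0, ?_⟩
  have ht := (tendsto_pt i τ).mono_right nhdsWithin_le_nhds
  refine (hg.continuousAt.tendsto.comp ht).congr' ?_
  filter_upwards [(tendsto_pt i τ).eventually hgL, self_mem_nhdsWithin] with ε h4 h6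
  have hε : (0 : ℝ) < ε := h6
  have h8 := h2 _ (re_pt i τ hε)
  have e : ((i : ℂ) / 2 + 1 + ε + τ * I) = (i : ℂ) / 2 + 1 + τ * I + ε := by ring
  rw [shift_LFun, e, ← h8, h4]
  have hε0 : (ε : ℂ) ≠ 0 := by exact_mod_cast hε.ne'
  rw [add_sub_cancel_left, smul_eq_mul, ← mul_assoc, ← zpow_add₀ hε0, neg_add_cancel, zpow_zero,
    one_mul]
  rfl


/-- the L-functions of pairs do not vanish near the edge -/
theorem pair_ne {X : Variety K} {i : ℕ} {ρ σ : WRep K}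
    {B : HeightOneSpectrum (𝓞 K) → ℂ[X]} (hB : IsTensorPair X i ρ σ B) (hi : i ≤ 2 * X.dim) :
    ∀ᶠ ε : ℝ in 𝓝[>] 0, LFun B ((i : ℂ) / 2 + 1 + ε) ≠ 0 := by
  obtain ⟨⟨M, M', hM⟩, hB0⟩ := hB
  have h := size_H (K := K) (ι := Fin (X.betti i) × Fin M × Fin M') (i := i) B
    (fun v => TV X i v * (ρ.trace v * conj (σ.trace v)).re) (by
      filter_upwards [hM] with v hv
      obtain ⟨α, γ, δ, h1, h2, h2', h3, h3', h4⟩ := hv
      have h1' : Pool.Agent.W353.PV.Eig X.eqs X.dim i v α := h1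
      refine ⟨fun l => α l.1 * γ l.2.1 * conj (δ l.2.2), fun l => ?_, ?_, fun z => ?_⟩
      · rw [norm_mul, norm_mul, h2, Complex.norm_conj, h2', mul_one, mul_one]
        exact h1'.norm l.1
      · have e1 := TV_eq X hi h1
        have e2 : ∑ l : Fin (X.betti i) × Fin M × Fin M', α l.1 * γ l.2.1 * conj (δ l.2.2) =
            (∑ j, α j) * (ρ.trace v * conj (σ.trace v)) := by
          rw [← h3, ← h3', map_sum, Finset.sum_mul_sum Finset.univ Finset.univ γ,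
            Finset.sum_mul_sum, Fintype.sum_prod_type]
          refine Finset.sum_congr rfl fun j _ => ?_
          rw [Fintype.sum_prod_type]
          refine Finset.sum_congr rfl fun l _ => ?_
          rw [Finset.mul_sum]
          refine Finset.sum_congr rfl fun m _ => ?_
          ring
        rw [e2, mul_right_comm, ← e1, Complex.re_ofReal_mul]
      · rw [h4, Fintype.prod_prod_type]
        refine Finset.prod_congr rfl fun j _ => ?_
        rw [Fintype.prod_prod_type]) hB0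
    (D := X.betti i * (ρ.bd * σ.bd)) (fun x => by
      rw [abs_mul, ρ.trace_vx, σ.trace_vx]
      refine mul_le_mul (abs_TV X i _) ((Complex.abs_re_le_norm _).trans ?_)
        (abs_nonneg _) (Nat.cast_nonneg _)
      rw [norm_mul, Complex.norm_conj]
      exact mul_le_mul (ρ.norm_tH_le x) (σ.norm_tH_le x) (norm_nonneg _) ρ.bd_nonneg)
  exact h.1

/-- the order of a continuation at the edge point -/
theorem pair_order {X : Variety K} {i : ℕ} {ρ σ : WRep K}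
    {B : HeightOneSpectrum (𝓞 K) → ℂ[X]} (hB : IsTensorPair X i ρ σ B) (hi : i ≤ 2 * X.dim)
    {Λ : ℂ → ℂ} (h1 : MeromorphicAt Λ ((i : ℂ) / 2 + 1))
    (h2 : ∀ s : ℂ, (i : ℝ) / 2 + 1 < s.re → Λ s = LFun B s) :
    ∃ m : ℤ, meromorphicOrderAt Λ ((i : ℂ) / 2 + 1) = m ∧
      Pool.Agent.Y149.Ord.HasOrder i B m := by
  have e0 : ((i : ℂ) / 2 + 1 + (0 : ℝ) * I) = (i : ℂ) / 2 + 1 := by
    rw [Complex.ofReal_zero, zero_mul, add_zero]
  have htp := tendsto_pt i 0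
  have hre := fun {ε : ℝ} => re_pt i 0 (ε := ε)
  rw [e0] at htp
  simp only [e0] at hre
  have h3 : ∃ m : ℤ, meromorphicOrderAt Λ ((i : ℂ) / 2 + 1) = m := by
    have h4 : meromorphicOrderAt Λ ((i : ℂ) / 2 + 1) ≠ ⊤ := by
      intro h5
      rw [meromorphicOrderAt_eq_top_iff] at h5
      have h6 := htp.eventually h5
      obtain ⟨ε, h7, h8, h9⟩ := (h6.and ((pair_ne hB hi).and self_mem_nhdsWithin)).exists
      apply h8
      rw [← h2 _ (hre h9)]
      simpa using h7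
    obtain ⟨m, hm⟩ := WithTop.ne_top_iff_exists.1 h4
    exact ⟨m, hm.symm⟩
  obtain ⟨m, hm⟩ := h3
  refine ⟨m, hm, ?_⟩
  have h3 := hm
  rw [meromorphicOrderAt_eq_int_iff h1] at h3
  obtain ⟨g, hg, hg0, hgL⟩ := h3
  refine ⟨g ((i : ℂ) / 2 + 1), hg0, ?_⟩
  have ht := htp.mono_right nhdsWithin_le_nhds
  have ht2 : Tendsto (fun ε : ℝ => (i : ℂ) / 2 + 1 + (ε : ℂ)) (𝓝[>] 0)
      (𝓝 ((i : ℂ) / 2 + 1)) := by simpa using ht
  have htp2 : Tendsto (fun ε : ℝ => (i : ℂ) / 2 + 1 + (ε : ℂ)) (𝓝[>] 0)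
      (𝓝[≠] ((i : ℂ) / 2 + 1)) := by simpa using htp
  refine (hg.continuousAt.tendsto.comp ht2).congr' ?_
  filter_upwards [htp2.eventually hgL, self_mem_nhdsWithin] with ε h4 h6
  have hε : (0 : ℝ) < ε := h6
  have h8 := h2 _ (hre hε)
  simp only [Function.comp_apply]
  rw [← h8, h4]
  have hε0 : (ε : ℂ) ≠ 0 := by exact_mod_cast hε.ne'
  rw [add_sub_cancel_left, smul_eq_mul, ← mul_assoc, ← zpow_add₀ hε0, neg_add_cancel, zpow_zero,
    one_mul]

/-- the empty representation -/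
noncomputable def zero (K : Type) [Field K] [NumberField K] : WRep K where
  r := 0
  F := fun j => Fin.elim0 j
  fld := fun j => Fin.elim0 j
  nf := fun j => Fin.elim0 j
  alg := fun j => Fin.elim0 j
  𝔣 := fun j => Fin.elim0 j
  k := fun j => Fin.elim0 j
  t := fun j => Fin.elim0 j
  χ := fun j => Fin.elim0 j
  hecke := fun j => Fin.elim0 j
  c := fun j => Fin.elim0 j

theorem zero_part (X : Variety K) {i : ℕ} (hi : i ≤ 2 * X.dim) : IsPart X i (zero K) (X.betti i) := by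
  filter_upwards [X.frob] with v hv
  obtain ⟨α, hα⟩ := hv i hi
  have h0 : (zero K).trace v = 0 := by
    unfold WRep.trace
    exact Finset.sum_eq_zero fun j _ => Fin.elim0 j
  refine ⟨by rw [h0]; rfl, α, α, hα, fun j => ?_, by rw [h0, mul_zero, zero_add]⟩
  have h1 : Pool.Agent.W353.PV.Eig X.eqs X.dim i v α := hα
  exact h1.norm j

theorem zero_inner (ρ : WRep K) : ρ.inner (zero K) = 0 := by
  unfold WRep.inner
  exact Finset.sum_eq_zero fun j _ => Finset.sum_eq_zero fun l _ => Fin.elim0 l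

end

end Pool.Agent.Helper29X1.WG.PZ
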