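import Pool.Agent.Helper29X1.WG.Shift

/-!
# A real and a non-real character
-/

set_option autoImplicit false
set_option linter.unusedSectionVars false

namespace Pool.Agent.Helper29X1.WG

open NumberField Complex Filter Topology IsDedekindDomain Asymptotics Polynomial
open Pool.Agent.W353.EF (LFun size)
open Pool.Agent.W353.TP (HX sysH LL LL_tendsto bdd_isLittleO lamS_sub)
open Pool.Agent.W353.NF (vx)
open Pool.Agent.W540.BE (nm two_le_nm trv)
open Pool.Agent.Y149.Ord (HasOrder tendsto_size)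
open Pool.Agent.N172.HS
open scoped ComplexConjugate

section

variable {K : Type} [Field K] [NumberField K]

/-- functions which are equal to one at almost all primes -/
theorem EH_good (P : HeightOneSpectrum (𝓞 K) → Prop) (hP : ∀ᶠ v in cofinite, P v) :
    ∃ g : HX K → ℝ, (∀ x, P (vx x) → g x = 0) ∧ (∀ x, ¬ P (vx x) → g x = 1) ∧
      (∀ x, 0 ≤ g x ∧ g x ≤ 1) ∧ (fun ε => EH K ε g) =o[𝓝[>] 0] LL := by
  classical
  set u : HeightOneSpectrum (𝓞 K) → ℝ := fun v => if P v then 1 else 0 with hu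
  have hu1 : ∀ v, 0 ≤ u v ∧ u v ≤ 1 := fun v => by
    rw [hu]; simp only
    split_ifs <;> norm_num
  have hub : ∀ v, |u v| ≤ 1 := fun v => abs_le.2 ⟨by linarith [(hu1 v).1], (hu1 v).2⟩
  have h1 := meanH_one (K := K) (g := u) hub (by
    filter_upwards [hP] with v hv _
    rw [hu]; simp only
    rw [if_pos hv])
  refine ⟨fun x => 1 - u (vx x), fun x hx => ?_, fun x hx => ?_, fun x => ?_, ?_⟩
  · rw [hu]; simp only; rw [if_pos hx]; ring
  · rw [hu]; simp only; rw [if_neg hx]; ring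
  · have := hu1 (vx x)
    exact ⟨by linarith, by linarith⟩
  · have h2 : (fun ε => (sysH K).lam ε - LL ε) =o[𝓝[>] 0] LL := by
      simpa using lamS_sub (sysH K)
    refine (h2.sub h1).congr' ?_ (EventuallyEq.refl _ _)
    filter_upwards [self_mem_nhdsWithin] with ε hε
    have hε' : (0 : ℝ) < ε := hε
    have e1 : EH K ε (fun x => 1 - u (vx x)) = (sysH K).lam ε - EH K ε (fun x => u (vx x)) := by
      have e2 : (fun x : HX K => 1 - u (vx x)) = fun x => 1 + (-1) * u (vx x) := by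
        funext x; ring
      rw [e2, EH_add hε' (B := 1) (B' := 1) (fun x => by rw [abs_one]) (fun x => by
        rw [abs_mul, abs_neg, abs_one, one_mul]; exact hub _), EH_const_mul, EH_one]
      ring
    rw [e1]
    ring

/-- powers -/
noncomputable def HC.pow (c : HC K) : ℕ → HC K
  | 0 => HC.one K
  | n + 1 => (HC.pow c n).mul c

theorem HC.val_pow (c : HC K) (n : ℕ) (x : HX K) : (c.pow n).val x = c.val x ^ n := by
  induction n with
  | zero => rw [pow_zero]; exact HC.val_one x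
  | succ n ih =>
    have : (c.pow (n + 1)).val x = ((c.pow n).mul c).val x := rfl
    rw [this, HC.val_mul, ih, pow_succ]

theorem HC.pow_ψ (c : HC K) (n : ℕ) (v : HeightOneSpectrum (𝓞 K)) :
    (c.pow n).ψ v.asIdeal = c.ψ v.asIdeal ^ n := by
  induction n with
  | zero =>
    rw [pow_zero]
    exact unitChar_apply K v.ne_bot
  | succ n ih =>
    have : (c.pow (n + 1)).ψ v.asIdeal = mulc (c.pow n).ψ c.ψ v.asIdeal := rfl
    rw [this, mulc_apply, ih, pow_succ]

theorem pow_distinct (c : HC K) {N : ℕ}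
    (h : ∀ k : ℕ, 1 ≤ k → k ≤ N → ¬ ∀ᶠ v : HeightOneSpectrum (𝓞 K) in cofinite,
      c.ψ v.asIdeal ^ k = 1) {i j : ℕ} (hi : i ≤ N) (hj : j ≤ N) (hij : i ≠ j) :
    ¬ Same (c.pow i).ψ (c.pow j).ψ := by
  have key : ∀ i j : ℕ, i < j → j ≤ N → ¬ Same (c.pow i).ψ (c.pow j).ψ := by
    intro i j hij hj hs
    refine h (j - i) (by omega) (by omega) ?_
    filter_upwards [hs, c.hecke.eventually_ne] with v h1 h2
    rw [HC.pow_ψ, HC.pow_ψ] at h1
    have e : j = (j - i) + i := by omega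
    rw [e, pow_add] at h1
    have h3 : c.ψ v.asIdeal ^ i ≠ 0 := pow_ne_zero _ h2
    have h4 : c.ψ v.asIdeal ^ (j - i) * c.ψ v.asIdeal ^ i = 1 * c.ψ v.asIdeal ^ i := by
      rw [one_mul]; exact h1.symm
    exact mul_right_cancel₀ h3 h4
  rcases lt_or_gt_of_ne hij with h1 | h1
  · exact key i j h1 hj
  · intro hs
    exact key j i h1 hi hs.symm

/-- the algebraic inequality -/
theorem fejer_ineq {z : ℂ} (hz : ‖z‖ = 1) :
    1 ≤ 4 * (1 + z.re) + ‖(1 - z + z ^ 2 - z ^ 3 + z ^ 4) / 5‖ ^ 2 := by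
  have h1 : z.re ^ 2 + z.im ^ 2 = 1 := by
    have := Complex.normSq_eq_norm_sq z
    rw [hz, Complex.normSq_apply] at this
    nlinarith
  have h2 : 1 - z + z ^ 2 - z ^ 3 + z ^ 4 = z ^ 2 * ((4 * z.re ^ 2 - 2 * z.re - 1 : ℝ) : ℂ) := by
    have h3 : z * conj z = 1 := by
      rw [Complex.mul_conj, Complex.normSq_eq_norm_sq, hz]
      simp
    have h4 : ((z.re : ℝ) : ℂ) = (z + conj z) / 2 := by
      rw [Complex.add_conj]; push_cast; ring
    push_cast
    rw [h4]
    have h5 : conj z = z⁻¹ := by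
      have hz0 : z ≠ 0 := by
        intro h; rw [h] at hz; simp at hz
      field_simp
      rw [mul_comm]; exact h3
    have hz0 : z ≠ 0 := by
      intro h; rw [h] at hz; simp at hz
    rw [h5]
    field_simp
    ring
  rw [h2, norm_div, norm_mul, norm_pow, hz, one_pow, one_mul, Complex.norm_real, div_pow]
  simp only [Real.norm_eq_abs, sq_abs]
  have h6 : ‖(5 : ℂ)‖ ^ 2 = 25 := by
    rw [show (5 : ℂ) = ((5 : ℝ) : ℂ) by norm_num, Complex.norm_real]
    norm_num
  rw [h6]
  set x := z.re with hx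
  have h7 : -1 ≤ x := by
    have := (abs_le.1 (Complex.abs_re_le_norm z)).1
    rw [hz] at this
    exact this
  have e : 4 * (1 + x) + (4 * x ^ 2 - 2 * x - 1) ^ 2 / 25 - 1 =
      (1 + x) ^ 2 * (5.6 - 3.2 * (1 + x) + 0.64 * (1 + x) ^ 2) := by
    ring
  have h8 : 0 ≤ 5.6 - 3.2 * (1 + x) + 0.64 * (1 + x) ^ 2 := by nlinarith [sq_nonneg (x - 1.5)]
  have h9 : 0 ≤ (1 + x) ^ 2 * (5.6 - 3.2 * (1 + x) + 0.64 * (1 + x) ^ 2) := by positivity
  linarith

open Classical in
/-- **A real character and a character which is not real.** -/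
theorem real_pair_ineq (c d : HC K) (hc : Same c.ψ (cj c.ψ))
    (hp : ∀ k : ℕ, 1 ≤ k → k ≤ 4 → ¬ ∀ᶠ v : HeightOneSpectrum (𝓞 K) in cofinite,
      (c.mul d).ψ v.asIdeal ^ k = 1) {s s' : ℝ} (hs : s ^ 2 = 1) (hs' : s' ^ 2 = 1)
    {T : HX K → ℝ} (hT : ∀ x, |T x| ≤ 2) {z z' : ℝ → ℝ}
    (hz : (fun ε => z ε * LL ε - EH K ε (fun x => T x * (c.val x).re)) =o[𝓝[>] 0] LL)
    (hz' : (fun ε => z' ε * LL ε - EH K ε (fun x => T x * (d.val x).re)) =o[𝓝[>] 0] LL)
    {η : ℝ} (hη : 0 < η) :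
    ∀ᶠ ε : ℝ in 𝓝[>] 0, 3 * (s * z ε) + 4 * (s' * z' ε) ≤ 34 / 5 + η := by
  set e : HC K := c.mul d with he
  have abs1 : ∀ {u : ℝ}, u ^ 2 = 1 → |u| = 1 := fun {u} h => by
    have : |u| ^ 2 = 1 := by rw [sq_abs]; exact h
    have h0 := abs_nonneg u
    nlinarith
  have hss : (s * s') ^ 2 = 1 := by rw [mul_pow, hs, hs', one_mul]
  -- the bad primes
  obtain ⟨g, hg0, hg1, hg2, hg3⟩ := EH_good (K := K)
    (fun v => c.ψ v.asIdeal ≠ 0 ∧ d.ψ v.asIdeal ≠ 0 ∧ c.ψ v.asIdeal = cj c.ψ v.asIdeal) (by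
      filter_upwards [hc, c.hecke.eventually_ne, d.hecke.eventually_ne] with v h1 h2 h3
      exact ⟨h2, h3, h1⟩)
  -- the kernel
  set a : Fin 5 → ℝ := fun k => (-(s * s')) ^ (k : ℕ) / 5 with ha
  set A : Fin 5 → HC K := fun k => e.pow (k : ℕ) with hA
  set Y : HX K → ℂ := fun x => ∑ k : Fin 5, ((a k : ℝ) : ℂ) * (A k).val x with hY
  have hYv : ∀ x, Y x = (1 - ((s * s' : ℝ) : ℂ) * e.val x + (((s * s' : ℝ) : ℂ) * e.val x) ^ 2 -
      (((s * s' : ℝ) : ℂ) * e.val x) ^ 3 + (((s * s' : ℝ) : ℂ) * e.val x) ^ 4) / 5 := by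
    intro x
    rw [hY]
    simp only [hA, HC.val_pow, ha, Fin.sum_univ_five]
    simp only [Fin.val_zero, Fin.val_one, Fin.val_two, Fin.isValue]
    have f3 : ((3 : Fin 5) : ℕ) = 3 := rfl
    have f4 : ((4 : Fin 5) : ℕ) = 4 := rfl
    rw [f3, f4]
    push_cast
    ring
  have ha1 : ∀ k, |a k| ≤ 1 := fun k => by
    rw [ha]
    simp only
    rw [abs_div, abs_pow, abs_neg, abs1 hss, one_pow]
    norm_num
  have hYb : ∀ x, ‖Y x‖ ≤ 5 := by
    intro x
    rw [hY]
    simp only
    refine (norm_sum_le _ _).trans ?_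
    calc ∑ k : Fin 5, ‖((a k : ℝ) : ℂ) * (A k).val x‖ ≤ ∑ _k : Fin 5, (1 : ℝ) :=
          Finset.sum_le_sum fun k _ => by
            rw [norm_mul, Complex.norm_real, Real.norm_eq_abs]
            exact mul_le_one₀ (ha1 k) (norm_nonneg _) ((A k).val_le x)
      _ = 5 := by simp
  have gY : HasGram Y Y (∑ i, ∑ j, a i * a j *
      (if Same (A i).ψ (A j).ψ then (1 : ℝ) else 0)) :=
    HasGram.sum Finset.univ Finset.univ (fun i _ => (A i).bdd) (fun i _ => (A i).bdd)
      a a (fun i _ j _ => HC.gram (A i) (A j))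
  have hsum : ∑ i, ∑ j, a i * a j *
      (if Same (A i).ψ (A j).ψ then (1 : ℝ) else 0) = 1 / 5 := by
    have e0 : ∀ i : Fin 5, ∑ j : Fin 5, a i * a j *
        (if Same (A i).ψ (A j).ψ then (1 : ℝ) else 0) = 1 / 25 := by
      intro i
      rw [Finset.sum_eq_single i]
      · rw [if_pos (Same.refl _), mul_one]
        have h1 : a i * a i = a i ^ 2 := by ring
        rw [h1, ha]
        simp only
        rw [div_pow, pow_right_comm, neg_sq, hss, one_pow]
        norm_num
      · intro j _ hj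
        rw [if_neg (pow_distinct e hp (by omega) (by omega) (fun h => hj (Fin.ext h.symm))),
          mul_zero]
      · intro h; exact absurd (Finset.mem_univ i) h
    rw [Finset.sum_congr rfl fun i _ => e0 i, Finset.sum_const, Finset.card_univ,
      Fintype.card_fin, nsmul_eq_mul]
    norm_num
  rw [hsum] at gY
  have gY' : (fun ε => EH K ε (fun x => ‖Y x‖ ^ 2) - 1 / 5 * LL ε) =o[𝓝[>] 0] LL := by
    refine gY.congr_left fun ε => ?_
    congr 2
    funext x
    rw [Complex.mul_conj, Complex.ofReal_re, Complex.normSq_eq_norm_sq]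
  -- the mean value of `e`
  have ge : (fun ε => EH K ε (fun x => (e.val x).re)) =o[𝓝[>] 0] LL := by
    have h1 : ¬ Same e.ψ (HC.one K).ψ := fun hs => by
      refine hp 1 le_rfl (by norm_num) ?_
      filter_upwards [hs] with v h2
      rw [pow_one, h2]
      exact unitChar_apply K v.ne_bot
    have h2 := HC.gram e (HC.one K)
    rw [if_neg h1] at h2
    refine h2.congr_left fun ε => ?_
    rw [zero_mul, sub_zero]
    congr 1
    funext x
    rw [HC.val_one, map_one, mul_one]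
  -- the pointwise inequality
  have hpt : ∀ x, 3 * (s * (T x * (c.val x).re)) + 4 * (s' * (T x * (d.val x).re)) ≤
      6 + (8 * (s * s') * (e.val x).re + (4 * ‖Y x‖ ^ 2 + 20 * g x)) := by
    intro x
    have t1 := abs_le.1 (hT x)
    have c1 := (Complex.abs_re_le_norm (c.val x)).trans (c.val_le x)
    have d1 := (Complex.abs_re_le_norm (d.val x)).trans (d.val_le x)
    have e1 := (Complex.abs_re_le_norm (e.val x)).trans (e.val_le x)
    have u1 : |s * (T x * (c.val x).re)| ≤ 2 := by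
      rw [abs_mul, abs_mul, abs1 hs, one_mul]
      calc |T x| * |(c.val x).re| ≤ 2 * 1 := mul_le_mul (hT x) c1 (abs_nonneg _) (by norm_num)
        _ = 2 := by norm_num
    have u2 : |s' * (T x * (d.val x).re)| ≤ 2 := by
      rw [abs_mul, abs_mul, abs1 hs', one_mul]
      calc |T x| * |(d.val x).re| ≤ 2 * 1 := mul_le_mul (hT x) d1 (abs_nonneg _) (by norm_num)
        _ = 2 := by norm_num
    have u3 : |s * s' * (e.val x).re| ≤ 1 := by
      rw [abs_mul, abs1 hss, one_mul]; exact e1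
    by_cases hgood : c.ψ (vx x).asIdeal ≠ 0 ∧ d.ψ (vx x).asIdeal ≠ 0 ∧
        c.ψ (vx x).asIdeal = cj c.ψ (vx x).asIdeal
    · obtain ⟨g1, g2, g3⟩ := hgood
      rw [hg0 x ⟨g1, g2, g3⟩]
      have k1 : c.val x = conj (c.val x) := by
        rw [cj_apply] at g3
        exact g3
      have k2 : ‖c.val x‖ = 1 := c.hecke.unit _ g1
      have k3 : ‖d.val x‖ = 1 := d.hecke.unit _ g2
      obtain ⟨r, hr⟩ := Complex.conj_eq_iff_real.1 k1.symm
      have k4 : r ^ 2 = 1 := by
        rw [hr, Complex.norm_real, Real.norm_eq_abs] at k2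
        rw [← sq_abs, k2, one_pow]
      have k5 : (c.val x).re = r := by rw [hr, Complex.ofReal_re]
      have k6 : (e.val x).re = r * (d.val x).re := by
        rw [he, HC.val_mul, hr, Complex.re_ofReal_mul]
      have k7 : ‖((s * s' : ℝ) : ℂ) * e.val x‖ = 1 := by
        rw [norm_mul, Complex.norm_real, Real.norm_eq_abs, abs1 hss, one_mul, he, HC.val_mul,
          norm_mul, k2, k3, one_mul]
      have k8 := fejer_ineq k7
      rw [← hYv x, Complex.re_ofReal_mul] at k8
      set τ := s * (T x * (c.val x).re) with hτ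
      have k9 : s' * (T x * (d.val x).re) = τ * (s * s' * (e.val x).re) := by
        rw [hτ, k5, k6]
        have : s * (T x * r) * (s * s' * (r * (d.val x).re)) =
            (s ^ 2) * (r ^ 2) * (s' * (T x * (d.val x).re)) := by ring
        rw [this, hs, k4]
        ring
      rw [k9]
      have k10 : τ ≤ 2 := (le_abs_self _).trans u1
      have k11 : -2 ≤ τ := (abs_le.1 u1).1
      have k12 : 0 ≤ ‖Y x‖ ^ 2 := sq_nonneg _
      have k13 : 0 ≤ (2 - τ) * (4 * (1 + s * s' * (e.val x).re) + ‖Y x‖ ^ 2 - 1) :=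
        mul_nonneg (by linarith) (by linarith)
      have k14 : 0 ≤ (2 + τ) * ‖Y x‖ ^ 2 := mul_nonneg (by linarith) k12
      nlinarith
    · rw [hg1 x hgood]
      have k12 : 0 ≤ ‖Y x‖ ^ 2 := sq_nonneg _
      have v1 := (abs_le.1 u1).2
      have v2 := (abs_le.1 u2).2
      have v3 := (abs_le.1 u3).1
      linarith
  -- the mean values
  have hL0 : ∀ᶠ ε : ℝ in 𝓝[>] 0, 0 < LL ε := LL_tendsto.eventually_gt_atTop 0
  have bT : ∀ (f : HC K) x, |T x * (f.val x).re| ≤ 2 * 1 := fun f x => by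
    rw [abs_mul]
    exact mul_le_mul (hT x) ((Complex.abs_re_le_norm _).trans (f.val_le x)) (abs_nonneg _)
      (by norm_num)
  have hmean : ∀ᶠ ε : ℝ in 𝓝[>] 0,
      3 * (s * EH K ε (fun x => T x * (c.val x).re)) +
        4 * (s' * EH K ε (fun x => T x * (d.val x).re)) ≤
      6 * (sysH K).lam ε + (8 * (s * s') * EH K ε (fun x => (e.val x).re) +
        (4 * EH K ε (fun x => ‖Y x‖ ^ 2) + 20 * EH K ε g)) := by
    filter_upwards [self_mem_nhdsWithin] with ε hε
    have hε' : (0 : ℝ) < ε := hε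
    have b1 : ∀ x, |3 * s * (T x * (c.val x).re)| ≤ |3 * s| * (2 * 1) := fun x => by
      rw [abs_mul (3 * s)]; exact mul_le_mul_of_nonneg_left (bT c x) (abs_nonneg _)
    have b2 : ∀ x, |4 * s' * (T x * (d.val x).re)| ≤ |4 * s'| * (2 * 1) := fun x => by
      rw [abs_mul (4 * s')]; exact mul_le_mul_of_nonneg_left (bT d x) (abs_nonneg _)
    have b3 : ∀ x : HX K, |(6 : ℝ) * 1| ≤ 6 := fun _ => by norm_num
    have b4 : ∀ x, |8 * (s * s') * (e.val x).re| ≤ |8 * (s * s')| * 1 := fun x => by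
      rw [abs_mul (8 * (s * s'))]
      exact mul_le_mul_of_nonneg_left ((Complex.abs_re_le_norm _).trans (e.val_le x))
        (abs_nonneg _)
    have b5 : ∀ x, |4 * ‖Y x‖ ^ 2| ≤ 4 * 5 ^ 2 := fun x => by
      rw [abs_of_nonneg (by positivity)]
      exact mul_le_mul_of_nonneg_left (pow_le_pow_left₀ (norm_nonneg _) (hYb x) 2) (by norm_num)
    have b6 : ∀ x, |20 * g x| ≤ 20 := fun x => by
      rw [abs_of_nonneg (mul_nonneg (by norm_num) (hg2 x).1)]
      linarith [(hg2 x).2]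
    have b56 : ∀ x, |4 * ‖Y x‖ ^ 2 + 20 * g x| ≤ 4 * 5 ^ 2 + 20 := fun x =>
      (abs_add_le _ _).trans (add_le_add (b5 x) (b6 x))
    have b456 : ∀ x, |8 * (s * s') * (e.val x).re + (4 * ‖Y x‖ ^ 2 + 20 * g x)| ≤
        |8 * (s * s')| * 1 + (4 * 5 ^ 2 + 20) := fun x =>
      (abs_add_le _ _).trans (add_le_add (b4 x) (b56 x))
    have l1 : 3 * (s * EH K ε (fun x => T x * (c.val x).re)) +
        4 * (s' * EH K ε (fun x => T x * (d.val x).re)) =
        EH K ε (fun x => 3 * s * (T x * (c.val x).re) + 4 * s' * (T x * (d.val x).re)) := by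
      rw [EH_add hε' b1 b2, EH_const_mul, EH_const_mul]
      ring
    have l2 : 6 * (sysH K).lam ε + (8 * (s * s') * EH K ε (fun x => (e.val x).re) +
        (4 * EH K ε (fun x => ‖Y x‖ ^ 2) + 20 * EH K ε g)) =
        EH K ε (fun x => 6 * 1 + (8 * (s * s') * (e.val x).re + (4 * ‖Y x‖ ^ 2 + 20 * g x))) := by
      rw [EH_add hε' b3 b456, EH_add hε' b4 b56, EH_add hε' b5 b6, EH_const_mul, EH_const_mul,
        EH_const_mul, EH_const_mul, EH_one]
    rw [l1, l2]
    refine EH_mono' (fun x => (abs_add_le _ _).trans (add_le_add (b1 x) (b2 x)))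
      (fun x => (abs_add_le _ _).trans (add_le_add (b3 x) (b456 x))) (fun x => ?_) hε'
    have := hpt x
    linarith
  -- the limits
  have t1 : Tendsto (fun ε => (3 * (s * z ε) + 4 * (s' * z' ε)) -
      (3 * (s * EH K ε (fun x => T x * (c.val x).re)) +
        4 * (s' * EH K ε (fun x => T x * (d.val x).re))) / LL ε) (𝓝[>] 0) (𝓝 0) := by
    have h1 := ((hz.const_mul_left (3 * s)).add (hz'.const_mul_left (4 * s'))).tendsto_div_nhds_zero
    refine h1.congr' ?_
    filter_upwards [hL0] with ε h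
    have h2 := h.ne'
    field_simp
    ring
  have t2 : Tendsto (fun ε => (6 * (sysH K).lam ε + (8 * (s * s') * EH K ε (fun x => (e.val x).re) +
        (4 * EH K ε (fun x => ‖Y x‖ ^ 2) + 20 * EH K ε g))) / LL ε) (𝓝[>] 0) (𝓝 (34 / 5)) := by
    have hlam : (fun ε => (sysH K).lam ε - LL ε) =o[𝓝[>] 0] LL := by
      simpa using lamS_sub (sysH K)
    have h1 := ((((hlam.const_mul_left 6).add (ge.const_mul_left (8 * (s * s')))).add
      (gY'.const_mul_left 4)).add (hg3.const_mul_left 20)).tendsto_div_nhds_zero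
    have h3 := h1.add_const (34 / 5)
    rw [zero_add] at h3
    refine h3.congr' ?_
    filter_upwards [hL0] with ε h
    have h2 := h.ne'
    field_simp
    ring
  have t3 := t1.add t2
  rw [zero_add] at t3
  filter_upwards [hmean, hL0, t3.eventually_lt_const (by linarith : (34 / 5 : ℝ) < 34 / 5 + η)]
    with ε h1 h2 h3
  have h4 := div_le_div_of_nonneg_right h1 h2.le
  linarith

end

end Pool.Agent.Helper29X1.WG
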