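import Pool.Agent.Helper29X1.WG.PairL

/-!
# Representations with small support
-/

set_option autoImplicit false
set_option linter.unusedSectionVars false

namespace Pool.Agent.Helper29X1.WG.SF

open NumberField Complex Filter Topology IsDedekindDomain Asymptotics Polynomial
open Pool.Agent.W353.EF (LFun size IsFrobenius)
open Pool.Agent.W353.TP (HX sysH LL LL_tendsto bdd_isLittleO lamS_sub push res card_hom_le)
open Pool.Agent.W353.NF (vx)
open Pool.Agent.W540.BE (nm two_le_nm trv finite_mem_prime)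
open Pool.Agent.N172.HS
open Pool.Agent.H921R2.TatePole (hom_ext_of_ker)
open scoped ComplexConjugate

section

variable {K : Type} [Field K] [NumberField K] {F : Type} [Field F] [NumberField F] [Algebra K F]

open Classical in
/-- the homomorphisms above one of `K` -/
noncomputable def fib (F : Type) [Field F] [NumberField F] [Algebra K F] (x : HX K) :
    Finset (𝓞 F →+* ZMod (x.1 : ℕ)) :=
  Finset.univ.filter (fun ψ : 𝓞 F →+* ZMod (x.1 : ℕ) => res K ψ = x.2)

theorem mem_fib {x : HX K} {ψ : 𝓞 F →+* ZMod (x.1 : ℕ)} : ψ ∈ fib F x ↔ res K ψ = x.2 := by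
  classical
  unfold fib
  rw [Finset.mem_filter]
  exact ⟨fun h => h.2, fun h => ⟨Finset.mem_univ _, h⟩⟩

/-- the number of the homomorphisms above -/
noncomputable def cnt (F : Type) [Field F] [NumberField F] [Algebra K F] (x : HX K) : ℝ :=
  ((fib F x).card : ℝ)

theorem cnt_nonneg (x : HX K) : 0 ≤ cnt F x := Nat.cast_nonneg _

theorem cnt_le (x : HX K) : cnt F x ≤ Module.finrank ℚ F := by
  classical
  unfold cnt fib
  have h1 := Finset.card_filter_le (Finset.univ : Finset (𝓞 F →+* ZMod (x.1 : ℕ)))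
    (fun ψ => res K ψ = x.2)
  rw [Finset.card_univ] at h1
  exact_mod_cast h1.trans (card_hom_le x.1)

/-- no primes of degree one above a prime without homomorphisms above -/
theorem above_empty {x : HX K} (h : cnt F x = 0) : above F (vx x) = ∅ := by
  classical
  have h0 : fib F x = ∅ := by
    unfold cnt at h
    exact Finset.card_eq_zero.1 (by exact_mod_cast h)
  rw [Set.eq_empty_iff_forall_notMem]
  rintro w ⟨h1, h2⟩
  have hfact : Fact (x.1 : ℕ).Prime := ⟨x.1.2⟩
  have h2' : Ideal.absNorm w.asIdeal = (x.1 : ℕ) := h2.trans (absNorm_vx x)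
  obtain ⟨y, hy⟩ := exists_vx w (by rw [h2']; exact x.1.2)
  have h3 : (y.1 : ℕ) = x.1 := by
    rw [← absNorm_vx y, hy, h2']
  obtain ⟨q, φ⟩ := y
  have h4 : q = x.1 := Subtype.ext h3
  subst h4
  have h5 : φ ∈ fib F x := by
    rw [mem_fib]
    apply hom_ext_of_ker
    have h5 : RingHom.ker (res K φ) = w.asIdeal.comap (algebraMap (𝓞 K) (𝓞 F)) := by
      unfold res
      rw [← RingHom.comap_ker, ← hy]
      rfl
    rw [h5, h1]
    rfl
  rw [h0] at h5
  exact absurd h5 (Finset.notMem_empty _)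

/-- the action of an automorphism on the integers -/
noncomputable def act (σ : F ≃ₐ[K] F) : 𝓞 F →+* 𝓞 F :=
  RingOfIntegers.mapRingHom (σ : F →+* F)

theorem act_coe (σ : F ≃ₐ[K] F) (a : 𝓞 F) : ((act σ a : 𝓞 F) : F) = σ (a : F) := rfl

theorem act_res (σ : F ≃ₐ[K] F) {p : ℕ} (ψ : 𝓞 F →+* ZMod p) :
    res K (ψ.comp (act σ)) = res K ψ := by
  unfold res
  refine RingHom.ext fun a => ?_
  simp only [RingHom.comp_apply]
  congr 1
  apply RingOfIntegers.ext
  rw [act_coe]
  have h1 : ((algebraMap (𝓞 K) (𝓞 F) a : 𝓞 F) : F) = algebraMap K F (a : K) := rfl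
  rw [h1]
  exact σ.commutes _

theorem exists_move {σ τ : F ≃ₐ[K] F} (h : σ ≠ τ) : ∃ a : 𝓞 F, act σ a - act τ a ≠ 0 := by
  by_contra hcon
  push Not at hcon
  apply h
  refine AlgEquiv.ext fun z => ?_
  obtain ⟨a, b, hb, rfl⟩ := IsFractionRing.div_surjective (A := 𝓞 F) z
  have k : ∀ c : 𝓞 F, σ (algebraMap (𝓞 F) F c) = τ (algebraMap (𝓞 F) F c) := by
    intro c
    have h1 := congrArg (fun u : 𝓞 F => (u : F)) (sub_eq_zero.1 (hcon c))
    exact h1
  rw [map_div₀, map_div₀, k, k]

theorem free_ev : ∀ᶠ y : HX F in cofinite, ∀ σ τ : F ≃ₐ[K] F,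
    y.2.comp (act σ) = y.2.comp (act τ) → σ = τ := by
  classical
  have : FiniteDimensional ℚ F := inferInstance
  have : FiniteDimensional K F := Module.Finite.of_restrictScalars_finite ℚ K F
  have hfin : Finite (F ≃ₐ[K] F) := inferInstance
  rw [Filter.eventually_all]
  intro σ
  rw [Filter.eventually_all]
  intro τ
  by_cases h : σ = τ
  · exact Eventually.of_forall fun _ _ => h
  · obtain ⟨a, ha⟩ := exists_move h
    have h1 : ∀ᶠ v : HeightOneSpectrum (𝓞 F) in cofinite, act σ a - act τ a ∉ v.asIdeal := by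
      rw [Filter.eventually_cofinite]
      refine (finite_mem_prime ha).subset fun v hv => ?_
      rw [Set.mem_ofPred_eq, not_not] at hv
      exact hv
    filter_upwards [eventually_HX h1] with y h2 h3
    exfalso
    apply h2
    change y.2 (act σ a - act τ a) = 0
    rw [map_sub]
    have h4 := RingHom.congr_fun h3 a
    simp only [RingHom.comp_apply] at h4
    rw [h4, sub_self]

/-- the number of the automorphisms -/
noncomputable def naut (K F : Type) [Field K] [Field F] [Algebra K F] : ℕ :=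
  Nat.card (F ≃ₐ[K] F)

theorem naut_pos : 0 < naut K F := by
  have : FiniteDimensional ℚ F := inferInstance
  have : FiniteDimensional K F := Module.Finite.of_restrictScalars_finite ℚ K F
  have hfin : Finite (F ≃ₐ[K] F) := inferInstance
  exact Nat.card_pos

/-- **The number of the primes of degree one.** -/
theorem cnt_ge : ∀ᶠ x : HX K in cofinite, cnt F x = 0 ∨ (naut K F : ℝ) ≤ cnt F x := by
  classical
  have : FiniteDimensional ℚ F := inferInstance
  have : FiniteDimensional K F := Module.Finite.of_restrictScalars_finite ℚ K F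
  have hfin : Finite (F ≃ₐ[K] F) := inferInstance
  have h := free_ev (K := K) (F := F)
  rw [Filter.eventually_cofinite] at h ⊢
  refine (h.image (fun y : HX F => (⟨y.1, res K y.2⟩ : HX K))).subset fun x hx => ?_
  rw [Set.mem_ofPred_eq, not_or] at hx
  obtain ⟨h1, h2⟩ := hx
  have h3 : (fib F x).Nonempty := by
    rw [Finset.nonempty_iff_ne_empty]
    intro h4
    apply h1
    unfold cnt
    rw [h4, Finset.card_empty, Nat.cast_zero]
  obtain ⟨ψ, hψ⟩ := h3
  refine ⟨⟨x.1, ψ⟩, ?_, ?_⟩
  · rw [Set.mem_ofPred_eq]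
    intro hfree
    apply h2
    unfold cnt naut
    have h5 : Nat.card (F ≃ₐ[K] F) ≤ Nat.card {φ // φ ∈ fib F x} := by
      refine Nat.card_le_card_of_injective
        (fun σ : F ≃ₐ[K] F => (⟨ψ.comp (act σ), by
          rw [mem_fib, act_res]; exact mem_fib.1 hψ⟩ : {φ // φ ∈ fib F x})) ?_
      intro σ τ h6
      exact hfree σ τ (congrArg Subtype.val h6)
    rw [Nat.card_eq_fintype_card (α := {φ // φ ∈ fib F x}), Fintype.card_coe] at h5
    exact_mod_cast h5
  · have h6 := mem_fib.1 hψ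
    simp only
    rw [h6]

/-- the weighted characters -/
noncomputable def wt (F : Type) [Field F] [NumberField F] [Algebra K F] (h : ℝ) (x : HX K) : ℂ :=
  ((Real.sqrt (cnt F x) : ℝ) : ℂ) * (HC.N K h).val x

theorem wt_bdd (h : ℝ) : Bdd (wt (K := K) F h) := by
  refine ⟨Real.sqrt (Module.finrank ℚ F), Real.sqrt_nonneg _, fun x => ?_⟩
  unfold wt
  rw [norm_mul, Complex.norm_real, Real.norm_eq_abs, abs_of_nonneg (Real.sqrt_nonneg _)]
  calc Real.sqrt (cnt F x) * ‖(HC.N K h).val x‖ ≤ Real.sqrt (Module.finrank ℚ F) * 1 :=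
        mul_le_mul (Real.sqrt_le_sqrt (cnt_le x)) ((HC.N K h).val_le x) (norm_nonneg _)
          (Real.sqrt_nonneg _)
    _ = _ := mul_one _

theorem push_N (τ : ℝ) (x : HX K) :
    push K (fun y : HX F => ((HC.N F τ).val y).re) x = cnt F x * ((HC.N K τ).val x).re := by
  classical
  unfold push cnt
  have h1 : ∀ ψ ∈ Finset.univ.filter (fun ψ : 𝓞 F →+* ZMod (x.1 : ℕ) => res K ψ = x.2),
      ((HC.N F τ).val (⟨x.1, ψ⟩ : HX F)).re = ((HC.N K τ).val x).re := by
    intro ψ _
    rw [HC.N_val, HC.N_val]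
  rw [Finset.sum_congr rfl h1, Finset.sum_const, nsmul_eq_mul]
  unfold fib
  rfl

open Classical in
theorem wt_gram (h l : ℝ) : HasGram (wt (K := K) F h) (wt F l) (if h = l then 1 else 0) := by
  have h1 : HasGram (HC.N F h).val (HC.N F l).val (if h = l then 1 else 0) := HC.N_gram h l
  unfold HasGram at h1 ⊢
  refine h1.congr' ?_ (EventuallyEq.refl _ _)
  filter_upwards [self_mem_nhdsWithin] with ε hε
  have hε' : (0 : ℝ) < ε := hε
  congr 1
  have hb : ∀ y : HX F, |((HC.N F (h - l)).val y).re| ≤ 1 := fun y =>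
    (Complex.abs_re_le_norm _).trans ((HC.N F (h - l)).val_le y)
  have e1 : (fun y : HX F => ((HC.N F h).val y * conj ((HC.N F l).val y)).re) =
      fun y => ((HC.N F (h - l)).val y).re := by
    funext y
    rw [HC.N_mul]
  rw [e1, EH_push' (K := K) hε' hb]
  congr 1
  funext x
  rw [push_N]
  unfold wt
  rw [map_mul, Complex.conj_ofReal]
  have e2 : ((Real.sqrt (cnt F x) : ℝ) : ℂ) * (HC.N K h).val x *
      (((Real.sqrt (cnt F x) : ℝ) : ℂ) * conj ((HC.N K l).val x)) =
      ((cnt F x : ℝ) : ℂ) * (HC.N K (h - l)).val x := by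
    rw [← HC.N_mul]
    have e3 : ((cnt F x : ℝ) : ℂ) = ((Real.sqrt (cnt F x) : ℝ) : ℂ) * ((Real.sqrt (cnt F x) : ℝ) : ℂ) := by
      rw [← Complex.ofReal_mul, Real.mul_self_sqrt (cnt_nonneg x)]
    rw [e3]
    ring
  rw [e2, Complex.re_ofReal_mul]

/-- **The inequality for the representations with small support.** -/
theorem self_ineq {ρ : WRep K} (hρ : ρ.IsIrr)
    (hF : ∀ᶠ v in cofinite, above F v = ∅ → ρ.trace v = 0) {T : HX K → ℝ} {N : ℝ}
    (hT : ∀ x, |T x| ≤ N) {z : ℝ → ℝ → ℝ}
    (hz : ∀ τ, (fun ε => z τ ε * LL ε - EH K ε (fun x => T x * ((tw ρ τ).tH x).re))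
      =o[𝓝[>] 0] LL) {κ μ : Type} [Fintype κ] [Fintype μ] {p : κ → ℝ} {q : μ → ℝ}
    (hp : Function.Injective p) (hq : Function.Injective q) (a : κ → ℝ) (b : μ → ℝ) {η : ℝ}
    (hη : 0 < η) :
    ∀ᶠ ε : ℝ in 𝓝[>] 0, ∑ k, ∑ l, a k * b l * z (p k - q l) ε ≤
      N / Real.sqrt (naut K F) * ((∑ k, a k ^ 2 + ∑ l, b l ^ 2) / 2) + η := by
  classical
  have hN : 0 ≤ N := bd_nonneg hT
  set r : ℝ := (naut K F : ℝ) with hr
  have hr0 : 0 < r := by
    rw [hr]
    exact_mod_cast naut_pos (K := K) (F := F)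
  have hsr : 0 < Real.sqrt r := Real.sqrt_pos.2 hr0
  set T' : HX K → ℝ := fun x => if r ≤ cnt F x then T x / Real.sqrt (cnt F x) else 0 with hT'
  have hT'b : ∀ x, |T' x| ≤ N / Real.sqrt r := by
    intro x
    rw [hT']
    simp only
    split_ifs with h
    · rw [abs_div, abs_of_nonneg (Real.sqrt_nonneg _)]
      exact div_le_div₀ hN (hT x) hsr (Real.sqrt_le_sqrt h)
    · rw [abs_zero]
      positivity
  have hG1 : ∀ k l : κ, HasGram (tw ρ (p k)).tH (tw ρ (p l)).tH (if k = l then 1 else 0) := by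
    intro k l
    have h := tw_gram hρ (p k) (p l)
    by_cases hkl : k = l
    · rw [if_pos (congrArg p hkl)] at h
      rwa [if_pos hkl]
    · rw [if_neg (fun h' => hkl (hp h'))] at h
      rwa [if_neg hkl]
  have hG2 : ∀ k l : μ, HasGram (wt (K := K) F (q k)) (wt F (q l)) (if k = l then 1 else 0) := by
    intro k l
    have h := wt_gram (K := K) (F := F) (q k) (q l)
    by_cases hkl : k = l
    · rw [if_pos (congrArg q hkl)] at h
      rwa [if_pos hkl]
    · rw [if_neg (fun h' => hkl (hq h'))] at h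
      rwa [if_neg hkl]
  have hsupp : ∀ᶠ x : HX K in cofinite, cnt F x = 0 → ρ.tH x = 0 := by
    filter_upwards [eventually_HX hF] with x hx h0
    rw [← ρ.trace_vx]
    exact hx (above_empty h0)
  have hz' : ∀ (k : κ) (l : μ), (fun ε => z (p k - q l) ε * LL ε -
      EH K ε (fun x => T' x * ((tw ρ (p k)).tH x * conj (wt F (q l) x)).re)) =o[𝓝[>] 0] LL := by
    intro k l
    have h1 := hz (p k - q l)
    have b1 : ∀ x, |T x * ((tw ρ (p k - q l)).tH x).re| ≤ N * (tw ρ (p k - q l)).bd := fun x => by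
      rw [abs_mul]
      exact mul_le_mul (hT x) ((Complex.abs_re_le_norm _).trans ((tw ρ _).norm_tH_le x))
        (abs_nonneg _) hN
    obtain ⟨c, hc0, hc⟩ := wt_bdd (K := K) (F := F) (q l)
    have b2 : ∀ x, |T' x * ((tw ρ (p k)).tH x * conj (wt F (q l) x)).re| ≤
        N / Real.sqrt r * ((tw ρ (p k)).bd * c) := fun x => by
      rw [abs_mul]
      refine mul_le_mul (hT'b x) ((Complex.abs_re_le_norm _).trans ?_) (abs_nonneg _)
        (by positivity)
      rw [norm_mul, Complex.norm_conj]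
      exact mul_le_mul ((tw ρ _).norm_tH_le x) (hc x) (norm_nonneg _) (tw ρ _).bd_nonneg
    have h2 := EH_congr (K := K) (φ := fun x => T x * ((tw ρ (p k - q l)).tH x).re)
      (φ' := fun x => T' x * ((tw ρ (p k)).tH x * conj (wt F (q l) x)).re) (by
        filter_upwards [hsupp, cnt_ge (K := K) (F := F)] with x h3 h4
        rcases h4 with h4 | h4
        · rw [tw_tH, tw_tH, h3 h4, zero_mul, zero_mul, zero_mul, Complex.zero_re, mul_zero,
            mul_zero]
        · have h5 : 0 < Real.sqrt (cnt F x) := Real.sqrt_pos.2 (lt_of_lt_of_le hr0 h4)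
          rw [hT']
          simp only
          rw [if_pos h4]
          unfold wt
          rw [map_mul, Complex.conj_ofReal]
          have e1 : (tw ρ (p k)).tH x * (((Real.sqrt (cnt F x) : ℝ) : ℂ) *
              conj ((HC.N K (q l)).val x)) = ((Real.sqrt (cnt F x) : ℝ) : ℂ) *
                ((tw ρ (p k)).tH x * conj ((HC.N K (q l)).val x)) := by ring
          rw [e1, tw_conj, Complex.re_ofReal_mul]
          field_simp) b1 b2
    refine (h1.add h2).congr_left fun ε => ?_
    ring
  have h := bilin (K := K) (κ := κ) (μ := μ) (f := fun k => (tw ρ (p k)).tH)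
    (f' := fun l => wt F (q l)) (fun k => (tw ρ (p k)).bdd) (fun l => wt_bdd (q l))
    (g := fun k l => if k = l then 1 else 0) (g' := fun k l => if k = l then 1 else 0)
    hG1 hG2 (T := T') (N := N / Real.sqrt r) hT'b
    (z := fun k l ε => z (p k - q l) ε) hz' a b hη
  have e0 : ∀ {ν : Type} [Fintype ν] (c : ν → ℝ), ∑ k, ∑ l, c k * c l * (if k = l then (1 : ℝ) else 0) =
      ∑ k, c k ^ 2 := by
    intro ν _ c
    refine Finset.sum_congr rfl fun k _ => ?_
    rw [Finset.sum_eq_single k]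
    · rw [if_pos rfl]; ring
    · intro l _ hl
      rw [if_neg hl.symm, mul_zero]
    · intro h1; exact absurd (Finset.mem_univ k) h1
  rw [e0, e0] at h
  exact h

end

end Pool.Agent.Helper29X1.WG.SF
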