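import Pool.Agent.Helper29X1.WG.Self
import Pool.Agent.Helper29X1.WG.Ext

/-!
# Representations with small support: the orders
-/

set_option autoImplicit false
set_option linter.unusedSectionVars false

namespace Pool.Agent.Helper29X1.WG.SF

open NumberField Complex Filter Topology IsDedekindDomain Asymptotics Polynomial
open Pool.Agent.W353.TP (HX sysH LL LL_tendsto bdd_isLittleO lamS_sub push res card_hom_le)
open Pool.Agent.N172.HS
open scoped ComplexConjugate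

section

variable {K : Type} [Field K] [NumberField K] {F : Type} [Field F] [NumberField F] [Algebra K F]

/-- a single point -/
theorem self_one {ρ : WRep K} (hρ : ρ.IsIrr)
    (hF : ∀ᶠ v in cofinite, above F v = ∅ → ρ.trace v = 0) {T : HX K → ℝ} {N : ℝ}
    (hT : ∀ x, |T x| ≤ N) {z : ℝ → ℝ → ℝ}
    (hz : ∀ τ, (fun ε => z τ ε * LL ε - EH K ε (fun x => T x * ((tw ρ τ).tH x).re))
      =o[𝓝[>] 0] LL) (τ : ℝ) {η : ℝ} (hη : 0 < η) :
    ∀ᶠ ε : ℝ in 𝓝[>] 0, |z τ ε| ≤ N / Real.sqrt (naut K F) + η := by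
  have h1 := self_ineq hρ hF hT hz (κ := Unit) (μ := Unit) (p := fun _ => τ) (q := fun _ => 0)
    (fun _ _ _ => rfl) (fun _ _ _ => rfl) (fun _ => 1) (fun _ => 1) hη
  have h2 := self_ineq hρ hF hT hz (κ := Unit) (μ := Unit) (p := fun _ => τ) (q := fun _ => 0)
    (fun _ _ _ => rfl) (fun _ _ _ => rfl) (fun _ => 1) (fun _ => -1) hη
  filter_upwards [h1, h2] with ε h3 h4
  simp only [Finset.univ_unique, Finset.sum_const, Finset.card_singleton, one_smul,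
    one_mul, mul_neg, neg_mul, sub_zero, one_pow, neg_sq] at h3 h4
  rw [abs_le]
  constructor
  · linarith
  · linarith

theorem key_of {m : ℝ → ℝ} {C : ℝ}
    (key : ∀ (κ μ : Type) [Fintype κ] [Fintype μ] (p : κ → ℝ) (q : μ → ℝ),
      Function.Injective p → Function.Injective q → ∀ (a : κ → ℝ) (b : μ → ℝ),
      ∑ k, ∑ l, a k * b l * m (p k - q l) ≤ C * ((∑ k, a k ^ 2 + ∑ l, b l ^ 2) / 2))
    (F : Finset ℝ) (a b a' b' : ℝ → ℝ) :
    ∑ g ∈ F, ∑ l ∈ F, (a g * b l + a' g * b' l) * m (g - l) ≤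
      C * ((∑ g ∈ F, (a g ^ 2 + b g ^ 2 + a' g ^ 2 + b' g ^ 2)) / 2) := by
  have k1 : ∀ a b : ℝ → ℝ, ∑ g ∈ F, ∑ l ∈ F, a g * b l * m (g - l) ≤
      C * ((∑ g ∈ F, (a g ^ 2 + b g ^ 2)) / 2) := by
    intro a b
    have h := key {g // g ∈ F} {g // g ∈ F} (fun g => g.1) (fun g => g.1)
      Subtype.val_injective Subtype.val_injective (fun g => a g.1) (fun g => b g.1)
    have e1 : ∑ k : {g // g ∈ F}, ∑ l : {g // g ∈ F}, a k.1 * b l.1 * m (k.1 - l.1) =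
        ∑ g ∈ F, ∑ l ∈ F, a g * b l * m (g - l) := by
      rw [← Finset.sum_coe_sort F (fun g => ∑ l ∈ F, a g * b l * m (g - l))]
      refine Finset.sum_congr rfl fun g _ => ?_
      exact Finset.sum_coe_sort F (fun l => a g.1 * b l * m (g.1 - l))
    have e2 : ∀ c : ℝ → ℝ, ∑ k : {g // g ∈ F}, c k.1 ^ 2 = ∑ g ∈ F, c g ^ 2 := fun c =>
      Finset.sum_coe_sort F (fun g => c g ^ 2)
    rw [e1, e2, e2, ← Finset.sum_add_distrib] at h
    exact h
  have h1 := k1 a b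
  have h2 := k1 a' b'
  have e1 : ∑ g ∈ F, ∑ l ∈ F, (a g * b l + a' g * b' l) * m (g - l) =
      ∑ g ∈ F, ∑ l ∈ F, a g * b l * m (g - l) + ∑ g ∈ F, ∑ l ∈ F, a' g * b' l * m (g - l) := by
    rw [← Finset.sum_add_distrib]
    refine Finset.sum_congr rfl fun g _ => ?_
    rw [← Finset.sum_add_distrib]
    exact Finset.sum_congr rfl fun l _ => by ring
  have e2 : ∑ g ∈ F, (a g ^ 2 + b g ^ 2 + a' g ^ 2 + b' g ^ 2) =
      ∑ g ∈ F, (a g ^ 2 + b g ^ 2) + ∑ g ∈ F, (a' g ^ 2 + b' g ^ 2) := by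
    rw [← Finset.sum_add_distrib]
    exact Finset.sum_congr rfl fun g _ => by ring
  rw [e1, e2]
  have e3 : C * ((∑ g ∈ F, (a g ^ 2 + b g ^ 2) + ∑ g ∈ F, (a' g ^ 2 + b' g ^ 2)) / 2) =
      C * ((∑ g ∈ F, (a g ^ 2 + b g ^ 2)) / 2) + C * ((∑ g ∈ F, (a' g ^ 2 + b' g ^ 2)) / 2) := by
    ring
  rw [e3]
  exact add_le_add h1 h2

/-- **The orders.** -/
theorem self_orders {ρ : WRep K} (hρ : ρ.IsIrr)
    (hF : ∀ᶠ v in cofinite, above F v = ∅ → ρ.trace v = 0) {T : HX K → ℝ} {N : ℝ}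
    (hT : ∀ x, |T x| ≤ N) {z : ℝ → ℝ → ℝ}
    (hz : ∀ τ, (fun ε => z τ ε * LL ε - EH K ε (fun x => T x * ((tw ρ τ).tH x).re))
      =o[𝓝[>] 0] LL) {w : ℝ → ℤ} (hw : ∀ τ, Tendsto (z τ) (𝓝[>] 0) (𝓝 (-(w τ : ℝ)))) :
    ∃ S : Finset ℝ, (∀ τ, τ ∈ S ↔ w τ ≠ 0) ∧
      (naut K F : ℝ) * ∑ τ ∈ S, (w τ : ℝ) ^ 2 ≤ N ^ 2 ∧
      (∀ x : ℝ, ‖∑ τ ∈ S, (w τ : ℂ) * exp (τ * x * I)‖ ≤ N / Real.sqrt (naut K F)) ∧
      (2 ≤ S.card → (naut K F : ℝ) * (∑ τ ∈ S, (w τ : ℝ) ^ 2 + 2) ≤ N ^ 2) := by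
  classical
  have hN : 0 ≤ N := bd_nonneg hT
  have hr0 : (0 : ℝ) < naut K F := by exact_mod_cast naut_pos (K := K) (F := F)
  set m : ℝ → ℝ := fun τ => (w τ : ℝ) with hm
  set C : ℝ := N / Real.sqrt (naut K F) with hC
  have hC0 : 0 ≤ C := by positivity
  have hC2 : (naut K F : ℝ) * C ^ 2 = N ^ 2 := by
    rw [hC, div_pow, Real.sq_sqrt hr0.le]
    field_simp
  have key : ∀ (κ μ : Type) [Fintype κ] [Fintype μ] (p : κ → ℝ) (q : μ → ℝ),
      Function.Injective p → Function.Injective q → ∀ (a : κ → ℝ) (b : μ → ℝ),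
      ∑ k, ∑ l, a k * b l * m (p k - q l) ≤ C * ((∑ k, a k ^ 2 + ∑ l, b l ^ 2) / 2) := by
    intro κ μ _ _ p q hp hq a b
    refine le_of_forall_pos_le_add fun η hη => ?_
    have h1 := self_ineq hρ hF hT hz hp hq (fun k => -a k) b hη
    have h2 : Tendsto (fun ε => ∑ k, ∑ l, -a k * b l * z (p k - q l) ε) (𝓝[>] 0)
        (𝓝 (∑ k, ∑ l, -a k * b l * -(w (p k - q l) : ℝ))) :=
      tendsto_finsetSum _ fun k _ => tendsto_finsetSum _ fun l _ =>
        (hw (p k - q l)).const_mul _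
    have h3 := le_of_tendsto h2 h1
    have e1 : ∑ k, ∑ l, -a k * b l * -(w (p k - q l) : ℝ) = ∑ k, ∑ l, a k * b l * m (p k - q l) := by
      refine Finset.sum_congr rfl fun k _ => Finset.sum_congr rfl fun l _ => ?_
      rw [hm]
      ring
    rw [e1] at h3
    simp only [neg_sq] at h3
    exact h3
  have key2 := fun F a b a' b' => key_of key F a b a' b'
  have hsq := fun S => sq_sum_le hC0 key2 S
  have hfin : {τ : ℝ | w τ ≠ 0}.Finite := by
    by_contra hinf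
    obtain ⟨n, hn⟩ := exists_nat_gt (C ^ 2)
    obtain ⟨T, hT1, hT2⟩ := (Set.not_finite.1 hinf).exists_subset_card_eq n
    have h5 := hsq T
    have h6 : ∑ _τ ∈ T, (1 : ℝ) ≤ ∑ τ ∈ T, m τ ^ 2 := Finset.sum_le_sum fun τ hτ => by
      have h7 : w τ ≠ 0 := hT1 (Finset.mem_coe.2 hτ)
      rw [hm]
      simp only
      have h8 : (1 : ℤ) ≤ (w τ) ^ 2 := by
        have := Int.one_le_abs h7
        rw [← sq_abs]
        nlinarith
      exact_mod_cast h8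
    rw [Finset.sum_const, hT2, nsmul_eq_mul, mul_one] at h6
    linarith
  have hmem : ∀ τ, τ ∈ hfin.toFinset ↔ w τ ≠ 0 := fun τ => by
    rw [Set.Finite.mem_toFinset, Set.mem_ofPred_eq]
  refine ⟨hfin.toFinset, hmem, ?_, fun x => ?_, fun hcard => ?_⟩
  · rw [← hC2]
    exact mul_le_mul_of_nonneg_left (hsq _) hr0.le
  · set S := hfin.toFinset with hS
    have hS0 : ∀ τ ∉ S, m τ = 0 := by
      intro τ hτ
      rw [hmem, not_not] at hτ
      rw [hm]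
      simp only
      rw [hτ, Int.cast_zero]
    set Z : ℂ := ∑ τ ∈ S, (w τ : ℂ) * exp (τ * x * I) with hZ
    have h1 := fourier_le key2 S hS0 x (-(Z.arg))
    have h2 : ∑ τ ∈ S, m τ * Real.cos (τ * x + -Z.arg) = (Z * exp (-(Z.arg) * I)).re := by
      rw [hZ, Finset.sum_mul, Complex.re_sum]
      refine Finset.sum_congr rfl fun τ _ => ?_
      rw [mul_assoc, ← Complex.exp_add]
      have e1 : (τ : ℂ) * x * I + -((Z.arg : ℝ) : ℂ) * I = ((τ * x + -Z.arg : ℝ) : ℂ) * I := by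
        push_cast
        ring
      rw [← hZ, e1]
      have e2 : ((w τ : ℂ)) = ((m τ : ℝ) : ℂ) := by
        rw [hm]
        push_cast
        rfl
      rw [e2, Complex.re_ofReal_mul, Complex.exp_ofReal_mul_I_re]
    have h3 : Z * exp (-(Z.arg) * I) = ((‖Z‖ : ℝ) : ℂ) := by
      nth_rewrite 1 [← Complex.norm_mul_exp_arg_mul_I Z]
      rw [mul_assoc, ← Complex.exp_add]
      have : (Z.arg : ℂ) * I + -(Z.arg : ℂ) * I = 0 := by ring
      rw [this, Complex.exp_zero, mul_one]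
    rw [h2, h3, Complex.ofReal_re] at h1
    exact h1
  · set S := hfin.toFinset with hS
    have hne : S.Nonempty := Finset.card_pos.1 (by omega)
    set τ₁ := S.min' hne with hτ₁
    set τ₂ := S.max' hne with hτ₂
    have h12 : τ₁ < τ₂ := Finset.min'_lt_max'_of_card S (by omega)
    have h1 : τ₁ ∈ S := Finset.min'_mem S hne
    have h2 : τ₂ ∈ S := Finset.max'_mem S hne
    have hSm : ∀ τ ∈ S, τ₁ ≤ τ ∧ τ ≤ τ₂ := fun τ hτ =>
      ⟨Finset.min'_le S τ hτ, Finset.le_max' S τ hτ⟩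
    have h3 := ext_le hC0 key S h12 h1 h2 (fun τ hτ => hSm τ ((hmem τ).2 (by
      intro h0
      apply hτ
      rw [hm]
      simp only
      rw [h0, Int.cast_zero]))) hSm
    have h4 : (1 : ℝ) ≤ |m τ₁ * m τ₂| := by
      have h5 := (hmem τ₁).1 h1
      have h6 := (hmem τ₂).1 h2
      have h7 : (1 : ℤ) ≤ |w τ₁ * w τ₂| := Int.one_le_abs (mul_ne_zero h5 h6)
      rw [hm]
      simp only
      exact_mod_cast h7
    rw [← hC2]
    refine mul_le_mul_of_nonneg_left ?_ hr0.le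
    linarith

/-- the orders at finitely many points -/
theorem self_finite {ρ : WRep K} (hρ : ρ.IsIrr)
    (hF : ∀ᶠ v in cofinite, above F v = ∅ → ρ.trace v = 0) {T : HX K → ℝ} {N : ℝ}
    (hT : ∀ x, |T x| ≤ N) {z : ℝ → ℝ → ℝ}
    (hz : ∀ τ, (fun ε => z τ ε * LL ε - EH K ε (fun x => T x * ((tw ρ τ).tH x).re))
      =o[𝓝[>] 0] LL) (S : Finset ℝ) {w : ℝ → ℤ}
    (hw : ∀ τ ∈ S, Tendsto (z τ) (𝓝[>] 0) (𝓝 (-(w τ : ℝ)))) :
    (naut K F : ℝ) * ∑ τ ∈ S, (w τ : ℝ) ^ 2 ≤ N ^ 2 := by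
  classical
  have hN : 0 ≤ N := bd_nonneg hT
  have hr0 : (0 : ℝ) < naut K F := by exact_mod_cast naut_pos (K := K) (F := F)
  set C : ℝ := N / Real.sqrt (naut K F) with hC
  have hC0 : 0 ≤ C := by positivity
  have hC2 : (naut K F : ℝ) * C ^ 2 = N ^ 2 := by
    rw [hC, div_pow, Real.sq_sqrt hr0.le]
    field_simp
  set Q : ℝ := ∑ τ ∈ S, (w τ : ℝ) ^ 2 with hQ
  have hQ0 : 0 ≤ Q := Finset.sum_nonneg fun _ _ => sq_nonneg _
  have k1 : ∀ t : ℝ, t * Q ≤ C * ((Q + t ^ 2) / 2) := by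
    intro t
    refine le_of_forall_pos_le_add fun η hη => ?_
    have h1 := self_ineq hρ hF hT hz (κ := {τ // τ ∈ S}) (μ := Unit) (p := fun τ => τ.1)
      (q := fun _ => 0) Subtype.val_injective (fun _ _ _ => rfl) (fun τ => -(w τ.1 : ℝ))
      (fun _ => t) hη
    have h2 : Tendsto (fun ε => ∑ τ : {τ // τ ∈ S}, ∑ _l : Unit, -(w τ.1 : ℝ) * t * z (τ.1 - 0) ε)
        (𝓝[>] 0) (𝓝 (∑ τ : {τ // τ ∈ S}, ∑ _l : Unit, -(w τ.1 : ℝ) * t * -(w τ.1 : ℝ))) :=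
      tendsto_finsetSum _ fun k _ => tendsto_finsetSum _ fun l _ => by
        have := (hw k.1 k.2).const_mul (-(w k.1 : ℝ) * t)
        rwa [sub_zero]
    have h3 := le_of_tendsto h2 h1
    have e1 : ∑ τ : {τ // τ ∈ S}, ∑ _l : Unit, -(w τ.1 : ℝ) * t * -(w τ.1 : ℝ) = t * Q := by
      rw [hQ, ← Finset.sum_coe_sort S (fun τ => (w τ : ℝ) ^ 2), Finset.mul_sum]
      refine Finset.sum_congr rfl fun τ _ => ?_
      simp only [Finset.univ_unique, Finset.sum_const, Finset.card_singleton, one_smul]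
      ring
    have e2 : ∑ τ : {τ // τ ∈ S}, (-(w τ.1 : ℝ)) ^ 2 = Q := by
      rw [hQ, ← Finset.sum_coe_sort S (fun τ => (w τ : ℝ) ^ 2)]
      exact Finset.sum_congr rfl fun τ _ => by rw [neg_sq]
    rw [e1, e2] at h3
    simp only [Finset.univ_unique, Finset.sum_const, Finset.card_singleton, one_smul] at h3
    exact h3
  rw [← hC2]
  refine mul_le_mul_of_nonneg_left ?_ hr0.le
  set t : ℝ := Real.sqrt Q with ht
  have ht2 : t ^ 2 = Q := Real.sq_sqrt hQ0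
  have ht0 : 0 ≤ t := Real.sqrt_nonneg _
  have h := k1 t
  rw [ht2] at h
  rcases eq_or_lt_of_le hQ0 with h3 | h3
  · rw [← h3]; positivity
  · have h4 : t ≤ C := by
      have h5 : t * Q ≤ C * Q := by linarith
      exact le_of_mul_le_mul_right h5 h3
    rw [← ht2]
    exact pow_le_pow_left₀ ht0 h4 2

end

end Pool.Agent.Helper29X1.WG.SF
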