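import Pool.Agent.Helper29X1.WG.Chars
import Pool.Agent.Helper29X1.WG.Fields

/-!
# Elliptic curves: the twists by Hecke characters which are not real
-/

set_option autoImplicit false
set_option linter.unusedSectionVars false

namespace Pool.Agent.Helper29X1.WG

open NumberField Complex Filter Topology IsDedekindDomain Asymptotics Polynomial
open Pool.Agent.W353.EF (LFun size)
open Pool.Agent.W353.TP (HX sysH LL LL_tendsto bdd_isLittleO lamS_sub)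
open Pool.Agent.W353.NF (vx)
open Pool.Agent.Y149.Ord (HasOrder tendsto_size)
open Pool.Agent.N172.HS
open scoped ComplexConjugate

section

variable {K : Type} [Field K] [NumberField K]

theorem val_size (W : WeierstrassCurve (𝓞 K)) (hΔ : W.Δ ≠ 0) (c : HC K)
    {B : HeightOneSpectrum (𝓞 K) → ℂ[X]} (hB : IsHeckeTwist W c.ψ B) :
    (fun ε => size 1 B ε * LL ε - EH K ε (fun x => TE W (vx x) * (c.val x).re))
      =o[𝓝[>] 0] LL := (hecke_size W hΔ c.hecke hB).2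

open Classical in
theorem single (W : WeierstrassCurve (𝓞 K)) (hΔ : W.Δ ≠ 0) (c : HC K)
    (h1 : ¬ Same c.ψ (cj c.ψ)) {B : HeightOneSpectrum (𝓞 K) → ℂ[X]}
    (hB : IsHeckeTwist W c.ψ B) {η : ℝ} (hη : 0 < η) :
    ∀ᶠ ε : ℝ in 𝓝[>] 0, size 1 B ε ^ 2 ≤ meanSq W ε / 2 + η := by
  have hconj : (c.conj).ψ = cj c.ψ := rfl
  have n1 : ¬ Same (cj c.ψ) c.ψ := fun h => h1 h.symm
  set A : Fin 2 → HC K := ![c, c.conj] with hA
  have h := main_ineq (fun i => (A i).val) (fun i => (A i).bdd)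
    (fun i j => if Same (A i).ψ (A j).ψ then 1 else 0) (fun i j => HC.gram (A i) (A j))
    (T := fun x => TE W (vx x)) (a := 2) (fun x => abs_TE W _)
    (fun _ => size 1 B) (fun i => by
      have h2 := val_size W hΔ c hB
      fin_cases i
      · exact h2
      · refine h2.congr_left fun ε => ?_
        congr 2) (meanSq W)
    (meanSq_EH W hΔ) (fun _ => 1) (η := 4 * η) (by positivity)
  have hne : ∀ i j, i ≠ j → ¬ Same (A i).ψ (A j).ψ := by
    intro i j hij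
    fin_cases i <;> fin_cases j <;> first
      | exact absurd rfl hij
      | exact h1
      | exact n1
  have e0 : ∀ i, ∑ j, (1 : ℝ) * 1 *
      (if Same (A i).ψ (A j).ψ then (1 : ℝ) else 0) = 1 := by
    intro i
    rw [Finset.sum_eq_single i]
    · rw [if_pos (Same.refl _), mul_one, mul_one]
    · intro j _ hj
      rw [if_neg (hne i j hj.symm), mul_zero]
    · intro h; exact absurd (Finset.mem_univ i) h
  filter_upwards [h] with ε h3
  rw [Finset.sum_congr rfl fun i _ => e0 i] at h3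
  simp only [Fin.sum_univ_two, one_mul] at h3
  nlinarith

theorem pair (W : WeierstrassCurve (𝓞 K)) (hΔ : W.Δ ≠ 0) (c d : HC K)
    (h1 : ¬ Same c.ψ (cj c.ψ)) (h2 : ¬ Same d.ψ (cj d.ψ))
    (h12 : ¬ Same c.ψ d.ψ) (h12' : ¬ Same c.ψ (cj d.ψ))
    {B : HeightOneSpectrum (𝓞 K) → ℂ[X]} (hB : IsHeckeTwist W c.ψ B)
    {B' : HeightOneSpectrum (𝓞 K) → ℂ[X]} (hB' : IsHeckeTwist W d.ψ B') :
    ∃ δ : ℝ, 0 < δ ∧ ∀ᶠ ε : ℝ in 𝓝[>] 0, |size 1 B ε| + |size 1 B' ε| ≤ 2 - δ := by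
  have key : ∀ s₁ s₂ : ℝ, s₁ ^ 2 = 1 → s₂ ^ 2 = 1 → ∃ δ : ℝ, 0 < δ ∧ ∀ᶠ ε : ℝ in 𝓝[>] 0,
      s₁ * size 1 B ε + s₂ * size 1 B' ε ≤ 2 - δ := by
    intro s₁ s₂ hs₁ hs₂
    obtain ⟨δ, hδ, h⟩ := pair_ineq c d h1 h2 h12 h12' hs₁ hs₂
    refine ⟨δ / 2, half_pos hδ, ?_⟩
    have h3 := h (fun x => TE W (vx x)) (fun x => abs_TE W _) (size 1 B) (size 1 B')
      (val_size W hΔ c hB) (val_size W hΔ d hB') (δ / 2) (half_pos hδ)
    filter_upwards [h3] with ε h4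
    linarith
  obtain ⟨δ₁, hδ₁, k₁⟩ := key 1 1 (by norm_num) (by norm_num)
  obtain ⟨δ₂, hδ₂, k₂⟩ := key 1 (-1) (by norm_num) (by norm_num)
  obtain ⟨δ₃, hδ₃, k₃⟩ := key (-1) 1 (by norm_num) (by norm_num)
  obtain ⟨δ₄, hδ₄, k₄⟩ := key (-1) (-1) (by norm_num) (by norm_num)
  refine ⟨min (min δ₁ δ₂) (min δ₃ δ₄), by positivity, ?_⟩
  have m1 : min (min δ₁ δ₂) (min δ₃ δ₄) ≤ δ₁ := (min_le_left _ _).trans (min_le_left _ _)
  have m2 : min (min δ₁ δ₂) (min δ₃ δ₄) ≤ δ₂ := (min_le_left _ _).trans (min_le_right _ _)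
  have m3 : min (min δ₁ δ₂) (min δ₃ δ₄) ≤ δ₃ := (min_le_right _ _).trans (min_le_left _ _)
  have m4 : min (min δ₁ δ₂) (min δ₃ δ₄) ≤ δ₄ := (min_le_right _ _).trans (min_le_right _ _)
  filter_upwards [k₁, k₂, k₃, k₄] with ε e1 e2 e3 e4
  rcases abs_cases (size 1 B ε) with ⟨a1, _⟩ | ⟨a1, _⟩ <;>
    rcases abs_cases (size 1 B' ε) with ⟨a2, _⟩ | ⟨a2, _⟩ <;> rw [a1, a2] <;> linarith

/-- **At most one pair of characters which are not real.** -/
theorem uniq (W : WeierstrassCurve (𝓞 K)) (hΔ : W.Δ ≠ 0) {κ : Type} [Fintype κ] (c : κ → HC K)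
    (h1 : ∀ k, ¬ Same (c k).ψ (cj (c k).ψ))
    (h2 : ∀ k l, k ≠ l → ¬ Same (c k).ψ (c l).ψ ∧ ¬ Same (c k).ψ (cj (c l).ψ))
    {B : κ → HeightOneSpectrum (𝓞 K) → ℂ[X]} (hB : ∀ k, IsHeckeTwist W (c k).ψ (B k))
    {m : κ → ℤ} (hm : ∀ k, HasOrder 1 (B k) (m k)) : ∑ k, |m k| ≤ 1 := by
  refine sum_abs_le_one (fun k => ?_) (fun k l hkl => ?_)
  · have h3 : ((m k : ℝ)) ^ 2 ≤ 5 / 2 := by
      have h4 := (tendsto_size (hm k)).pow 2
      rw [neg_sq] at h4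
      refine le_of_tendsto h4 ?_
      filter_upwards [single W hΔ (c k) (h1 k) (hB k) (η := 1 / 4) (by norm_num),
        meanSq_le W hΔ (η := 1 / 2) (by norm_num)] with ε h5 h6
      linarith
    have h4 : (m k) ^ 2 ≤ 2 := by
      have : ((m k) ^ 2 : ℝ) < 3 := by linarith
      have h5 : (m k) ^ 2 < 3 := by exact_mod_cast this
      omega
    rw [← sq_abs] at h4
    have h5 := abs_nonneg (m k)
    nlinarith
  · obtain ⟨δ, hδ, h3⟩ := pair W hΔ (c k) (c l) (h1 k) (h1 l) (h2 k l hkl).1 (h2 k l hkl).2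
      (hB k) (hB l)
    have h4 := (tendsto_size (hm k)).abs.add (tendsto_size (hm l)).abs
    rw [abs_neg, abs_neg] at h4
    have h5 := le_of_tendsto h4 h3
    have h6 : (|(m k : ℝ)| + |(m l : ℝ)|) < 2 := by linarith
    have h7 : |m k| + |m l| < 2 := by exact_mod_cast h6
    omega

end

end Pool.Agent.Helper29X1.WG
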