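import Pool.Agent.Helper29X1.WG.Heights
import Pool.Agent.Helper29X1.WG.Uniq

/-!
# Heights: the shift of an Euler product
-/

set_option autoImplicit false
set_option linter.unusedSectionVars false

namespace Pool.Agent.Helper29X1.WG

open NumberField Complex Filter Topology IsDedekindDomain Asymptotics Polynomial
open Pool.Agent.W353.EF (LFun size)
open Pool.Agent.W540.BE (nm two_le_nm trv)
open Pool.Agent.Y149.Ord (HasOrder)
open Pool.Agent.N172.HS
open scoped ComplexConjugate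

section

variable {K : Type} [Field K] [NumberField K]

/-- the Euler factors of `L(s + iτ)` -/
noncomputable def shift (τ : ℝ) (B : HeightOneSpectrum (𝓞 K) → ℂ[X])
    (v : HeightOneSpectrum (𝓞 K)) : ℂ[X] :=
  (B v).comp (C ((Ideal.absNorm v.asIdeal : ℂ) ^ (-(τ * I : ℂ))) * X)

theorem shift_eval (τ : ℝ) (B : HeightOneSpectrum (𝓞 K) → ℂ[X]) (v : HeightOneSpectrum (𝓞 K))
    (z : ℂ) : (shift τ B v).eval z =
      (B v).eval ((Ideal.absNorm v.asIdeal : ℂ) ^ (-(τ * I : ℂ)) * z) := by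
  unfold shift
  rw [eval_comp, eval_mul, eval_C, eval_X]

theorem absNorm_ne (v : HeightOneSpectrum (𝓞 K)) : (Ideal.absNorm v.asIdeal : ℂ) ≠ 0 := by
  have := absNorm_pos v.ne_bot
  exact_mod_cast this.ne'

theorem shift_LFun (τ : ℝ) (B : HeightOneSpectrum (𝓞 K) → ℂ[X]) (s : ℂ) :
    LFun (shift τ B) s = LFun B (s + τ * I) := by
  unfold LFun
  refine tprod_congr fun v => ?_
  rw [shift_eval, ← cpow_add _ _ (absNorm_ne v)]
  congr 3
  ring

/-- the shift of a twist is a twist -/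
theorem shift_twist {W : WeierstrassCurve (𝓞 K)} {χ χ' : Ideal (𝓞 K) →*₀ ℂ} {τ : ℝ}
    (h : ∀ 𝔞 : Ideal (𝓞 K), 𝔞 ≠ ⊥ → χ' 𝔞 = χ 𝔞 * (Ideal.absNorm 𝔞 : ℂ) ^ (-(τ * I : ℂ)))
    {B : HeightOneSpectrum (𝓞 K) → ℂ[X]}
    (h1 : ∀ᶠ v in cofinite, ∀ z : ℂ, (B v).eval z = 1 - (trv W v : ℂ) * (χ v.asIdeal * z) +
      (Ideal.absNorm v.asIdeal : ℂ) * (χ v.asIdeal * z) ^ 2)
    (h2 : ∀ v, (B v).eval ((Ideal.absNorm v.asIdeal : ℂ) ^ (-(3 / 2 + τ * I : ℂ))) ≠ 0) :
    IsHeckeTwist W χ' (shift τ B) := by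
  refine ⟨?_, fun v => ?_⟩
  · filter_upwards [h1] with v h3 z
    rw [shift_eval, h3, h v.asIdeal v.ne_bot]
    ring
  · have h3 := h2 v
    rw [shift_eval, ← cpow_add _ _ (absNorm_ne v)]
    have e : (-(τ * I : ℂ)) + (-((1 : ℕ) : ℂ) / 2 - 1) = -(3 / 2 + τ * I : ℂ) := by
      push_cast
      ring
    rwa [e]

/-- consecutive terms of an arithmetic progression -/
theorem no_period {θ : ℝ} (hθ : θ ≠ 0) (M : ℕ) (hM : 0 < M)
    (h : ∀ k : ℕ, 0 < k → ((1 + k * M : ℕ) : ℂ) ^ (θ * I : ℂ) = 1) : False := by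
  have hMr : (0 : ℝ) < M := by exact_mod_cast hM
  -- each logarithm is a multiple of a fixed number
  have h1 : ∀ k : ℕ, 0 < k → ∃ n : ℤ, θ * Real.log (1 + k * M) = n * (2 * Real.pi) := by
    intro k hk
    have h2 := h k hk
    have hpos : (0 : ℝ) < ((1 + k * M : ℕ) : ℝ) := by exact_mod_cast Nat.succ_le_of_lt (by omega)
    rw [cpow_def_of_ne_zero (by exact_mod_cast hpos.ne'), Complex.exp_eq_one_iff] at h2
    obtain ⟨n, hn⟩ := h2
    refine ⟨n, ?_⟩
    have e1 : Complex.log ((1 + k * M : ℕ) : ℂ) = ((Real.log (1 + k * M) : ℝ) : ℂ) := by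
      rw [show (((1 + k * M : ℕ) : ℂ)) = (((1 + k * M : ℝ) : ℝ) : ℂ) by push_cast; ring,
        ← Complex.ofReal_log (by positivity)]
    rw [e1] at hn
    have h3 := congrArg Complex.im hn
    simp only [Complex.mul_im, Complex.ofReal_re, Complex.ofReal_im, Complex.I_re, Complex.I_im,
      Complex.mul_re, zero_mul, mul_zero, mul_one, sub_zero, add_zero,
      Complex.intCast_re, Complex.intCast_im, Complex.re_ofNat, Complex.im_ofNat] at h3
    linarith
  -- the differences tend to zero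
  have h2 : ∀ k : ℕ, 0 < k → 2 * Real.pi ≤ |θ| * (Real.log (1 + (k + 1 : ℕ) * M) -
      Real.log (1 + k * M)) := by
    intro k hk
    obtain ⟨a, ha⟩ := h1 k hk
    obtain ⟨b, hb⟩ := h1 (k + 1) (by omega)
    have hlt : Real.log (1 + k * M) < Real.log (1 + (k + 1 : ℕ) * M) := by
      apply Real.log_lt_log (by positivity)
      push_cast
      nlinarith
    have hd : θ * (Real.log (1 + (k + 1 : ℕ) * M) - Real.log (1 + k * M)) =
        ((b - a : ℤ) : ℝ) * (2 * Real.pi) := by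
      push_cast at hb ⊢
      linarith
    have hne : (b - a : ℤ) ≠ 0 := by
      intro h0
      rw [h0, Int.cast_zero, zero_mul] at hd
      rcases mul_eq_zero.1 hd with h3 | h3
      · exact hθ h3
      · linarith
    have h3 : (1 : ℝ) ≤ |((b - a : ℤ) : ℝ)| := by
      rw [← Int.cast_abs]
      exact_mod_cast Int.one_le_abs hne
    have h4 := congrArg abs hd
    rw [abs_mul, abs_mul, abs_of_pos (sub_pos.2 hlt), abs_of_pos Real.two_pi_pos] at h4
    rw [h4]
    exact le_mul_of_one_le_left Real.two_pi_pos.le h3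
  -- the logarithm of the quotient
  have h3 : ∀ k : ℕ, 0 < k → 2 * Real.pi ≤ |θ| * (1 / k) := by
    intro k hk
    refine (h2 k hk).trans (mul_le_mul_of_nonneg_left ?_ (abs_nonneg _))
    have hk' : (0 : ℝ) < k := by exact_mod_cast hk
    have hpos : (0 : ℝ) < 1 + k * M := by positivity
    rw [← Real.log_div (by positivity) hpos.ne']
    have h5 := Real.log_le_sub_one_of_pos (x := (1 + ((k + 1 : ℕ) : ℝ) * M) / (1 + k * M))
      (by positivity)
    refine h5.trans ?_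
    rw [div_sub_one hpos.ne', div_le_div_iff₀ hpos hk']
    push_cast
    nlinarith
  obtain ⟨k, hk⟩ := exists_nat_gt |θ|
  have hk0 : 0 < k := by
    have := (abs_nonneg θ).trans_lt hk
    exact_mod_cast this
  have h4 := h3 k hk0
  have h5 : |θ| * (1 / (k : ℝ)) < 1 := by
    rw [mul_one_div, div_lt_one (by exact_mod_cast hk0)]
    exact hk
  have h6 := Real.pi_gt_three
  linarith

/-- the character `N^{-iθ}` is not trivial -/
theorem norm_power {θ : ℝ} (hθ : θ ≠ 0)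
    (h : ∀ᶠ v : HeightOneSpectrum (𝓞 K) in cofinite,
      (Ideal.absNorm v.asIdeal : ℂ) ^ (-(θ * I : ℂ)) = 1) : False := by
  classical
  have hfin : {v : HeightOneSpectrum (𝓞 K) |
      ¬ ((Ideal.absNorm v.asIdeal : ℂ) ^ (-(θ * I : ℂ)) = 1)}.Finite := by
    rwa [Filter.eventually_cofinite] at h
  set S := hfin.toFinset with hS
  set M : ℕ := ∏ v ∈ S, Ideal.absNorm v.asIdeal with hM
  have hM0 : 0 < M := Finset.prod_pos fun v _ => absNorm_pos v.ne_bot
  set d : ℕ := Module.finrank ℚ K with hd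
  have hd0 : 0 < d := Module.finrank_pos
  have hχ : ∀ 𝔞 : Ideal (𝓞 K), 𝔞 ≠ ⊥ → (∀ v ∈ S, ¬ v.asIdeal ∣ 𝔞) → nch K θ 𝔞 = 1 := by
    intro 𝔞 h𝔞
    induction 𝔞 using UniqueFactorizationMonoid.induction_on_prime with
    | h₁ => exact absurd rfl h𝔞
    | h₂ x hx =>
      intro _
      rw [Ideal.isUnit_iff.1 hx, ← Ideal.one_eq_top, map_one]
    | h₃ a p ha hp ih =>
      intro hv
      rw [map_mul]
      have ha' : a ≠ ⊥ := ha
      have h1 : nch K θ a = 1 := ih ha' fun v hvS hva => hv v hvS (hva.mul_left p)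
      have hp' : p ≠ ⊥ := hp.ne_zero
      have hpP : p.IsPrime := Ideal.isPrime_of_prime hp
      set v : HeightOneSpectrum (𝓞 K) := ⟨p, hpP, hp'⟩ with hvdef
      have hvS : v ∉ S := fun h2 => hv v h2 (Dvd.intro _ rfl)
      rw [hS, Set.Finite.mem_toFinset, Set.mem_ofPred_eq, not_not] at hvS
      rw [h1, mul_one, nch_apply hp']
      exact hvS
  refine no_period (θ := -(θ * d)) (neg_ne_zero.2 (mul_ne_zero hθ (by exact_mod_cast hd0.ne')))
    M hM0 fun k _ => ?_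
  set n : ℕ := 1 + k * M with hn
  have hn0 : 0 < n := by omega
  have hne : (Ideal.span {((n : ℕ) : 𝓞 K)} : Ideal (𝓞 K)) ≠ ⊥ := by
    rw [Ne, Ideal.span_singleton_eq_bot]
    exact_mod_cast hn0.ne'
  have h1 := hχ (Ideal.span {((n : ℕ) : 𝓞 K)}) hne (by
    intro v hv hdvd
    have h2 : ((n : ℕ) : 𝓞 K) ∈ v.asIdeal := by
      rw [Ideal.dvd_span_singleton] at hdvd
      exact hdvd
    have h3 : ((M : ℕ) : 𝓞 K) ∈ v.asIdeal := by
      have h4 : (Ideal.absNorm v.asIdeal : 𝓞 K) ∈ v.asIdeal := Ideal.absNorm_mem _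
      obtain ⟨c, hc⟩ : Ideal.absNorm v.asIdeal ∣ M := Finset.dvd_prod_of_mem _ hv
      rw [hc]
      push_cast
      exact Ideal.mul_mem_right _ _ h4
    apply v.isPrime.ne_top
    rw [Ideal.eq_top_iff_one]
    have h5 : (1 : 𝓞 K) = ((n : ℕ) : 𝓞 K) - (k : 𝓞 K) * ((M : ℕ) : 𝓞 K) := by
      rw [hn]
      push_cast
      ring
    rw [h5]
    exact Ideal.sub_mem _ h2 (Ideal.mul_mem_left _ _ h3))
  rw [nch_apply hne] at h1
  have h2 : Ideal.absNorm (Ideal.span {((n : ℕ) : 𝓞 K)}) = n ^ d := by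
    rw [Ideal.absNorm_span_singleton]
    have h3 : (Algebra.norm ℤ) ((n : ℕ) : 𝓞 K) = (n : ℤ) ^ d := by
      have h4 := Algebra.norm_algebraMap (R := ℤ) (S := 𝓞 K) ((n : ℕ) : ℤ)
      rw [RingOfIntegers.rank] at h4
      simpa using h4
    rw [h3, Int.natAbs_pow, Int.natAbs_natCast]
  rw [h2] at h1
  push_cast at h1
  have e2 : ((n : ℂ) ^ d) ^ (-(θ * I : ℂ)) = (n : ℂ) ^ (((-(θ * d) : ℝ) : ℂ) * I) := by
    have h3 : ((n : ℂ) ^ d) = ((n : ℝ) ^ (d : ℝ) : ℝ) := by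
      push_cast
      rw [Real.rpow_natCast]
      push_cast
      rfl
    have hnr : (0 : ℝ) < n := by exact_mod_cast hn0
    rw [h3, ← Complex.ofReal_natCast n, cpow_def_of_ne_zero
      (Complex.ofReal_ne_zero.2 (Real.rpow_pos_of_pos hnr _).ne'), cpow_def_of_ne_zero
      (Complex.ofReal_ne_zero.2 hnr.ne'), ← Complex.ofReal_log (Real.rpow_pos_of_pos hnr _).le,
      ← Complex.ofReal_log hnr.le, Real.log_rpow hnr]
    congr 1
    push_cast
    ring
  rw [e2] at h1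
  exact h1

end

end Pool.Agent.Helper29X1.WG
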