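import Pool.Agent.Helper29X1.WG.Line

/-!
# Twists of the representations by `N^{-iτ}`
-/

set_option autoImplicit false
set_option linter.unusedSectionVars false

namespace Pool.Agent.Helper29X1.WG

open NumberField Complex Filter Topology IsDedekindDomain Asymptotics Polynomial
open Pool.Agent.W353.EF (LFun size IsFrobenius)
open Pool.Agent.W353.TP (HX sysH LL LL_tendsto bdd_isLittleO lamS_sub push res)
open Pool.Agent.W353.NF (vx)
open Pool.Agent.W540.BE (nm two_le_nm trv)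
open Pool.Agent.Y149.Ord (HasOrder tendsto_size)
open Pool.Agent.N172.HS
open scoped ComplexConjugate

section

variable {K : Type} [Field K] [NumberField K]

/-- `ρ ⊗ N^{-iτ}` for `ρ = ∑ c_j Ind χ_j`: the representation `∑ c_j Ind (χ_j N^{-iτ})`. -/
noncomputable def tw (ρ : WRep K) (τ : ℝ) : WRep K where
  r := ρ.r
  F := ρ.F
  fld := ρ.fld
  nf := ρ.nf
  alg := ρ.alg
  𝔣 := fun j => ρ.𝔣 j * ⊤
  k := fun j => ρ.k j + fun _ => 0
  t := fun j => ρ.t j + fun _ => -τ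
  χ := fun j => mulc (ρ.χ j) (nch (ρ.F j) τ)
  hecke := fun j => (ρ.hecke j).mul (isHecke_nch τ)
  c := ρ.c

theorem indTrace_tw {F : Type} [Field F] [NumberField F] [Algebra K F]
    (χ : Ideal (𝓞 F) →*₀ ℂ) (τ : ℝ) (v : HeightOneSpectrum (𝓞 K)) :
    indTrace (mulc χ (nch F τ)) v =
      indTrace χ v * (Ideal.absNorm v.asIdeal : ℂ) ^ (-(τ * I : ℂ)) := by
  unfold indTrace
  have h1 : ∀ w ∈ above F v, (mulc χ (nch F τ)) w.asIdeal =
      χ w.asIdeal * (Ideal.absNorm v.asIdeal : ℂ) ^ (-(τ * I : ℂ)) := by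
    intro w hw
    rw [mulc_apply, nch_apply w.ne_bot, hw.2]
  rw [finsum_mem_congr rfl h1, finsum_mem_mul]

theorem tw_trace (ρ : WRep K) (τ : ℝ) (v : HeightOneSpectrum (𝓞 K)) :
    (tw ρ τ).trace v = ρ.trace v * (Ideal.absNorm v.asIdeal : ℂ) ^ (-(τ * I : ℂ)) := by
  change ∑ j : Fin ρ.r, (ρ.c j : ℂ) * indTrace (mulc (ρ.χ j) (nch (ρ.F j) τ)) v =
    (∑ j : Fin ρ.r, (ρ.c j : ℂ) * indTrace (ρ.χ j) v) * _
  rw [Finset.sum_mul]
  refine Finset.sum_congr rfl fun j _ => ?_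
  rw [indTrace_tw]
  ring

theorem tw_tH (ρ : WRep K) (τ : ℝ) (x : HX K) :
    (tw ρ τ).tH x = ρ.tH x * (HC.N K τ).val x := by
  rw [← WRep.trace_vx, ← WRep.trace_vx, tw_trace, HC.N_val]
  congr 2
  rw [absNorm_vx]

/-- The Euler factors of `L(H^i(X) ⊗ ρ, s)`, `dim ρ = M`, without poles on the line
`Re s = i/2 + 1`. -/
def IsTensorLine (X : Variety K) (i : ℕ) (ρ : WRep K) (M : ℕ)
    (B : HeightOneSpectrum (𝓞 K) → ℂ[X]) : Prop :=
  (∀ᶠ v in cofinite, ∃ (α : Fin (X.betti i) → ℂ) (γ : Fin M → ℂ),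
    IsFrobenius X.eqs X.dim i v α ∧ (∀ l, ‖γ l‖ = 1) ∧ ∑ l, γ l = ρ.trace v ∧
    ∀ z : ℂ, (B v).eval z = ∏ j, ∏ l, (1 - α j * γ l * z)) ∧
  ∀ (v : HeightOneSpectrum (𝓞 K)) (τ : ℝ),
    (B v).eval ((Ideal.absNorm v.asIdeal : ℂ) ^ (-((i : ℂ) / 2 + 1 + τ * I))) ≠ 0

theorem norm_N (v : HeightOneSpectrum (𝓞 K)) (τ : ℝ) :
    ‖(Ideal.absNorm v.asIdeal : ℂ) ^ (-(τ * I : ℂ))‖ = 1 := by
  rw [Complex.norm_natCast_cpow_of_pos (absNorm_pos v.ne_bot)]
  simp

theorem line_tensor {X : Variety K} {i : ℕ} {ρ : WRep K} {M : ℕ}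
    {B : HeightOneSpectrum (𝓞 K) → ℂ[X]} (hB : IsTensorLine X i ρ M B) (τ : ℝ) :
    IsTensor X i (tw ρ τ) (shift τ B) := by
  refine ⟨⟨M, ?_⟩, fun v => ?_⟩
  · filter_upwards [hB.1] with v hv
    obtain ⟨α, γ, h1, h2, h3, h4⟩ := hv
    refine ⟨α, fun l => γ l * (Ideal.absNorm v.asIdeal : ℂ) ^ (-(τ * I : ℂ)), h1, fun l => ?_,
      ?_, fun z => ?_⟩
    · rw [norm_mul, h2, norm_N, one_mul]
    · rw [tw_trace, ← h3, Finset.sum_mul]
    · rw [shift_eval, h4]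
      refine Finset.prod_congr rfl fun j _ => Finset.prod_congr rfl fun l _ => ?_
      ring
  · rw [shift_eval, ← cpow_add _ _ (absNorm_ne v)]
    have e : (-(τ * I : ℂ)) + (-((i : ℂ) / 2 + 1)) = -((i : ℂ) / 2 + 1 + τ * I) := by ring
    rw [e]
    exact hB.2 v τ

/-- **The inequality on the line.** -/
theorem line_main {X : Variety K} {i : ℕ} (hi : i ≤ 2 * X.dim) {θ : WRep K} {N' : ℕ}
    (hθ : IsPart X i θ N') {ρ : WRep K} {M : ℕ} {B : HeightOneSpectrum (𝓞 K) → ℂ[X]}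
    (hB : IsTensorLine X i ρ M B) (F : Finset ℝ) (a b a' b' : ℝ → ℝ) {η : ℝ} (hη : 0 < η) :
    ∀ᶠ ε : ℝ in 𝓝[>] 0, ∑ g ∈ F, ∑ l ∈ F, (a g * b l + a' g * b' l) *
        (size i (shift (g - l) B) ε - (tw ρ (g - l)).inner θ) ≤
      (N' : ℝ) * M * ((∑ g ∈ F, (a g ^ 2 + b g ^ 2 + a' g ^ 2 + b' g ^ 2)) / 2) + η := by
  classical
  set R : HX K → ℂ := fun x => if ‖ρ.tH x‖ ≤ M then ρ.tH x else 0 with hR
  have hRb : ∀ x, ‖R x‖ ≤ M := by
    intro x
    rw [hR]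
    simp only
    split_ifs with h
    · exact h
    · rw [norm_zero]; exact Nat.cast_nonneg _
  have hRe : ∀ᶠ x : HX K in cofinite, R x = ρ.tH x := by
    filter_upwards [eventually_HX hB.1] with x hx
    obtain ⟨α, γ, h1, h2, h3, h4⟩ := hx
    rw [hR]
    simp only
    rw [if_pos]
    rw [← ρ.trace_vx, ← h3]
    refine (norm_sum_le _ _).trans ?_
    rw [Finset.sum_congr rfl fun l _ => h2 l]
    simp
  have hz : ∀ τ, (fun ε => (size i (shift τ B) ε - (tw ρ τ).inner θ) * LL ε -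
      EH K ε (fun x => cut X i θ N' x * (R x * (HC.N K τ).val x).re)) =o[𝓝[>] 0] LL := by
    intro τ
    have h1 := defect hi hθ (line_tensor hB τ)
    have b1 : ∀ x, |cut X i θ N' x * ((tw ρ τ).tH x).re| ≤ N' * (tw ρ τ).bd := fun x => by
      rw [abs_mul]
      exact mul_le_mul (abs_cut X i θ N' x)
        ((Complex.abs_re_le_norm _).trans ((tw ρ τ).norm_tH_le x)) (abs_nonneg _)
        (Nat.cast_nonneg _)
    have b2 : ∀ x, |cut X i θ N' x * (R x * (HC.N K τ).val x).re| ≤ N' * M := fun x => by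
      rw [abs_mul]
      refine mul_le_mul (abs_cut X i θ N' x) ?_ (abs_nonneg _) (Nat.cast_nonneg _)
      refine (Complex.abs_re_le_norm _).trans ?_
      rw [norm_mul]
      calc ‖R x‖ * ‖(HC.N K τ).val x‖ ≤ M * 1 :=
            mul_le_mul (hRb x) ((HC.N K τ).val_le x) (norm_nonneg _) (Nat.cast_nonneg _)
        _ = M := mul_one _
    have h2 := EH_congr (K := K) (φ := fun x => cut X i θ N' x * ((tw ρ τ).tH x).re)
      (φ' := fun x => cut X i θ N' x * (R x * (HC.N K τ).val x).re) (by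
        filter_upwards [hRe] with x hx
        rw [hx, tw_tH]) b1 b2
    refine (h1.add h2).congr_left fun ε => ?_
    ring
  exact line_ineq (fun x => abs_cut X i θ N' x) hRb
    (z := fun τ ε => size i (shift τ B) ε - (tw ρ τ).inner θ) hz F a b a' b' hη

/-- **The orders on the line.** -/
theorem line_orders {X : Variety K} {i : ℕ} (hi : i ≤ 2 * X.dim) {θ : WRep K} {N' : ℕ}
    (hθ : IsPart X i θ N') {ρ : WRep K} {M : ℕ} {B : HeightOneSpectrum (𝓞 K) → ℂ[X]}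
    (hB : IsTensorLine X i ρ M B) {m : ℝ → ℤ} (hm : ∀ τ, HasOrder i (shift τ B) (m τ)) :
    ∃ S : Finset ℝ, (∀ τ, τ ∈ S ↔ m τ + (tw ρ τ).inner θ ≠ 0) ∧
      ∑ τ ∈ S, (m τ + (tw ρ τ).inner θ) ^ 2 ≤ ((N' * M : ℕ) : ℤ) ^ 2 ∧
      ∀ x : ℝ, ‖∑ τ ∈ S, ((m τ + (tw ρ τ).inner θ : ℤ) : ℂ) * exp (τ * x * I)‖ ≤ N' * M := by
  classical
  set w : ℝ → ℝ := fun τ => ((m τ + (tw ρ τ).inner θ : ℤ) : ℝ) with hw
  set C : ℝ := (N' : ℝ) * M with hC
  have hC0 : 0 ≤ C := by positivity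
  have key : ∀ (F : Finset ℝ) (a b a' b' : ℝ → ℝ),
      ∑ g ∈ F, ∑ l ∈ F, (a g * b l + a' g * b' l) * w (g - l) ≤
        C * ((∑ g ∈ F, (a g ^ 2 + b g ^ 2 + a' g ^ 2 + b' g ^ 2)) / 2) := by
    intro F a b a' b'
    refine le_of_forall_pos_le_add fun η hη => ?_
    have h1 := line_main hi hθ hB F (fun g => -a g) b (fun g => -a' g) b' hη
    have h2 : Tendsto (fun ε => ∑ g ∈ F, ∑ l ∈ F, (-a g * b l + -a' g * b' l) *
        (size i (shift (g - l) B) ε - (tw ρ (g - l)).inner θ)) (𝓝[>] 0)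
        (𝓝 (∑ g ∈ F, ∑ l ∈ F, (-a g * b l + -a' g * b' l) *
          (-(m (g - l) : ℝ) - (tw ρ (g - l)).inner θ))) :=
      tendsto_finsetSum _ fun g _ => tendsto_finsetSum _ fun l _ =>
        ((tendsto_size (hm (g - l))).sub_const _).const_mul _
    have h3 := le_of_tendsto h2 h1
    have e1 : ∑ g ∈ F, ∑ l ∈ F, (-a g * b l + -a' g * b' l) *
          (-(m (g - l) : ℝ) - (tw ρ (g - l)).inner θ) =
        ∑ g ∈ F, ∑ l ∈ F, (a g * b l + a' g * b' l) * w (g - l) := by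
      refine Finset.sum_congr rfl fun g _ => Finset.sum_congr rfl fun l _ => ?_
      rw [hw]
      push_cast
      ring
    rw [e1] at h3
    simp only [neg_sq] at h3
    exact h3
  have hsq := fun S => sq_sum_le hC0 key S
  -- finiteness
  have hfin : {τ : ℝ | m τ + (tw ρ τ).inner θ ≠ 0}.Finite := by
    by_contra hinf
    obtain ⟨n, hn⟩ := exists_nat_gt (C ^ 2)
    obtain ⟨T, hT1, hT2⟩ := (Set.not_finite.1 hinf).exists_subset_card_eq n
    have h5 := hsq T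
    have h6 : ∑ _τ ∈ T, (1 : ℝ) ≤ ∑ τ ∈ T, w τ ^ 2 := Finset.sum_le_sum fun τ hτ => by
      have h7 : m τ + (tw ρ τ).inner θ ≠ 0 := hT1 (Finset.mem_coe.2 hτ)
      rw [hw]
      simp only
      have h8 : (1 : ℤ) ≤ (m τ + (tw ρ τ).inner θ) ^ 2 := by
        have := Int.one_le_abs h7
        rw [← sq_abs]
        nlinarith
      exact_mod_cast h8
    rw [Finset.sum_const, hT2, nsmul_eq_mul, mul_one] at h6
    linarith
  refine ⟨hfin.toFinset, fun τ => by rw [Set.Finite.mem_toFinset, Set.mem_ofPred_eq], ?_,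
    fun x => ?_⟩
  · have h := hsq hfin.toFinset
    rw [hw, hC] at h
    have h2 : ((∑ τ ∈ hfin.toFinset, (m τ + (tw ρ τ).inner θ) ^ 2 : ℤ) : ℝ) ≤
        ((((N' * M : ℕ) : ℤ) ^ 2 : ℤ) : ℝ) := by
      push_cast
      push_cast at h
      exact h
    exact_mod_cast h2
  · set S := hfin.toFinset with hS
    have hS0 : ∀ τ ∉ S, w τ = 0 := by
      intro τ hτ
      rw [hS, Set.Finite.mem_toFinset, Set.mem_ofPred_eq, not_not] at hτ
      rw [hw]
      simp only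
      rw [hτ, Int.cast_zero]
    set Z : ℂ := ∑ τ ∈ S, ((m τ + (tw ρ τ).inner θ : ℤ) : ℂ) * exp (τ * x * I) with hZ
    have h1 := fourier_le key S hS0 x (-(Z.arg))
    have h2 : ∑ τ ∈ S, w τ * Real.cos (τ * x + -Z.arg) = (Z * exp (-(Z.arg) * I)).re := by
      rw [hZ, Finset.sum_mul, Complex.re_sum]
      refine Finset.sum_congr rfl fun τ _ => ?_
      rw [mul_assoc, ← Complex.exp_add]
      have e1 : (τ : ℂ) * x * I + -((Z.arg : ℝ) : ℂ) * I = ((τ * x + -Z.arg : ℝ) : ℂ) * I := by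
        push_cast
        ring
      rw [← hZ, e1]
      have e2 : (((m τ + (tw ρ τ).inner θ : ℤ) : ℂ)) = ((w τ : ℝ) : ℂ) := by
        rw [hw]
        push_cast
        rfl
      rw [e2, Complex.re_ofReal_mul, Complex.exp_ofReal_mul_I_re]
    have h3 : Z * exp (-(Z.arg) * I) = ((‖Z‖ : ℝ) : ℂ) := by
      nth_rewrite 1 [← Complex.norm_mul_exp_arg_mul_I Z]
      rw [mul_assoc, ← Complex.exp_add]
      have : (Z.arg : ℂ) * I + -(Z.arg : ℂ) * I = 0 := by ring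
      rw [this, Complex.exp_zero, mul_one]
    rw [h2, h3, Complex.ofReal_re] at h1
    exact h1

end

end Pool.Agent.Helper29X1.WG
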