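import Pool.Agent.Helper29X1.WG.SelfO
import Pool.Agent.Helper29X1.WG.BlkM

/-!
# Weights which dominate the support of a representation
-/

set_option autoImplicit false
set_option linter.unusedSectionVars false

namespace Pool.Agent.Helper29X1.WG.SF

open NumberField Complex Filter Topology IsDedekindDomain Asymptotics Polynomial
open Pool.Agent.W353.EF (LFun size IsFrobenius)
open Pool.Agent.W353.TP (HX sysH LL LL_tendsto bdd_isLittleO lamS_sub push res card_hom_le)
open Pool.Agent.W353.NF (vx)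
open Pool.Agent.N172.HS
open Pool.Agent.H921R2.TatePole (hom_ext_of_ker)
open scoped ComplexConjugate

section

variable {K : Type} [Field K] [NumberField K]

/-- the number of the primes of degree one -/
theorem ncard_above {F : Type} [Field F] [NumberField F] [Algebra K F] (x : HX K) :
    (((above F (vx x)).ncard : ℕ) : ℝ) = cnt F x := by
  classical
  have hfact : Fact (x.1 : ℕ).Prime := ⟨x.1.2⟩
  have himg : above F (vx x) =
      (fun ψ : 𝓞 F →+* ZMod (x.1 : ℕ) => vx (⟨x.1, ψ⟩ : HX F)) '' (fib F x : Set _) := by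
    ext w
    constructor
    · rintro ⟨h1, h2⟩
      have h2' : Ideal.absNorm w.asIdeal = (x.1 : ℕ) := h2.trans (absNorm_vx x)
      obtain ⟨y, hy⟩ := exists_vx w (by rw [h2']; exact x.1.2)
      have h3 : (y.1 : ℕ) = x.1 := by
        rw [← absNorm_vx y, hy, h2']
      obtain ⟨q, φ⟩ := y
      have h4 : q = x.1 := Subtype.ext h3
      subst h4
      refine ⟨φ, ?_, hy⟩
      rw [Finset.mem_coe, mem_fib]
      apply hom_ext_of_ker
      have h5 : RingHom.ker (res K φ) = w.asIdeal.comap (algebraMap (𝓞 K) (𝓞 F)) := by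
        unfold res
        rw [← RingHom.comap_ker, ← hy]
        rfl
      rw [h5, h1]
      rfl
    · rintro ⟨ψ, hψ, rfl⟩
      rw [Finset.mem_coe, mem_fib] at hψ
      refine ⟨?_, ?_⟩
      · have h5 : (vx (⟨x.1, ψ⟩ : HX F)).asIdeal.comap (algebraMap (𝓞 K) (𝓞 F)) =
            RingHom.ker (res K ψ) := by
          unfold res
          rw [← RingHom.comap_ker]
          rfl
        rw [h5, hψ]
        rfl
      · rw [absNorm_vx, absNorm_vx]
  have hinj : Set.InjOn (fun ψ : 𝓞 F →+* ZMod (x.1 : ℕ) => vx (⟨x.1, ψ⟩ : HX F))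
      (fib F x : Set _) := by
    intro φ _ ψ _ h
    apply hom_ext_of_ker
    exact congrArg HeightOneSpectrum.asIdeal h
  rw [himg, hinj.ncard_image, Set.ncard_coe_finset]
  rfl

end

/-- A finite family of finite extensions `F_j` of `K` with real coefficients `c_j`. -/
structure Wts (K : Type) [Field K] [NumberField K] where
  J : Type
  [fin : Fintype J]
  F : J → Type
  [fld : ∀ j, Field (F j)]
  [nf : ∀ j, NumberField (F j)]
  [alg : ∀ j, Algebra K (F j)]
  c : J → ℝ

attribute [instance] Wts.fin Wts.fld Wts.nf Wts.alg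

section

variable {K : Type} [Field K] [NumberField K]

/-- The weight `∑ c_j n_j(v)` of the prime `v`, `n_j(v)` the number of the primes of `F_j` above `v` of
degree one over `K`. -/
noncomputable def Wts.wt (s : Wts K) (v : HeightOneSpectrum (𝓞 K)) : ℝ :=
  ∑ j, s.c j * ((above (s.F j) v).ncard : ℝ)

/-- The mean value `∑ c_j` of the weight. -/
noncomputable def Wts.mean (s : Wts K) : ℝ := ∑ j, s.c j

/-- the weight at the primes of degree one -/
noncomputable def Wts.w (s : Wts K) (x : HX K) : ℝ := ∑ j, s.c j * cnt (s.F j) x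

theorem Wts.wt_vx (s : Wts K) (x : HX K) : s.wt (vx x) = s.w x := by
  unfold Wts.wt Wts.w
  exact Finset.sum_congr rfl fun j _ => by rw [ncard_above]

/-- a bound for the weight -/
noncomputable def Wts.bd (s : Wts K) : ℝ := ∑ j, |s.c j| * Module.finrank ℚ (s.F j)

theorem Wts.abs_w (s : Wts K) (x : HX K) : |s.w x| ≤ s.bd := by
  unfold Wts.w Wts.bd
  refine (Finset.abs_sum_le_sum_abs _ _).trans (Finset.sum_le_sum fun j _ => ?_)
  rw [abs_mul, abs_of_nonneg (cnt_nonneg x)]
  exact mul_le_mul_of_nonneg_left (cnt_le x) (abs_nonneg _)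

theorem Wts.bd_nonneg (s : Wts K) : 0 ≤ s.bd :=
  Finset.sum_nonneg fun _ _ => mul_nonneg (abs_nonneg _) (Nat.cast_nonneg _)

/-- the weighted characters -/
noncomputable def Wts.f (s : Wts K) (h : ℝ) (x : HX K) : ℂ :=
  ((Real.sqrt (s.w x) : ℝ) : ℂ) * (HC.N K h).val x

theorem Wts.f_bdd (s : Wts K) (h : ℝ) : Bdd (s.f h) := by
  refine ⟨Real.sqrt s.bd, Real.sqrt_nonneg _, fun x => ?_⟩
  unfold Wts.f
  rw [norm_mul, Complex.norm_real, Real.norm_eq_abs, abs_of_nonneg (Real.sqrt_nonneg _)]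
  calc Real.sqrt (s.w x) * ‖(HC.N K h).val x‖ ≤ Real.sqrt s.bd * 1 :=
        mul_le_mul (Real.sqrt_le_sqrt ((le_abs_self _).trans (s.abs_w x)))
          ((HC.N K h).val_le x) (norm_nonneg _) (Real.sqrt_nonneg _)
    _ = _ := mul_one _

open Classical in
theorem cnt_gram {F : Type} [Field F] [NumberField F] [Algebra K F] (h l : ℝ) :
    (fun ε => EH K ε (fun x => cnt F x * ((HC.N K (h - l)).val x).re) -
      (if h = l then 1 else 0) * LL ε) =o[𝓝[>] 0] LL := by
  have h1 : HasGram (wt (K := K) F h) (wt F l) (if h = l then 1 else 0) := wt_gram h l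
  unfold HasGram at h1
  refine h1.congr_left fun ε => ?_
  congr 2
  funext x
  unfold wt
  rw [map_mul, Complex.conj_ofReal]
  have e2 : ((Real.sqrt (cnt F x) : ℝ) : ℂ) * (HC.N K h).val x *
      (((Real.sqrt (cnt F x) : ℝ) : ℂ) * conj ((HC.N K l).val x)) =
      ((cnt F x : ℝ) : ℂ) * (HC.N K (h - l)).val x := by
    rw [← HC.N_mul]
    have e3 : ((cnt F x : ℝ) : ℂ) =
        ((Real.sqrt (cnt F x) : ℝ) : ℂ) * ((Real.sqrt (cnt F x) : ℝ) : ℂ) := by
      rw [← Complex.ofReal_mul, Real.mul_self_sqrt (cnt_nonneg x)]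
    rw [e3]
    ring
  rw [e2, Complex.re_ofReal_mul]

open Classical in
theorem Wts.gram (s : Wts K) (h0' : ∀ᶠ x : HX K in cofinite, 0 ≤ s.w x) (h l : ℝ) :
    HasGram (s.f h) (s.f l) (if h = l then s.mean else 0) := by
  have h1 : (fun ε => EH K ε (fun x => s.w x * ((HC.N K (h - l)).val x).re) -
      (if h = l then s.mean else 0) * LL ε) =o[𝓝[>] 0] LL := by
    have h2 := finset_isLittleO (Finset.univ : Finset s.J)
      (fun j _ => (cnt_gram (K := K) (F := s.F j) h l).const_mul_left (s.c j))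
    refine h2.congr' ?_ (EventuallyEq.refl _ _)
    filter_upwards [self_mem_nhdsWithin] with ε hε
    have hε' : (0 : ℝ) < ε := hε
    have e1 : (fun x : HX K => s.w x * ((HC.N K (h - l)).val x).re) =
        fun x => ∑ j, s.c j * (cnt (s.F j) x * ((HC.N K (h - l)).val x).re) := by
      funext x
      unfold Wts.w
      rw [Finset.sum_mul]
      exact Finset.sum_congr rfl fun j _ => by ring
    rw [e1, EH_sum hε' Finset.univ
      (fun j x => s.c j * (cnt (s.F j) x * ((HC.N K (h - l)).val x).re))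
      (fun j => |s.c j| * (Module.finrank ℚ (s.F j) * 1)) (fun j _ x => by
        rw [abs_mul, abs_mul, abs_of_nonneg (cnt_nonneg x)]
        exact mul_le_mul_of_nonneg_left (mul_le_mul (cnt_le x)
          ((Complex.abs_re_le_norm _).trans ((HC.N K (h - l)).val_le x)) (abs_nonneg _)
          (Nat.cast_nonneg _)) (abs_nonneg _))]
    have e2 : (if h = l then s.mean else 0) * LL ε =
        ∑ j, s.c j * ((if h = l then (1 : ℝ) else 0) * LL ε) := by
      unfold Wts.mean
      rw [← Finset.sum_mul]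
      split_ifs <;> ring
    rw [e2, ← Finset.sum_sub_distrib]
    refine Finset.sum_congr rfl fun j _ => ?_
    rw [EH_const_mul]
    ring
  have b1 : ∀ x : HX K, |s.w x * ((HC.N K (h - l)).val x).re| ≤ s.bd * 1 := fun x => by
    rw [abs_mul]
    exact mul_le_mul (s.abs_w x) ((Complex.abs_re_le_norm _).trans ((HC.N K (h - l)).val_le x))
      (abs_nonneg _) s.bd_nonneg
  obtain ⟨b, hb⟩ := (s.f_bdd h).re_mul (s.f_bdd l)
  have h3 := EH_congr (K := K) (φ := fun x => (s.f h x * conj (s.f l x)).re)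
    (φ' := fun x => s.w x * ((HC.N K (h - l)).val x).re) (by
      filter_upwards [h0'] with x hx
      unfold Wts.f
      rw [map_mul, Complex.conj_ofReal]
      have e2 : ((Real.sqrt (s.w x) : ℝ) : ℂ) * (HC.N K h).val x *
          (((Real.sqrt (s.w x) : ℝ) : ℂ) * conj ((HC.N K l).val x)) =
          ((s.w x : ℝ) : ℂ) * (HC.N K (h - l)).val x := by
        rw [← HC.N_mul]
        have e3 : ((s.w x : ℝ) : ℂ) =
            ((Real.sqrt (s.w x) : ℝ) : ℂ) * ((Real.sqrt (s.w x) : ℝ) : ℂ) := by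
          rw [← Complex.ofReal_mul, Real.mul_self_sqrt hx]
        rw [e3]
        ring
      rw [e2, Complex.re_ofReal_mul]) hb b1
  unfold HasGram
  refine (h3.add h1).congr_left fun ε => ?_
  ring

/-- The weight dominates the support of the trace of `ρ`: at almost all primes `v` of `K` whose norm is
a prime number it is not negative, and at least one if the trace of the Frobenius at `v` on `ρ` is not
zero. -/
def Wts.Dom (s : Wts K) (ρ : WRep K) : Prop :=
  ∀ᶠ v : HeightOneSpectrum (𝓞 K) in cofinite, (Ideal.absNorm v.asIdeal).Prime →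
    0 ≤ s.wt v ∧ (ρ.trace v ≠ 0 → 1 ≤ s.wt v)

theorem Wts.Dom.supp {s : Wts K} {ρ : WRep K} (h : s.Dom ρ) :
    ∀ᶠ x : HX K in cofinite, 0 ≤ s.w x ∧ (ρ.tH x ≠ 0 → 1 ≤ s.w x) := by
  filter_upwards [eventually_HX h] with x hx
  have h1 := hx (by rw [absNorm_vx]; exact x.1.2)
  rw [s.wt_vx, ρ.trace_vx] at h1
  exact h1

/-- The mean value of a dominating weight is positive. -/
theorem Wts.Dom.pos {s : Wts K} {ρ : WRep K} (hρ : ρ.IsIrr) (h : s.Dom ρ) : 0 < s.mean := by
  classical
  have hs := h.supp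
  set f : HX K → ℂ := fun x => if ‖ρ.tH x‖ ^ 2 ≤ ρ.bd ^ 2 * ‖s.f 0 x‖ ^ 2 then ρ.tH x else 0
    with hf
  have hfb : ∀ x, ‖f x‖ ≤ ρ.bd := fun x => by
    rw [hf]
    simp only
    split_ifs
    · exact ρ.norm_tH_le x
    · rw [norm_zero]; exact ρ.bd_nonneg
  have hfe : ∀ᶠ x : HX K in cofinite, f x = ρ.tH x := by
    filter_upwards [hs] with x hx
    rw [hf]
    simp only
    by_cases h0 : ρ.tH x = 0
    · rw [h0]
      simp
    · rw [if_pos]
      have h1 : 1 ≤ s.w x := hx.2 h0
      have h2 : ‖s.f 0 x‖ ^ 2 = s.w x := by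
        unfold Wts.f
        rw [norm_mul, HC.N_val]
        simp only [Complex.ofReal_zero, zero_mul, neg_zero, cpow_zero, norm_one, mul_one,
          Complex.norm_real, Real.norm_eq_abs, abs_of_nonneg (Real.sqrt_nonneg _)]
        exact Real.sq_sqrt hx.1
      rw [h2]
      calc ‖ρ.tH x‖ ^ 2 ≤ ρ.bd ^ 2 := pow_le_pow_left₀ (norm_nonneg _) (ρ.norm_tH_le x) 2
        _ = ρ.bd ^ 2 * 1 := (mul_one _).symm
        _ ≤ ρ.bd ^ 2 * s.w x := mul_le_mul_of_nonneg_left h1 (sq_nonneg _)
  have h1 : HasGram ρ.tH ρ.tH (ρ.inner ρ) := WRep.gram Pool.Agent.N134.HS.t_nvq _ _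
  have h2 : HasGram f f 1 := by
    have hi : ρ.inner ρ = 1 := hρ
    rw [hi] at h1
    obtain ⟨b, hb⟩ := (Bdd.re_mul (f := f) (f' := f) ⟨ρ.bd, ρ.bd_nonneg, hfb⟩
      ⟨ρ.bd, ρ.bd_nonneg, hfb⟩)
    obtain ⟨b', hb'⟩ := ρ.bdd.re_mul ρ.bdd
    have h3 := EH_congr (K := K) (φ := fun x => (f x * conj (f x)).re)
      (φ' := fun x => (ρ.tH x * conj (ρ.tH x)).re) (by
        filter_upwards [hfe] with x hx
        rw [hx]) hb hb'
    unfold HasGram at h1 ⊢
    refine (h3.add h1).congr_left fun ε => ?_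
    push_cast
    ring
  have h3 := s.gram (hs.mono fun x hx => hx.1) 0 0
  rw [if_pos rfl] at h3
  have h4 := gram_le (K := K) ⟨ρ.bd, ρ.bd_nonneg, hfb⟩ (s.f_bdd 0) h2 h3 (C := ρ.bd ^ 2)
    (fun x => by
      rw [hf]
      simp only
      split_ifs with h5
      · exact h5
      · rw [norm_zero, zero_pow two_ne_zero]
        positivity)
  by_contra hcon
  push Not at hcon
  have : ρ.bd ^ 2 * s.mean ≤ 0 := mul_nonpos_of_nonneg_of_nonpos (sq_nonneg _) hcon
  linarith

/-- **The inequality for a family of representations with small support.** -/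
theorem fam_ineq {I : Type} {ρ : I → WRep K} (hρ : Inequivalent ρ) (s : Wts K)
    (hs : ∀ i, ∀ᶠ x : HX K in cofinite, 0 ≤ s.w x ∧ ((ρ i).tH x ≠ 0 → 1 ≤ s.w x))
    (h0 : ∀ᶠ x : HX K in cofinite, 0 ≤ s.w x) (hδ : 0 < s.mean)
    {T : HX K → ℝ} {N : ℝ} (hT : ∀ x, |T x| ≤ N)
    {z : I → ℝ → ℝ → ℝ}
    (hz : ∀ i τ, (fun ε => z i τ ε * LL ε - EH K ε (fun x => T x * ((tw (ρ i) τ).tH x).re))
      =o[𝓝[>] 0] LL) {κ μ : Type} [Fintype κ] [Fintype μ] {p : κ → I × ℝ} {q : μ → ℝ}
    (hp : Function.Injective p) (hq : Function.Injective q) (a : κ → ℝ) (b : μ → ℝ) {η : ℝ}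
    (hη : 0 < η) :
    ∀ᶠ ε : ℝ in 𝓝[>] 0, ∑ k, ∑ l, a k * b l * z (p k).1 ((p k).2 - q l) ε ≤
      N * Real.sqrt s.mean * ((∑ k, a k ^ 2 + ∑ l, b l ^ 2) / 2) + η := by
  classical
  have hN : 0 ≤ N := bd_nonneg hT
  set T' : HX K → ℝ := fun x => if 1 ≤ s.w x then T x / Real.sqrt (s.w x) else 0 with hT'
  have hT'b : ∀ x, |T' x| ≤ N := by
    intro x
    rw [hT']
    simp only
    split_ifs with h
    · rw [abs_div, abs_of_nonneg (Real.sqrt_nonneg _)]
      have h1 : 1 ≤ Real.sqrt (s.w x) := by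
        rw [show (1 : ℝ) = Real.sqrt 1 by rw [Real.sqrt_one]]
        exact Real.sqrt_le_sqrt h
      exact (div_le_self (abs_nonneg _) h1).trans (hT x)
    · rw [abs_zero]
      exact hN
  have hG1 : ∀ k l : κ, HasGram (tw (ρ (p k).1) (p k).2).tH (tw (ρ (p l).1) (p l).2).tH
      (if k = l then 1 else 0) := by
    intro k l
    have h := blk_gram hρ (p k) (p l)
    by_cases hkl : k = l
    · rw [if_pos (congrArg p hkl)] at h
      rwa [if_pos hkl]
    · rw [if_neg (fun h' => hkl (hp h'))] at h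
      rwa [if_neg hkl]
  have hG2 : ∀ k l : μ, HasGram (s.f (q k)) (s.f (q l)) (if k = l then s.mean else 0) := by
    intro k l
    have h := s.gram h0 (q k) (q l)
    by_cases hkl : k = l
    · rw [if_pos (congrArg q hkl)] at h
      rwa [if_pos hkl]
    · rw [if_neg (fun h' => hkl (hq h'))] at h
      rwa [if_neg hkl]
  have hz' : ∀ (k : κ) (l : μ), (fun ε => z (p k).1 ((p k).2 - q l) ε * LL ε -
      EH K ε (fun x => T' x * ((tw (ρ (p k).1) (p k).2).tH x * conj (s.f (q l) x)).re))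
        =o[𝓝[>] 0] LL := by
    intro k l
    set R := ρ (p k).1 with hR
    have h1 := hz (p k).1 ((p k).2 - q l)
    have b1 : ∀ x, |T x * ((tw R ((p k).2 - q l)).tH x).re| ≤
        N * (tw R ((p k).2 - q l)).bd := fun x => by
      rw [abs_mul]
      exact mul_le_mul (hT x) ((Complex.abs_re_le_norm _).trans ((tw R _).norm_tH_le x))
        (abs_nonneg _) hN
    obtain ⟨c, hc0, hc⟩ := s.f_bdd (q l)
    have b2 : ∀ x, |T' x * ((tw R (p k).2).tH x * conj (s.f (q l) x)).re| ≤
        N * ((tw R (p k).2).bd * c) := fun x => by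
      rw [abs_mul]
      refine mul_le_mul (hT'b x) ((Complex.abs_re_le_norm _).trans ?_) (abs_nonneg _) hN
      rw [norm_mul, Complex.norm_conj]
      exact mul_le_mul ((tw R _).norm_tH_le x) (hc x) (norm_nonneg _) (tw R _).bd_nonneg
    have h2 := EH_congr (K := K) (φ := fun x => T x * ((tw R ((p k).2 - q l)).tH x).re)
      (φ' := fun x => T' x * ((tw R (p k).2).tH x * conj (s.f (q l) x)).re) (by
        filter_upwards [hs (p k).1] with x h3
        by_cases h4 : R.tH x = 0
        · rw [tw_tH, tw_tH, h4, zero_mul, zero_mul, zero_mul, Complex.zero_re, mul_zero,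
            mul_zero]
        · have h5 : 1 ≤ s.w x := h3.2 h4
          have h6 : 0 < Real.sqrt (s.w x) := Real.sqrt_pos.2 (lt_of_lt_of_le one_pos h5)
          rw [hT']
          simp only
          rw [if_pos h5]
          unfold Wts.f
          rw [map_mul, Complex.conj_ofReal]
          have e1 : (tw R (p k).2).tH x * (((Real.sqrt (s.w x) : ℝ) : ℂ) *
              conj ((HC.N K (q l)).val x)) = ((Real.sqrt (s.w x) : ℝ) : ℂ) *
                ((tw R (p k).2).tH x * conj ((HC.N K (q l)).val x)) := by ring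
          rw [e1, tw_conj, Complex.re_ofReal_mul]
          field_simp) b1 b2
    refine (h1.add h2).congr_left fun ε => ?_
    ring
  -- the scale
  set t : ℝ := Real.sqrt (Real.sqrt s.mean) with ht
  have ht0 : 0 < t := Real.sqrt_pos.2 (Real.sqrt_pos.2 hδ)
  have ht2 : t ^ 2 = Real.sqrt s.mean := Real.sq_sqrt (Real.sqrt_nonneg _)
  have ht4 : (t ^ 2) ^ 2 = s.mean := by
    rw [ht2]
    exact Real.sq_sqrt hδ.le
  have h := bilin (K := K) (κ := κ) (μ := μ) (f := fun k => (tw (ρ (p k).1) (p k).2).tH)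
    (f' := fun l => s.f (q l)) (fun k => (tw (ρ (p k).1) (p k).2).bdd) (fun l => s.f_bdd (q l))
    (g := fun k l => if k = l then 1 else 0) (g' := fun k l => if k = l then s.mean else 0)
    hG1 hG2 (T := T') (N := N) hT'b
    (z := fun k l ε => z (p k).1 ((p k).2 - q l) ε) hz' (fun k => t * a k)
    (fun l => t⁻¹ * b l) hη
  have e1 : ∑ k, ∑ l, (t * a k) * (t * a l) * (if k = l then (1 : ℝ) else 0) =
      t ^ 2 * ∑ k, a k ^ 2 := by
    rw [Finset.mul_sum]
    refine Finset.sum_congr rfl fun k _ => ?_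
    rw [Finset.sum_eq_single k]
    · rw [if_pos rfl]; ring
    · intro l _ hl
      rw [if_neg hl.symm, mul_zero]
    · intro h1; exact absurd (Finset.mem_univ k) h1
  have e2 : ∑ k, ∑ l, (t⁻¹ * b k) * (t⁻¹ * b l) * (if k = l then s.mean else 0) =
      t ^ 2 * ∑ k, b k ^ 2 := by
    rw [Finset.mul_sum]
    refine Finset.sum_congr rfl fun k _ => ?_
    rw [Finset.sum_eq_single k]
    · rw [if_pos rfl, ← ht4]
      field_simp
    · intro l _ hl
      rw [if_neg hl.symm, mul_zero]
    · intro h1; exact absurd (Finset.mem_univ k) h1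
  rw [e1, e2] at h
  filter_upwards [h] with ε h5
  have e3 : ∑ k, ∑ l, t * a k * (t⁻¹ * b l) * z (p k).1 ((p k).2 - q l) ε =
      ∑ k, ∑ l, a k * b l * z (p k).1 ((p k).2 - q l) ε := by
    refine Finset.sum_congr rfl fun k _ => Finset.sum_congr rfl fun l _ => ?_
    have ht' : t ≠ 0 := ht0.ne'
    field_simp
  rw [e3] at h5
  refine h5.trans (le_of_eq ?_)
  rw [← ht2]
  ring

end

end Pool.Agent.Helper29X1.WG.SF
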