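import Pool.Agent.Helper29X1.WG.WtA

/-!
# Weights which dominate the support of a representation: the orders
-/

set_option autoImplicit false
set_option linter.unusedSectionVars false

namespace Pool.Agent.Helper29X1.WG.SF

open NumberField Complex Filter Topology IsDedekindDomain Asymptotics Polynomial
open Pool.Agent.W353.TP (HX sysH LL LL_tendsto bdd_isLittleO lamS_sub push res card_hom_le)
open Pool.Agent.W353.NF (vx)
open Pool.Agent.N172.HS
open scoped ComplexConjugate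

section

variable {K : Type} [Field K] [NumberField K]

/-- The dual representation `∑ c_j Ind (χ_j⁻¹)` of `ρ = ∑ c_j Ind χ_j`. -/
noncomputable def dual (ρ : WRep K) : WRep K where
  r := ρ.r
  F := ρ.F
  fld := ρ.fld
  nf := ρ.nf
  alg := ρ.alg
  𝔣 := ρ.𝔣
  k := fun j => -ρ.k j
  t := fun j => -ρ.t j
  χ := fun j => cj (ρ.χ j)
  hecke := fun j => (ρ.hecke j).conj
  c := ρ.c

theorem pc_cj {F : Type} [Field F] [NumberField F] [Algebra K F] (χ : Ideal (𝓞 F) →*₀ ℂ)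
    (x : HX K) : pc K (cj χ) x = conj (pc K χ x) := by
  classical
  unfold pc push
  rw [map_sum]
  rfl

theorem dual_tH (ρ : WRep K) (x : HX K) : (dual ρ).tH x = conj (ρ.tH x) := by
  change ∑ j : Fin ρ.r, (ρ.c j : ℂ) * pc K (cj (ρ.χ j)) x = conj (∑ j, (ρ.c j : ℂ) * pc K (ρ.χ j) x)
  rw [map_sum]
  refine Finset.sum_congr rfl fun j _ => ?_
  rw [pc_cj, map_mul, map_intCast]

theorem conj_N (τ : ℝ) (x : HX K) : conj ((HC.N K τ).val x) = (HC.N K (-τ)).val x := by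
  have h := HC.N_mul (K := K) 0 τ x
  rw [zero_sub] at h
  rw [← h, HC.N_val (τ := 0)]
  simp

theorem tw_dual (ρ : WRep K) (τ : ℝ) (x : HX K) :
    (tw (dual ρ) τ).tH x = conj ((tw ρ (-τ)).tH x) := by
  rw [tw_tH, tw_tH, dual_tH, map_mul, conj_N, neg_neg]

theorem dual_irr {ρ : WRep K} (h : ρ.IsIrr) : (dual ρ).IsIrr := by
  have h1 : HasGram (dual ρ).tH (dual ρ).tH ((dual ρ).inner (dual ρ)) :=
    WRep.gram Pool.Agent.N134.HS.t_nvq _ _
  have h2 : HasGram ρ.tH ρ.tH (ρ.inner ρ) := WRep.gram Pool.Agent.N134.HS.t_nvq _ _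
  have h3 : HasGram (dual ρ).tH (dual ρ).tH (ρ.inner ρ) := by
    unfold HasGram at h2 ⊢
    refine h2.congr_left fun ε => ?_
    congr 2
    funext x
    rw [dual_tH, Complex.conj_conj, mul_comm]
  have h4 := h1.unique h3
  have h5 : ρ.inner ρ = 1 := h
  have h6 : (dual ρ).inner (dual ρ) = ρ.inner ρ := by exact_mod_cast h4
  exact h6.trans h5

/-- `ρ` is not isomorphic to a twist by `N^{-iτ}` of its dual. -/
def NonDual (ρ : WRep K) : Prop := ∀ τ : ℝ, (tw ρ τ).inner (dual ρ) = 0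

/-- the representation and its dual -/
noncomputable def both (ρ : WRep K) (b : Bool) : WRep K := cond b ρ (dual ρ)

theorem both_ineq {ρ : WRep K} (h : ρ.IsIrr) (hn : NonDual ρ) : Inequivalent (both ρ) := by
  refine ⟨fun b => ?_, fun b b' hb τ => ?_⟩
  · cases b
    · exact dual_irr h
    · exact h
  · cases b <;> cases b'
    · exact absurd rfl hb
    · change (tw (dual ρ) τ).inner ρ = 0
      rw [WRep.inner_comm, ← inner_tw_zero, inner_tw']
      exact hn _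
    · exact hn τ
    · exact absurd rfl hb

theorem single_ineq {ρ : WRep K} (h : ρ.IsIrr) : Inequivalent (fun _ : Unit => ρ) :=
  ⟨fun _ => h, fun _ _ hk => absurd rfl hk⟩

section data

variable {ρ : WRep K} (hρ : ρ.IsIrr) (s : Wts K) (hs : s.Dom ρ) {T : HX K → ℝ} {N : ℝ}
  (hT : ∀ x, |T x| ≤ N) {z : ℝ → ℝ → ℝ}
  (hz : ∀ τ, (fun ε => z τ ε * LL ε - EH K ε (fun x => T x * ((tw ρ τ).tH x).re))
    =o[𝓝[>] 0] LL)

include hρ hs hT hz

/-- the first inequality -/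
theorem wt_ineq {κ μ : Type} [Fintype κ] [Fintype μ] {p : κ → ℝ} {q : μ → ℝ}
    (hp : Function.Injective p) (hq : Function.Injective q) (a : κ → ℝ) (b : μ → ℝ) {η : ℝ}
    (hη : 0 < η) :
    ∀ᶠ ε : ℝ in 𝓝[>] 0, ∑ k, ∑ l, a k * b l * z (p k - q l) ε ≤
      N * Real.sqrt s.mean * ((∑ k, a k ^ 2 + ∑ l, b l ^ 2) / 2) + η :=
  fam_ineq (I := Unit) (ρ := fun _ => ρ) (single_ineq hρ) s (fun _ => hs.supp)
    (hs.supp.mono fun _ hx => hx.1) (hs.pos hρ) hT (z := fun _ => z) (fun _ => hz)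
    (p := fun k => ((), p k)) (fun _ _ hkk => hp (congrArg Prod.snd hkk)) hq a b hη

/-- the second inequality -/
theorem wt_ineq2 (hn : NonDual ρ) {κ μ : Type} [Fintype κ] [Fintype μ] {p p' : κ → ℝ}
    {q : μ → ℝ} (hp : Function.Injective p) (hp' : Function.Injective p')
    (hq : Function.Injective q) (a a' : κ → ℝ) (b : μ → ℝ) {η : ℝ} (hη : 0 < η) :
    ∀ᶠ ε : ℝ in 𝓝[>] 0, ∑ k, ∑ l, a k * b l * z (p k - q l) ε +
        ∑ k, ∑ l, a' k * b l * z (q l - p' k) ε ≤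
      N * Real.sqrt s.mean * ((∑ k, a k ^ 2 + ∑ k, a' k ^ 2 + ∑ l, b l ^ 2) / 2) + η := by
  have h := fam_ineq (I := Bool) (ρ := both ρ) (both_ineq hρ hn) s (fun b => by
      cases b
      · filter_upwards [hs.supp] with x hx
        refine ⟨hx.1, fun h1 => hx.2 fun h2 => h1 ?_⟩
        change (dual ρ).tH x = 0
        rw [dual_tH, h2, map_zero]
      · exact hs.supp)
    (hs.supp.mono fun _ hx => hx.1) (hs.pos hρ) hT
    (z := fun b τ => cond b (z τ) (z (-τ))) (fun b τ => by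
      cases b
      · change (fun ε => z (-τ) ε * LL ε - EH K ε (fun x => T x * ((tw (dual ρ) τ).tH x).re))
          =o[𝓝[>] 0] LL
        simp only [tw_dual, Complex.conj_re]
        exact hz (-τ)
      · exact hz τ) (κ := κ ⊕ κ) (μ := μ)
    (p := fun k => Sum.elim (fun k => (true, p k)) (fun k => (false, p' k)) k) (by
      rintro (k | k) (k' | k') hkk
      · exact congrArg Sum.inl (hp (congrArg Prod.snd hkk))
      · exact absurd (congrArg Prod.fst hkk) (by simp)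
      · exact absurd (congrArg Prod.fst hkk) (by simp)
      · exact congrArg Sum.inr (hp' (congrArg Prod.snd hkk))) hq (Sum.elim a a') b hη
  filter_upwards [h] with ε h1
  rw [Fintype.sum_sum_type, Fintype.sum_sum_type] at h1
  simp only [Sum.elim_inl, Sum.elim_inr, cond_true, cond_false, neg_sub] at h1
  exact h1

/-- a single point -/
theorem wt_one (τ : ℝ) {η : ℝ} (hη : 0 < η) :
    ∀ᶠ ε : ℝ in 𝓝[>] 0, |z τ ε| ≤ N * Real.sqrt s.mean + η := by
  have h1 := wt_ineq hρ s hs hT hz (κ := Unit) (μ := Unit) (p := fun _ => τ) (q := fun _ => 0)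
    (fun _ _ _ => rfl) (fun _ _ _ => rfl) (fun _ => 1) (fun _ => 1) hη
  have h2 := wt_ineq hρ s hs hT hz (κ := Unit) (μ := Unit) (p := fun _ => τ) (q := fun _ => 0)
    (fun _ _ _ => rfl) (fun _ _ _ => rfl) (fun _ => 1) (fun _ => -1) hη
  filter_upwards [h1, h2] with ε h3 h4
  simp only [Finset.univ_unique, Finset.sum_const, Finset.card_singleton, one_smul,
    one_mul, mul_neg, neg_mul, sub_zero, one_pow, neg_sq] at h3 h4
  rw [abs_le]
  constructor
  · linarith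
  · linarith

/-- a single point, not self-dual -/
theorem wt_one2 (hn : NonDual ρ) (τ : ℝ) {η : ℝ} (hη : 0 < η) :
    ∀ᶠ ε : ℝ in 𝓝[>] 0, 2 * z τ ε ^ 2 ≤ (N * Real.sqrt s.mean) ^ 2 + η := by
  have hN : 0 ≤ N := bd_nonneg hT
  set C : ℝ := N * Real.sqrt s.mean with hC
  have hC0 : 0 ≤ C := by positivity
  have key : ∀ σ : ℝ, σ ^ 2 = 1 → ∀ η' : ℝ, 0 < η' → ∀ᶠ ε : ℝ in 𝓝[>] 0,
      2 * (σ * z τ ε) * Real.sqrt 2 ≤ C * 2 + η' := by
    intro σ hσ η' hη'
    have h := wt_ineq2 hρ s hs hT hz hn (κ := Unit) (μ := Unit) (p := fun _ => τ)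
      (p' := fun _ => -τ) (q := fun _ => 0) (fun _ _ _ => rfl) (fun _ _ _ => rfl)
      (fun _ _ _ => rfl) (fun _ => 1) (fun _ => 1) (fun _ => σ * Real.sqrt 2) hη'
    filter_upwards [h] with ε h1
    simp only [Finset.univ_unique, Finset.sum_const, Finset.card_singleton, one_smul,
      one_mul, sub_zero, one_pow, zero_sub, neg_neg] at h1
    have e1 : (σ * Real.sqrt 2) ^ 2 = 2 := by
      rw [mul_pow, hσ, one_mul, Real.sq_sqrt (by norm_num)]
    rw [e1] at h1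
    have e2 : C * ((1 + 1 + 2) / 2) = C * 2 := by ring
    rw [e2] at h1
    refine le_trans (le_of_eq ?_) h1
    ring
  -- choose the error
  set η' : ℝ := min 1 (η / (2 * C + 2)) with hη'
  have hη'0 : 0 < η' := lt_min one_pos (by positivity)
  filter_upwards [key 1 (by norm_num) η' hη'0, key (-1) (by norm_num) η' hη'0] with ε h1 h2
  have h2' : 0 < Real.sqrt 2 := Real.sqrt_pos.2 (by norm_num)
  have hs2 : Real.sqrt 2 ^ 2 = 2 := Real.sq_sqrt (by norm_num)
  have h3 : |z τ ε| * Real.sqrt 2 ≤ C + η' / 2 := by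
    rcases abs_cases (z τ ε) with ⟨h, _⟩ | ⟨h, _⟩
    · rw [h]; linarith
    · rw [h]; linarith
  have h4 : (|z τ ε| * Real.sqrt 2) ^ 2 ≤ (C + η' / 2) ^ 2 :=
    pow_le_pow_left₀ (by positivity) h3 2
  rw [mul_pow, hs2, sq_abs] at h4
  have h5 : η' ≤ 1 := min_le_left _ _
  have h6 : η' * (2 * C + 2) ≤ η := by
    have : η' ≤ η / (2 * C + 2) := min_le_right _ _
    rwa [le_div_iff₀ (by positivity)] at this
  nlinarith

/-- **The orders.** -/
theorem wt_orders {w : ℝ → ℤ} (hw : ∀ τ, Tendsto (z τ) (𝓝[>] 0) (𝓝 (-(w τ : ℝ)))) :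
    ∃ S : Finset ℝ, (∀ τ, τ ∈ S ↔ w τ ≠ 0) ∧
      (∑ τ ∈ S, (w τ : ℝ) ^ 2 ≤ N ^ 2 * s.mean) ∧
      (∀ x : ℝ, ‖∑ τ ∈ S, (w τ : ℂ) * exp (τ * x * I)‖ ≤ N * Real.sqrt s.mean) ∧
      (2 ≤ S.card → ∑ τ ∈ S, (w τ : ℝ) ^ 2 + 2 ≤ N ^ 2 * s.mean) ∧
      (NonDual ρ → 2 * ∑ τ ∈ S, (w τ : ℝ) ^ 2 ≤ N ^ 2 * s.mean ∧
        (2 ≤ S.card → 2 * (∑ τ ∈ S, (w τ : ℝ) ^ 2 + 2) ≤ N ^ 2 * s.mean)) := by
  classical
  have hN : 0 ≤ N := bd_nonneg hT
  have hδ : 0 < s.mean := hs.pos hρ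
  set m : ℝ → ℝ := fun τ => (w τ : ℝ) with hm
  set C : ℝ := N * Real.sqrt s.mean with hC
  have hC0 : 0 ≤ C := by positivity
  have hC2 : C ^ 2 = N ^ 2 * s.mean := by
    rw [hC, mul_pow, Real.sq_sqrt hδ.le]
  have key : ∀ (κ μ : Type) [Fintype κ] [Fintype μ] (p : κ → ℝ) (q : μ → ℝ),
      Function.Injective p → Function.Injective q → ∀ (a : κ → ℝ) (b : μ → ℝ),
      ∑ k, ∑ l, a k * b l * m (p k - q l) ≤ C * ((∑ k, a k ^ 2 + ∑ l, b l ^ 2) / 2) := by
    intro κ μ _ _ p q hp hq a b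
    refine le_of_forall_pos_le_add fun η hη => ?_
    have h1 := wt_ineq hρ s hs hT hz hp hq (fun k => -a k) b hη
    have h2 : Tendsto (fun ε => ∑ k, ∑ l, -a k * b l * z (p k - q l) ε) (𝓝[>] 0)
        (𝓝 (∑ k, ∑ l, -a k * b l * -(w (p k - q l) : ℝ))) :=
      tendsto_finsetSum _ fun k _ => tendsto_finsetSum _ fun l _ =>
        (hw (p k - q l)).const_mul _
    have h3 := le_of_tendsto h2 h1
    have e1 : ∑ k, ∑ l, -a k * b l * -(w (p k - q l) : ℝ) = ∑ k, ∑ l, a k * b l * m (p k - q l) := by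
      refine Finset.sum_congr rfl fun k _ => Finset.sum_congr rfl fun l _ => ?_
      rw [hm]
      ring
    rw [e1] at h3
    simp only [neg_sq] at h3
    exact h3
  have key2 : NonDual ρ → ∀ (κ μ : Type) [Fintype κ] [Fintype μ] (p p' : κ → ℝ) (q : μ → ℝ),
      Function.Injective p → Function.Injective p' → Function.Injective q →
      ∀ (a a' : κ → ℝ) (b : μ → ℝ),
      ∑ k, ∑ l, a k * b l * m (p k - q l) + ∑ k, ∑ l, a' k * b l * m (q l - p' k) ≤
        C * ((∑ k, a k ^ 2 + ∑ k, a' k ^ 2 + ∑ l, b l ^ 2) / 2) := by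
    intro hn κ μ _ _ p p' q hp hp' hq a a' b
    refine le_of_forall_pos_le_add fun η hη => ?_
    have h1 := wt_ineq2 hρ s hs hT hz hn hp hp' hq (fun k => -a k) (fun k => -a' k) b hη
    have h2 : Tendsto (fun ε => ∑ k, ∑ l, -a k * b l * z (p k - q l) ε +
        ∑ k, ∑ l, -a' k * b l * z (q l - p' k) ε) (𝓝[>] 0)
        (𝓝 (∑ k, ∑ l, -a k * b l * -(w (p k - q l) : ℝ) +
          ∑ k, ∑ l, -a' k * b l * -(w (q l - p' k) : ℝ))) :=
      (tendsto_finsetSum _ fun k _ => tendsto_finsetSum _ fun l _ =>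
        (hw (p k - q l)).const_mul _).add
      (tendsto_finsetSum _ fun k _ => tendsto_finsetSum _ fun l _ =>
        (hw (q l - p' k)).const_mul _)
    have h3 := le_of_tendsto h2 h1
    have e1 : ∑ k, ∑ l, -a k * b l * -(w (p k - q l) : ℝ) +
          ∑ k, ∑ l, -a' k * b l * -(w (q l - p' k) : ℝ) =
        ∑ k, ∑ l, a k * b l * m (p k - q l) + ∑ k, ∑ l, a' k * b l * m (q l - p' k) := by
      congr 1
      · refine Finset.sum_congr rfl fun k _ => Finset.sum_congr rfl fun l _ => ?_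
        rw [hm]
        ring
      · refine Finset.sum_congr rfl fun k _ => Finset.sum_congr rfl fun l _ => ?_
        rw [hm]
        ring
    rw [e1] at h3
    simp only [neg_sq] at h3
    exact h3
  have hsq := fun S => sq_of_key hC0 key S
  have hfin : {τ : ℝ | w τ ≠ 0}.Finite := by
    by_contra hinf
    obtain ⟨n, hn⟩ := exists_nat_gt (C ^ 2)
    obtain ⟨T, hT1, hT2⟩ := (Set.not_finite.1 hinf).exists_subset_card_eq n
    have h5 := hsq T
    have h6 : ∑ _τ ∈ T, (1 : ℝ) ≤ ∑ τ ∈ T, m τ ^ 2 := Finset.sum_le_sum fun τ hτ => by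
      have h7 : w τ ≠ 0 := hT1 (Finset.mem_coe.2 hτ)
      rw [hm]
      simp only
      have h8 : (1 : ℤ) ≤ (w τ) ^ 2 := by
        have := Int.one_le_abs h7
        rw [← sq_abs]
        nlinarith
      exact_mod_cast h8
    rw [Finset.sum_const, hT2, nsmul_eq_mul, mul_one] at h6
    linarith
  have hmem : ∀ τ, τ ∈ hfin.toFinset ↔ w τ ≠ 0 := fun τ => by
    rw [Set.Finite.mem_toFinset, Set.mem_ofPred_eq]
  set S := hfin.toFinset with hS
  -- the extreme points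
  have hext : ∀ E : ℝ, (∀ ω : ℝ, ω ≠ 0 → ∀ (n : ℕ) (κ : Type) [Fintype κ] (p : κ → ℝ),
      Function.Injective p → ∀ s : ℝ, s ^ 2 = 1 →
      ∑ k, (∑ l : Fin (n + 1), s ^ (l : ℕ) * m (p k - (l : ℕ) * ω)) ^ 2 ≤ E * (n + 1)) →
      2 ≤ S.card → ∑ τ ∈ S, (w τ : ℝ) ^ 2 + 2 ≤ E := by
    intro E H hcard
    have hne : S.Nonempty := Finset.card_pos.1 (by omega)
    set τ₁ := S.min' hne with hτ₁
    set τ₂ := S.max' hne with hτ₂
    have h12 : τ₁ < τ₂ := Finset.min'_lt_max'_of_card S (by omega)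
    have h1 : τ₁ ∈ S := Finset.min'_mem S hne
    have h2 : τ₂ ∈ S := Finset.max'_mem S hne
    have hSm : ∀ τ ∈ S, τ₁ ≤ τ ∧ τ ≤ τ₂ := fun τ hτ =>
      ⟨Finset.min'_le S τ hτ, Finset.le_max' S τ hτ⟩
    have h3 := ext_core (m := m) (E := E) S h12 h1 h2 (fun τ hτ => hSm τ ((hmem τ).2 (by
      intro h0
      apply hτ
      rw [hm]
      simp only
      rw [h0, Int.cast_zero]))) hSm (fun n κ _ p hp s hs => H _ (sub_ne_zero.2 h12.ne') n κ p hp s hs)
    have h4 : (1 : ℝ) ≤ |m τ₁ * m τ₂| := by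
      have h5 := (hmem τ₁).1 h1
      have h6 := (hmem τ₂).1 h2
      have h7 : (1 : ℤ) ≤ |w τ₁ * w τ₂| := Int.one_le_abs (mul_ne_zero h5 h6)
      rw [hm]
      simp only
      exact_mod_cast h7
    linarith
  refine ⟨S, hmem, ?_, fun x => ?_, fun hcard => ?_, fun hn => ⟨?_, fun hcard => ?_⟩⟩
  · rw [← hC2]
    exact hsq _
  · have hS0 : ∀ τ ∉ S, m τ = 0 := by
      intro τ hτ
      rw [hmem, not_not] at hτ
      rw [hm]
      simp only
      rw [hτ, Int.cast_zero]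
    set Z : ℂ := ∑ τ ∈ S, (w τ : ℂ) * exp (τ * x * I) with hZ
    have h1 := fourier_le (fun F a b a' b' => key_of key F a b a' b') S hS0 x (-(Z.arg))
    have h2 : ∑ τ ∈ S, m τ * Real.cos (τ * x + -Z.arg) = (Z * exp (-(Z.arg) * I)).re := by
      rw [hZ, Finset.sum_mul, Complex.re_sum]
      refine Finset.sum_congr rfl fun τ _ => ?_
      rw [mul_assoc, ← Complex.exp_add]
      have e1 : (τ : ℂ) * x * I + -((Z.arg : ℝ) : ℂ) * I = ((τ * x + -Z.arg : ℝ) : ℂ) * I := by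
        push_cast
        ring
      rw [← hZ, e1]
      have e2 : ((w τ : ℂ)) = ((m τ : ℝ) : ℂ) := by
        rw [hm]
        push_cast
        rfl
      rw [e2, Complex.re_ofReal_mul, Complex.exp_ofReal_mul_I_re]
    have h3 : Z * exp (-(Z.arg) * I) = ((‖Z‖ : ℝ) : ℂ) := by
      nth_rewrite 1 [← Complex.norm_mul_exp_arg_mul_I Z]
      rw [mul_assoc, ← Complex.exp_add]
      have : (Z.arg : ℂ) * I + -(Z.arg : ℂ) * I = 0 := by ring
      rw [this, Complex.exp_zero, mul_one]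
    rw [h2, h3, Complex.ofReal_re] at h1
    exact h1
  · rw [← hC2]
    exact hext (C ^ 2) (fun ω hω n κ _ p hp s hs => H_of_key hC0 key hω n κ p hp s hs) hcard
  · rw [← hC2]
    exact sq_of_key2 hC0 (key2 hn) S
  · have h5 := hext (C ^ 2 / 2) (fun ω hω n κ _ p hp s hs =>
      H_of_key2 hC0 (key2 hn) hω n κ p hp s hs) hcard
    rw [← hC2]
    linarith

end data

end

end Pool.Agent.Helper29X1.WG.SF
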