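import Pool.Agent.Helper29X1.WG.WtB

/-!
# Weights which dominate the support of a representation: examples, elliptic curves, varieties
-/

set_option autoImplicit false
set_option linter.unusedSectionVars false

namespace Pool.Agent.Helper29X1.WG.SF

open NumberField Complex Filter Topology IsDedekindDomain Asymptotics Polynomial
open Pool.Agent.W353.EF (LFun size IsFrobenius)
open Pool.Agent.W353.TP (HX sysH LL LL_tendsto bdd_isLittleO lamS_sub push res card_hom_le)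
open Pool.Agent.W353.NF (vx)
open Pool.Agent.W540.BE (nm two_le_nm trv)
open Pool.Agent.Y149.Ord (HasOrder tendsto_size)
open Pool.Agent.N172.HS
open scoped ComplexConjugate

section

variable {K : Type} [Field K] [NumberField K]

/-- The weight of one field `F` with coefficient `c`. -/
noncomputable def Wts.single (K F : Type) [Field K] [NumberField K] [Field F] [NumberField F]
    [Algebra K F] (c : ℝ) : Wts K where
  J := Unit
  F := fun _ => F
  c := fun _ => c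

theorem Wts.single_mean (F : Type) [Field F] [NumberField F] [Algebra K F] (c : ℝ) :
    (Wts.single K F c).mean = c := by
  change ∑ _j : Unit, c = c
  simp

theorem Wts.single_wt (F : Type) [Field F] [NumberField F] [Algebra K F] (c : ℝ)
    (v : HeightOneSpectrum (𝓞 K)) :
    (Wts.single K F c).wt v = c * ((above F v).ncard : ℝ) := by
  change ∑ _j : Unit, c * ((above F v).ncard : ℝ) = _
  simp

theorem above_self (v : HeightOneSpectrum (𝓞 K)) : above K v = {v} := by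
  ext w
  rw [Set.mem_singleton_iff]
  constructor
  · rintro ⟨h1, -⟩
    refine HeightOneSpectrum.ext ?_
    rw [← h1]
    ext a
    rw [Ideal.mem_comap]
    rfl
  · rintro rfl
    refine ⟨?_, rfl⟩
    ext a
    rw [Ideal.mem_comap]
    rfl

/-- the constant weight -/
theorem one_dom (ρ : WRep K) : (Wts.single K K 1).Dom ρ := by
  refine Eventually.of_forall fun v _ => ?_
  rw [Wts.single_wt, above_self, Set.ncard_singleton]
  norm_num

/-- **The weight of an extension with many automorphisms.**  If the trace of `ρ` is zero at the primes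
without a prime of degree one in `F`, and `F` has `r` automorphisms over `K`, then the weight
`n_F(v) / r`, with mean value `1 / r`, dominates the support of `ρ`. -/
theorem aut_dom {F : Type} [Field F] [NumberField F] [Algebra K F] {ρ : WRep K}
    (hF : ∀ᶠ v in cofinite, above F v = ∅ → ρ.trace v = 0) :
    (Wts.single K F (1 / (Nat.card (F ≃ₐ[K] F) : ℝ))).Dom ρ := by
  classical
  have hr0 : (0 : ℝ) < Nat.card (F ≃ₐ[K] F) := by exact_mod_cast naut_pos (K := K) (F := F)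
  have h1 := cnt_ge (K := K) (F := F)
  rw [Filter.eventually_cofinite] at h1
  have h2 : ∀ᶠ v : HeightOneSpectrum (𝓞 K) in cofinite, v ∉ vx '' {x : HX K |
      ¬ (cnt F x = 0 ∨ (naut K F : ℝ) ≤ cnt F x)} := by
    rw [Filter.eventually_cofinite]
    refine (h1.image vx).subset fun v hv => ?_
    rw [Set.mem_ofPred_eq, not_not] at hv
    exact hv
  unfold Wts.Dom
  filter_upwards [hF, h2] with v h3 h4 hv
  obtain ⟨x, rfl⟩ := exists_vx v hv
  have h5 : cnt F x = 0 ∨ (naut K F : ℝ) ≤ cnt F x := by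
    by_contra hcon
    exact h4 ⟨x, hcon, rfl⟩
  rw [Wts.single_wt, ncard_above]
  refine ⟨mul_nonneg (by positivity) (cnt_nonneg x), fun hne => ?_⟩
  rcases h5 with h5 | h5
  · exact absurd (h3 (above_empty h5)) hne
  · have h6 : (Nat.card (F ≃ₐ[K] F) : ℝ) ≤ cnt F x := h5
    rw [one_div, inv_mul_eq_div, le_div_iff₀ hr0, one_mul]
    exact h6

/-- the induced representation -/
noncomputable def ind {F : Type} [Field F] [NumberField F] [Algebra K F] {𝔣 : Ideal (𝓞 F)}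
    {k : (F →+* ℂ) → ℤ} {t : (F →+* ℂ) → ℝ} {χ : Ideal (𝓞 F) →*₀ ℂ} (h : IsHecke 𝔣 k t χ) :
    WRep K where
  r := 1
  F := fun _ => F
  fld := fun _ => inferInstance
  nf := fun _ => inferInstance
  alg := fun _ => inferInstance
  𝔣 := fun _ => 𝔣
  k := fun _ => k
  t := fun _ => t
  χ := fun _ => χ
  hecke := fun _ => h
  c := fun _ => 1

/-- the trace of an induced representation -/
theorem ind_supp {F : Type} [Field F] [NumberField F] [Algebra K F] {𝔣 : Ideal (𝓞 F)}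
    {k : (F →+* ℂ) → ℤ} {t : (F →+* ℂ) → ℝ} {χ : Ideal (𝓞 F) →*₀ ℂ} (h : IsHecke 𝔣 k t χ)
    (v : HeightOneSpectrum (𝓞 K)) (hv : above F v = ∅) : (ind (K := K) h).trace v = 0 := by
  change ∑ _j : Fin 1, (((1 : ℤ) : ℂ)) * indTrace χ v = 0
  unfold indTrace
  rw [hv]
  simp

/-- the combinatorics for elliptic curves -/
theorem count_two {S : Finset ℝ} {m : ℝ → ℤ} {δ : ℝ} (hδ : δ ≤ 1) (hS : ∀ τ, τ ∈ S ↔ m τ ≠ 0)
    (h0 : 0 ≤ δ) (h1 : ∑ τ ∈ S, (m τ : ℝ) ^ 2 ≤ 2 ^ 2 * δ)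
    (h2 : 2 ≤ S.card → ∑ τ ∈ S, (m τ : ℝ) ^ 2 + 2 ≤ 2 ^ 2 * δ) :
    ((∑ τ ∈ S, |m τ| : ℤ) : ℝ) ^ 2 ≤ 4 * δ := by
  rcases Nat.lt_or_ge S.card 2 with hc | hc
  · rcases Nat.lt_or_ge S.card 1 with hc0 | hc0
    · have : S = ∅ := Finset.card_eq_zero.1 (by omega)
      rw [this]
      simp
      linarith
    · obtain ⟨τ, hτ⟩ := Finset.card_eq_one.1 (by omega : S.card = 1)
      rw [hτ, Finset.sum_singleton] at h1
      rw [hτ, Finset.sum_singleton]
      push_cast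
      rw [sq_abs]
      linarith
  · have h3 := h2 hc
    have h4 : ∀ τ ∈ S, (1 : ℝ) ≤ (m τ : ℝ) ^ 2 := fun τ hτ => by
      have h5 := Int.one_le_abs ((hS τ).1 hτ)
      have h6 : (1 : ℤ) ≤ (m τ) ^ 2 := by
        rw [← sq_abs]
        nlinarith
      exact_mod_cast h6
    have h5 : ∀ τ ∈ S, (|m τ| : ℤ) ≤ (m τ) ^ 2 := fun τ hτ => by
      have h6 := Int.one_le_abs ((hS τ).1 hτ)
      rw [← sq_abs]
      nlinarith
    have h6 := Finset.sum_le_sum h4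
    have h7 := Finset.sum_le_sum h5
    rw [Finset.sum_const, nsmul_eq_mul, mul_one] at h6
    have h8 : (2 : ℝ) ≤ S.card := by exact_mod_cast hc
    have h9 : ((∑ τ ∈ S, |m τ| : ℤ) : ℝ) ≤ ∑ τ ∈ S, (m τ : ℝ) ^ 2 := by exact_mod_cast h7
    have h10 : (0 : ℝ) ≤ ((∑ τ ∈ S, |m τ| : ℤ) : ℝ) := by
      have : (0 : ℤ) ≤ ∑ τ ∈ S, |m τ| := Finset.sum_nonneg fun _ _ => abs_nonneg _
      exact_mod_cast this
    set A : ℝ := ∑ τ ∈ S, (m τ : ℝ) ^ 2 with hA
    have hA2 : 2 ≤ A := h8.trans h6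
    have hA3 : A ≤ 2 := by linarith
    nlinarith

/-- the combinatorics for elliptic curves, second form -/
theorem count_one {S : Finset ℝ} {m : ℝ → ℤ} {δ : ℝ} (hδ : δ ≤ 1) (hS : ∀ τ, τ ∈ S ↔ m τ ≠ 0)
    (h0 : 0 ≤ δ) (h1 : 2 * ∑ τ ∈ S, (m τ : ℝ) ^ 2 ≤ 2 ^ 2 * δ)
    (h2 : 2 ≤ S.card → 2 * (∑ τ ∈ S, (m τ : ℝ) ^ 2 + 2) ≤ 2 ^ 2 * δ) :
    ((∑ τ ∈ S, |m τ| : ℤ) : ℝ) ^ 2 ≤ 2 * δ := by
  rcases Nat.lt_or_ge S.card 2 with hc | hc
  · rcases Nat.lt_or_ge S.card 1 with hc0 | hc0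
    · have : S = ∅ := Finset.card_eq_zero.1 (by omega)
      rw [this]
      simp
      linarith
    · obtain ⟨τ, hτ⟩ := Finset.card_eq_one.1 (by omega : S.card = 1)
      rw [hτ, Finset.sum_singleton] at h1
      rw [hτ, Finset.sum_singleton]
      push_cast
      rw [sq_abs]
      linarith
  · exfalso
    have h3 := h2 hc
    have h4 : ∀ τ ∈ S, (1 : ℝ) ≤ (m τ : ℝ) ^ 2 := fun τ hτ => by
      have h5 := Int.one_le_abs ((hS τ).1 hτ)
      have h6 : (1 : ℤ) ≤ (m τ) ^ 2 := by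
        rw [← sq_abs]
        nlinarith
      exact_mod_cast h6
    have h6 := Finset.sum_le_sum h4
    rw [Finset.sum_const, nsmul_eq_mul, mul_one] at h6
    have h8 : (2 : ℝ) ≤ S.card := by exact_mod_cast hc
    linarith

/-- The Euler factors of `L(E ⊗ ρ, s)`, without zeros on the circle of radius `q_v^{-3/2}`. -/
def IsTwistLine (W : WeierstrassCurve (𝓞 K)) (ρ : WRep K)
    (B : HeightOneSpectrum (𝓞 K) → ℂ[X]) : Prop :=
  (∃ M : ℕ, ∀ᶠ v in cofinite, ∃ γ : Fin M → ℂ, (∀ l, ‖γ l‖ = 1) ∧ ∑ l, γ l = ρ.trace v ∧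
    ∀ z : ℂ, (B v).eval z = ∏ l, (1 - (trv W v : ℂ) * (γ l * z) +
      (Ideal.absNorm v.asIdeal : ℂ) * (γ l * z) ^ 2)) ∧
  ∀ (v : HeightOneSpectrum (𝓞 K)) (τ : ℝ),
    (B v).eval ((Ideal.absNorm v.asIdeal : ℂ) ^ (-(3 / 2 + τ * I : ℂ))) ≠ 0

theorem twist_shift {W : WeierstrassCurve (𝓞 K)} {ρ : WRep K}
    {B : HeightOneSpectrum (𝓞 K) → ℂ[X]} (hB : IsTwistLine W ρ B) (τ : ℝ) :
    IsTwist W (tw ρ τ) (shift τ B) := by
  obtain ⟨⟨M, hM⟩, hB2⟩ := hB
  refine ⟨⟨M, ?_⟩, fun v => ?_⟩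
  · filter_upwards [hM] with v hv
    obtain ⟨γ, h2, h3, h4⟩ := hv
    refine ⟨fun l => γ l * (Ideal.absNorm v.asIdeal : ℂ) ^ (-(τ * I : ℂ)), fun l => ?_,
      ?_, fun z => ?_⟩
    · rw [norm_mul, h2, norm_N, one_mul]
    · rw [tw_trace, ← h3, Finset.sum_mul]
    · rw [shift_eval, h4]
      refine Finset.prod_congr rfl fun l _ => ?_
      ring
  · rw [shift_eval, ← cpow_add _ _ (absNorm_ne v)]
    have e : (-(τ * I : ℂ)) + (-((1 : ℕ) : ℂ) / 2 - 1) = -(3 / 2 + τ * I : ℂ) := by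
      push_cast
      ring
    rw [e]
    exact hB2 v τ

section ec

variable (W : WeierstrassCurve (𝓞 K)) (hΔ : W.Δ ≠ 0) {ρ : WRep K} (hρ : ρ.IsIrr)
  {B : HeightOneSpectrum (𝓞 K) → ℂ[X]} (hB : IsTwistLine W ρ B)

include hΔ hB

theorem ec_hz (τ : ℝ) : (fun ε => size 1 (shift τ B) ε * LL ε -
    EH K ε (fun x => TE W (vx x) * ((tw ρ τ).tH x).re)) =o[𝓝[>] 0] LL :=
  (twist_size W hΔ (twist_shift hB τ)).2

include hρ

theorem ec_one (s : Wts K) (hs : s.Dom ρ) (τ : ℝ) {η : ℝ} (hη : 0 < η) :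
    ∀ᶠ ε : ℝ in 𝓝[>] 0, size 1 (shift τ B) ε ^ 2 ≤ 4 * s.mean + η := by
  have hδ : 0 < s.mean := hs.pos hρ
  set C : ℝ := 2 * Real.sqrt s.mean with hC
  have hC0 : 0 ≤ C := by positivity
  have hC2 : C ^ 2 = 4 * s.mean := by
    rw [hC, mul_pow, Real.sq_sqrt hδ.le]
    norm_num
  set η' : ℝ := min 1 (η / (2 * C + 1)) with hη'
  have hη'0 : 0 < η' := lt_min one_pos (by positivity)
  filter_upwards [wt_one hρ s hs (T := fun x => TE W (vx x)) (N := 2) (fun x => abs_TE W _)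
    (z := fun τ => size 1 (shift τ B)) (ec_hz W hΔ hB) τ hη'0] with ε h1
  have h4 : |size 1 (shift τ B) ε| ^ 2 ≤ (C + η') ^ 2 := pow_le_pow_left₀ (abs_nonneg _) h1 2
  rw [sq_abs] at h4
  have h5 : η' ≤ 1 := min_le_left _ _
  have h6 : η' * (2 * C + 1) ≤ η := by
    have : η' ≤ η / (2 * C + 1) := min_le_right _ _
    rwa [le_div_iff₀ (by positivity)] at this
  rw [← hC2]
  nlinarith

theorem ec_one2 (s : Wts K) (hs : s.Dom ρ) (hn : NonDual ρ) (τ : ℝ) {η : ℝ} (hη : 0 < η) :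
    ∀ᶠ ε : ℝ in 𝓝[>] 0, size 1 (shift τ B) ε ^ 2 ≤ 2 * s.mean + η := by
  have hδ : 0 < s.mean := hs.pos hρ
  filter_upwards [wt_one2 hρ s hs (T := fun x => TE W (vx x)) (N := 2) (fun x => abs_TE W _)
    (z := fun τ => size 1 (shift τ B)) (ec_hz W hΔ hB) hn τ hη] with ε h1
  rw [mul_pow, Real.sq_sqrt hδ.le] at h1
  linarith

theorem ec_count (s : Wts K) (hs : s.Dom ρ) {m : ℝ → ℤ}
    (hm : ∀ τ, HasOrder 1 (shift τ B) (m τ)) :
    ∃ S : Finset ℝ, (∀ τ, τ ∈ S ↔ m τ ≠ 0) ∧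
      ((∑ τ ∈ S, |m τ| : ℤ) : ℝ) ^ 2 ≤ 4 * min 1 s.mean ∧
      (NonDual ρ → ((∑ τ ∈ S, |m τ| : ℤ) : ℝ) ^ 2 ≤ 2 * min 1 s.mean) := by
  have key : ∀ s : Wts K, s.Dom ρ → s.mean ≤ 1 → ∀ S : Finset ℝ, (∀ τ, τ ∈ S ↔ m τ ≠ 0) →
      ((∑ τ ∈ S, |m τ| : ℤ) : ℝ) ^ 2 ≤ 4 * s.mean ∧
      (NonDual ρ → ((∑ τ ∈ S, |m τ| : ℤ) : ℝ) ^ 2 ≤ 2 * s.mean) := by
    intro s hs hδ S hS
    obtain ⟨S', h1, h2, _, h4, h5⟩ := wt_orders hρ s hs (T := fun x => TE W (vx x)) (N := 2)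
      (fun x => abs_TE W _) (z := fun τ => size 1 (shift τ B)) (ec_hz W hΔ hB) (w := m)
      (fun τ => tendsto_size (hm τ))
    have hSS : S' = S := by
      ext τ
      rw [h1, hS]
    subst hSS
    have h0 := (hs.pos hρ).le
    exact ⟨count_two hδ h1 h0 h2 h4, fun hn => count_one hδ h1 h0 (h5 hn).1 (h5 hn).2⟩
  obtain ⟨S, h1, -⟩ := wt_orders hρ s hs (T := fun x => TE W (vx x)) (N := 2)
      (fun x => abs_TE W _) (z := fun τ => size 1 (shift τ B)) (ec_hz W hΔ hB) (w := m)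
      (fun τ => tendsto_size (hm τ))
  refine ⟨S, h1, ?_⟩
  rcases le_total s.mean 1 with h | h
  · rw [min_eq_right h]
    exact key s hs h S h1
  · rw [min_eq_left h]
    have h2 := key (Wts.single K K 1) (one_dom ρ) (by rw [Wts.single_mean]) S h1
    rwa [Wts.single_mean] at h2

theorem ec_sizes (s : Wts K) (hs : s.Dom ρ) (τ : ℝ) {η : ℝ} (hη : 0 < η) :
    ∀ᶠ ε : ℝ in 𝓝[>] 0, size 1 (shift τ B) ε ^ 2 ≤ 4 * min 1 s.mean + η ∧
      (NonDual ρ → size 1 (shift τ B) ε ^ 2 ≤ 2 * min 1 s.mean + η) := by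
  have key : ∀ s : Wts K, s.Dom ρ → ∀ᶠ ε : ℝ in 𝓝[>] 0,
      size 1 (shift τ B) ε ^ 2 ≤ 4 * s.mean + η ∧
      (NonDual ρ → size 1 (shift τ B) ε ^ 2 ≤ 2 * s.mean + η) := by
    intro s hs
    by_cases hn : NonDual ρ
    · filter_upwards [ec_one W hΔ hρ hB s hs τ hη, ec_one2 W hΔ hρ hB s hs hn τ hη] with ε h1 h2
      exact ⟨h1, fun _ => h2⟩
    · filter_upwards [ec_one W hΔ hρ hB s hs τ hη] with ε h1
      exact ⟨h1, fun h => absurd h hn⟩
  rcases le_total s.mean 1 with h | h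
  · rw [min_eq_right h]
    exact key s hs
  · rw [min_eq_left h]
    have h2 := key (Wts.single K K 1) (one_dom ρ)
    rwa [Wts.single_mean] at h2

end ec

end

end Pool.Agent.Helper29X1.WG.SF
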