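import Pool.Agent.Helper29X1.WG.WtC

/-!
# Weights which dominate the support of a representation: varieties
-/

set_option autoImplicit false
set_option linter.unusedSectionVars false

namespace Pool.Agent.Helper29X1.WG.SF

open NumberField Complex Filter Topology IsDedekindDomain Asymptotics Polynomial
open Pool.Agent.W353.EF (LFun size IsFrobenius)
open Pool.Agent.W353.TP (HX sysH LL LL_tendsto bdd_isLittleO lamS_sub push res card_hom_le)
open Pool.Agent.W353.NF (vx)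
open Pool.Agent.Y149.Ord (HasOrder tendsto_size)
open Pool.Agent.N172.HS
open scoped ComplexConjugate

section

variable {K : Type} [Field K] [NumberField K]

/-- The Euler factors of `L(H' ⊗ ρ, s)`, where `H^i(X) = θ(-i/2) ⊕ H'` and `dim H' = N'` (for `θ = 0` and
`N'` the Betti number, `H' = H^i(X)`): at almost all primes `v` the polynomial `B v` is
`∏ (1 - β_j γ_l z)` with numbers `β_j`, `j < N'`, of absolute value `q_v^{i/2}`, whose sum is the trace of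
the geometric Frobenius on `H^i(X)` minus `q_v^{i/2} tr θ`, `tr θ` real, and numbers `γ_l` of absolute
value one with the sum `tr ρ`; at the other primes `B v` is an arbitrary polynomial without zeros on
the circle `|z| = q_v^{-i/2-1}`. -/
def IsPartLine (X : Variety K) (i : ℕ) (θ : WRep K) (N' : ℕ) (ρ : WRep K)
    (B : HeightOneSpectrum (𝓞 K) → ℂ[X]) : Prop :=
  (∃ M : ℕ, ∀ᶠ v in cofinite, ∃ (α : Fin (X.betti i) → ℂ) (β : Fin N' → ℂ) (γ : Fin M → ℂ),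
    IsFrobenius X.eqs X.dim i v α ∧ (θ.trace v).im = 0 ∧
    (∀ j, ‖β j‖ = (Ideal.absNorm v.asIdeal : ℝ) ^ ((i : ℝ) / 2)) ∧
    ∑ j, α j = (Ideal.absNorm v.asIdeal : ℂ) ^ ((i : ℂ) / 2) * θ.trace v + ∑ j, β j ∧
    (∀ l, ‖γ l‖ = 1) ∧ ∑ l, γ l = ρ.trace v ∧
    ∀ z : ℂ, (B v).eval z = ∏ j, ∏ l, (1 - β j * γ l * z)) ∧
  ∀ (v : HeightOneSpectrum (𝓞 K)) (τ : ℝ),
    (B v).eval ((Ideal.absNorm v.asIdeal : ℂ) ^ (-((i : ℂ) / 2 + 1 + τ * I))) ≠ 0

/-- the trivial representation -/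
noncomputable def triv (K : Type) [Field K] [NumberField K] : WRep K :=
  ind (K := K) (isHecke_unit K)

theorem triv_trace (v : HeightOneSpectrum (𝓞 K)) : (triv K).trace v = 1 := by
  change ∑ _j : Fin 1, (((1 : ℤ) : ℂ)) * indTrace (unitChar K) v = 1
  unfold indTrace
  rw [above_self, finsum_mem_singleton]
  have h : ((unitChar K) v.asIdeal) = 1 := by
    unfold unitChar
    simp [v.ne_bot]
  rw [h]
  simp

theorem triv_tH (x : HX K) : (triv K).tH x = 1 := by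
  rw [← WRep.trace_vx, triv_trace]

theorem part_pair {X : Variety K} {i : ℕ} {θ : WRep K} {N' : ℕ} {ρ : WRep K}
    {B : HeightOneSpectrum (𝓞 K) → ℂ[X]} (hB : IsPartLine X i θ N' ρ B) :
    IsPairLine X i θ N' ρ (triv K) B := by
  obtain ⟨⟨M, hM⟩, hB0⟩ := hB
  refine ⟨⟨M, 1, ?_⟩, hB0⟩
  filter_upwards [hM] with v hv
  obtain ⟨α, β, γ, h1, h2, h3, h4, h5, h6, h7⟩ := hv
  refine ⟨α, β, γ, fun _ => 1, h1, h2, h3, h4, h5, fun _ => norm_one, h6, ?_, fun z => ?_⟩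
  · rw [triv_trace]
    simp
  · rw [h7]
    refine Finset.prod_congr rfl fun j _ => Finset.prod_congr rfl fun l _ => ?_
    simp

section var

variable {X : Variety K} {i : ℕ} (hi : i ≤ 2 * X.dim) {θ : WRep K} {N' : ℕ} {ρ : WRep K}
  (hρ : ρ.IsIrr) {B : HeightOneSpectrum (𝓞 K) → ℂ[X]} (hB : IsPartLine X i θ N' ρ B)

include hi hB

theorem var_hz (τ : ℝ) : (fun ε => size i (shift τ B) ε * LL ε -
    EH K ε (fun x => cut X i θ N' x * ((tw ρ τ).tH x).re)) =o[𝓝[>] 0] LL := by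
  have h := (pairline_size hi (part_pair hB) τ).2
  simp only [triv_tH, map_one, mul_one] at h
  exact h

include hρ

theorem var_one (s : Wts K) (hs : s.Dom ρ) (τ : ℝ) {η : ℝ} (hη : 0 < η) :
    ∀ᶠ ε : ℝ in 𝓝[>] 0, size i (shift τ B) ε ^ 2 ≤ (N' : ℝ) ^ 2 * s.mean + η := by
  have hδ : 0 < s.mean := hs.pos hρ
  set C : ℝ := N' * Real.sqrt s.mean with hC
  have hC0 : 0 ≤ C := by positivity
  have hC2 : C ^ 2 = (N' : ℝ) ^ 2 * s.mean := by
    rw [hC, mul_pow, Real.sq_sqrt hδ.le]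
  set η' : ℝ := min 1 (η / (2 * C + 1)) with hη'
  have hη'0 : 0 < η' := lt_min one_pos (by positivity)
  filter_upwards [wt_one hρ s hs (T := cut X i θ N') (N := N') (fun x => abs_cut X i θ N' x)
    (z := fun τ => size i (shift τ B)) (var_hz hi hB) τ hη'0] with ε h1
  have h4 : |size i (shift τ B) ε| ^ 2 ≤ (C + η') ^ 2 := pow_le_pow_left₀ (abs_nonneg _) h1 2
  rw [sq_abs] at h4
  have h5 : η' ≤ 1 := min_le_left _ _
  have h6 : η' * (2 * C + 1) ≤ η := by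
    have : η' ≤ η / (2 * C + 1) := min_le_right _ _
    rwa [le_div_iff₀ (by positivity)] at this
  rw [← hC2]
  nlinarith

theorem var_one2 (s : Wts K) (hs : s.Dom ρ) (hn : NonDual ρ) (τ : ℝ) {η : ℝ} (hη : 0 < η) :
    ∀ᶠ ε : ℝ in 𝓝[>] 0, 2 * size i (shift τ B) ε ^ 2 ≤ (N' : ℝ) ^ 2 * s.mean + η := by
  have hδ : 0 < s.mean := hs.pos hρ
  filter_upwards [wt_one2 hρ s hs (T := cut X i θ N') (N := N') (fun x => abs_cut X i θ N' x)
    (z := fun τ => size i (shift τ B)) (var_hz hi hB) hn τ hη] with ε h1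
  rw [mul_pow, Real.sq_sqrt hδ.le] at h1
  exact h1

theorem var_sizes (s : Wts K) (hs : s.Dom ρ) (τ : ℝ) {η : ℝ} (hη : 0 < η) :
    ∀ᶠ ε : ℝ in 𝓝[>] 0, size i (shift τ B) ε ^ 2 ≤ (N' : ℝ) ^ 2 * min 1 s.mean + η ∧
      (NonDual ρ → 2 * size i (shift τ B) ε ^ 2 ≤ (N' : ℝ) ^ 2 * min 1 s.mean + η) := by
  have key : ∀ s : Wts K, s.Dom ρ → ∀ᶠ ε : ℝ in 𝓝[>] 0,
      size i (shift τ B) ε ^ 2 ≤ (N' : ℝ) ^ 2 * s.mean + η ∧
      (NonDual ρ → 2 * size i (shift τ B) ε ^ 2 ≤ (N' : ℝ) ^ 2 * s.mean + η) := by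
    intro s hs
    by_cases hn : NonDual ρ
    · filter_upwards [var_one hi hρ hB s hs τ hη, var_one2 hi hρ hB s hs hn τ hη] with ε h1 h2
      exact ⟨h1, fun _ => h2⟩
    · filter_upwards [var_one hi hρ hB s hs τ hη] with ε h1
      exact ⟨h1, fun h => absurd h hn⟩
  rcases le_total s.mean 1 with h | h
  · rw [min_eq_right h]
    exact key s hs
  · rw [min_eq_left h]
    have h2 := key (Wts.single K K 1) (one_dom ρ)
    rwa [Wts.single_mean] at h2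

theorem var_orders' (s : Wts K) (hs : s.Dom ρ) {m : ℝ → ℤ}
    (hm : ∀ τ, HasOrder i (shift τ B) (m τ)) :
    ∃ S : Finset ℝ, (∀ τ, τ ∈ S ↔ m τ ≠ 0) ∧
      ∑ τ ∈ S, (m τ : ℝ) ^ 2 ≤ (N' : ℝ) ^ 2 * min 1 s.mean ∧
      (NonDual ρ → 2 * ∑ τ ∈ S, (m τ : ℝ) ^ 2 ≤ (N' : ℝ) ^ 2 * min 1 s.mean) ∧
      ∀ x : ℝ, ‖∑ τ ∈ S, (m τ : ℂ) * exp (τ * x * I)‖ ≤ N' * Real.sqrt (min 1 s.mean) := by
  have key : ∀ s : Wts K, s.Dom ρ → ∃ S : Finset ℝ, (∀ τ, τ ∈ S ↔ m τ ≠ 0) ∧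
      ∑ τ ∈ S, (m τ : ℝ) ^ 2 ≤ (N' : ℝ) ^ 2 * s.mean ∧
      (NonDual ρ → 2 * ∑ τ ∈ S, (m τ : ℝ) ^ 2 ≤ (N' : ℝ) ^ 2 * s.mean) ∧
      ∀ x : ℝ, ‖∑ τ ∈ S, (m τ : ℂ) * exp (τ * x * I)‖ ≤ N' * Real.sqrt s.mean := by
    intro s hs
    obtain ⟨S, h1, h2, h3, -, h5⟩ := wt_orders hρ s hs (T := cut X i θ N') (N := N')
      (fun x => abs_cut X i θ N' x) (z := fun τ => size i (shift τ B)) (var_hz hi hB) (w := m)
      (fun τ => tendsto_size (hm τ))
    exact ⟨S, h1, h2, fun hn => (h5 hn).1, h3⟩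
  rcases le_total s.mean 1 with h | h
  · rw [min_eq_right h]
    exact key s hs
  · rw [min_eq_left h]
    have h2 := key (Wts.single K K 1) (one_dom ρ)
    rwa [Wts.single_mean] at h2

end var

end

end Pool.Agent.Helper29X1.WG.SF
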